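import Pool.Agent.Lib.MP_51bb46_lc.T.Defs

section

/-!
Basic facts on detours, revealed sets and codes.

PROOFS.  `dc_spec`: if there is a detour with pattern `P` the chosen one has the properties; otherwise
`dc = 0`.  `Us_cl`: the empty set is closed, and `cl (cl U) = cl U`.  `Us_mono`: `ext`.
`card_Us`: let `A c` be the union of all `plc G Q k.1 ∪ bsT G (dc ...)` over the steps of `c`;
`Us c ⊆ cl (A c)` by induction: `Us (k :: c) = cl (Us c ∪ plc ∪ bsT) ⊆ cl (cl (A c) ∪ plc ∪ bsT)
⊆ cl (cl (A (k :: c))) = cl (A (k :: c))` (mono, ext, idem), and `|A c| ≤ (2 + C₁) totL c`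
(`FrC.card_plc`, `dc_spec`).
`Dc_eq_zero`: `De.Dc (c2 ++ c1) + De.Dc c1` is the sum of the detours of the steps in `c2`; the detour of a
step `k` in `c2 = c3 ++ k :: c4` is zero on `incT G Q (De.Us (c4 ++ c1))`, which contains
`incT G Q (De.Us c1)` (`FrC.incT_mono`, `Us_mono`).  Induction on `c2`.
-/

set_option linter.unusedSectionVars false

namespace FrT

open Finset Fr56 FrC FrG
open scoped Classical

section
variable {V E : Type} [Fintype V] [Fintype E] [DecidableEq V] [DecidableEq E]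
  {G : Gph V E} {Q K C₁ m : ℕ}

theorem dc_spec (U : Finset V) (L P : Finset (TE V E Q)) :
    (G.tall Q).bd (dc G C₁ U L P) = 0 ∧ (∀ e ∈ incT G Q U, dc G C₁ U L P e = 0) ∧
      (bsT G (dc G C₁ U L P)).card ≤ C₁ * L.card := by
  unfold dc
  split_ifs with h
  · exact ⟨h.choose_spec.1, h.choose_spec.2.1, h.choose_spec.2.2.2⟩
  · refine ⟨Gph.bd_zero _, fun e _ => rfl, ?_⟩
    have h0 : bsT G (0 : TE V E Q → ZMod 2) = ∅ := by
      unfold bsT plc
      rw [Finset.filter_false_of_mem (fun e _ => by simp), Finset.biUnion_empty]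
    rw [h0]
    simp

theorem dc_pattern (U : Finset V) (L P : Finset (TE V E Q)) (h : ∃ c, DcOk G C₁ U L P c) :
    ∀ e ∈ L, (e ∈ P ↔ dc G C₁ U L P e ≠ 0) := by
  unfold dc
  rw [dif_pos h]
  exact h.choose_spec.2.2.1

variable (De : Detour G Q K C₁ m)

theorem Us_cl (c : List (LP V E Q)) : De.cl (De.Us c) = De.Us c := by
  cases c with
  | nil => exact De.empty
  | cons k c => exact De.idem _

theorem Us_cons_sub (k : LP V E Q) (c : List (LP V E Q)) : De.Us c ⊆ De.Us (k :: c) := by
  intro v hv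
  exact De.ext _ (Finset.mem_union_left _ (Finset.mem_union_left _ hv))

theorem plc_sub_Us (k : LP V E Q) (c : List (LP V E Q)) : plc G Q k.1 ⊆ De.Us (k :: c) := by
  intro v hv
  exact De.ext _ (Finset.mem_union_left _ (Finset.mem_union_right _ hv))

theorem bsT_sub_Us (k : LP V E Q) (c : List (LP V E Q)) :
    bsT G (dc G C₁ (De.Us c) k.1 k.2) ⊆ De.Us (k :: c) := by
  intro v hv
  exact De.ext _ (Finset.mem_union_right _ hv)

theorem Us_mono {c c' : List (LP V E Q)} (h : c <:+ c') : De.Us c ⊆ De.Us c' := by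
  obtain ⟨t, rfl⟩ := h
  induction t with
  | nil => exact Finset.Subset.refl _
  | cons k t ih => exact ih.trans (Us_cons_sub De k (t ++ c))

private theorem exists_Us (c : List (LP V E Q)) :
    ∃ A : Finset V, De.Us c ⊆ De.cl A ∧ A.card ≤ (2 + C₁) * totL c := by
  induction c with
  | nil => exact ⟨∅, Finset.empty_subset _, by simp⟩
  | cons k c ih =>
    obtain ⟨A, hA, hc⟩ := ih
    refine ⟨A ∪ plc G Q k.1 ∪ bsT G (dc G C₁ (De.Us c) k.1 k.2), ?_, ?_⟩
    · have h1 : De.Us c ∪ plc G Q k.1 ∪ bsT G (dc G C₁ (De.Us c) k.1 k.2) ⊆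
          De.cl (A ∪ plc G Q k.1 ∪ bsT G (dc G C₁ (De.Us c) k.1 k.2)) := by
        refine Finset.union_subset (Finset.union_subset (hA.trans ?_) ?_) ?_
        · exact De.mono _ _ (Finset.subset_union_left.trans Finset.subset_union_left)
        · exact (Finset.subset_union_right.trans Finset.subset_union_left).trans (De.ext _)
        · exact Finset.subset_union_right.trans (De.ext _)
      have h2 := De.mono _ _ h1
      rw [De.idem] at h2
      exact h2
    · have h3 := card_plc G k.1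
      have h4 := (dc_spec (G := G) (C₁ := C₁) (De.Us c) k.1 k.2).2.2
      have h5 := Finset.card_union_le (A ∪ plc G Q k.1) (bsT G (dc G C₁ (De.Us c) k.1 k.2))
      have h6 := Finset.card_union_le A (plc G Q k.1)
      have h7 : totL (k :: c) = totL c + k.1.card := rfl
      rw [h7, Nat.mul_add, Nat.add_mul 2 C₁ k.1.card]
      omega

theorem card_Us (c : List (LP V E Q)) (h : (2 + C₁) * totL c ≤ m) :
    (De.Us c).card ≤ K * ((2 + C₁) * totL c) := by
  obtain ⟨A, hA, hc⟩ := exists_Us De c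
  calc (De.Us c).card ≤ (De.cl A).card := Finset.card_le_card hA
    _ ≤ K * A.card := De.card A (hc.trans h)
    _ ≤ K * ((2 + C₁) * totL c) := Nat.mul_le_mul_left _ hc

theorem bd_Dc (c : List (LP V E Q)) : (G.tall Q).bd (De.Dc c) = 0 := by
  induction c with
  | nil => exact Gph.bd_zero _
  | cons k c ih =>
    have h1 : De.Dc (k :: c) = De.Dc c + dc G C₁ (De.Us c) k.1 k.2 := rfl
    rw [h1, Gph.bd_add, ih, (dc_spec (De.Us c) k.1 k.2).1, add_zero]

theorem Dc_eq_zero (c2 c1 : List (LP V E Q)) :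
    ∀ e ∈ incT G Q (De.Us c1), (De.Dc (c2 ++ c1) + De.Dc c1) e = 0 := by
  induction c2 with
  | nil =>
    intro e _
    rw [List.nil_append, add_self2]
    rfl
  | cons k c2 ih =>
    intro e he
    have h1 : De.Dc (k :: c2 ++ c1) =
        De.Dc (c2 ++ c1) + dc G C₁ (De.Us (c2 ++ c1)) k.1 k.2 := rfl
    have h2 : dc G C₁ (De.Us (c2 ++ c1)) k.1 k.2 e = 0 :=
      (dc_spec (De.Us (c2 ++ c1)) k.1 k.2).2.1 e
        (incT_mono G (Us_mono De (List.suffix_append c2 c1)) he)
    have h3 := ih e he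
    rw [Pi.add_apply] at h3
    rw [h1, Pi.add_apply, Pi.add_apply, h2, add_zero]
    exact h3

theorem totL_append (c2 c1 : List (LP V E Q)) : totL (c2 ++ c1) = totL c2 + totL c1 := by
  induction c2 with
  | nil =>
    have h0 : totL ([] : List (LP V E Q)) = 0 := rfl
    rw [List.nil_append, h0, Nat.zero_add]
  | cons k c2 ih =>
    have h1 : totL (k :: c2 ++ c1) = totL (c2 ++ c1) + k.1.card := rfl
    have h2 : totL (k :: c2) = totL c2 + k.1.card := rfl
    rw [h1, h2, ih]
    omega

/-- a run only depends on the values near the revealed vertices -/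
theorem Run_congr {Fr : Frame G} {v0 : V} {D : ℕ} {α : Xt (TE V E Q) D → ZMod 2}
    {a : TV V Q → A D} {𝒞 : Set (Cert V E Q D)} {y y' : E → ZMod 2} {c : List (LP V E Q)}
    (h : Run Fr v0 α a De 𝒞 y c) (hy : G.Agree (De.Us c) y y') : Run Fr v0 α a De 𝒞 y' c := by
  induction c with
  | nil => trivial
  | cons k c ih =>
    obtain ⟨hr, C, hst, hPL, z, t, hz, hb, hf, hm, hpat⟩ := h
    have hy' : G.Agree (De.Us c) y y' := hy.mono (Us_cons_sub De k c)
    refine ⟨ih hr hy', C, Step_congr Fr v0 α a hst hy', hPL, z, t, fun e he => ?_, hb, hf, hm,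
      fun e he => ?_⟩
    · rw [hz e he]
      exact iota_agree G hy' e he
    · have h1 : iota y e = iota y' e :=
        iota_agree G hy e (incT_mono G (plc_sub_Us De k c) (mem_incT_plc G he))
      rw [← h1]
      exact hpat e he

end

end FrT
end

section

section

/-!
Short paths in an expanding part of a graph.

PROOF of `core_path`.  Call an edge good if it is not in `Bs` and both its endpoints are in `C`.  For
`u ∈ C` and `i : ℕ` let `B u i` be the set of all `w ∈ C` for which there is a chain `γ` with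
`bd γ = pt u + pt w`, with at most `i` edges in its support, all of them good.  So `u ∈ B u 0` (zero chain),
`B u i ⊆ B u (i + 1)`, and if `w ∈ B u i` and there is a good edge `e` with endpoints `w`, `w'` then
`w' ∈ B u (i + 1)` (add `Pi.single e 1`; `bd (Pi.single e 1) = pt (src e) + pt (tgt e)`; for a loop
`w = w'`).
Let `q = H' Δ`.  Growth: let `A = B u i`, `2 |A| ≤ |C|`.  Then `|A| ≤ H' |btw G Bs A (C \ A)|`, and each
edge in `btw G Bs A (C \ A)` is good and has an endpoint in `C \ A`, which lies in `B u (i + 1)`, so these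
edges lie in the stars of the vertices in `B u (i + 1) \ B u i`; thus
`|A| ≤ q |B u (i + 1) \ B u i|`.
Doubling: if `2 |B u (i + q)| ≤ |C|` then `|B u (i + q)| ≥ 2 |B u i|`: each of the `q` steps adds
at least `|B u i| / q` elements: `q |B u (j + 1)| ≥ q |B u j| + |B u i|` for `i ≤ j < i + q`, so
`q |B u (i + q)| ≥ q |B u i| + q |B u i|` (if `q = 0` then growth gives `|A| ≤ 0`, impossible as
`u ∈ A`; so `2 |B u i| > |C|` for all `i` in this case).
Hence, if `2 |B u (q j)| ≤ |C|` then `|B u (q j)| ≥ 2^j` (induction on `j`).  For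
`j = Nat.log 2 n + 1`, `n = |V|`, we have `2^j > n ≥ |C|`, so `2 |B u L| > |C|` with `L = q j = Ld H' Δ n`.
The same for `v`.  So `B u L` and `B v L` (both subsets of `C` with more than `|C| / 2` elements) have
a common element `w`, and the sum of the two chains is a chain with boundary
`pt u + pt w + (pt v + pt w) = pt u + pt v` whose support has at most `2 L` edges, all good.

PROOF of `core_paths`.  Induction on the cardinality of `O` (which is even): if `O` is nonempty it
has two distinct elements `u, v`; take the chain for `O \ {u, v}` and add the chain of `core_path`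
for `u, v`.
-/

set_option linter.unusedSectionVars false

namespace FrT

open Finset Fr56 FrC FrG
open scoped Classical

private theorem mem_btw_aux {V E : Type} [Fintype E] (G : Gph V E) (Bs : Finset E)
    (A B : Finset V) (e : E) : e ∈ btw G Bs A B ↔
      e ∉ Bs ∧ ((G.src e ∈ A ∧ G.tgt e ∈ B) ∨ (G.src e ∈ B ∧ G.tgt e ∈ A)) := by
  unfold btw
  simp

section
variable {V E : Type} [Fintype V] [Fintype E] [DecidableEq V] [DecidableEq E]

/-- the chain `γ` joins `u` and `w` by at most `i` good edges -/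
private def Jn (G : Gph V E) (Bs : Finset E) (C : Finset V) (u : V) (i : ℕ) (w : V)
    (γ : E → ZMod 2) : Prop :=
  G.bd γ = pt u + pt w ∧ (∀ e, γ e ≠ 0 → e ∉ Bs ∧ G.src e ∈ C ∧ G.tgt e ∈ C) ∧
    (univ.filter fun e => γ e ≠ 0).card ≤ i

/-- the ball -/
private noncomputable def Bl (G : Gph V E) (Bs : Finset E) (C : Finset V) (u : V) (i : ℕ) :
    Finset V :=
  C.filter fun w => ∃ γ, Jn G Bs C u i w γ

private theorem supp_add_le (γ γ' : E → ZMod 2) {i j : ℕ}
    (h : (univ.filter fun e => γ e ≠ 0).card ≤ i) (h' : (univ.filter fun e => γ' e ≠ 0).card ≤ j) :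
    (univ.filter fun e => (γ + γ') e ≠ 0).card ≤ i + j := by
  have h1 : (univ.filter fun e => (γ + γ') e ≠ 0) ⊆
      (univ.filter fun e => γ e ≠ 0) ∪ (univ.filter fun e => γ' e ≠ 0) := by
    intro e he
    rw [mem_filter] at he
    rw [mem_union, mem_filter, mem_filter]
    by_contra hcon
    push Not at hcon
    refine he.2 ?_
    rw [Pi.add_apply, hcon.1 (mem_univ e), hcon.2 (mem_univ e), add_zero]
  exact (card_le_card h1).trans ((card_union_le _ _).trans (Nat.add_le_add h h'))

private theorem good_add {G : Gph V E} {Bs : Finset E} {C : Finset V} {γ γ' : E → ZMod 2}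
    (h : ∀ e, γ e ≠ 0 → e ∉ Bs ∧ G.src e ∈ C ∧ G.tgt e ∈ C)
    (h' : ∀ e, γ' e ≠ 0 → e ∉ Bs ∧ G.src e ∈ C ∧ G.tgt e ∈ C) :
    ∀ e, (γ + γ') e ≠ 0 → e ∉ Bs ∧ G.src e ∈ C ∧ G.tgt e ∈ C := by
  intro e he
  by_cases h1 : γ e ≠ 0
  · exact h e h1
  · refine h' e fun h2 => he ?_
    push Not at h1
    rw [Pi.add_apply, h1, h2, add_zero]

private theorem Jn_step {G : Gph V E} {Bs : Finset E} {C : Finset V} {u w w' : V} {i : ℕ}
    {γ : E → ZMod 2} (h : Jn G Bs C u i w γ) {e : E} (he : e ∉ Bs) (hs : G.src e ∈ C)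
    (ht : G.tgt e ∈ C) (hw : (G.src e = w ∧ G.tgt e = w') ∨ (G.src e = w' ∧ G.tgt e = w)) :
    Jn G Bs C u (i + 1) w' (γ + Pi.single e 1) := by
  refine ⟨?_, good_add h.2.1 ?_, supp_add_le _ _ h.2.2 ?_⟩
  · rw [Gph.bd_add, Gph.bd_single, h.1]
    have h2 : pt w + pt w = (0 : V → ZMod 2) := add_self2 _
    rcases hw with ⟨h3, h4⟩ | ⟨h3, h4⟩
    · rw [h3, h4]
      calc pt u + pt w + (pt w + pt w') = pt u + pt w' + (pt w + pt w) := by abel
        _ = _ := by rw [h2, add_zero]
    · rw [h3, h4]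
      calc pt u + pt w + (pt w' + pt w) = pt u + pt w' + (pt w + pt w) := by abel
        _ = _ := by rw [h2, add_zero]
  · intro e' he'
    have h3 : e' = e := by
      by_contra hne
      exact he' (Pi.single_eq_of_ne hne 1)
    rw [h3]
    exact ⟨he, hs, ht⟩
  · have h3 : (univ.filter fun e' => (Pi.single e 1 : E → ZMod 2) e' ≠ 0) ⊆ {e} := by
      intro e' he'
      rw [mem_filter] at he'
      rw [mem_singleton]
      by_contra hne
      exact he'.2 (Pi.single_eq_of_ne hne 1)
    exact (card_le_card h3).trans (by simp)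

private theorem Bl_mono (G : Gph V E) (Bs : Finset E) (C : Finset V) (u : V) (i : ℕ) :
    Bl G Bs C u i ⊆ Bl G Bs C u (i + 1) := by
  intro w hw
  rw [Bl, mem_filter] at hw ⊢
  obtain ⟨h1, γ, h2, h3, h4⟩ := hw
  exact ⟨h1, γ, h2, h3, h4.trans (Nat.le_succ i)⟩

private theorem self_mem_Bl (G : Gph V E) (Bs : Finset E) (C : Finset V) {u : V} (hu : u ∈ C) :
    ∀ i, u ∈ Bl G Bs C u i
  | 0 => by
    rw [Bl, mem_filter]
    refine ⟨hu, 0, ?_, fun e he => absurd rfl he, ?_⟩
    · rw [Gph.bd_zero, add_self2]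
    · simp
  | i + 1 => Bl_mono G Bs C u i (self_mem_Bl G Bs C hu i)

private theorem Bl_growth (G : Gph V E) {Δ H' : ℕ} (hdeg : G.Deg Δ) (Bs : Finset E)
    (C : Finset V)
    (hexp : ∀ A ⊆ C, 2 * A.card ≤ C.card → A.card ≤ H' * (btw G Bs A (C \ A)).card)
    (u : V) (i : ℕ) (h : 2 * (Bl G Bs C u i).card ≤ C.card) :
    (Bl G Bs C u i).card + H' * Δ * (Bl G Bs C u i).card ≤
      H' * Δ * (Bl G Bs C u (i + 1)).card := by
  have h1 := hexp (Bl G Bs C u i) (filter_subset _ _) h
  have h2 : btw G Bs (Bl G Bs C u i) (C \ Bl G Bs C u i) ⊆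
      (Bl G Bs C u (i + 1) \ Bl G Bs C u i).biUnion G.star := by
    intro e he
    obtain ⟨heB, he⟩ := (mem_btw_aux G Bs _ _ e).1 he
    rw [mem_biUnion]
    rcases he with ⟨ha, hb⟩ | ⟨hb, ha⟩
    · rw [mem_sdiff] at hb
      refine ⟨G.tgt e, ?_, ?_⟩
      · rw [mem_sdiff]
        refine ⟨?_, hb.2⟩
        have ha' := ha
        rw [Bl, mem_filter] at ha'
        obtain ⟨hC, γ, hγ⟩ := ha'
        rw [Bl, mem_filter]
        exact ⟨hb.1, _, Jn_step hγ heB hC hb.1 (Or.inl ⟨rfl, rfl⟩)⟩
      · rw [Gph.star, mem_filter]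
        exact ⟨mem_univ _, Or.inr rfl⟩
    · rw [mem_sdiff] at hb
      refine ⟨G.src e, ?_, ?_⟩
      · rw [mem_sdiff]
        refine ⟨?_, hb.2⟩
        have ha' := ha
        rw [Bl, mem_filter] at ha'
        obtain ⟨hC, γ, hγ⟩ := ha'
        rw [Bl, mem_filter]
        exact ⟨hb.1, _, Jn_step hγ heB hb.1 hC (Or.inr ⟨rfl, rfl⟩)⟩
      · rw [Gph.star, mem_filter]
        exact ⟨mem_univ _, Or.inl rfl⟩
  have h3 : (btw G Bs (Bl G Bs C u i) (C \ Bl G Bs C u i)).card ≤
      (Bl G Bs C u (i + 1) \ Bl G Bs C u i).card * Δ :=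
    (card_le_card h2).trans (card_biUnion_le_card_mul _ _ _ fun v _ => hdeg v)
  have h4 : (Bl G Bs C u (i + 1) \ Bl G Bs C u i).card + (Bl G Bs C u i).card =
      (Bl G Bs C u (i + 1)).card := card_sdiff_add_card_eq_card (Bl_mono G Bs C u i)
  have h5 : H' * (btw G Bs (Bl G Bs C u i) (C \ Bl G Bs C u i)).card ≤
      H' * ((Bl G Bs C u (i + 1) \ Bl G Bs C u i).card * Δ) := Nat.mul_le_mul_left _ h3
  have h6 := h1.trans h5
  rw [← h4]
  calc (Bl G Bs C u i).card + H' * Δ * (Bl G Bs C u i).card ≤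
        H' * ((Bl G Bs C u (i + 1) \ Bl G Bs C u i).card * Δ) +
          H' * Δ * (Bl G Bs C u i).card := Nat.add_le_add_right h6 _
    _ = _ := by ring

private theorem Bl_le (G : Gph V E) (Bs : Finset E) (C : Finset V) (u : V) (i k : ℕ) :
    (Bl G Bs C u i).card ≤ (Bl G Bs C u (i + k)).card := by
  induction k with
  | zero => exact le_rfl
  | succ k ih => exact ih.trans (card_le_card (Bl_mono G Bs C u (i + k)))

private theorem Bl_double (G : Gph V E) {Δ H' : ℕ} (hdeg : G.Deg Δ) (Bs : Finset E)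
    (C : Finset V)
    (hexp : ∀ A ⊆ C, 2 * A.card ≤ C.card → A.card ≤ H' * (btw G Bs A (C \ A)).card)
    {u : V} (hu : u ∈ C) (i : ℕ) (h : 2 * (Bl G Bs C u (i + H' * Δ)).card ≤ C.card) :
    2 * (Bl G Bs C u i).card ≤ (Bl G Bs C u (i + H' * Δ)).card := by
  have h1 : ∀ k, k ≤ H' * Δ → H' * Δ * (Bl G Bs C u i).card + k * (Bl G Bs C u i).card ≤
      H' * Δ * (Bl G Bs C u (i + k)).card := by
    intro k
    induction k with
    | zero => intro _; simp
    | succ k ih =>
      intro hk
      have h2 := ih (by omega)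
      have h3 : (Bl G Bs C u (i + k)).card ≤ (Bl G Bs C u (i + H' * Δ)).card := by
        have := Bl_le G Bs C u (i + k) (H' * Δ - k)
        rwa [show i + k + (H' * Δ - k) = i + H' * Δ by omega] at this
      have h4 := Bl_growth G hdeg Bs C hexp u (i + k) (by omega)
      have h5 := Bl_le G Bs C u i k
      rw [show i + (k + 1) = i + k + 1 by omega, Nat.add_one_mul]
      omega
  have h2 := h1 (H' * Δ) le_rfl
  have hpos : 0 < (Bl G Bs C u i).card := card_pos.2 ⟨u, self_mem_Bl G Bs C hu i⟩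
  rcases Nat.eq_zero_or_pos (H' * Δ) with h0 | h0
  · exfalso
    rw [h0, Nat.add_zero] at h
    have h3 := Bl_growth G hdeg Bs C hexp u i h
    rw [h0, Nat.zero_mul, Nat.zero_mul] at h3
    omega
  · have h3 : H' * Δ * (2 * (Bl G Bs C u i).card) ≤ H' * Δ * (Bl G Bs C u (i + H' * Δ)).card := by
      calc H' * Δ * (2 * (Bl G Bs C u i).card) =
          H' * Δ * (Bl G Bs C u i).card + H' * Δ * (Bl G Bs C u i).card := by ring
        _ ≤ _ := h2
    exact Nat.le_of_mul_le_mul_left h3 h0

private theorem Bl_pow (G : Gph V E) {Δ H' : ℕ} (hdeg : G.Deg Δ) (Bs : Finset E)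
    (C : Finset V)
    (hexp : ∀ A ⊆ C, 2 * A.card ≤ C.card → A.card ≤ H' * (btw G Bs A (C \ A)).card)
    {u : V} (hu : u ∈ C) (j : ℕ) (h : 2 * (Bl G Bs C u (H' * Δ * j)).card ≤ C.card) :
    2 ^ j ≤ (Bl G Bs C u (H' * Δ * j)).card := by
  induction j with
  | zero =>
    rw [pow_zero]
    exact card_pos.2 ⟨u, self_mem_Bl G Bs C hu _⟩
  | succ j ih =>
    have e : H' * Δ * (j + 1) = H' * Δ * j + H' * Δ := by ring
    rw [e] at h ⊢
    have h1 := Bl_double G hdeg Bs C hexp hu (H' * Δ * j) h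
    have h2 := Bl_le G Bs C u (H' * Δ * j) (H' * Δ)
    have h3 := ih (by omega)
    rw [pow_succ]
    omega

private theorem Bl_large (G : Gph V E) {Δ H' : ℕ} (hdeg : G.Deg Δ) (Bs : Finset E)
    (C : Finset V)
    (hexp : ∀ A ⊆ C, 2 * A.card ≤ C.card → A.card ≤ H' * (btw G Bs A (C \ A)).card)
    {u : V} (hu : u ∈ C) : C.card < 2 * (Bl G Bs C u (Ld H' Δ (Fintype.card V))).card := by
  by_contra hcon
  push Not at hcon
  have h1 := Bl_pow G hdeg Bs C hexp hu (Nat.log 2 (Fintype.card V) + 1) hcon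
  have h2 : Fintype.card V < 2 ^ (Nat.log 2 (Fintype.card V) + 1) :=
    Nat.lt_pow_succ_log_self one_lt_two _
  have h3 : (Bl G Bs C u (H' * Δ * (Nat.log 2 (Fintype.card V) + 1))).card ≤ Fintype.card V :=
    card_le_univ _
  omega

/-- **short paths** -/
theorem core_path (G : Gph V E) {Δ H' : ℕ} (hdeg : G.Deg Δ) (Bs : Finset E) (C : Finset V)
    (hexp : ∀ A ⊆ C, 2 * A.card ≤ C.card → A.card ≤ H' * (btw G Bs A (C \ A)).card)
    {u v : V} (hu : u ∈ C) (hv : v ∈ C) :
    ∃ γ : E → ZMod 2, G.bd γ = pt u + pt v ∧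
      (∀ e, γ e ≠ 0 → e ∉ Bs ∧ G.src e ∈ C ∧ G.tgt e ∈ C) ∧
      (univ.filter fun e => γ e ≠ 0).card ≤ 2 * Ld H' Δ (Fintype.card V) := by
  have h1 := Bl_large G hdeg Bs C hexp hu
  have h2 := Bl_large G hdeg Bs C hexp hv
  have h3 : ¬ Disjoint (Bl G Bs C u (Ld H' Δ (Fintype.card V)))
      (Bl G Bs C v (Ld H' Δ (Fintype.card V))) := by
    intro hd
    have h4 := card_union_of_disjoint hd
    have h5 : (Bl G Bs C u (Ld H' Δ (Fintype.card V)) ∪
        Bl G Bs C v (Ld H' Δ (Fintype.card V))).card ≤ C.card :=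
      card_le_card (union_subset (filter_subset _ _) (filter_subset _ _))
    omega
  rw [not_disjoint_iff] at h3
  obtain ⟨w, hw1, hw2⟩ := h3
  rw [Bl, mem_filter] at hw1 hw2
  obtain ⟨-, γ, g1, g2, g3⟩ := hw1
  obtain ⟨-, γ', g1', g2', g3'⟩ := hw2
  refine ⟨γ + γ', ?_, good_add g2 g2', ?_⟩
  · rw [Gph.bd_add, g1, g1']
    have h4 : pt w + pt w = (0 : V → ZMod 2) := add_self2 _
    calc pt u + pt w + (pt v + pt w) = pt u + pt v + (pt w + pt w) := by abel
      _ = _ := by rw [h4, add_zero]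
  · have h5 := supp_add_le γ γ' g3 g3'
    rw [← two_mul] at h5
    exact h5

/-- joining an even number of vertices by short paths -/
theorem core_paths (G : Gph V E) {Δ H' : ℕ} (hdeg : G.Deg Δ) (Bs : Finset E) (C : Finset V)
    (hexp : ∀ A ⊆ C, 2 * A.card ≤ C.card → A.card ≤ H' * (btw G Bs A (C \ A)).card)
    (O : Finset V) (hO : O ⊆ C) (heven : Even O.card) :
    ∃ g : E → ZMod 2, G.bd g = ∑ v ∈ O, pt v ∧
      (∀ e, g e ≠ 0 → e ∉ Bs ∧ G.src e ∈ C ∧ G.tgt e ∈ C) ∧
      (univ.filter fun e => g e ≠ 0).card ≤ O.card * Ld H' Δ (Fintype.card V) := by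
  obtain ⟨k, hk⟩ := heven
  rw [← two_mul] at hk
  induction k generalizing O with
  | zero =>
    have h0 : O = ∅ := card_eq_zero.1 (by omega)
    refine ⟨0, ?_, fun e he => absurd rfl he, ?_⟩
    · rw [h0, Gph.bd_zero, sum_empty]
    · simp
  | succ k ih =>
    obtain ⟨u, hu⟩ : O.Nonempty := card_pos.1 (by omega)
    have hc1 := card_erase_of_mem hu
    obtain ⟨v, hv⟩ : (O.erase u).Nonempty := card_pos.1 (by omega)
    have hc2 := card_erase_of_mem hv
    have hsub : (O.erase u).erase v ⊆ O := (erase_subset _ _).trans (erase_subset _ _)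
    obtain ⟨g, h1, h2, h3⟩ := ih ((O.erase u).erase v) (hsub.trans hO) (by omega)
    obtain ⟨γ, h1', h2', h3'⟩ := core_path G hdeg Bs C hexp (hO hu) (hO (mem_of_mem_erase hv))
    refine ⟨g + γ, ?_, good_add h2 h2', ?_⟩
    · rw [Gph.bd_add, h1, h1', ← add_sum_erase O _ hu, ← add_sum_erase (O.erase u) _ hv]
      abel
    · refine (supp_add_le g γ h3 h3').trans ?_
      have hc3 : ((O.erase u).erase v).card + 2 = O.card := by omega
      rw [← Nat.add_mul, hc3]

end

end FrT
end

section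

/-!
Paths and detours outside a closed set.

PROOF of `clo_path`.  Let `C = univ \ W` (closed set `W ≠ univ`).  `core_path` with `Bs = ∅`,
`H' = H`: for `A ⊆ C` with `2 |A| ≤ |C|` we have `2 |A| ≤ n` and `A` is disjoint from `W`, so
`|A| ≤ H |btw G ∅ A (univ \ (W ∪ A))|`, and `univ \ (W ∪ A) = C \ A`.  The edges of the path have both
endpoints outside `W`, i.e. are not in `G.inc W`.

PROOF of `base_det`.  Let `n = |V|`, `b = |Bs|`.  Write `e'(A)` for `|btw G Bs A (univ \ (W ∪ A))|` (edges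
outside `Bs`) and `e(A)` for `|btw G ∅ A (univ \ (W ∪ A))|`; so `e(A) ≤ e'(A) + b`.
Case `W = univ`: all edges are in `G.inc W`, so `f = 0`; take `f' = 0`.
Case `b = 0`: take `f' = 0`.
Case `n < 16 H b`: take `f' = f`; `|bsV f| ≤ n ≤ 16 H b ≤ Kd b`.
Main case `W ≠ univ`, `16 H b ≤ n`.  Let `A*` be a set of maximal cardinality among the sets `A` disjoint
from `W` with `|A| ≤ 2 H b` and (`A = ∅` or `2 H e'(A) < |A|`) (the family contains `∅`).  In both cases
`2 H e'(A*) ≤ |A*|`, where for `A* = ∅` both sides are `0`.  Let `C = univ \ (W ∪ A*)`.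
CLAIM: for `A ⊆ C` with `2 |A| ≤ |C|` we have `|A| ≤ 2 H |btw G Bs A (C \ A)|`.  Suppose not:
`2 H |btw G Bs A (C \ A)| < |A|`, in particular `A ≠ ∅`.  Let `A1 = A ∪ A*` (disjoint union).  The
edges outside `Bs` between `A1` and `rest = univ \ (W ∪ A1) = C \ A` come from `A` or from `A*`:
`e'(A1) ≤ |btw G Bs A (C \ A)| + e'(A*)`.  So `2 H e'(A1) < |A| + |A*| = |A1|`.
  If `2 |A1| ≤ n`: `|A1| ≤ H e(A1) ≤ H e'(A1) + H b`, so `2 |A1| ≤ 2 H e'(A1) + 2 H b < |A1| + 2 H b`,
  so `|A1| < 2 H b`, and `A1` belongs to the family and is larger than `A*`, a contradiction.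
  If `2 |A1| > n`: then `2 |rest| ≤ n`, `rest` is disjoint from `W`, and the edges between `rest` and
  `univ \ (W ∪ rest) = A1` are the edges between `A1` and `rest`, so
  `|rest| ≤ H e(A1) ≤ H e'(A1) + H b`, `2 |rest| < |A1| + 2 H b`.  But `|rest| = |C| - |A|`,
  `2 |A| ≤ |C|`, so `2 |rest| ≥ |C|` and `|A1| = |A| + |A*| ≤ |C| / 2 + 2 H b`; thus
  `|C| < |C| / 2 + 4 H b`, `|C| < 8 H b`.  On the other hand `|C| ≥ n - |W| - |A*| ≥ (7/8) n - 2 H b`
  and `n ≥ 16 H b`, so `|C| ≥ 14 H b - 2 H b = 12 H b`, a contradiction (all inequalities are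
  linear: multiply by `8` and use `omega`).
Let `f1 e = f e` if `e ∈ Bs` or `e` has an endpoint in `A*`, and `f1 e = 0` otherwise.  Let `O` be the
set of the vertices `v` with `bd f1 v ≠ 0`.  `O ⊆ C`: for `v ∈ A*` all edges at `v` are kept, so
`bd f1 v = bd f v = 0`; for `v ∈ W` all edges at `v` are in `G.inc W`, where `f = 0`.  `|O|` is
even: `∑_v bd f1 v = 0` in `ZMod 2` (each edge is counted twice), and it is the class of `|O|`.
`|O| ≤ 2 b + Δ |A*|`: a vertex in `O` (a vertex of `C`) is an endpoint of an edge `e` with `f1 e ≠ 0`, and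
`e ∈ Bs` (at most `2 b` endpoints) or `e` is an edge with an endpoint in `A*` (at most `Δ |A*|` edges, each
has at most one endpoint in `C`).  So `|O| ≤ (2 + 2 H Δ) b`.
By `core_paths` (with `H' = 2 H`) there is a chain `g` with `bd g = ∑_(v ∈ O) pt v = bd f1`, all edges
outside `Bs` with both endpoints in `C`, and at most `|O| Ld (2 H) Δ n` edges.
Let `f' = f1 + g`.  Then `bd f' = 0`; on `G.inc W` both `f1` and `g` vanish; on `Bs` `g` vanishes and
`f1 = f`.  The support of `f'` has at most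
`b + Δ |A*| + |O| Ld ≤ b (1 + 2 H Δ + (2 + 2 H Δ) Ld)` edges, and `|bsV f'|` is at most twice that:
`2 + 4 H Δ + 4 (1 + H Δ) Ld ≤ Kd H Δ n`.
-/

set_option linter.unusedSectionVars false

namespace FrT

open Finset Fr56 FrC FrG
open scoped Classical

section
variable {V E : Type} [Fintype V] [Fintype E] [DecidableEq V] [DecidableEq E]

private theorem mem_btw' {G : Gph V E} {Bs : Finset E} {A B : Finset V} {e : E} :
    e ∈ btw G Bs A B ↔
      e ∉ Bs ∧ ((G.src e ∈ A ∧ G.tgt e ∈ B) ∨ (G.src e ∈ B ∧ G.tgt e ∈ A)) := by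
  simp only [btw, Finset.mem_filter, Finset.mem_univ, true_and]

private theorem mem_bsV' {G : Gph V E} {f : E → ZMod 2} {v : V} :
    v ∈ bsV G f ↔ ∃ e, f e ≠ 0 ∧ (G.src e = v ∨ G.tgt e = v) := by
  simp only [bsV, Finset.mem_filter, Finset.mem_univ, true_and]

private theorem btw_le' (G : Gph V E) (Bs : Finset E) (A B : Finset V) :
    (btw G ∅ A B).card ≤ (btw G Bs A B).card + Bs.card := by
  refine le_trans (Finset.card_le_card (t := btw G Bs A B ∪ Bs) ?_) (Finset.card_union_le _ _)
  intro e he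
  rw [mem_btw'] at he
  rw [Finset.mem_union, mem_btw']
  by_cases h : e ∈ Bs
  · exact Or.inr h
  · exact Or.inl ⟨h, he.2⟩

private theorem btw_comm' (G : Gph V E) (Bs : Finset E) (A B : Finset V) :
    btw G Bs A B = btw G Bs B A := by
  ext e
  rw [mem_btw', mem_btw']
  exact ⟨fun h => ⟨h.1, h.2.symm⟩, fun h => ⟨h.1, h.2.symm⟩⟩

private theorem btw_empty' (G : Gph V E) (Bs : Finset E) (B : Finset V) :
    (btw G Bs ∅ B).card = 0 := by
  rw [Finset.card_eq_zero, Finset.eq_empty_iff_forall_notMem]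
  intro e he
  rw [mem_btw'] at he
  rcases he.2 with h | h
  · exact Finset.notMem_empty _ h.1
  · exact Finset.notMem_empty _ h.2

private theorem sum_bd' (G : Gph V E) (x : E → ZMod 2) : ∑ v, G.bd x v = 0 := by
  unfold Gph.bd
  rw [Finset.sum_comm]
  refine Finset.sum_eq_zero fun e _ => ?_
  rw [Finset.sum_add_distrib]
  simp only [Finset.sum_ite_eq, Finset.mem_univ, if_true]
  exact CharTwo.add_self_eq_zero _

private theorem zmod2_ne {x : ZMod 2} (h : x ≠ 0) : x = 1 := by
  revert h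
  revert x
  decide

/-- short paths outside a closed set -/
theorem clo_path {G : Gph V E} {Δ K H m : ℕ} (hdeg : G.Deg Δ) (Cl : Clo G K H m) {W : Finset V}
    (hW : Cl.cl W = W) {u v : V} (hu : u ∉ W) (hv : v ∉ W) :
    ∃ γ : E → ZMod 2, G.bd γ = pt u + pt v ∧ (∀ e ∈ G.inc W, γ e = 0) ∧
      (univ.filter fun e => γ e ≠ 0).card ≤ 2 * Ld H Δ (Fintype.card V) := by
  have hWne : W ≠ univ := fun h => hu (h ▸ Finset.mem_univ u)
  obtain ⟨γ, h1, h2, h3⟩ := core_path G (H' := H) hdeg ∅ (univ \ W) (by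
    intro A hA hc
    have hd : Disjoint A W := by
      rw [Finset.disjoint_left]
      intro x hx
      exact (Finset.mem_sdiff.1 (hA hx)).2
    have hcC : (univ \ W).card ≤ Fintype.card V := Finset.card_le_univ _
    have h := Cl.exp W hW hWne A hd (hc.trans hcC)
    have heq : univ \ (W ∪ A) = (univ \ W) \ A := by
      ext x
      rw [Finset.mem_sdiff, Finset.mem_union, Finset.mem_sdiff, Finset.mem_sdiff]
      tauto
    rw [heq] at h
    exact h) (u := u) (v := v) (Finset.mem_sdiff.2 ⟨Finset.mem_univ _, hu⟩)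
    (Finset.mem_sdiff.2 ⟨Finset.mem_univ _, hv⟩)
  refine ⟨γ, h1, ?_, h3⟩
  intro e he
  by_contra hne
  obtain ⟨-, h4, h5⟩ := h2 e hne
  rcases he with he | he
  · exact (Finset.mem_sdiff.1 h4).2 he
  · exact (Finset.mem_sdiff.1 h5).2 he

private theorem base_claim {G : Gph V E} {K H m : ℕ} (Cl : Clo G K H m) {W : Finset V}
    (hW : Cl.cl W = W) (hWne : W ≠ univ) (Bs : Finset E)
    (hn : 16 * (H * Bs.card) ≤ Fintype.card V) {As : Finset V} (hAW : Disjoint As W)
    (hAc : As.card ≤ 2 * (H * Bs.card))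
    (hAe : As = ∅ ∨ 2 * (H * (btw G Bs As (univ \ (W ∪ As))).card) < As.card)
    (hmax : ∀ A : Finset V, Disjoint A W → A.card ≤ 2 * (H * Bs.card) →
      (A = ∅ ∨ 2 * (H * (btw G Bs A (univ \ (W ∪ A))).card) < A.card) → A.card ≤ As.card) :
    ∀ A ⊆ univ \ (W ∪ As), 2 * A.card ≤ (univ \ (W ∪ As)).card →
      A.card ≤ 2 * H * (btw G Bs A ((univ \ (W ∪ As)) \ A)).card := by
  intro A hA hA2
  obtain ⟨C, hC⟩ : ∃ C : Finset V, C = univ \ (W ∪ As) := ⟨_, rfl⟩
  rw [← hC] at hA hA2 ⊢
  by_contra hcon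
  rw [not_le] at hcon
  have hmemC : ∀ x, x ∈ C ↔ (x ∉ W ∧ x ∉ As) := by
    intro x
    rw [hC, Finset.mem_sdiff, Finset.mem_union, not_or]
    exact ⟨fun h => h.2, fun h => ⟨Finset.mem_univ _, h⟩⟩
  have hApos : 0 < A.card := lt_of_le_of_lt (Nat.zero_le _) hcon
  have hdAs : Disjoint A As := by
    rw [Finset.disjoint_left]
    intro x hx
    exact ((hmemC x).1 (hA hx)).2
  have hdAW : Disjoint A W := by
    rw [Finset.disjoint_left]
    intro x hx
    exact ((hmemC x).1 (hA hx)).1
  obtain ⟨A1, hA1⟩ : ∃ A1 : Finset V, A1 = A ∪ As := ⟨_, rfl⟩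
  have hc1 : A1.card = A.card + As.card := by
    rw [hA1]
    exact Finset.card_union_of_disjoint hdAs
  have hd1 : Disjoint A1 W := by
    rw [hA1]
    exact Finset.disjoint_union_left.2 ⟨hdAW, hAW⟩
  obtain ⟨Rs, hRs⟩ : ∃ Rs : Finset V, Rs = C \ A := ⟨_, rfl⟩
  have hrest : univ \ (W ∪ A1) = Rs := by
    ext x
    rw [hRs, Finset.mem_sdiff, Finset.mem_sdiff, hmemC, hA1, Finset.mem_union, Finset.mem_union]
    have := Finset.mem_univ x
    tauto
  have hrest2 : univ \ (W ∪ Rs) = A1 := by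
    ext x
    rw [Finset.mem_sdiff, Finset.mem_union, hRs, Finset.mem_sdiff, hmemC, hA1, Finset.mem_union]
    have h1 := Finset.mem_univ x
    have h2 : x ∈ A → x ∉ W := fun h => Finset.disjoint_left.1 hdAW h
    have h3 : x ∈ As → x ∉ W := fun h => Finset.disjoint_left.1 hAW h
    tauto
  rw [← hRs] at hcon
  have hsub : btw G Bs A1 Rs ⊆ btw G Bs A Rs ∪ btw G Bs As (univ \ (W ∪ As)) := by
    rw [← hC]
    intro e he
    rw [mem_btw', hA1, Finset.mem_union, Finset.mem_union] at he
    rw [Finset.mem_union, mem_btw', mem_btw']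
    have h1 : ∀ x, x ∈ Rs → x ∈ C := fun x hx => by
      rw [hRs] at hx
      exact (Finset.mem_sdiff.1 hx).1
    have h2 := h1 (G.src e)
    have h3 := h1 (G.tgt e)
    tauto
  have hle1 : (btw G Bs A1 Rs).card ≤
      (btw G Bs A Rs).card + (btw G Bs As (univ \ (W ∪ As))).card :=
    (Finset.card_le_card hsub).trans (Finset.card_union_le _ _)
  have hAe' : 2 * (H * (btw G Bs As (univ \ (W ∪ As))).card) ≤ As.card := by
    rcases hAe with h | h
    · rw [h, btw_empty']
      simp
    · exact h.le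
  have hle2 : 2 * (H * (btw G Bs A1 Rs).card) < A1.card := by
    have h1 : H * (btw G Bs A1 Rs).card ≤
        H * (btw G Bs A Rs).card + H * (btw G Bs As (univ \ (W ∪ As))).card := by
      rw [← Nat.mul_add]
      exact Nat.mul_le_mul_left H hle1
    rw [Nat.mul_assoc] at hcon
    omega
  have hle3 : H * (btw G ∅ A1 Rs).card ≤ H * (btw G Bs A1 Rs).card + H * Bs.card := by
    rw [← Nat.mul_add]
    exact Nat.mul_le_mul_left H (btw_le' G Bs A1 Rs)
  rcases Nat.lt_or_ge (Fintype.card V) (2 * A1.card) with hbig | hsmall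
  · -- the rest is small
    have hdR : Disjoint Rs W := by
      rw [Finset.disjoint_left]
      intro x hx
      rw [hRs] at hx
      exact ((hmemC x).1 (Finset.mem_sdiff.1 hx).1).1
    have hRn : Rs.card + A1.card ≤ Fintype.card V := by
      have hd : Disjoint Rs A1 := by
        rw [Finset.disjoint_left]
        intro x hx hx1
        rw [← hrest, Finset.mem_sdiff, Finset.mem_union] at hx
        exact hx.2 (Or.inr hx1)
      rw [← Finset.card_union_of_disjoint hd]
      exact Finset.card_le_univ _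
    have hexp := Cl.exp W hW hWne Rs hdR (by omega)
    rw [hrest2, btw_comm'] at hexp
    have hRc : Rs.card = C.card - A.card := by
      rw [hRs]
      exact Finset.card_sdiff_of_subset hA
    have hAC : A.card ≤ C.card := Finset.card_le_card hA
    have hCc : C.card + W.card + As.card = Fintype.card V := by
      have hd : Disjoint W As := hAW.symm
      have h1 : (W ∪ As).card = W.card + As.card := Finset.card_union_of_disjoint hd
      have h2 := Finset.card_sdiff_add_card_eq_card (Finset.subset_univ (W ∪ As))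
      rw [← hC, h1, Finset.card_univ] at h2
      omega
    have hWs := Cl.small W hW hWne
    omega
  · have hexp := Cl.exp W hW hWne A1 hd1 hsmall
    rw [hrest] at hexp
    have hA1c : A1.card ≤ 2 * (H * Bs.card) := by omega
    have := hmax A1 hd1 hA1c (Or.inr (by rw [hrest]; exact hle2))
    omega

/-- **detours outside a closed set** -/
theorem base_det {G : Gph V E} {Δ K H m : ℕ} (hdeg : G.Deg Δ) (Cl : Clo G K H m) {W : Finset V}
    (hW : Cl.cl W = W) (f : E → ZMod 2) (hf : G.bd f = 0) (hfW : ∀ e ∈ G.inc W, f e = 0)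
    (Bs : Finset E) :
    ∃ f' : E → ZMod 2, G.bd f' = 0 ∧ (∀ e ∈ G.inc W, f' e = 0) ∧ (∀ e ∈ Bs, f' e = f e) ∧
      (bsV G f').card ≤ Kd H Δ (Fintype.card V) * Bs.card := by
  by_cases hWu : W = univ
  · refine ⟨0, Gph.bd_zero G, fun _ _ => rfl, fun e _ => ?_, ?_⟩
    · rw [Pi.zero_apply]
      exact (hfW e (Or.inl (hWu ▸ Finset.mem_univ _))).symm
    · have : bsV G (0 : E → ZMod 2) = ∅ := by
        rw [Finset.eq_empty_iff_forall_notMem]
        intro v hv
        obtain ⟨e, he, -⟩ := mem_bsV'.1 hv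
        exact he rfl
      rw [this, Finset.card_empty]
      exact Nat.zero_le _
  rcases Nat.lt_or_ge (Fintype.card V) (16 * (H * Bs.card)) with hn | hn
  · refine ⟨f, hf, hfW, fun _ _ => rfl, ?_⟩
    have h1 : (bsV G f).card ≤ Fintype.card V := Finset.card_le_univ _
    have h2 : 16 * H * Bs.card ≤ Kd H Δ (Fintype.card V) * Bs.card := by
      refine Nat.mul_le_mul_right _ ?_
      unfold Kd
      omega
    rw [Nat.mul_assoc] at h2
    omega
  -- the maximal bad set
  obtain ⟨As, hAs, hmax⟩ := Finset.exists_max_image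
    ((univ : Finset (Finset V)).filter fun A => Disjoint A W ∧ A.card ≤ 2 * (H * Bs.card) ∧
      (A = ∅ ∨ 2 * (H * (btw G Bs A (univ \ (W ∪ A))).card) < A.card)) Finset.card
    ⟨∅, by
      rw [Finset.mem_filter]
      exact ⟨Finset.mem_univ _, Finset.disjoint_empty_left _, by simp, Or.inl rfl⟩⟩
  rw [Finset.mem_filter] at hAs
  obtain ⟨-, hAW, hAc, hAe⟩ := hAs
  have hmax' : ∀ A : Finset V, Disjoint A W → A.card ≤ 2 * (H * Bs.card) →
      (A = ∅ ∨ 2 * (H * (btw G Bs A (univ \ (W ∪ A))).card) < A.card) → A.card ≤ As.card :=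
    fun A h1 h2 h3 => hmax A (Finset.mem_filter.2 ⟨Finset.mem_univ _, h1, h2, h3⟩)
  have hclaim := base_claim Cl hW hWu Bs hn hAW hAc hAe hmax'
  obtain ⟨C, hC⟩ : ∃ C : Finset V, C = univ \ (W ∪ As) := ⟨_, rfl⟩
  rw [← hC] at hclaim
  have hmemC : ∀ x, x ∈ C ↔ (x ∉ W ∧ x ∉ As) := by
    intro x
    rw [hC, Finset.mem_sdiff, Finset.mem_union, not_or]
    exact ⟨fun h => h.2, fun h => ⟨Finset.mem_univ _, h⟩⟩
  obtain ⟨f1, hf1⟩ : ∃ f1 : E → ZMod 2, f1 = fun e =>
      if e ∈ Bs ∨ G.src e ∈ As ∨ G.tgt e ∈ As then f e else 0 := ⟨_, rfl⟩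
  have hf1ne : ∀ e, f1 e ≠ 0 → e ∈ Bs ∨ G.src e ∈ As ∨ G.tgt e ∈ As := by
    intro e he
    by_contra hcon
    apply he
    rw [hf1]
    exact if_neg hcon
  have hf1W : ∀ e ∈ G.inc W, f1 e = 0 := by
    intro e he
    rw [hf1]
    change (if _ then f e else 0) = 0
    rw [hfW e he, ite_self]
  obtain ⟨O, hO⟩ : ∃ O : Finset V, O = univ.filter fun v => G.bd f1 v ≠ 0 := ⟨_, rfl⟩
  have hmemO : ∀ v, v ∈ O ↔ G.bd f1 v ≠ 0 := by
    intro v
    rw [hO, Finset.mem_filter]
    exact ⟨fun h => h.2, fun h => ⟨Finset.mem_univ _, h⟩⟩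
  have hOC : O ⊆ C := by
    intro v hv
    rw [hmemO] at hv
    rw [hmemC]
    constructor
    · intro hvW
      apply hv
      unfold Gph.bd
      refine Finset.sum_eq_zero fun e _ => ?_
      split_ifs with h1 h2 h2
      · rw [hf1W e (Or.inl (h1 ▸ hvW)), add_zero]
      · rw [hf1W e (Or.inl (h1 ▸ hvW)), add_zero]
      · rw [hf1W e (Or.inr (h2 ▸ hvW)), add_zero]
      · exact add_zero _
    · intro hvA
      apply hv
      refine Eq.trans ?_ (congrFun hf v)
      unfold Gph.bd
      refine Finset.sum_congr rfl fun e _ => ?_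
      have h1 : ∀ e, G.src e = v → f1 e = f e := by
        intro e he
        rw [hf1]
        exact if_pos (Or.inr (Or.inl (he ▸ hvA)))
      have h2 : ∀ e, G.tgt e = v → f1 e = f e := by
        intro e he
        rw [hf1]
        exact if_pos (Or.inr (Or.inr (he ▸ hvA)))
      congr 1
      · split_ifs with h
        · exact h1 e h
        · rfl
      · split_ifs with h
        · exact h2 e h
        · rfl
  have hbdO : ∀ v, G.bd f1 v = if v ∈ O then 1 else 0 := by
    intro v
    split_ifs with h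
    · exact zmod2_ne ((hmemO v).1 h)
    · by_contra hcon
      exact h ((hmemO v).2 hcon)
  have heven : Even O.card := by
    have h1 := sum_bd' G f1
    rw [Finset.sum_congr rfl fun v _ => hbdO v, Finset.sum_ite_mem, Finset.univ_inter,
      Finset.sum_const, nsmul_eq_mul, mul_one] at h1
    rwa [ZMod.natCast_eq_zero_iff_even] at h1
  have hstar : (As.biUnion G.star).card ≤ Δ * (2 * (H * Bs.card)) := by
    refine Finset.card_biUnion_le.trans ?_
    refine (Finset.sum_le_card_nsmul _ _ Δ fun a _ => hdeg a).trans ?_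
    rw [smul_eq_mul, Nat.mul_comm]
    exact Nat.mul_le_mul_left _ hAc
  have hOcard : O.card ≤ 2 * Bs.card + Δ * (2 * (H * Bs.card)) := by
    have hsub : O ⊆ (Bs.image G.src ∪ Bs.image G.tgt) ∪
        (As.biUnion G.star).image (fun e => if G.src e ∈ As then G.tgt e else G.src e) := by
      intro v hv
      have hvC := (hmemC v).1 (hOC hv)
      obtain ⟨e, he, hev⟩ : ∃ e, f1 e ≠ 0 ∧ (G.src e = v ∨ G.tgt e = v) := by
        by_contra hcon
        push Not at hcon
        rw [hmemO] at hv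
        apply hv
        unfold Gph.bd
        refine Finset.sum_eq_zero fun e _ => ?_
        by_cases hfe : f1 e = 0
        · rw [hfe, ite_self, ite_self, add_zero]
        · have h1 := hcon e hfe
          rw [if_neg h1.1, if_neg h1.2, add_zero]
      rw [Finset.mem_union, Finset.mem_union, Finset.mem_image, Finset.mem_image, Finset.mem_image]
      rcases hf1ne e he with h1 | h1
      · left
        rcases hev with h2 | h2
        · exact Or.inl ⟨e, h1, h2⟩
        · exact Or.inr ⟨e, h1, h2⟩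
      · right
        refine ⟨e, ?_, ?_⟩
        · rw [Finset.mem_biUnion]
          rcases h1 with h1 | h1
          · refine ⟨G.src e, h1, ?_⟩
            unfold Gph.star
            rw [Finset.mem_filter]
            exact ⟨Finset.mem_univ _, Or.inl rfl⟩
          · refine ⟨G.tgt e, h1, ?_⟩
            unfold Gph.star
            rw [Finset.mem_filter]
            exact ⟨Finset.mem_univ _, Or.inr rfl⟩
        · split_ifs with h2
          · rcases hev with h3 | h3
            · exact absurd (h3 ▸ h2) hvC.2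
            · exact h3
          · rcases hev with h3 | h3
            · exact h3
            · rcases h1 with h1 | h1
              · exact absurd h1 h2
              · exact absurd (h3 ▸ h1) hvC.2
    refine (Finset.card_le_card hsub).trans ((Finset.card_union_le _ _).trans ?_)
    have h1 := Finset.card_union_le (Bs.image G.src) (Bs.image G.tgt)
    have h2 : (Bs.image G.src).card ≤ Bs.card := Finset.card_image_le
    have h3 : (Bs.image G.tgt).card ≤ Bs.card := Finset.card_image_le
    have h4 : ((As.biUnion G.star).image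
        (fun e => if G.src e ∈ As then G.tgt e else G.src e)).card ≤ (As.biUnion G.star).card :=
      Finset.card_image_le
    omega
  obtain ⟨g, hg1, hg2, hg3⟩ := core_paths G (H' := 2 * H) hdeg Bs C hclaim O hOC heven
  refine ⟨f1 + g, ?_, ?_, ?_, ?_⟩
  · rw [Gph.bd_add, hg1]
    funext v
    rw [Pi.add_apply, hbdO v, Finset.sum_apply, Pi.zero_apply]
    have h1 : ∑ w ∈ O, (pt w : V → ZMod 2) v = if v ∈ O then 1 else 0 := by
      unfold pt
      simp only [Pi.single_apply]
      rw [Finset.sum_ite_eq]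
    rw [h1]
    exact CharTwo.add_self_eq_zero _
  · intro e he
    rw [Pi.add_apply, hf1W e he, zero_add]
    by_contra hne
    obtain ⟨-, h4, h5⟩ := hg2 e hne
    rcases he with he | he
    · exact ((hmemC _).1 h4).1 he
    · exact ((hmemC _).1 h5).1 he
  · intro e he
    have h1 : g e = 0 := by
      by_contra hne
      exact (hg2 e hne).1 he
    rw [Pi.add_apply, h1, add_zero, hf1]
    exact if_pos (Or.inl he)
  · have hsup : (univ.filter fun e => (f1 + g) e ≠ 0) ⊆
        (Bs ∪ As.biUnion G.star) ∪ (univ.filter fun e => g e ≠ 0) := by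
      intro e he
      rw [Finset.mem_filter, Pi.add_apply] at he
      rw [Finset.mem_union, Finset.mem_union, Finset.mem_filter, Finset.mem_biUnion]
      by_cases hge : g e = 0
      · left
        have h1 : f1 e ≠ 0 := by
          intro h
          apply he.2
          rw [h, hge, add_zero]
        rcases hf1ne e h1 with h2 | h2 | h2
        · exact Or.inl h2
        · right
          refine ⟨G.src e, h2, ?_⟩
          unfold Gph.star
          rw [Finset.mem_filter]
          exact ⟨Finset.mem_univ _, Or.inl rfl⟩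
        · right
          refine ⟨G.tgt e, h2, ?_⟩
          unfold Gph.star
          rw [Finset.mem_filter]
          exact ⟨Finset.mem_univ _, Or.inr rfl⟩
      · right
        exact ⟨Finset.mem_univ _, hge⟩
    have hbs : bsV G (f1 + g) ⊆ (univ.filter fun e => (f1 + g) e ≠ 0).image G.src ∪
        (univ.filter fun e => (f1 + g) e ≠ 0).image G.tgt := by
      intro v hv
      obtain ⟨e, he, hev⟩ := mem_bsV'.1 hv
      rw [Finset.mem_union, Finset.mem_image, Finset.mem_image]
      rcases hev with h | h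
      · exact Or.inl ⟨e, Finset.mem_filter.2 ⟨Finset.mem_univ _, he⟩, h⟩
      · exact Or.inr ⟨e, Finset.mem_filter.2 ⟨Finset.mem_univ _, he⟩, h⟩
    have h1 := (Finset.card_le_card hbs).trans (Finset.card_union_le _ _)
    have h2 : ((univ.filter fun e => (f1 + g) e ≠ 0).image G.src).card ≤
        (univ.filter fun e => (f1 + g) e ≠ 0).card := Finset.card_image_le
    have h3 : ((univ.filter fun e => (f1 + g) e ≠ 0).image G.tgt).card ≤
        (univ.filter fun e => (f1 + g) e ≠ 0).card := Finset.card_image_le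
    have h4 := (Finset.card_le_card hsup).trans (Finset.card_union_le _ _)
    have h5 := Finset.card_union_le Bs (As.biUnion G.star)
    have h6 : O.card * Ld (2 * H) Δ (Fintype.card V) ≤
        (2 * Bs.card + Δ * (2 * (H * Bs.card))) * Ld (2 * H) Δ (Fintype.card V) :=
      Nat.mul_le_mul_right _ hOcard
    unfold Kd
    generalize Ld (2 * H) Δ (Fintype.card V) = L at h6 hg3 ⊢
    have h7 : 2 * (Bs.card + Δ * (2 * (H * Bs.card)) +
        (2 * Bs.card + Δ * (2 * (H * Bs.card))) * L) ≤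
        (16 * H + 2 + 4 * H * Δ + 4 * (1 + H * Δ) * L) * Bs.card := by
      have h8 : (16 * H + 2 + 4 * H * Δ + 4 * (1 + H * Δ) * L) * Bs.card =
          16 * H * Bs.card + 2 * (Bs.card + Δ * (2 * (H * Bs.card)) +
            (2 * Bs.card + Δ * (2 * (H * Bs.card))) * L) := by ring
      rw [h8]
      exact Nat.le_add_left _ _
    omega

end

end FrT
end
end
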