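import Pool.Agent.Lib.MP_51bb46_lc.G.KillsG
import Pool.Agent.Lib.MP_51bb46_lc.G.DtDefs

/-!
Sharp exponent (namespace `FrT`): definitions.

Graphs with edge expansion, closure operators, detours, frames with short paths, and the process
that looks for a possible certificate (codes are lists, the head of a list is the LAST step).
-/

set_option linter.unusedSectionVars false

namespace FrT

open Finset Fr56 FrC FrG
open scoped Classical

/-! ### graphs -/

section
variable {V E : Type}

/-- the edges with exactly one endpoint in `A` -/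
noncomputable def cut [Fintype E] (G : Gph V E) (A : Finset V) : Finset E :=
  univ.filter fun e => ¬ (G.src e ∈ A ↔ G.tgt e ∈ A)

/-- the edges outside `Bs` between `A` and `B` -/
noncomputable def btw [Fintype E] (G : Gph V E) (Bs : Finset E) (A B : Finset V) : Finset E :=
  univ.filter fun e => e ∉ Bs ∧ ((G.src e ∈ A ∧ G.tgt e ∈ B) ∨ (G.src e ∈ B ∧ G.tgt e ∈ A))

/-- edge expansion: sets with at most half of the vertices have at least `|A| / H` leaving edges -/
def Expd [Fintype V] [Fintype E] (G : Gph V E) (H : ℕ) : Prop :=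
  ∀ A : Finset V, 2 * A.card ≤ Fintype.card V → A.card ≤ H * (cut G A).card

/-- further edges on the same vertices -/
def addG {E' : Type} (G : Gph V E) (X : Gph V E') : Gph V (E ⊕ E') where
  src := Sum.elim G.src X.src
  tgt := Sum.elim G.tgt X.tgt

/-- a chain of `G`, extended by zero -/
def ext0 {E' : Type} (y : E → ZMod 2) : E ⊕ E' → ZMod 2 := Sum.elim y fun _ => 0

/-- the vertices touched by the support of a chain -/
noncomputable def bsV [Fintype V] (G : Gph V E) (f : E → ZMod 2) : Finset V :=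
  univ.filter fun v => ∃ e, f e ≠ 0 ∧ (G.src e = v ∨ G.tgt e = v)

/-- A closure operator on sets of vertices of an expanding graph: the closure of `U` has at most
`K |U|` elements (for `|U| ≤ m`), and outside a closed set the graph still expands. -/
structure Clo [Fintype V] [Fintype E] [DecidableEq V] (G : Gph V E) (K H m : ℕ) where
  cl : Finset V → Finset V
  ext : ∀ U, U ⊆ cl U
  mono : ∀ U U', U ⊆ U' → cl U ⊆ cl U'
  idem : ∀ U, cl (cl U) = cl U
  empty : cl ∅ = ∅
  card : ∀ U, U.card ≤ m → (cl U).card ≤ K * U.card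
  small : ∀ W, cl W = W → W ≠ univ → 8 * W.card ≤ Fintype.card V
  exp : ∀ W, cl W = W → W ≠ univ → ∀ A, Disjoint A W → 2 * A.card ≤ Fintype.card V →
    A.card ≤ H * (btw G ∅ A (univ \ (W ∪ A))).card

/-- length of paths in an expanding graph -/
def Ld (H Δ n : ℕ) : ℕ := H * Δ * (Nat.log 2 n + 1)

/-- constant of the base detours -/
def Kd (H Δ n : ℕ) : ℕ := 16 * H + 2 + 4 * H * Δ + 4 * (1 + H * Δ) * Ld (2 * H) Δ n

end

/-! ### detours in the tall graph -/

section
variable {V E : Type} [Fintype V] [Fintype E] [DecidableEq V] [DecidableEq E]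

/-- the vertices of `G` below the support of a chain of the tall graph -/
noncomputable def bsT (G : Gph V E) {Q : ℕ} (c : TE V E Q → ZMod 2) : Finset V :=
  plc G Q (univ.filter fun e => c e ≠ 0)

/-- A closure operator such that closed chains of the tall graph have small detours: there is a
closed chain with the same values on `L` and with support over at most `C₁ |L|` vertices. -/
structure Detour (G : Gph V E) (Q K C₁ m : ℕ) where
  cl : Finset V → Finset V
  ext : ∀ U, U ⊆ cl U
  mono : ∀ U U', U ⊆ U' → cl U ⊆ cl U'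
  idem : ∀ U, cl (cl U) = cl U
  empty : cl ∅ = ∅
  card : ∀ U, U.card ≤ m → (cl U).card ≤ K * U.card
  det : ∀ U, cl U = U → ∀ L : Finset (TE V E Q), (∀ e ∈ L, e ∉ incT G Q U) →
    ∀ c : TE V E Q → ZMod 2, (G.tall Q).bd c = 0 → (∀ e ∈ incT G Q U, c e = 0) →
    ∃ c' : TE V E Q → ZMod 2, (G.tall Q).bd c' = 0 ∧ (∀ e ∈ incT G Q U, c' e = 0) ∧
      (∀ e ∈ L, c' e = c e) ∧ (bsT G c').card ≤ C₁ * L.card

/-- `c` is a detour with the pattern `P` on `L` -/
def DcOk (G : Gph V E) {Q : ℕ} (C₁ : ℕ) (U : Finset V) (L P : Finset (TE V E Q))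
    (c : TE V E Q → ZMod 2) : Prop :=
  (G.tall Q).bd c = 0 ∧ (∀ e ∈ incT G Q U, c e = 0) ∧ (∀ e ∈ L, (e ∈ P ↔ c e ≠ 0)) ∧
    (bsT G c).card ≤ C₁ * L.card

/-- the canonical detour with the pattern `P` on `L` (zero if there is none) -/
noncomputable def dc (G : Gph V E) {Q : ℕ} (C₁ : ℕ) (U : Finset V) (L P : Finset (TE V E Q)) :
    TE V E Q → ZMod 2 :=
  if h : ∃ c, DcOk G C₁ U L P c then h.choose else 0

/-- one step of the process: the live edges found, and the pattern on them -/
abbrev LP (V E : Type) (Q : ℕ) := Finset (TE V E Q) × Finset (TE V E Q)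

variable {G : Gph V E} {Q K C₁ m : ℕ}

/-- the set of revealed vertices -/
noncomputable def Detour.Us (De : Detour G Q K C₁ m) : List (LP V E Q) → Finset V
  | [] => ∅
  | k :: c => De.cl (De.Us c ∪ plc G Q k.1 ∪ bsT G (dc G C₁ (De.Us c) k.1 k.2))

/-- the sum of the canonical detours -/
noncomputable def Detour.Dc (De : Detour G Q K C₁ m) : List (LP V E Q) → TE V E Q → ZMod 2
  | [] => 0
  | k :: c => De.Dc c + dc G C₁ (De.Us c) k.1 k.2

/-- number of live edges found -/
def totL : List (LP V E Q) → ℕ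
  | [] => 0
  | k :: c => totL c + k.1.card

variable (Fr : Frame G) (v0 : V) {D : ℕ} (α : Xt (TE V E Q) D → ZMod 2) (a : TV V Q → A D)

/-- one step with its pattern: there is a possible continuation `z` that differs from `y` exactly on
the pattern (among the edges in `L`) -/
def StepT (𝒞 : Set (Cert V E Q D)) (U : Finset V) (y : E → ZMod 2) (C : Cert V E Q D)
    (L P : Finset (TE V E Q)) : Prop :=
  Step Fr v0 α a 𝒞 U y C L ∧ P ⊆ L ∧
  ∃ (z : TE V E Q → ZMod 2) (t : V), (∀ e ∈ incT G Q U, z e = iota y e) ∧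
    (G.tall Q).bd z = pt (v0, 0) + pt (t, 0) ∧
    Fr.Free (U ∪ plc G Q (cov (G.tall Q) a C.1)) t ∧ Match G C (α + Pth (G.tall Q) a z) ∧
    ∀ e ∈ L, (e ∈ P ↔ z e ≠ iota y e)

/-- `c` is a sequence of steps that is consistent with `y` -/
def Run (De : Detour G Q K C₁ m) (𝒞 : Set (Cert V E Q D)) (y : E → ZMod 2) :
    List (LP V E Q) → Prop
  | [] => True
  | k :: c => Run De 𝒞 y c ∧ ∃ C, StepT Fr v0 α a 𝒞 (De.Us c) y C k.1 k.2

/-- there is no sequence of steps with at least `R` and less than `R'` live edges -/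
def NoLongT (De : Detour G Q K C₁ m) (𝒞 : Set (Cert V E Q D)) (R R' : ℕ) : Prop :=
  ∀ (c : List (LP V E Q)) (y : E → ZMod 2), Run Fr v0 α a De 𝒞 y c → Fr.Ok v0 (De.Us c) y →
    R ≤ totL c → totL c < R' → False

/-! ### frames with few paths -/

/-- special free vertices, joined by paths from a small set `Γ` -/
structure SFrame (Fr : Frame G) where
  Γ : Finset (E → ZMod 2)
  SFree : Finset V → V → Prop
  anti : ∀ {U U' : Finset V} {t : V}, U ⊆ U' → SFree U' t → SFree U t
  free : ∀ {U : Finset V} {t : V}, SFree U t → Fr.Free U t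
  ne : ∀ U : Finset V, U.card ≤ Fr.m → ∃ t, SFree U t
  conn : ∀ (U : Finset V) (t t' : V), U.card ≤ Fr.m → SFree U t → SFree U t' →
    ∃ γ ∈ Γ, G.bd γ = pt t + pt t' ∧ ∀ e ∈ G.inc U, γ e = 0

/-! ### codes with moves -/

/-- a step together with a move of the violated vertex after the step -/
abbrev LM (V E : Type) (Q : ℕ) := LP V E Q × ((E → ZMod 2) × V)

/-- the violated vertex after the steps -/
def tv (t0 : V) : List (LM V E Q) → V
  | [] => t0
  | k :: _ => k.2.2

/-- the sum of all detours and moves -/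
noncomputable def Detour.Sc (De : Detour G Q K C₁ m) : List (LM V E Q) → TE V E Q → ZMod 2
  | [] => 0
  | k :: c => De.Sc c + (dc G C₁ (De.Us (c.map Prod.fst)) k.1.1 k.1.2 + iota k.2.1)

/-- number of nontrivial moves -/
noncomputable def nmv (t0 : V) : List (LM V E Q) → ℕ
  | [] => 0
  | k :: c => nmv t0 c + if k.2.1 = 0 ∧ k.2.2 = tv t0 c then 0 else 1

/-- each step is admissible by itself -/
def AdmS (De : Detour G Q K C₁ m) (t0 : V) : List (LM V E Q) → Prop
  | [] => True
  | k :: c => AdmS De t0 c ∧ k.1.1.Nonempty ∧ k.1.2 ⊆ k.1.1 ∧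
      (∀ e ∈ k.1.1, e ∉ incT G Q (De.Us (c.map Prod.fst))) ∧
      G.bd k.2.1 = pt (tv t0 c) + pt k.2.2

/-- the code is admissible: all moves avoid all revealed vertices -/
def AdmT (Fr : Frame G) (De : Detour G Q K C₁ m) (t0 : V) (c : List (LM V E Q)) : Prop :=
  AdmS De t0 c ∧ Fr.Free (De.Us (c.map Prod.fst)) t0 ∧
    ∀ k ∈ c, ∀ e ∈ G.inc (De.Us (c.map Prod.fst)), k.2.1 e = 0

/-- the decoding event -/
def DcdT (Fr : Frame G) (De : Detour G Q K C₁ m) (𝒞 : Set (Cert V E Q D)) (t0 : V)
    (β : Xt (TE V E Q) D → ZMod 2) (a : TV V Q → A D) : List (LM V E Q) → Prop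
  | [] => True
  | k :: c => DcdT Fr De 𝒞 t0 β a c ∧
      ∃ C, Act G 𝒞 (fun C => Fr.Free (De.Us (c.map Prod.fst) ∪ G.nbh (Unc G Q C.1)) (tv t0 c))
        (β + Pth (G.tall Q) a (De.Sc c)) C ∧ ∀ e ∈ k.1.1, Tch (G.tall Q) a C.1 e

/-- the lists of length `n` with entries in `s` -/
def lst' {ι : Type} [DecidableEq ι] (s : Finset ι) : ℕ → Finset (List ι)
  | 0 => {[]}
  | n + 1 => (s ×ˢ lst' s n).image fun p => p.1 :: p.2

/-- the possible entries of codes -/
noncomputable def ents (V E : Type) (Q : ℕ) [Fintype V] [Fintype E] [DecidableEq V] [DecidableEq E]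
    (Γ : Finset (E → ZMod 2)) : Finset (LM V E Q) :=
  (univ.filter fun p : LP V E Q => p.1.Nonempty ∧ p.2 ⊆ p.1) ×ˢ (insert 0 Γ ×ˢ univ)

end

/-! ### killing refutations -/

/-- `KillsT Fr v0 j kk r k`: given a valuation on `Fr` that decides all formulas of rank at most `i0`
of a family of at most `2^k` formulas by revealing `kk` vertices, there is no refutation (by rules of
size less than `r`) whose lines are formulas of the family of rank at most `i0 + j`. -/
def KillsT {V E : Type} [Fintype E] [DecidableEq V] {G : Gph V E} (Fr : Frame G) (v0 : V)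
    (j kk r k : ℕ) : Prop :=
  ∀ (X : Type) (B : Fm X → Prop) (Fs : Finset (Fm X)) (i0 cap : ℕ)
    (S : Valn Fr v0 X {f | f ∈ Fs ∧ lev B f ≤ i0} cap),
    Bas B → (∀ f ∈ Fs, ∀ g ∈ f.subs, g ∈ Fs) → Fs.card ≤ 2 ^ k → r * kk ≤ cap → cap ≤ Fr.m →
    S.Dcds kk → ∀ R : List Rule, (∀ q ∈ R, q.Sound) → (∀ q ∈ R, q.nodes + 1 ≤ r) →
    ∀ Ax : Set (Fm X), (∀ F ∈ Ax, F ∈ Fs → AndOf (fun f => lev B f ≤ i0 ∧ S.True' kk f) F) →
    ∀ b : Fm ℕ, b.Unsat → b.size + 1 ≤ r →
    ∀ (τ : ℕ → X) (π : List (Fm X)), Derives R Ax π → b.map τ ∈ π →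
    (∀ A ∈ π, A ∈ Fs ∧ lev B A ≤ i0 + j) → False

end FrT
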