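import Pool.Agent.Lib.MP_51bb46_lc.G.KillsG
import Pool.Agent.Lib.MP_51bb46_lc.G.DtDefs

/-!
The parts of a conjunction (in particular the clauses of a CNF).
-/

namespace FrT

open Fr56

/-- the parts of a formula `F`: `F` itself and, if `F` is a conjunction, the parts of its conjuncts;
for a CNF: all its clauses, and the conjunctions of clauses it is built from -/
def parts {V : Type} : Fm V → Set (Fm V)
  | .var v => {.var v}
  | .neg f => {.neg f}
  | .or f g => {.or f g}
  | .and f g => {.and f g} ∪ (parts f ∪ parts g)

theorem self_mem_parts {V : Type} (f : Fm V) : f ∈ parts f := by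
  cases f <;> simp [parts]

theorem parts_of_isClause {V : Type} {k : ℕ} {f : Fm V} (h : Fm.IsClause k f) :
    parts f = {f} := by
  cases h <;> rfl

theorem parts_map {V W : Type} (τ : V → W) (f : Fm V) :
    parts (f.map τ) = (Fm.map τ) '' parts f := by
  induction f with
  | var v => simp [parts, Fm.map]
  | neg f _ => simp [parts, Fm.map]
  | or f g _ _ => simp [parts, Fm.map]
  | and f g ihf ihg =>
    simp only [parts, Fm.map, ihf, ihg, Set.image_union, Set.image_singleton]

end FrT
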