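import Mathlib
import Pool.Agent.Lib.MP_51bb46_lc.B.Numeric
import Pool.Agent.Lib.MP_51bb46_lc.T.Defs
import Pool.Agent.Lib.MP_51bb46_lc.T.Parts
import Pool.Agent.Lib.MP_51bb46_lc.T.Base

section

/-!
The numerical estimate for the first stage.
-/

namespace FrC

open Fr56

private lemma numC_TT_le (n : ℕ) : TT n ≤ 2 ^ (2827 * n + 5) := by
  have h1 : (8 / 9 : ℝ) ^ (2240 * n) ≤ 1 / 2 ^ (373 * n) := by
    have h2 : (8 / 9 : ℝ) ^ (2240 * n) ≤ (8 / 9 : ℝ) ^ (6 * (373 * n)) := by
      apply pow_le_pow_of_le_one (by norm_num) (by norm_num)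
      omega
    refine h2.trans ?_
    rw [pow_mul, ← one_div_pow]
    exact pow_le_pow_left₀ (by norm_num) (by norm_num) _
  unfold TT
  push_cast
  have h3 : ((8 / 9 : ℝ) ^ (2240 * n) + 9 / (2 ^ (400 * n) : ℝ)) * (2 * (2 : ℝ) ^ (3200 * n)) ≤
      (1 / 2 ^ (373 * n) + 9 / (2 ^ (400 * n) : ℝ)) * (2 * (2 : ℝ) ^ (3200 * n)) := by
    apply mul_le_mul_of_nonneg_right _ (by positivity)
    linarith
  have e1 : (1 / 2 ^ (373 * n) : ℝ) * (2 * (2 : ℝ) ^ (3200 * n)) = 2 * 2 ^ (2827 * n) := by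
    have : (2 : ℝ) ^ (3200 * n) = 2 ^ (373 * n) * 2 ^ (2827 * n) := by
      rw [← pow_add]; congr 1; ring
    rw [this]
    field_simp
  have e2 : (9 / (2 ^ (400 * n) : ℝ)) * (2 * (2 : ℝ) ^ (3200 * n)) = 18 * 2 ^ (2800 * n) := by
    have : (2 : ℝ) ^ (3200 * n) = 2 ^ (400 * n) * 2 ^ (2800 * n) := by
      rw [← pow_add]; congr 1; ring
    rw [this]
    field_simp
    norm_num
  have e3 : (2 : ℝ) ^ (2800 * n) ≤ 2 ^ (2827 * n) :=
    pow_le_pow_right₀ (by norm_num) (by omega)
  have e4 : (2 : ℝ) ^ (2240 * n) ≤ 2 ^ (2827 * n) :=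
    pow_le_pow_right₀ (by norm_num) (by omega)
  have e5 : (2 : ℝ) ^ (2827 * n + 5) = 32 * 2 ^ (2827 * n) := by
    rw [pow_add]; ring
  rw [e5]
  rw [add_mul (1 / (2 : ℝ) ^ (373 * n)), e1, e2] at h3
  have : (0 : ℝ) < 2 ^ (2827 * n) := by positivity
  have : (0 : ℝ) < 2 ^ (2240 * n) := by positivity
  linarith

private lemma numC_TT_ge (n : ℕ) : 18 * (2 : ℝ) ^ (2800 * n) ≤ TT n := by
  unfold TT
  push_cast
  have e2 : (9 / (2 ^ (400 * n) : ℝ)) * (2 * (2 : ℝ) ^ (3200 * n)) = 18 * 2 ^ (2800 * n) := by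
    have : (2 : ℝ) ^ (3200 * n) = 2 ^ (400 * n) * 2 ^ (2800 * n) := by
      rw [← pow_add]; congr 1; ring
    rw [this]
    field_simp
    norm_num
  rw [add_mul, e2]
  have : (0 : ℝ) ≤ (8 / 9) ^ (2240 * n) * (2 * 2 ^ (3200 * n)) := by positivity
  have : (0 : ℝ) ≤ 2 ^ (2240 * n) / 8 := by positivity
  linarith

private lemma numC_ll_TT (n : ℕ) (hn : 1 ≤ n) : (2 : ℝ) ^ (160 * n - 6) ≤ ll n * TT n := by
  have h1 := numC_TT_ge n
  have h2 : 0 < ll n := by unfold ll; positivity
  have h3 : ll n * (18 * (2 : ℝ) ^ (2800 * n)) = 2 ^ (160 * n - 6) := by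
    unfold ll
    push_cast
    have e1 : (2 : ℝ) ^ (2800 * n) = 2 ^ (400 * n) * 2 ^ (2240 * n) * (2 ^ (160 * n - 6) * 64) := by
      have : (64 : ℝ) = 2 ^ 6 := by norm_num
      rw [this, ← pow_add, ← pow_add, ← pow_add]
      congr 1
      omega
    rw [e1]
    field_simp
    norm_num
  rw [← h3]
  exact mul_le_mul_of_nonneg_left h1 h2.le

private lemma numC_exp (n : ℕ) (hn : 1 ≤ n) :
    Real.exp (-(ll n * TT n)) ≤ 1 / 2 ^ (2 ^ (160 * n - 6)) := by
  have h1 := numC_ll_TT n hn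
  have h2 : -(ll n * TT n) ≤ -((2 ^ (160 * n - 6) : ℕ) : ℝ) := by
    push_cast
    linarith
  refine (Real.exp_le_exp.mpr h2).trans ?_
  rw [Real.exp_neg, ← one_div]
  apply one_div_le_one_div_of_le (by positivity)
  have h3 : ((2 ^ (160 * n - 6) : ℕ) : ℝ) = ((2 ^ (160 * n - 6) : ℕ) : ℝ) * 1 := by ring
  rw [h3, Real.exp_nat_mul]
  exact pow_le_pow_left₀ (by norm_num) (by have := Real.add_one_le_exp (1 : ℝ); linarith) _

private lemma numC_W (n : ℕ) (nc : ℝ) (hnc0 : 0 ≤ nc) (hnc : nc ≤ 2 ^ n) :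
    ((2 ^ (1080 * n + 2) : ℕ) : ℝ) * ((2 * ((2 ^ (3200 * n) : ℕ) : ℝ) / 2 ^ (4000 * n)) ^ 2 +
          nc * (2 * TT n / 2 ^ (4000 * n))) ≤ 2 ^ 9 / 2 ^ (92 * n) := by
  have h1 := numC_TT_le n
  have h0 : 0 ≤ TT n := le_trans (by positivity) (numC_TT_ge n)
  push_cast
  have e1 : (2 * (2 : ℝ) ^ (3200 * n) / 2 ^ (4000 * n)) ^ 2 = 4 / 2 ^ (1600 * n) := by
    have e : (2 : ℝ) ^ (4000 * n) = 2 ^ (3200 * n) * 2 ^ (800 * n) := by
      rw [← pow_add]; congr 1; ring
    have e' : (2 : ℝ) ^ (1600 * n) = 2 ^ (800 * n) * 2 ^ (800 * n) := by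
      rw [← pow_add]; congr 1; ring
    rw [e, e']
    field_simp
    norm_num
  have e2 : nc * (2 * TT n / (2 : ℝ) ^ (4000 * n)) ≤ 2 ^ 6 / 2 ^ (1172 * n) := by
    have e3 : nc * (2 * TT n / (2 : ℝ) ^ (4000 * n)) ≤
        2 ^ n * (2 * 2 ^ (2827 * n + 5) / (2 : ℝ) ^ (4000 * n)) := by
      gcongr
    refine e3.trans (le_of_eq ?_)
    have e : (2 : ℝ) ^ (4000 * n) = 2 ^ n * 2 ^ (2827 * n) * 2 ^ (1172 * n) := by
      rw [← pow_add, ← pow_add]; congr 1; ring
    rw [e, pow_add]
    field_simp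
  rw [e1]
  have e4 : (4 : ℝ) / 2 ^ (1600 * n) ≤ 2 ^ 6 / 2 ^ (1172 * n) := by
    have : (1 : ℝ) / 2 ^ (1600 * n) ≤ 1 / 2 ^ (1172 * n) :=
      one_div_le_one_div_of_le (by positivity) (pow_le_pow_right₀ (by norm_num) (by omega))
    calc (4 : ℝ) / 2 ^ (1600 * n) = 4 * (1 / 2 ^ (1600 * n)) := by ring
      _ ≤ 4 * (1 / 2 ^ (1172 * n)) := by linarith
      _ ≤ 2 ^ 6 * (1 / 2 ^ (1172 * n)) := by
          apply mul_le_mul_of_nonneg_right _ (by positivity); norm_num
      _ = _ := by ring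
  calc (2 : ℝ) ^ (1080 * n + 2) * (4 / 2 ^ (1600 * n) + nc * (2 * TT n / 2 ^ (4000 * n)))
      ≤ 2 ^ (1080 * n + 2) * (2 ^ 6 / 2 ^ (1172 * n) + 2 ^ 6 / 2 ^ (1172 * n)) := by
        apply mul_le_mul_of_nonneg_left _ (by positivity)
        linarith
    _ = 2 ^ 9 / 2 ^ (92 * n) := by
        have e : (2 : ℝ) ^ (1172 * n) = 2 ^ (1080 * n) * 2 ^ (92 * n) := by
          rw [← pow_add]; congr 1; ring
        rw [e, pow_add]
        field_simp
        norm_num

/-- the estimate -/
theorem numericC : ∃ N1 : ℕ, ∀ N ≥ N1, ∀ k : ℕ, 1 ≤ k → k ≤ 2 ^ N → ∀ P nc si : ℝ,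
    0 ≤ P → P ≤ 2 ^ (N * k) * 2 ^ N → 0 ≤ nc → nc ≤ 2 ^ N → 0 ≤ si → si ≤ 2 ^ N →
    P * ((((2 ^ (1080 * N + 2) : ℕ) : ℝ) * ((2 * ((2 ^ (3200 * N) : ℕ) : ℝ) / 2 ^ (4000 * N)) ^ 2 +
        nc * (2 * TT N / 2 ^ (4000 * N)))) ^ k +
      ((2 ^ (1080 * N + 2) : ℕ) : ℝ) * (si * Real.exp (-(ll N * TT N)))) < 1 := by
  refine ⟨20, fun N hN k hk1 hkN P nc si hP0 hP hnc0 hnc hsi0 hsi => ?_⟩
  have hN1 : 1 ≤ N := by omega
  set K := 2 ^ N with hK
  have hK20 : 2 ^ 20 ≤ K := by
    rw [hK]; exact Nat.pow_le_pow_right (by norm_num) hN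
  have hNK : N < K := Nat.lt_two_pow_self
  have hTT : 0 ≤ TT N := le_trans (by positivity) (numC_TT_ge N)
  have hW1 := numC_W N nc hnc0 hnc
  have hW0 : 0 ≤ ((2 ^ (1080 * N + 2) : ℕ) : ℝ) *
      ((2 * ((2 ^ (3200 * N) : ℕ) : ℝ) / 2 ^ (4000 * N)) ^ 2 +
          nc * (2 * TT N / 2 ^ (4000 * N))) := by positivity
  have hW := pow_le_pow_left₀ hW0 hW1 k
  have hX := numC_exp N hN1
  have hX' : ((2 ^ (1080 * N + 2) : ℕ) : ℝ) * (si * Real.exp (-(ll N * TT N))) ≤
      2 ^ (1080 * N + 2 + N) / 2 ^ (2 ^ (160 * N - 6)) := by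
    calc ((2 ^ (1080 * N + 2) : ℕ) : ℝ) * (si * Real.exp (-(ll N * TT N)))
        ≤ ((2 ^ (1080 * N + 2) : ℕ) : ℝ) * (2 ^ N * (1 / 2 ^ (2 ^ (160 * N - 6)))) := by gcongr
      _ = _ := by
          push_cast
          rw [pow_add _ _ N, pow_add _ _ 2]
          ring
  have hx1 : N * k + N + 9 * k + 2 ≤ 92 * N * k := by
    have h1 : N * 1 ≤ N * k := Nat.mul_le_mul_left _ hk1
    have h2 : 1 * k ≤ N * k := Nat.mul_le_mul_right _ hN1
    have h5 : 92 * N * k = 92 * (N * k) := by ring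
    rw [h5]
    omega
  have hx2 : N * k + N + (1080 * N + 2 + N) + 2 ≤ 2 ^ (160 * N - 6) := by
    have h1 : 2 ^ (3 * N) ≤ 2 ^ (160 * N - 6) := Nat.pow_le_pow_right (by norm_num) (by omega)
    have h2 : 2 ^ (3 * N) = K * K * K := by
      rw [hK, ← pow_add, ← pow_add]; congr 1; ring
    rw [h2] at h1
    refine le_trans ?_ h1
    have h3 : N * k ≤ K * K := Nat.mul_le_mul hNK.le hkN
    have h5 : K * 1048576 ≤ K * K := Nat.mul_le_mul_left _ (by simpa using hK20)
    have h6 : (K * K) * 1048576 ≤ (K * K) * K := Nat.mul_le_mul_left _ (by simpa using hK20)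
    omega
  have hPE : P ≤ 2 ^ (N * k + N) := by
    rw [pow_add]
    exact hP
  have hfirst : (2 : ℝ) ^ (N * k + N) * (2 ^ 9 / 2 ^ (92 * N)) ^ k ≤ 1 / 4 := by
    rw [div_pow, ← pow_mul, ← pow_mul, ← mul_div_assoc, ← pow_add, div_le_iff₀ (by positivity)]
    have h1 : (2 : ℝ) ^ (N * k + N + 9 * k + 2) ≤ 2 ^ (92 * N * k) :=
      pow_le_pow_right₀ (by norm_num) hx1
    rw [pow_add _ _ 2] at h1
    linarith
  have hsecond : (2 : ℝ) ^ (N * k + N) *
      (2 ^ (1080 * N + 2 + N) / 2 ^ (2 ^ (160 * N - 6))) ≤ 1 / 4 := by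
    rw [← mul_div_assoc, ← pow_add, div_le_iff₀ (by positivity)]
    have h1 : (2 : ℝ) ^ (N * k + N + (1080 * N + 2 + N) + 2) ≤ 2 ^ (2 ^ (160 * N - 6)) :=
      pow_le_pow_right₀ (by norm_num) hx2
    rw [pow_add _ _ 2] at h1
    linarith
  calc _ ≤ (2 : ℝ) ^ (N * k + N) * ((2 ^ 9 / 2 ^ (92 * N)) ^ k +
        2 ^ (1080 * N + 2 + N) / 2 ^ (2 ^ (160 * N - 6))) := by
        apply mul_le_mul hPE (add_le_add hW hX') (by positivity) (by positivity)
    _ = 2 ^ (N * k + N) * (2 ^ 9 / 2 ^ (92 * N)) ^ k +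
        2 ^ (N * k + N) * (2 ^ (1080 * N + 2 + N) / 2 ^ (2 ^ (160 * N - 6))) := by ring
    _ ≤ 1 / 4 + 1 / 4 := add_le_add hfirst hsecond
    _ < 1 := by norm_num

end FrC
end

section

/-!
Dead edges.

PROOF of `kills_addT`.  Given a valuation `S` on `frameAdd Fr X` define one on `Fr` by
`Q f b U y = S.Q f b U (ext0 y)`.  `(addG G X).bd (ext0 y) = G.bd y` (`bd_ext0`), so
`Fr.Ok v0 U y` iff `(frameAdd Fr X).Ok v0 U (ext0 y)`, and `G.Agree U y y'` implies
`(addG G X).Agree U (ext0 y) (ext0 y')`.  The laws follow.  Decision trees: by induction on `Dec` one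
shows: `Dec (frameAdd Fr X) v0 Q' k U y'` and `y' = ext0 y` imply `Dec Fr v0 (fun b U y => Q' b U (ext0 y)) k U y`
(node: the continuations `y1` of `y` give the continuations `ext0 y1` of `ext0 y`).  `True'` is preserved.
Then apply `KillsT Fr v0 j kk r k` to the new valuation, with the same `cap`, `Fs`, `Ax` etc.
(`(frameAdd Fr X).m = Fr.m`); `AndOf.mono` for the axioms.

The other facts are immediate: the star of `v` in `addG G X` is the disjoint union of the stars, the
cut is the disjoint union of the cuts.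
-/

set_option linter.unusedSectionVars false

namespace FrT

open Finset Fr56 FrC FrG
open scoped Classical

section
variable {V E : Type} [Fintype V] [Fintype E] [DecidableEq V] [DecidableEq E]
  {G : Gph V E} (Fr : Frame G) (v0 : V)

theorem bd_ext0 {E' : Type} [Fintype E'] (X : Gph V E') (y : E → ZMod 2) :
    (addG G X).bd (ext0 y) = G.bd y := by
  funext v
  simp [Gph.bd, addG, ext0, Fintype.sum_sum_type]

/-- the same frame, with dead edges -/
def frameAdd {E' : Type} [Fintype E'] (X : Gph V E') : Frame (addG G X) where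
  m := Fr.m
  Free := Fr.Free
  anti := Fr.anti
  disj := Fr.disj
  ne := Fr.ne
  conn U t t' hU ht ht' := by
    obtain ⟨γ, hγ, h0⟩ := Fr.conn U t t' hU ht ht'
    refine ⟨ext0 γ, by rw [bd_ext0]; exact hγ, ?_⟩
    rintro (e | e) he
    · exact h0 e he
    · rfl

/-- the same special vertices, with dead edges -/
noncomputable def sframeAdd (SF : SFrame Fr) {E' : Type} [Fintype E'] [DecidableEq E']
    (X : Gph V E') : SFrame (frameAdd Fr X) where
  Γ := SF.Γ.image ext0
  SFree := SF.SFree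
  anti := SF.anti
  free := SF.free
  ne := SF.ne
  conn U t t' hU ht ht' := by
    obtain ⟨γ, hΓ, hγ, h0⟩ := SF.conn U t t' hU ht ht'
    refine ⟨ext0 γ, Finset.mem_image_of_mem _ hΓ, by rw [bd_ext0]; exact hγ, ?_⟩
    rintro (e | e) he
    · exact h0 e he
    · rfl

theorem kills_addT {E' : Type} [Fintype E'] [DecidableEq E'] (X : Gph V E') {j kk r k : ℕ}
    (hkill : KillsT Fr v0 j kk r k) : KillsT (frameAdd Fr X) v0 j kk r k := by
  intro Y B Fs i0 cap S hB hcl hFc hkk hcapm hD R hR hRC Ax hAx b hb hbC τ π hπ hlast hall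
  have hok : ∀ (U : Finset V) (y : E → ZMod 2), Fr.Ok v0 U y →
      (frameAdd Fr X).Ok v0 U (ext0 y) := by
    rintro U y ⟨t, h1, h2⟩
    exact ⟨t, by rw [bd_ext0]; exact h1, h2⟩
  have hag : ∀ (U : Finset V) (y y' : E → ZMod 2), G.Agree U y y' →
      (addG G X).Agree U (ext0 y) (ext0 y') := by
    intro U y y' h
    rintro (e | e) he
    · exact h e he
    · rfl
  let S2 : Valn Fr v0 Y {f | f ∈ Fs ∧ lev B f ≤ i0} cap :=
    { Q := fun f b U y => S.Q f b U (ext0 y)
      mono := fun f hf b U U' y y' hU hc hQ ha ho =>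
        S.mono f hf b U U' (ext0 y) (ext0 y') hU hc hQ (hag U y y' ha) (hok U' y' ho)
      uniq := fun f hf U y hc ho h1 h2 => S.uniq f hf U (ext0 y) hc (hok U y ho) h1 h2
      neg := fun f hf hf' b b' U y hc ho h1 h2 =>
        S.neg f hf hf' b b' U (ext0 y) hc (hok U y ho) h1 h2
      and := fun f g hf hg hfg b b' b'' U y hc ho h1 h2 h3 =>
        S.and f g hf hg hfg b b' b'' U (ext0 y) hc (hok U y ho) h1 h2 h3
      or := fun f g hf hg hfg b b' b'' U y hc ho h1 h2 h3 =>
        S.or f g hf hg hfg b b' b'' U (ext0 y) hc (hok U y ho) h1 h2 h3 }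
  have hdec : ∀ (Q' : Bool → Finset V → (E ⊕ E' → ZMod 2) → Prop) (n : ℕ) (U : Finset V)
      (z : E ⊕ E' → ZMod 2), Dec (frameAdd Fr X) v0 Q' n U z → ∀ y : E → ZMod 2, z = ext0 y →
      Dec Fr v0 (fun b U y => Q' b U (ext0 y)) n U y := by
    intro Q' n U z hd
    induction hd with
    | leaf b h =>
      rintro y rfl
      exact Dec.leaf b h
    | node N hN h ih =>
      rintro y rfl
      exact Dec.node N hN fun y1 ha ho => ih (ext0 y1) (hag _ _ _ ha) (hok _ _ ho) y1 rfl
  have hS2D : S2.Dcds kk := by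
    intro f hf y hy
    exact hdec (S.Q f) kk ∅ (ext0 y) (hD f hf (ext0 y) (hok _ _ hy)) y rfl
  refine hkill Y B Fs i0 cap S2 hB hcl hFc hkk hcapm hS2D R hR hRC Ax
    (fun F hF hFs => (hAx F hF hFs).mono fun f _ h => ⟨h.1, fun U y hU hy => ?_⟩) b hb hbC τ π hπ
    hlast hall
  exact h.2 U (ext0 y) hU (hok _ _ hy)

theorem noLoop_add {E' : Type} {X : Gph V E'} (h : G.NoLoop) (h' : X.NoLoop) :
    (addG G X).NoLoop := by
  rintro (e | e)
  · exact h e
  · exact h' e

theorem deg_add {E' : Type} [Fintype E'] {X : Gph V E'} {Δ Δ' : ℕ} (h : G.Deg Δ)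
    (h' : X.Deg Δ') : (addG G X).Deg (Δ + Δ') := by
  intro v
  have e1 : (addG G X).star v = (G.star v).disjSum (X.star v) := by
    ext e
    rcases e with e | e
    · simp [Gph.star, addG]
    · simp [Gph.star, addG]
  rw [e1, Finset.card_disjSum]
  exact Nat.add_le_add (h v) (h' v)

theorem expd_add {E' : Type} [Fintype E'] {X : Gph V E'} {H : ℕ} (h : Expd X H) :
    Expd (addG G X) H := by
  intro A hA
  refine (h A hA).trans (Nat.mul_le_mul_left H ?_)
  rw [← Finset.card_map Function.Embedding.inr]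
  refine Finset.card_le_card fun e he => ?_
  obtain ⟨e', he', rfl⟩ := Finset.mem_map.1 he
  simp only [cut, Finset.mem_filter, Finset.mem_univ, true_and] at he' ⊢
  exact (he')

end

end FrT
end

section

/-!
The closure operator of an expanding graph.

PROOF of `exists_clo`.  For a set `W` of vertices let `Ψ W = 2 H |cut W| - |W|` (an integer), and
`P0 = 2 H Δ m`; so `8 P0 ≤ n`, where `n = |V|`.

(a) `Ψ (W ∪ W') + Ψ (W ∩ W') ≤ Ψ W + Ψ W'`: the cut function is submodular (check edge by edge),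
and `|W ∪ W'| + |W ∩ W'| = |W| + |W'|`.
(b) If `2 |W| ≤ n` then `|W| ≤ H |cut W|`, hence `H |cut W| ≤ Ψ W` and `|W| ≤ Ψ W`; in particular
`0 ≤ Ψ W`, and `0 < Ψ W` if `W ≠ ∅`.
(c) `|cut W| ≤ Δ |W|`, so `Ψ W ≤ 2 H Δ |W|`.

Call `W` a candidate for `U` if `U ⊆ W`, `2 |W| ≤ n`, `Ψ W ≤ P0`.  Call `U` small if it has a candidate.
If `U` is small, let `μ` be the least value of `Ψ` on the candidates of `U`, and let `cl U` be the union
of all candidates `W` with `Ψ W = μ` (call these minimizers).  If `U` is not small let `cl U = univ`.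

(d) Let `W` be a minimizer for `U`, `W'` a candidate for `U'`, `U ⊆ U'`.  Then `|W|, |W'| ≤ P0` by (b), so
`2 |W ∪ W'| ≤ 4 P0 ≤ n`.  And `W ∩ W' ⊇ U`, `2 |W ∩ W'| ≤ n`, and `Ψ (W ∩ W') ≥ Ψ W`: otherwise `W ∩ W'`
would be a candidate for `U` with a smaller value.  So by (a) `Ψ (W ∪ W') ≤ Ψ W'`, and
`W ∪ W'` is a candidate for `U'` with value at most that of `W'`.
(e) By (d) with `U = U'`: the union of two minimizers is a minimizer; so for small `U` the set `cl U` is
itself a minimizer (finite induction; the family of minimizers is nonempty, finite, closed under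
unions), the largest one.
(f) mono: let `U ⊆ U'`.  If `U'` is not small then `cl U' = univ`.  If `U'` is small, so is `U`
(a candidate for `U'` is one for `U`), and by (d) with `W = cl U`, `W' = cl U'` the set `W ∪ W'` is a
minimizer for `U'`, so `cl U ⊆ cl U'`.
(g) idem: `cl univ = univ` (by ext).  If `U` is small, `W = cl U`: `W` is a candidate for `W`; a
candidate `W''` for `W` is one for `U`, so `Ψ W'' ≥ Ψ W`; hence a minimizer `W''` for `W` has
`Ψ W'' = Ψ W` and is a minimizer for `U`, so `W'' ⊆ cl U = W`; thus `cl W ⊆ W`.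
(h) empty: `∅` is a candidate for `∅` with `Ψ ∅ = 0`; by (b) every nonempty candidate has
positive value.
(i) card: let `|U| ≤ m`.  Then `2 |U| ≤ n` (as `16 H Δ m ≤ n`) and `Ψ U ≤ 2 H Δ |U| ≤ P0`, so `U`
is small, and `|cl U| ≤ Ψ (cl U) ≤ Ψ U ≤ 2 H Δ |U|`.
(j) small: let `cl W = W ≠ univ`.  Then `W` is small, and `W = cl W` is a minimizer for `W`, so
`|W| ≤ Ψ W ≤ P0`, `8 |W| ≤ n`.
(k) exp: let `cl W = W ≠ univ`, `A` disjoint from `W`, `2 |A| ≤ n`.  The case `A = ∅` is trivial.  Let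
`b(A, rest)` be the number of edges between `A` and `univ \ (W ∪ A)`, `b(A, W)` the number of edges between
`A` and `W`.
First case `2 |W ∪ A| ≤ n`.  If `Ψ (W ∪ A) ≤ Ψ W` then `W ∪ A` is a candidate for `W` and a minimizer
(`W` itself is a minimizer by (e)), so `W ∪ A ⊆ cl W = W`, a contradiction.  So
`|A| < 2 H (|cut (W ∪ A)| - |cut W|)`, and `|cut (W ∪ A)| - |cut W| = b(A, rest) - b(A, W) ≤ b(A, rest)`.
Second case `2 |W ∪ A| > n`.  Then `2 |A| > n - 2 |W| ≥ 3 n / 4`, so `2 |A| > 6 P0`.  And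
`H |cut W| ≤ Ψ W ≤ P0` by (b), `|A| ≤ H |cut A|` by expansion,
`|cut A| = b(A, rest) + b(A, W) ≤ b(A, rest) + |cut W|`.  So
`|A| ≤ H b(A, rest) + P0 ≤ H b(A, rest) + |A| / 2`.
-/

set_option linter.unusedSectionVars false

namespace FrT

open Finset Fr56 FrC FrG
open scoped Classical

section
variable {V E : Type} [Fintype V] [Fintype E] [DecidableEq V] [DecidableEq E]

/-- the cut has at most `Δ |W|` edges -/
theorem card_cut_le (G : Gph V E) {Δ : ℕ} (hdeg : G.Deg Δ) (W : Finset V) :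
    (cut G W).card ≤ Δ * W.card := by
  have h1 : cut G W ⊆ W.biUnion G.star := by
    intro e he
    simp only [cut, mem_filter, mem_univ, true_and] at he
    simp only [mem_biUnion, Gph.star, mem_filter, mem_univ, true_and]
    by_cases hs : G.src e ∈ W
    · exact ⟨G.src e, hs, Or.inl rfl⟩
    · by_cases ht : G.tgt e ∈ W
      · exact ⟨G.tgt e, ht, Or.inr rfl⟩
      · exact absurd (iff_of_false hs ht) he
  calc (cut G W).card ≤ (W.biUnion G.star).card := card_le_card h1
    _ ≤ ∑ v ∈ W, (G.star v).card := card_biUnion_le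
    _ ≤ ∑ _v ∈ W, Δ := sum_le_sum fun v _ => hdeg v
    _ = Δ * W.card := by rw [sum_const, smul_eq_mul, mul_comm]

/-- the cut function is submodular -/
private theorem cut_submod (G : Gph V E) (W W' : Finset V) :
    (cut G (W ∪ W')).card + (cut G (W ∩ W')).card ≤ (cut G W).card + (cut G W').card := by
  unfold cut
  simp only [card_filter]
  rw [← sum_add_distrib, ← sum_add_distrib]
  refine sum_le_sum fun e _ => ?_
  by_cases h1 : G.src e ∈ W <;> by_cases h2 : G.tgt e ∈ W <;> by_cases h3 : G.src e ∈ W' <;>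
    by_cases h4 : G.tgt e ∈ W' <;> simp [h1, h2, h3, h4]

/-- abstract closure operators from submodular functions -/
private theorem clo_abs (Ψ : Finset V → ℤ) (P0 : ℤ) (n : ℕ)
    (sub : ∀ W W' : Finset V, Ψ (W ∪ W') + Ψ (W ∩ W') ≤ Ψ W + Ψ W')
    (pos : ∀ W : Finset V, 2 * W.card ≤ n → (W.card : ℤ) ≤ Ψ W) (h8 : 8 * P0 ≤ n)
    (h0 : Ψ ∅ ≤ 0) (hP : 0 ≤ P0) :
    ∃ cl : Finset V → Finset V, (∀ U, U ⊆ cl U) ∧ (∀ U U', U ⊆ U' → cl U ⊆ cl U') ∧
      (∀ U, cl (cl U) = cl U) ∧ cl ∅ = ∅ ∧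
      (∀ U : Finset V, 2 * U.card ≤ n → Ψ U ≤ P0 → 2 * (cl U).card ≤ n ∧ Ψ (cl U) ≤ Ψ U) ∧
      ∀ W : Finset V, cl W = W → W ≠ univ → 2 * W.card ≤ n ∧ Ψ W ≤ P0 ∧
        ∀ A : Finset V, 2 * (W ∪ A).card ≤ n → W ∪ A ≠ W → Ψ W < Ψ (W ∪ A) := by
  -- candidates
  obtain ⟨Cand, hCand⟩ : ∃ Cand : Finset V → Finset V → Prop,
      ∀ U W, Cand U W ↔ (U ⊆ W ∧ 2 * W.card ≤ n ∧ Ψ W ≤ P0) := ⟨_, fun _ _ => Iff.rfl⟩
  obtain ⟨Mn, hMn⟩ : ∃ Mn : Finset V → Finset V → Prop,
      ∀ U W, Mn U W ↔ (Cand U W ∧ ∀ W', Cand U W' → Ψ W ≤ Ψ W') := ⟨_, fun _ _ => Iff.rfl⟩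
  -- (d)
  have hd : ∀ U U' W W', U ⊆ U' → Mn U W → Cand U' W' →
      Cand U' (W ∪ W') ∧ Ψ (W ∪ W') ≤ Ψ W' := by
    intro U U' W W' hU hW hW'
    obtain ⟨hc, hmin⟩ := (hMn _ _).1 hW
    obtain ⟨hc1, hc2, hc3⟩ := (hCand _ _).1 hc
    obtain ⟨hd1, hd2, hd3⟩ := (hCand _ _).1 hW'
    have e1 := pos W hc2
    have e2 := pos W' hd2
    have e3 : (W ∪ W').card ≤ W.card + W'.card := card_union_le _ _
    have e4 : 2 * (W ∪ W').card ≤ n := by omega
    have e5 : (W ∩ W').card ≤ W.card := card_le_card inter_subset_left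
    have e6 : 2 * (W ∩ W').card ≤ n := by omega
    have e7 := sub W W'
    have e8 : Ψ W ≤ Ψ (W ∩ W') := by
      by_contra hcon
      push Not at hcon
      have : Cand U (W ∩ W') :=
        (hCand _ _).2 ⟨subset_inter hc1 (hU.trans hd1), e6, by omega⟩
      exact absurd (hmin _ this) (by omega)
    have e9 : Ψ (W ∪ W') ≤ Ψ W' := by omega
    exact ⟨(hCand _ _).2 ⟨hd1.trans subset_union_right, e4, by omega⟩, e9⟩
  -- minimizers exist
  have hb : ∀ U, (∃ W, Cand U W) → ∃ W, Mn U W ∧ ∀ W', Mn U W' → W' ⊆ W := by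
    intro U hU
    have hne : (univ.filter (Cand U)).Nonempty := by
      obtain ⟨W, hW⟩ := hU
      exact ⟨W, by simpa using hW⟩
    obtain ⟨W1, hW1, hW1m⟩ := exists_min_image (univ.filter (Cand U)) Ψ hne
    have hm1 : Mn U W1 := (hMn _ _).2 ⟨by simpa using hW1, fun W' hW' => hW1m W' (by simpa using hW')⟩
    have hne2 : (univ.filter (Mn U)).Nonempty := ⟨W1, by simpa using hm1⟩
    obtain ⟨W2, hW2, hW2m⟩ := exists_max_image (univ.filter (Mn U)) Finset.card hne2
    have hm2 : Mn U W2 := by simpa using hW2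
    refine ⟨W2, hm2, fun W' hW' => ?_⟩
    obtain ⟨hc, hle⟩ := hd U U W2 W' Subset.rfl hm2 ((hMn _ _).1 hW').1
    have hm3 : Mn U (W2 ∪ W') :=
      (hMn _ _).2 ⟨hc, fun W'' hW'' => hle.trans (((hMn _ _).1 hW').2 _ hW'')⟩
    have hcard := hW2m (W2 ∪ W') (by simpa using hm3)
    have heq : W2 = W2 ∪ W' := eq_of_subset_of_card_le subset_union_left hcard
    rw [heq]
    exact subset_union_right
  obtain ⟨cl, hcl1, hcl2⟩ : ∃ cl : Finset V → Finset V,
      (∀ U, (∃ W, Cand U W) → Mn U (cl U) ∧ ∀ W', Mn U W' → W' ⊆ cl U) ∧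
      (∀ U, (¬ ∃ W, Cand U W) → cl U = univ) := by
    refine ⟨fun U => if h : ∃ W, Cand U W then (hb U h).choose else univ, ?_, ?_⟩
    · intro U h
      simp only [h, dite_true]
      exact (hb U h).choose_spec
    · intro U h
      simp only [h, dite_false]
  have hext : ∀ U, U ⊆ cl U := by
    intro U
    by_cases h : ∃ W, Cand U W
    · exact ((hCand _ _).1 ((hMn _ _).1 (hcl1 U h).1).1).1
    · rw [hcl2 U h]
      exact subset_univ _
  have hidem : ∀ U, cl (cl U) = cl U := by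
    intro U
    by_cases h : ∃ W, Cand U W
    · have hW := (hcl1 U h).1
      obtain ⟨hc, hmin⟩ := (hMn _ _).1 hW
      obtain ⟨hc1, hc2, hc3⟩ := (hCand _ _).1 hc
      have hself : Cand (cl U) (cl U) := (hCand _ _).2 ⟨Subset.rfl, hc2, hc3⟩
      have h2 : ∃ W, Cand (cl U) W := ⟨_, hself⟩
      obtain ⟨hm2, _⟩ := hcl1 (cl U) h2
      obtain ⟨hk, hkm⟩ := (hMn _ _).1 hm2
      obtain ⟨hk1, hk2, hk3⟩ := (hCand _ _).1 hk
      refine Subset.antisymm ((hcl1 U h).2 _ ((hMn _ _).2 ⟨(hCand _ _).2 ⟨hc1.trans hk1, hk2, hk3⟩, ?_⟩))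
        hk1
      intro W' hW'
      exact (hkm _ hself).trans (hmin _ hW')
    · have h1 := hcl2 U h
      have := hext (cl U)
      rw [h1] at this ⊢
      exact Subset.antisymm (subset_univ _) this
  refine ⟨cl, hext, ?_, hidem, ?_, ?_, ?_⟩
  · -- mono
    intro U U' hU
    by_cases h' : ∃ W, Cand U' W
    · have h : ∃ W, Cand U W := by
        obtain ⟨W, hW⟩ := h'
        obtain ⟨a, b, c⟩ := (hCand _ _).1 hW
        exact ⟨W, (hCand _ _).2 ⟨hU.trans a, b, c⟩⟩
      obtain ⟨hm', hbig'⟩ := hcl1 U' h'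
      obtain ⟨hm, _⟩ := hcl1 U h
      obtain ⟨hc', hmin'⟩ := (hMn _ _).1 hm'
      obtain ⟨hc, hle⟩ := hd U U' (cl U) (cl U') hU hm hc'
      have hm3 : Mn U' (cl U ∪ cl U') :=
        (hMn _ _).2 ⟨hc, fun W'' hW'' => hle.trans (hmin' _ hW'')⟩
      exact subset_union_left.trans (hbig' _ hm3)
    · rw [hcl2 U' h']
      exact subset_univ _
  · -- empty
    have hce : Cand ∅ ∅ := (hCand _ _).2 ⟨Subset.rfl, by simp, by omega⟩
    obtain ⟨hm, _⟩ := hcl1 ∅ ⟨_, hce⟩
    obtain ⟨hc, hmin⟩ := (hMn _ _).1 hm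
    obtain ⟨_, hc2, _⟩ := (hCand _ _).1 hc
    have h1 := pos _ hc2
    have h2 := hmin _ hce
    have h3 : (cl ∅).card = 0 := by omega
    exact card_eq_zero.1 h3
  · -- card
    intro U hU1 hU2
    have hcu : Cand U U := (hCand _ _).2 ⟨Subset.rfl, hU1, hU2⟩
    obtain ⟨hm, _⟩ := hcl1 U ⟨_, hcu⟩
    obtain ⟨hc, hmin⟩ := (hMn _ _).1 hm
    exact ⟨((hCand _ _).1 hc).2.1, hmin _ hcu⟩
  · intro W hW hWu
    have hs : ∃ W', Cand W W' := by
      by_contra hcon
      exact hWu (hW.symm.trans (hcl2 W hcon))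
    obtain ⟨hm, hbig⟩ := hcl1 W hs
    rw [hW] at hm hbig
    obtain ⟨hc, hmin⟩ := (hMn _ _).1 hm
    obtain ⟨hc1, hc2, hc3⟩ := (hCand _ _).1 hc
    refine ⟨hc2, hc3, ?_⟩
    intro A hA hne
    by_contra hcon
    push Not at hcon
    have hcA : Cand W (W ∪ A) := (hCand _ _).2 ⟨subset_union_left, hA, by omega⟩
    have hmA : Mn W (W ∪ A) := (hMn _ _).2 ⟨hcA, fun W'' hW'' => hcon.trans (hmin _ hW'')⟩
    exact hne (Subset.antisymm (hbig _ hmA) subset_union_left)

/-- **closure operators** -/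
theorem exists_clo (G : Gph V E) {Δ H m : ℕ} (hdeg : G.Deg Δ) (hH : 1 ≤ H) (hΔ : 1 ≤ Δ)
    (hexp : Expd G H) (hm : 16 * H * Δ * m ≤ Fintype.card V) :
    Nonempty (Clo G (2 * H * Δ) (2 * H) m) := by
  set n := Fintype.card V with hn
  have hpos : ∀ W : Finset V, 2 * W.card ≤ n →
      (W.card : ℤ) ≤ 2 * H * (cut G W).card - W.card := by
    intro W hW
    have h1 := hexp W hW
    have h2 : (W.card : ℤ) ≤ H * (cut G W).card := by exact_mod_cast h1
    linarith
  have hPΨ : ∀ U : Finset V, (2 * H * (cut G U).card - U.card : ℤ) ≤ 2 * H * Δ * U.card := by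
    intro U
    have h1 := card_cut_le G hdeg U
    have h2 : ((cut G U).card : ℤ) ≤ Δ * U.card := by exact_mod_cast h1
    have h3 : (2 * H * (cut G U).card : ℤ) ≤ 2 * H * (Δ * U.card) :=
      mul_le_mul_of_nonneg_left h2 (by positivity)
    have h4 : (0 : ℤ) ≤ U.card := by positivity
    nlinarith
  obtain ⟨cl, hext, hmono, hidem, hempty, hcard, hbig⟩ :=
    clo_abs (V := V) (fun W => 2 * H * (cut G W).card - W.card) (2 * H * Δ * m) n
      (by
        intro W W'
        have h1 := cut_submod G W W'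
        have h2 : (W ∪ W').card + (W ∩ W').card = W.card + W'.card := card_union_add_card_inter _ _
        have h1' : ((cut G (W ∪ W')).card + (cut G (W ∩ W')).card : ℤ) ≤
          (cut G W).card + (cut G W').card := by exact_mod_cast h1
        have h2' : ((W ∪ W').card + (W ∩ W').card : ℤ) = W.card + W'.card := by exact_mod_cast h2
        have h3 : (2 * H * ((cut G (W ∪ W')).card + (cut G (W ∩ W')).card) : ℤ) ≤
          2 * H * ((cut G W).card + (cut G W').card) :=
          mul_le_mul_of_nonneg_left h1' (by positivity)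
        linarith)
      hpos
      (by
        have : ((16 * H * Δ * m : ℕ) : ℤ) ≤ (n : ℤ) := by exact_mod_cast hm
        push_cast at this
        linarith)
      (by simp [cut])
      (by positivity)
  have hsm : ∀ U : Finset V, U.card ≤ m → 2 * U.card ≤ n ∧
      (2 * H * (cut G U).card - U.card : ℤ) ≤ 2 * H * Δ * m := by
    intro U hU
    constructor
    · have h1 : m ≤ H * Δ * m := Nat.le_mul_of_pos_left m (Nat.mul_pos hH hΔ)
      have h2 : 16 * H * Δ * m = 16 * (H * Δ * m) := by ring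
      omega
    · refine (hPΨ U).trans ?_
      have : (U.card : ℤ) ≤ m := by exact_mod_cast hU
      exact mul_le_mul_of_nonneg_left this (by positivity)
  have h8 : (16 * H * Δ * m : ℤ) ≤ n := by exact_mod_cast hm
  refine ⟨⟨cl, hext, hmono, hidem, hempty, ?_, ?_, ?_⟩⟩
  · intro U hU
    obtain ⟨h1, h2⟩ := hcard U (hsm U hU).1 (hsm U hU).2
    have h3 := hpos _ h1
    have h4 := hPΨ U
    have h5 : ((cl U).card : ℤ) ≤ 2 * H * Δ * U.card := h3.trans (h2.trans h4)
    exact_mod_cast h5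
  · intro W hW hWu
    obtain ⟨h1, h2, _⟩ := hbig W hW hWu
    have h3 := (hpos _ h1).trans h2
    have h4 : (8 * W.card : ℤ) ≤ n := by linarith
    exact_mod_cast h4
  · intro W hW hWu A hA hA2
    obtain ⟨h1, h2, h3⟩ := hbig W hW hWu
    have hb1 : cut G (W ∪ A) ⊆ cut G W ∪ btw G ∅ A (univ \ (W ∪ A)) := by
      intro e he
      simp only [cut, btw, mem_filter, mem_univ, true_and, mem_union, mem_sdiff, notMem_empty,
        not_false_eq_true] at he ⊢
      tauto
    have hb2 : cut G A ⊆ cut G W ∪ btw G ∅ A (univ \ (W ∪ A)) := by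
      intro e he
      have hd : ∀ v ∈ A, v ∉ W := fun v hv => disjoint_left.1 hA hv
      have hds := hd (G.src e)
      have hdt := hd (G.tgt e)
      simp only [cut, btw, mem_filter, mem_univ, true_and, mem_union, mem_sdiff, notMem_empty,
        not_false_eq_true] at he ⊢
      tauto
    set b := (btw G ∅ A (univ \ (W ∪ A))).card with hb
    have hc1 : (cut G (W ∪ A)).card ≤ (cut G W).card + b :=
      (card_le_card hb1).trans (card_union_le _ _)
    have hc2 : (cut G A).card ≤ (cut G W).card + b :=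
      (card_le_card hb2).trans (card_union_le _ _)
    rcases A.eq_empty_or_nonempty with rfl | hAne
    · simp
    have hcA : 0 < A.card := card_pos.2 hAne
    have hcu : (W ∪ A).card = W.card + A.card := card_union_of_disjoint hA.symm
    by_cases hcase : 2 * (W ∪ A).card ≤ n
    · have hne : W ∪ A ≠ W := by
        intro h
        have := congrArg card h
        omega
      have h4 : (2 * H * (cut G W).card - W.card : ℤ) <
        2 * H * (cut G (W ∪ A)).card - (W ∪ A).card := h3 A hcase hne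
      have h5 : (2 * H * (cut G (W ∪ A)).card : ℤ) ≤ 2 * H * ((cut G W).card + b) := by
        refine mul_le_mul_of_nonneg_left ?_ (by positivity)
        exact_mod_cast hc1
      have h6 : ((W ∪ A).card : ℤ) = W.card + A.card := by exact_mod_cast hcu
      have h7 : (A.card : ℤ) ≤ 2 * H * b := by
        rw [h6] at h4
        linarith
      exact_mod_cast h7
    · have h4 : (A.card : ℤ) ≤ H * (cut G A).card := by exact_mod_cast hexp A hA2
      have h5 : (H * (cut G A).card : ℤ) ≤ H * ((cut G W).card + b) := by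
        refine mul_le_mul_of_nonneg_left ?_ (by positivity)
        exact_mod_cast hc2
      have h6 : (W.card : ℤ) ≤ H * (cut G W).card := by exact_mod_cast hexp W h1
      have h7 : (W.card : ℤ) ≤ 2 * H * (cut G W).card - W.card := hpos W h1
      have h8' : (n : ℤ) < 2 * (W.card + A.card) := by
        rw [hcu] at hcase
        push Not at hcase
        exact_mod_cast hcase
      have h9 : (2 * H * (cut G W).card - W.card : ℤ) ≤ 2 * H * Δ * m := h2
      have h10 : (A.card : ℤ) ≤ 2 * H * b := by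
        have h11 : (0 : ℤ) ≤ H * b := by positivity
        nlinarith
      exact_mod_cast h10

end

end FrT
end

section

/-!
Shallow formulas.  `ShT s f`: each subformula of `f` has decision tree depth at most `s`.
-/

set_option linter.unusedSectionVars false

namespace FrT

open Finset Fr56 FrC FrG
open scoped Classical

/-- every subformula has decision tree depth at most `s` -/
def ShT {X : Type} (s : ℕ) (f : Fm X) : Prop :=
  ∀ g ∈ f.subs, ∃ A : Dtree X, A.depth ≤ s ∧ ∀ x, A.eval x = g.eval x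

/-! ### negating, grafting and mapping trees -/

/-- the tree with negated leaves -/
private def dneg {X : Type} : Dtree X → Dtree X
  | .leaf b => .leaf (!b)
  | .node v l r => .node v (dneg l) (dneg r)

private theorem depth_dneg {X : Type} (A : Dtree X) : (dneg A).depth = A.depth := by
  induction A with
  | leaf b => rfl
  | node v l r ihl ihr => simp only [dneg, Dtree.depth, ihl, ihr]

private theorem eval_dneg {X : Type} (A : Dtree X) (x : X → Bool) :
    (dneg A).eval x = !(A.eval x) := by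
  induction A with
  | leaf b => rfl
  | node v l r ihl ihr =>
    by_cases h : x v = true
    · simp only [dneg, Dtree.eval, h, if_true, ihr]
    · simp only [dneg, Dtree.eval, h, ihl, if_false, Bool.false_eq_true]

/-- the tree with the leaf `false` replaced by `B` and the leaf `true` replaced by `C` -/
private def dgraft {X : Type} (B C : Dtree X) : Dtree X → Dtree X
  | .leaf b => if b = true then C else B
  | .node v l r => .node v (dgraft B C l) (dgraft B C r)

private theorem depth_dgraft {X : Type} (B C A : Dtree X) {m : ℕ} (hB : B.depth ≤ m)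
    (hC : C.depth ≤ m) : (dgraft B C A).depth ≤ A.depth + m := by
  induction A with
  | leaf b =>
    simp only [dgraft, Dtree.depth]
    split_ifs <;> omega
  | node v l r ihl ihr =>
    simp only [dgraft, Dtree.depth]
    omega

private theorem eval_dgraft {X : Type} (B C A : Dtree X) (x : X → Bool) :
    (dgraft B C A).eval x = if A.eval x = true then C.eval x else B.eval x := by
  induction A with
  | leaf b => cases b <;> rfl
  | node v l r ihl ihr =>
    by_cases h : x v = true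
    · simp only [dgraft, Dtree.eval, h, if_true, ihr]
    · simp only [dgraft, Dtree.eval, h, ihl, if_false, Bool.false_eq_true]

/-- the tree over other variables -/
private def dmap {X Y : Type} (τ : X → Y) : Dtree X → Dtree Y
  | .leaf b => .leaf b
  | .node v l r => .node (τ v) (dmap τ l) (dmap τ r)

private theorem depth_dmap {X Y : Type} (τ : X → Y) (A : Dtree X) :
    (dmap τ A).depth = A.depth := by
  induction A with
  | leaf b => rfl
  | node v l r ihl ihr => simp only [dmap, Dtree.depth, ihl, ihr]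

private theorem eval_dmap {X Y : Type} (τ : X → Y) (A : Dtree X) (x : Y → Bool) :
    (dmap τ A).eval x = A.eval (x ∘ τ) := by
  induction A with
  | leaf b => rfl
  | node v l r ihl ihr => simp only [dmap, Dtree.eval, ihl, ihr, Function.comp_apply]

/-- a formula with `q` occurrences of variables is computed by a tree of depth `q` -/
private theorem exists_dtree {X : Type} (f : Fm X) :
    ∃ A : Dtree X, A.depth ≤ f.leaves ∧ ∀ x, A.eval x = f.eval x := by
  induction f with
  | var v =>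
    refine ⟨.node v (.leaf false) (.leaf true), by simp [Dtree.depth, Fm.leaves], fun x => ?_⟩
    cases h : x v <;> simp [Dtree.eval, Fm.eval, h]
  | neg f ih =>
    obtain ⟨A, hA1, hA2⟩ := ih
    refine ⟨dneg A, by rw [depth_dneg]; simpa only [Fm.leaves] using hA1, fun x => ?_⟩
    rw [eval_dneg, hA2, Fm.eval]
  | and f g ihf ihg =>
    obtain ⟨A, hA1, hA2⟩ := ihf
    obtain ⟨B, hB1, hB2⟩ := ihg
    refine ⟨dgraft (.leaf false) B A, ?_, fun x => ?_⟩
    · refine (depth_dgraft (.leaf false) B A (Nat.zero_le B.depth) le_rfl).trans ?_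
      simp only [Fm.leaves]
      omega
    · rw [eval_dgraft, hA2, hB2]
      simp only [Fm.eval, Dtree.eval]
      cases f.eval x <;> simp
  | or f g ihf ihg =>
    obtain ⟨A, hA1, hA2⟩ := ihf
    obtain ⟨B, hB1, hB2⟩ := ihg
    refine ⟨dgraft B (.leaf true) A, ?_, fun x => ?_⟩
    · refine (depth_dgraft B (.leaf true) A le_rfl (Nat.zero_le B.depth)).trans ?_
      simp only [Fm.leaves]
      omega
    · rw [eval_dgraft, hA2, hB2]
      simp only [Fm.eval, Dtree.eval]
      cases f.eval x <;> simp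

private theorem leaves_subs_t {X : Type} {f g : Fm X} (h : f ∈ g.subs) : f.leaves ≤ g.leaves := by
  induction g with
  | var v => simp only [Fm.subs, List.mem_singleton] at h; subst h; rfl
  | neg g ih =>
    simp only [Fm.subs, List.mem_cons] at h
    rcases h with rfl | h
    · rfl
    · exact ih h
  | and g1 g2 ih1 ih2 =>
    simp only [Fm.subs, List.mem_cons, List.mem_append] at h
    rcases h with rfl | h | h
    · rfl
    · have := ih1 h; simp only [Fm.leaves]; omega
    · have := ih2 h; simp only [Fm.leaves]; omega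
  | or g1 g2 ih1 ih2 =>
    simp only [Fm.subs, List.mem_cons, List.mem_append] at h
    rcases h with rfl | h | h
    · rfl
    · have := ih1 h; simp only [Fm.leaves]; omega
    · have := ih2 h; simp only [Fm.leaves]; omega

private theorem subs_map_t {X Y : Type} (τ : X → Y) (f : Fm X) :
    (f.map τ).subs = f.subs.map (Fm.map τ) := by
  induction f with
  | var v => rfl
  | neg f ih => simp [Fm.map, Fm.subs, ih]
  | and f g ihf ihg => simp [Fm.map, Fm.subs, ihf, ihg]
  | or f g ihf ihg => simp [Fm.map, Fm.subs, ihf, ihg]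

/-! ### the lemmas -/

theorem bas_ShT {X : Type} {s : ℕ} (hs : 1 ≤ s) : Bas (ShT (X := X) s) where
  var v := by
    intro g hg
    simp only [Fm.subs, List.mem_singleton] at hg
    subst hg
    refine ⟨.node v (.leaf false) (.leaf true), by simpa [Dtree.depth] using hs, fun x => ?_⟩
    cases h : x v <;> simp [Dtree.eval, Fm.eval, h]
  neg f := by
    constructor
    · intro h g hg
      exact h g (by simp only [Fm.subs, List.mem_cons]; exact Or.inr hg)
    · intro h g hg
      simp only [Fm.subs, List.mem_cons] at hg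
      rcases hg with rfl | hg
      · obtain ⟨A, hA1, hA2⟩ := h f (Fm.self_mem_subs f)
        refine ⟨dneg A, by rw [depth_dneg]; exact hA1, fun x => ?_⟩
        rw [eval_dneg, hA2, Fm.eval]
      · exact h g hg
  and f g h := by
    constructor
    · intro g' hg'
      exact h g' (by
        simp only [Fm.subs, List.mem_cons, List.mem_append]
        exact Or.inr (Or.inl hg'))
    · intro g' hg'
      exact h g' (by
        simp only [Fm.subs, List.mem_cons, List.mem_append]
        exact Or.inr (Or.inr hg'))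
  or f g h := by
    constructor
    · intro g' hg'
      exact h g' (by
        simp only [Fm.subs, List.mem_cons, List.mem_append]
        exact Or.inr (Or.inl hg'))
    · intro g' hg'
      exact h g' (by
        simp only [Fm.subs, List.mem_cons, List.mem_append]
        exact Or.inr (Or.inr hg'))

theorem shT_of_leaves {X : Type} {s : ℕ} {f : Fm X} (h : f.leaves ≤ s) : ShT s f := by
  intro g hg
  obtain ⟨A, hA1, hA2⟩ := exists_dtree g
  exact ⟨A, hA1.trans ((leaves_subs_t hg).trans h), hA2⟩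

theorem shT_map {X Y : Type} (τ : X → Y) {κ : ℝ} {s : ℕ} (hκ : ∀ q : ℕ, (q : ℝ) ≤ κ → q ≤ s)
    {f : Fm X} (h : Shallow κ f) : ShT s (f.map τ) := by
  intro g hg
  rw [subs_map_t, List.mem_map] at hg
  obtain ⟨g', hg', rfl⟩ := hg
  obtain ⟨A, hA1, hA2⟩ := h g' hg'
  refine ⟨dmap τ A, ?_, fun x => ?_⟩
  · rw [depth_dmap]
    exact hκ _ hA1
  · rw [eval_dmap, hA2, Fm.eval_map]

end FrT
end

section

/-!
The decision tree of a formula given by certificates: the process with detours.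

PROOF of `dec_auxT`.  Compare `dec_aux` in C/CertB.lean (the same argument with one query per step).
Let `B0 = K * ((2 + C₁) * R)`.  Induction on a number `m ≥ R - totL c`.
Given the run `c` at `y` with `Ok (Us c) y`, `totL c < R`; put `U = De.Us c`.
If no certificate in `𝒞` is possible at `(U, y)`: leaf `!σ`.  Otherwise let `C` be the first possible
certificate (smallest `idx`), `L` the set of the edges of `cov (G.tall Q) a C.1` not in `incT G Q U`.
If `L = ∅`: leaf `σ` (copy from `dec_aux`).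
If `L ≠ ∅`: `|L| ≤ (Δ + 2) k`.  First node: reveal `N1 = plc G Q L`.  Let `y'` agree with `y` on `U`,
`Ok (U ∪ N1) y'`.  `Step` holds at `(U, y')` too (`Step_congr`).  Let `z, t` be the witness of `Poss` for
`C` at `(U, y')`, `P = L.filter (fun e => z e ≠ iota y' e)`.  Then `StepT ... U y' C L P`.
Second node: `N2 = De.Us (k :: c)` with `k = (L, P)`; the state is `U ∪ N1 ∪ N2 = De.Us (k :: c)` (by
`Us_cons_sub`, `plc_sub_Us`).  For `y''` that agrees with `y'` on `U ∪ N1`, `Ok (Us (k :: c)) y''`: the run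
`k :: c` is consistent with `y''`: for `c` by `Run_congr`; for the last step: `StepT` at `(U, y'')` since
`y''` agrees with `y'` on `U` (`Step_congr`, and `iota_agree`) and on the edges touching `N1`; an edge
in `L` is in `incT G Q N1` (`mem_incT_plc`), so `iota y'' e = iota y' e` for `e ∈ L`.
`totL (k :: c) < R`: otherwise `R ≤ totL (k :: c) < R + (Δ + 2) k`, contradicting `NoLongT` for the run
`k :: c`; to use `NoLongT` we need one `y''` as above with `Ok (Us (k :: c)) y''`: here we are given it.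
(In the first node `y'` is given by the decision tree, in the second node `y''` is given; the bound is
derived inside, where `y''` is available.)
Budget.  Let `b c = B0 - |De.Us c|` (natural subtraction).  We show `Dec ... (b c) (De.Us c) y`.  The
numbers revealed: first node `n1 = |U ∪ N1| - |U|`, where `Dec.node` needs a set `N` with `|N| ≤ n` and
gives the state `U ∪ N`: use `N = N1 \ U`, `|N1 \ U| = |U ∪ N1| - |U|`, and `U ∪ (N1 \ U) = U ∪ N1`;
second node `N = De.Us (k :: c) \ (U ∪ N1)`.  `n1 + n2 = |De.Us (k :: c)| - |U|`.  We need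
`n1 + n2 + b (k :: c) ≤ b c`, i.e. `|De.Us (k :: c)| ≤ B0`: by `card_Us` as `totL (k :: c) < R`.  This
needs the existence of a continuation; if in the second node there is no `y''` at all the node is
trivially decided, but the budget of the second node must still be at most `b c - n1`; to avoid this
problem get `totL (k :: c) < R` BEFORE building the nodes: by `Fr.move` (C/FrameA) there are
continuations `y'`, `y''` with `Ok` if the sets have at most `Fr.m` elements: `|De.Us (k :: c)| ≤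
K (2 + C₁) (R + (Δ + 2) k) ≤ Fr.m`.  Precisely: after the first node (given `y'`, `P`, `k = (L, P)`), use
`Fr.move` with `U ∪ N1 ⊆ De.Us (k :: c)` to get some `y''`, the run at `y''`, hence by `NoLongT`
`totL (k :: c) < R`, and so `|De.Us (k :: c)| ≤ B0`.  For the first node we need only
`n1 ≤ b c`-type bounds: `n1 ≤ 2 |L|`; apply `Fr.move` already before the first node to get one `y'`
(with `Ok (U ∪ N1) y'`), its `P`, and then `|U ∪ N1| ≤ |De.Us (k :: c)| ≤ B0`.  Then the first node has the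
budget `n1 + (B0 - |U ∪ N1|) = B0 - |U|` for all `y'`, and the second
`n2 + (B0 - |De.Us (k :: c)|) = B0 - |U ∪ N1|`.
-/

set_option linter.unusedSectionVars false

namespace FrT

open Finset Fr56 FrC FrG
open scoped Classical

section
variable {V E : Type} [Fintype V] [Fintype E] [DecidableEq V] [DecidableEq E]
  {G : Gph V E} {Q K C₁ m : ℕ} (Fr : Frame G) (v0 : V) {D : ℕ} (α : Xt (TE V E Q) D → ZMod 2)
  (a : TV V Q → A D) (De : Detour G Q K C₁ m)

private theorem exists_firstT {𝒞 : Set (Cert V E Q D)} {U : Finset V} {y : E → ZMod 2}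
    (hp : ∃ C ∈ 𝒞, Poss Fr v0 α a C U y) :
    ∃ C ∈ 𝒞, Poss Fr v0 α a C U y ∧ ∀ C' ∈ 𝒞, idx C' < idx C → ¬ Poss Fr v0 α a C' U y := by
  have hex : ∃ i, ∃ C ∈ 𝒞, Poss Fr v0 α a C U y ∧ idx C = i := by
    obtain ⟨C, hC, hP⟩ := hp
    exact ⟨idx C, C, hC, hP, rfl⟩
  obtain ⟨C, hC, hP, hi⟩ := Nat.find_spec hex
  refine ⟨C, hC, hP, fun C' hC' hlt hP' => ?_⟩
  rw [hi] at hlt
  exact Nat.find_min hex hlt ⟨C', hC', hP', rfl⟩

/-- the pattern of a step and its stability -/
private theorem stepT_of_step {𝒞 : Set (Cert V E Q D)} {U : Finset V} {y : E → ZMod 2}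
    {C : Cert V E Q D} {L : Finset (TE V E Q)} (h : Step Fr v0 α a 𝒞 U y C L) :
    ∃ P : Finset (TE V E Q), ∀ y' : E → ZMod 2, G.Agree (U ∪ plc G Q L) y y' →
      StepT Fr v0 α a 𝒞 U y' C L P := by
  obtain ⟨z, t, hz, hb, hf, hm⟩ := h.2.1
  refine ⟨L.filter fun e => z e ≠ iota y e, fun y' hy' => ?_⟩
  have hyU : G.Agree U y y' := hy'.mono Finset.subset_union_left
  have hyN : G.Agree (plc G Q L) y y' := hy'.mono Finset.subset_union_right
  refine ⟨Step_congr Fr v0 α a h hyU, Finset.filter_subset _ _, z, t, fun e he => ?_, hb, hf, hm,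
    fun e he => ?_⟩
  · rw [hz e he]
    exact iota_agree G hyU e he
  · rw [Finset.mem_filter, iota_agree G hyN e (mem_incT_plc G he)]
    exact ⟨fun h => h.2, fun h => ⟨he, h⟩⟩

theorem dec_auxT {Δ k R : ℕ} (hdeg : G.Deg Δ) {𝒞 : Set (Cert V E Q D)}
    (h𝒞 : ∀ C ∈ 𝒞, C.1.card ≤ k) (hno : NoLongT Fr v0 α a De 𝒞 R (R + (Δ + 2) * k))
    (hm : (2 + C₁) * (R + (Δ + 2) * k) ≤ m)
    (hmF : K * ((2 + C₁) * (R + (Δ + 2) * k)) ≤ Fr.m) (σ : Bool) :
    ∀ (n : ℕ) (c : List (LP V E Q)) (y : E → ZMod 2), R - totL c ≤ n →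
      Run Fr v0 α a De 𝒞 y c → Fr.Ok v0 (De.Us c) y → totL c < R →
      Dec Fr v0 (fun b U y => if b = σ then QC (G := G) α a 𝒞 U y else QN Fr v0 α a 𝒞 U y)
        (K * ((2 + C₁) * R) - (De.Us c).card) (De.Us c) y := by
  intro n
  induction n with
  | zero =>
    intro c y h0 _ _ hlt
    omega
  | succ n ih =>
    intro c y hle hrun hok hlt
    by_cases hp : ∃ C ∈ 𝒞, Poss Fr v0 α a C (De.Us c) y
    swap
    · refine Dec.leaf (!σ) ?_
      have hne : (!σ) ≠ σ := by cases σ <;> simp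
      rw [if_neg hne]
      intro C hC hP
      exact hp ⟨C, hC, hP⟩
    obtain ⟨C, hC, hP, hfirst⟩ := exists_firstT Fr v0 α a hp
    set L : Finset (TE V E Q) :=
      (cov (G.tall Q) a C.1).filter (fun e => e ∉ incT G Q (De.Us c)) with hL
    have hmem : ∀ e, e ∈ L ↔ Tch (G.tall Q) a C.1 e ∧ e ∉ incT G Q (De.Us c) := by
      intro e
      rw [hL, Finset.mem_filter, cov, Finset.mem_filter]
      constructor
      · rintro ⟨⟨_, h1⟩, h2⟩
        exact ⟨h1, h2⟩
      · rintro ⟨h1, h2⟩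
        exact ⟨⟨Finset.mem_univ _, h1⟩, h2⟩
    rcases Finset.eq_empty_or_nonempty L with hL0 | hLne
    · -- all live edges at the certificate are known
      have hall : ∀ e, Tch (G.tall Q) a C.1 e → e ∈ incT G Q (De.Us c) := by
        intro e he
        by_contra hcon
        have := (hmem e).2 ⟨he, hcon⟩
        rw [hL0] at this
        exact absurd this (Finset.notMem_empty e)
      refine Dec.leaf σ ?_
      rw [if_pos rfl]
      obtain ⟨z, t, hz, _, _, hmatch⟩ := hP
      refine ⟨C, hC, ?_, ?_⟩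
      · intro u hu
        rw [← hmatch u hu]
        simp only [Pi.add_apply, Pth]
        by_cases hlive : live (G.tall Q) a u
        · rw [if_pos hlive, if_pos hlive, hz u.e (hall u.e ⟨u, rfl, hlive, hu⟩)]
        · rw [if_neg hlive, if_neg hlive]
      · intro e he
        exact (inl_mem_incT G).1 (hall _ he)
    · have hLcard : L.card ≤ (Δ + 2) * k := by
        calc L.card ≤ (cov (G.tall Q) a C.1).card := Finset.card_filter_le _ _
          _ ≤ (Δ + 2) * C.1.card :=
            card_cov (G.tall Q) (by omega) (deg_tall G hdeg) a C.1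
          _ ≤ (Δ + 2) * k := Nat.mul_le_mul_left _ (h𝒞 C hC)
      have hLpos : 0 < L.card := Finset.card_pos.2 hLne
      have hstep : Step Fr v0 α a 𝒞 (De.Us c) y C L := ⟨hC, hP, hfirst, hmem, hLne⟩
      have htotP : ∀ P : Finset (TE V E Q), totL ((L, P) :: c) = totL c + L.card := fun _ => rfl
      have hsubP : ∀ P : Finset (TE V E Q),
          De.Us c ∪ plc G Q L ⊆ De.Us ((L, P) :: c) := fun P =>
        Finset.union_subset (Us_cons_sub De (L, P) c) (plc_sub_Us De (L, P) c)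
      have hcardP : ∀ P : Finset (TE V E Q),
          (De.Us ((L, P) :: c)).card ≤ K * ((2 + C₁) * (totL c + L.card)) := fun P => by
        have := card_Us De ((L, P) :: c) (by
          rw [htotP]
          exact (Nat.mul_le_mul_left _ (by omega)).trans hm)
        rwa [htotP] at this
      have hcardm : ∀ P : Finset (TE V E Q), (De.Us ((L, P) :: c)).card ≤ Fr.m := fun P =>
        (hcardP P).trans ((Nat.mul_le_mul_left _ (Nat.mul_le_mul_left _ (by omega))).trans hmF)
      have hN1m : (De.Us c ∪ plc G Q L).card ≤ Fr.m :=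
        (Finset.card_le_card (hsubP ∅)).trans (hcardm ∅)
      -- the run with one more step
      have hpat : ∀ y' : E → ZMod 2, G.Agree (De.Us c) y y' →
          ∃ P : Finset (TE V E Q), ∀ y'' : E → ZMod 2,
            G.Agree (De.Us c ∪ plc G Q L) y' y'' → Run Fr v0 α a De 𝒞 y'' ((L, P) :: c) := by
        intro y' hyy'
        obtain ⟨P, hPs⟩ := stepT_of_step Fr v0 α a (Step_congr Fr v0 α a hstep hyy')
        refine ⟨P, fun y'' hy'' => ⟨?_, C, hPs y'' hy''⟩⟩
        exact Run_congr De hrun (hyy'.trans (hy''.mono Finset.subset_union_left))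
      -- the number of edges stays small
      have htot' : totL c + L.card < R := by
        by_contra hcon
        push Not at hcon
        obtain ⟨y', hyy', hok'⟩ := Fr.move Finset.subset_union_left hN1m hok
        obtain ⟨P, hPs⟩ := hpat y' hyy'
        obtain ⟨y'', hyy'', hok''⟩ := Fr.move (hsubP P) (hcardm P) hok'
        exact hno ((L, P) :: c) y'' (hPs y'' hyy'') hok'' (by rw [htotP]; exact hcon)
          (by rw [htotP]; omega)
      have hB : ∀ P : Finset (TE V E Q),
          (De.Us ((L, P) :: c)).card ≤ K * ((2 + C₁) * R) := fun P =>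
        (hcardP P).trans (Nat.mul_le_mul_left _ (Nat.mul_le_mul_left _ (by omega)))
      have hB1 : (De.Us c ∪ plc G Q L).card ≤ K * ((2 + C₁) * R) :=
        (Finset.card_le_card (hsubP ∅)).trans (hB ∅)
      have hc1 : (De.Us c ∪ plc G Q L).card = (De.Us c).card + (plc G Q L \ De.Us c).card := by
        rw [← Finset.union_sdiff_self_eq_union, Finset.card_union_of_disjoint
          Finset.disjoint_sdiff]
      have hbud : K * ((2 + C₁) * R) - (De.Us c).card =
          (plc G Q L \ De.Us c).card + (K * ((2 + C₁) * R) - (De.Us c ∪ plc G Q L).card) := by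
        omega
      rw [hbud]
      refine Dec.node (plc G Q L \ De.Us c) le_rfl fun y' hyy' hok' => ?_
      rw [Finset.union_sdiff_self_eq_union] at hok' ⊢
      obtain ⟨P, hPs⟩ := hpat y' hyy'
      have hun : (De.Us c ∪ plc G Q L) ∪ (De.Us ((L, P) :: c) \ (De.Us c ∪ plc G Q L)) =
          De.Us ((L, P) :: c) := Finset.union_sdiff_of_subset (hsubP P)
      have hc2 : (De.Us ((L, P) :: c)).card = (De.Us c ∪ plc G Q L).card +
          (De.Us ((L, P) :: c) \ (De.Us c ∪ plc G Q L)).card := by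
        conv_lhs => rw [← hun]
        exact Finset.card_union_of_disjoint Finset.disjoint_sdiff
      have hbud2 : K * ((2 + C₁) * R) - (De.Us c ∪ plc G Q L).card =
          (De.Us ((L, P) :: c) \ (De.Us c ∪ plc G Q L)).card +
            (K * ((2 + C₁) * R) - (De.Us ((L, P) :: c)).card) := by
        have := hB P
        omega
      rw [hbud2]
      refine Dec.node (De.Us ((L, P) :: c) \ (De.Us c ∪ plc G Q L)) le_rfl
        fun y'' hyy'' hok'' => ?_
      rw [hun] at hok'' ⊢
      exact ih ((L, P) :: c) y'' (by rw [htotP]; omega) (hPs y'' hyy'') hok''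
        (by rw [htotP]; exact htot')

/-- **the decision tree that looks for the first possible certificate** -/
theorem dec_of_noLongT {Δ k R : ℕ} (hdeg : G.Deg Δ) {𝒞 : Set (Cert V E Q D)}
    (h𝒞 : ∀ C ∈ 𝒞, C.1.card ≤ k) (hno : NoLongT Fr v0 α a De 𝒞 R (R + (Δ + 2) * k)) (hR : 0 < R)
    (hm : (2 + C₁) * (R + (Δ + 2) * k) ≤ m)
    (hmF : K * ((2 + C₁) * (R + (Δ + 2) * k)) ≤ Fr.m)
    (σ : Bool) (y : E → ZMod 2) (hok : Fr.Ok v0 ∅ y) :
    Dec Fr v0 (fun b U y => if b = σ then QC (G := G) α a 𝒞 U y else QN Fr v0 α a 𝒞 U y)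
      (K * ((2 + C₁) * R)) ∅ y := by
  have h := dec_auxT Fr v0 α a De hdeg h𝒞 hno hm hmF σ R [] y (by simp [totL]) trivial
    (by simpa [Detour.Us] using hok) (by simpa [totL] using hR)
  simpa [Detour.Us] using h

end

end FrT
end

section

/-!
The frame of an expanding graph; special vertices and paths.

PROOFS.  `cloFrame`: `ne`: `|cl U| ≤ K |U| ≤ K m < |V|`; `conn`: `clo_path` for the closed set
`W = cl U`, and `G.inc U ⊆ G.inc W`.
`cloSFrame`: `Γ` is the set of all chains with at most `2 Ld H Δ |V|` edges in the support.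
`card_short`: a chain is determined by its support, a set of at most `N` edges; the number of such
sets is at most `(|E| + 1)^N` (choose a function `Fin N → Option E` with this image; the private
theorem `card_small_c2` in C/Switch2.lean is this statement).
`sframeBlow`: the special vertices of the blow-up for `Y` are the centers `cen (t, 0) 0`, `t` special for
`Unc G Q Y`; `anti`: `Unc` is monotone; `free`: `FrC.bFree_cen`; `ne`: `FrC.card_Unc`
(`|Unc Y| ≤ 2 |Y| ≤ Fr.m`, as `(Fr.blow ..).m = Fr.m / 2`); `conn`: the lift `Pth (fun _ => 0) (iota γ)` of the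
path `γ ∈ SF.Γ`: `FrC.bd_Pth_path`, `FrC.bd_iota_path`, `FrC.Pth_eq_zero_of_Unc`, `FrC.iota_eq_zero`
(compare `bFree_conn` in C/FrameB.lean).
-/

set_option linter.unusedSectionVars false

namespace FrT

open Finset Fr56 FrC FrG
open scoped Classical

section
variable {V E : Type} [Fintype V] [Fintype E] [DecidableEq V] [DecidableEq E]

private theorem clo_ne {G : Gph V E} {K H m : ℕ} (Cl : Clo G K H m)
    (hm : K * m < Fintype.card V) (U : Finset V) (hU : U.card ≤ m) : ∃ t, t ∉ Cl.cl U := by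
  by_contra hcon
  push Not at hcon
  have h1 : Cl.cl U = univ := Finset.eq_univ_iff_forall.2 hcon
  have h2 := Cl.card U hU
  rw [h1, Finset.card_univ] at h2
  have h3 : K * U.card ≤ K * m := Nat.mul_le_mul_left _ hU
  omega

/-- the frame of an expanding graph: the free vertices are those outside the closure -/
noncomputable def cloFrame {G : Gph V E} {Δ K H m : ℕ} (hdeg : G.Deg Δ) (Cl : Clo G K H m)
    (hm : K * m < Fintype.card V) : Frame G where
  m := m
  Free U t := t ∉ Cl.cl U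
  anti := fun {U U' t} h ht h' => ht (Cl.mono U U' h h')
  disj := fun {U t} ht h => ht (Cl.ext U h)
  ne := fun U hU => clo_ne Cl hm U hU
  conn := fun U t t' _ ht ht' => by
    obtain ⟨γ, h1, h2, -⟩ := clo_path hdeg Cl (Cl.idem U) ht ht'
    exact ⟨γ, h1, fun e he => h2 e (Gph.inc_mono G (Cl.ext U) he)⟩

private theorem card_small_f {α : Type} [Fintype α] (n : ℕ) :
    (univ.filter fun W : Finset α => W.card ≤ n).card ≤ (Fintype.card α + 1) ^ n := by
  induction n with
  | zero =>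
    rw [pow_zero, Finset.card_le_one]
    intro a ha b hb
    simp only [mem_filter, mem_univ, true_and, Nat.le_zero, Finset.card_eq_zero] at ha hb
    rw [ha, hb]
  | succ n ih =>
    have hsub : (univ.filter fun W : Finset α => W.card ≤ n + 1) ⊆
        ((univ.filter fun W : Finset α => W.card ≤ n) ×ˢ (univ : Finset (Option α))).image
          (fun p => match p.2 with | none => p.1 | some x => insert x p.1) := by
      intro W hW
      simp only [mem_filter, mem_univ, true_and] at hW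
      simp only [mem_image, mem_product, mem_filter, mem_univ, true_and, and_true, Prod.exists]
      rcases Nat.lt_or_ge n W.card with h | h
      · have hne : W.Nonempty := by
          rw [← Finset.card_pos]; omega
        obtain ⟨x, hx⟩ := hne
        refine ⟨W.erase x, some x, ?_, ?_⟩
        · rw [Finset.card_erase_of_mem hx]; omega
        · simp only [Finset.insert_erase hx]
      · exact ⟨W, none, h, rfl⟩
    calc _ ≤ _ := Finset.card_le_card hsub
      _ ≤ _ := Finset.card_image_le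
      _ = (univ.filter fun W : Finset α => W.card ≤ n).card * (Fintype.card α + 1) := by
        rw [Finset.card_product, Finset.card_univ, Fintype.card_option]
      _ ≤ _ := by
        rw [pow_succ]
        exact Nat.mul_le_mul_right _ ih

theorem card_short (N : ℕ) :
    (univ.filter fun γ : E → ZMod 2 => (univ.filter fun e => γ e ≠ 0).card ≤ N).card ≤
      (Fintype.card E + 1) ^ N := by
  refine le_trans ?_ (card_small_f (α := E) N)
  refine Finset.card_le_card_of_injOn (fun γ => univ.filter fun e => γ e ≠ 0) ?_ ?_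
  · intro γ hγ
    simp only [Finset.coe_filter, mem_univ, true_and, Set.mem_setOf_eq] at hγ ⊢
    exact hγ
  · intro γ _ γ' _ h
    funext e
    have h2 : (e ∈ univ.filter fun e => γ e ≠ 0) ↔ (e ∈ univ.filter fun e => γ' e ≠ 0) := by
      dsimp only at h
      rw [h]
    simp only [mem_filter, mem_univ, true_and] at h2
    have key : ∀ a b : ZMod 2, (a ≠ 0 ↔ b ≠ 0) → a = b := by decide
    exact key _ _ h2

/-- all vertices outside the closure are special -/
noncomputable def cloSFrame {G : Gph V E} {Δ K H m : ℕ} (hdeg : G.Deg Δ) (Cl : Clo G K H m)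
    (hm : K * m < Fintype.card V) : SFrame (cloFrame hdeg Cl hm) where
  Γ := univ.filter fun γ => (univ.filter fun e => γ e ≠ 0).card ≤ 2 * Ld H Δ (Fintype.card V)
  SFree U t := t ∉ Cl.cl U
  anti := fun {U U' t} h ht h' => ht (Cl.mono U U' h h')
  free := fun {U t} ht => ht
  ne := fun U hU => clo_ne Cl hm U hU
  conn := fun U t t' _ ht ht' => by
    obtain ⟨γ, h1, h2, h3⟩ := clo_path hdeg Cl (Cl.idem U) ht ht'
    exact ⟨γ, by simpa using h3, h1, fun e he => h2 e (Gph.inc_mono G (Cl.ext U) he)⟩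

/-- special vertices of the blow-up -/
noncomputable def sframeBlow {G : Gph V E} {Fr : Frame G} (SF : SFrame Fr) {Q D : ℕ} (hQ : 0 < Q)
    (hD : 0 < D) : SFrame (Fr.blow Q D hQ hD) where
  Γ := SF.Γ.image fun γ => Pth (G.tall Q) (fun _ => (0 : A D)) (iota γ)
  SFree Y h := ∃ t : V, h = HV.cen (t, 0) 0 ∧ SF.SFree (Unc G Q Y) t
  anti := fun {Y Y' h} hY ht => by
    obtain ⟨t, h1, h2⟩ := ht
    exact ⟨t, h1, SF.anti (Finset.biUnion_subset_biUnion_of_subset_left _ hY) h2⟩
  free := fun {Y h} ht => by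
    obtain ⟨t, h1, h2⟩ := ht
    rw [h1]
    exact bFree_cen Fr Q D (v := (t, 0)) 0 (SF.free h2)
  ne := fun Y hY => by
    have hY' : Y.card ≤ Fr.m / 2 := hY
    obtain ⟨t, ht⟩ := SF.ne (Unc G Q Y) ((card_Unc G Y).trans (by omega))
    exact ⟨HV.cen (t, 0) 0, t, rfl, ht⟩
  conn := fun Y h h' hY ht ht' => by
    have hY' : Y.card ≤ Fr.m / 2 := hY
    obtain ⟨t, h1, h2⟩ := ht
    obtain ⟨t', h1', h2'⟩ := ht'
    obtain ⟨γ, hγ, hb, h0⟩ := SF.conn (Unc G Q Y) t t' ((card_Unc G Y).trans (by omega)) h2 h2'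
    refine ⟨Pth (G.tall Q) (fun _ => (0 : A D)) (iota γ), Finset.mem_image_of_mem _ hγ, ?_, ?_⟩
    · rw [h1, h1']
      exact bd_Pth_path (G.tall Q) hD (fun _ => (0 : A D)) (iota γ) (t, 0) (t', 0)
        (bd_iota_path G γ t t' hb)
    · exact Pth_eq_zero_of_Unc G (fun _ => (0 : A D)) (iota γ) Y
        (fun x hx => iota_eq_zero G h0 x hx)

end

end FrT
end

section

/-!
Numerical facts.

`log_sq_le`: `Nat.log 2 n ≤ Nat.log 2 (s^e) ≤ e (Nat.log 2 s + 1)`, and `C (e (log s + 1) + 1)^2 ≤ s` for large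
`s` (e.g. from `(t + 1)^3 ≤ C' 2^t`-type bounds with `t = Nat.log 2 s`, `2^t ≤ s`).
`pow_lt_two_pow`: standard.
`choose_N`: `t = θ d / (1 - θ) < 1`.  Let `N` be large, `p = ⌈θ (d N + a) / (1 - θ)⌉ + 1`.  Then
`θ (d N + a) ≤ (1 - θ) p`, so `θ (d N + a + p) ≤ p`; `p ≤ t N + θ a / (1 - θ) + 2 ≤ N` for large `N`; and
`(d N + a + p) (1 - θ) ≤ (d N + a) (1 - θ) + θ (d N + a) + 2 = d N + a + 2`, so
`(d N + a + p) (1 - θ - ε) ≤ d N + a + 2 - ε d N ≤ d N` for large `N`.
-/

namespace FrT

/-- `K t^k ≤ 2^t` for large `t` -/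
private theorem pow_le_two_pow (k K : ℕ) : ∃ t0 : ℕ, ∀ t ≥ t0, K * t ^ k < 2 ^ t := by
  have h := tendsto_pow_const_div_const_pow_of_one_lt k (one_lt_two (α := ℝ))
  have h1 : (0 : ℝ) < 1 / (K + 1) := by positivity
  obtain ⟨t0, ht0⟩ := Filter.eventually_atTop.1 (h.eventually (gt_mem_nhds h1))
  refine ⟨t0, fun t ht => ?_⟩
  have h2 := ht0 t ht
  have h3 : (0 : ℝ) < 2 ^ t := by positivity
  rw [div_lt_div_iff₀ h3 (by positivity)] at h2
  have h4 : (K : ℝ) * (t : ℝ) ^ k < 2 ^ t := by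
    have h5 : (0 : ℝ) ≤ (t : ℝ) ^ k := by positivity
    nlinarith
  exact_mod_cast h4

theorem log_sq_le (e C : ℕ) : ∃ s0 : ℕ, ∀ s ≥ s0, ∀ n ≤ s ^ e, C * (Nat.log 2 n + 1) ^ 2 ≤ s := by
  obtain ⟨t0, ht0⟩ := pow_le_two_pow 2 (C * (2 * e + 1) ^ 2)
  refine ⟨2 ^ (t0 + 1), fun s hs n hn => ?_⟩
  have hs0 : s ≠ 0 := by
    have : 0 < 2 ^ (t0 + 1) := by positivity
    omega
  set t := Nat.log 2 s with ht
  have ht1 : t0 + 1 ≤ t := Nat.le_log_of_pow_le one_lt_two hs
  have h2t : 2 ^ t ≤ s := Nat.pow_log_le_self 2 hs0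
  have hlog : Nat.log 2 n ≤ e * (t + 1) := by
    have h1 : n < 2 ^ (e * (t + 1) + 1) := by
      calc n ≤ s ^ e := hn
        _ ≤ (2 ^ (t + 1)) ^ e := Nat.pow_le_pow_left (Nat.lt_pow_succ_log_self one_lt_two s).le e
        _ = 2 ^ (e * (t + 1)) := by rw [← pow_mul, mul_comm]
        _ < 2 ^ (e * (t + 1) + 1) := Nat.pow_lt_pow_right one_lt_two (Nat.lt_succ_self _)
    have h2 := Nat.log_lt_of_lt_pow' (by omega) h1
    omega
  have h3 : Nat.log 2 n + 1 ≤ (2 * e + 1) * t := by
    calc Nat.log 2 n + 1 ≤ e * (t + 1) + 1 := by omega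
      _ ≤ e * (2 * t) + t := by
          have : t + 1 ≤ 2 * t := by omega
          have h4 := Nat.mul_le_mul_left e this
          omega
      _ = (2 * e + 1) * t := by ring
  calc C * (Nat.log 2 n + 1) ^ 2 ≤ C * ((2 * e + 1) * t) ^ 2 :=
        Nat.mul_le_mul_left _ (Nat.pow_le_pow_left h3 2)
    _ = C * (2 * e + 1) ^ 2 * t ^ 2 := by ring
    _ ≤ 2 ^ t := (ht0 t (by omega)).le
    _ ≤ s := h2t

theorem pow_lt_two_pow (e : ℕ) : ∃ s0 : ℕ, ∀ s ≥ s0, s ^ e < 2 ^ (s - 1) := by
  obtain ⟨t0, ht0⟩ := pow_le_two_pow e 2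
  refine ⟨t0 + 1, fun s hs => ?_⟩
  have h1 := ht0 s (by omega)
  have h2 : 2 ^ s = 2 * 2 ^ (s - 1) := by
    rw [← pow_succ']
    congr 1
    omega
  rw [h2] at h1
  exact Nat.lt_of_mul_lt_mul_left h1

theorem choose_N (d : ℕ) (hd : 1 ≤ d) (θ ε : ℝ) (hθ0 : 0 ≤ θ) (hθ : θ * (d + 1) < 1) (hε : 0 < ε)
    (a : ℕ) : ∃ N p : ℕ, 2 ≤ N ∧ 1 ≤ p ∧ p ≤ N ∧ θ * ((d * N + a + p : ℕ) : ℝ) ≤ p ∧
      ((d * N + a + p : ℕ) : ℝ) * (1 - θ - ε) ≤ ((d * N : ℕ) : ℝ) := by
  have hd1 : (1 : ℝ) ≤ d := by exact_mod_cast hd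
  have hθ1 : 0 < 1 - θ := by nlinarith
  have ht : θ * d < 1 - θ := by linarith
  have ha : (0 : ℝ) ≤ a := Nat.cast_nonneg a
  -- `N (1 - θ - θ d) ≥ θ a + 2 (1 - θ)` and `ε N ≥ a + 2`
  have hg : 0 < 1 - θ - θ * d := by linarith
  obtain ⟨N, hN⟩ := exists_nat_ge (max 2 (max ((θ * a + 2 * (1 - θ)) / (1 - θ - θ * d)) ((a + 2) / ε)))
  have hN2 : (2 : ℝ) ≤ N := (le_max_left _ _).trans hN
  have hN3 : (θ * a + 2 * (1 - θ)) / (1 - θ - θ * d) ≤ N :=
    ((le_max_left _ _).trans (le_max_right _ _)).trans hN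
  have hN4 : (a + 2) / ε ≤ (N : ℝ) := ((le_max_right _ _).trans (le_max_right _ _)).trans hN
  rw [div_le_iff₀ hg] at hN3
  rw [div_le_iff₀ hε] at hN4
  have hN0 : (0 : ℝ) ≤ N := Nat.cast_nonneg N
  set q : ℝ := θ * (d * N + a) / (1 - θ) with hq
  have hq0 : 0 ≤ q := by positivity
  have hqm : q * (1 - θ) = θ * (d * N + a) := div_mul_cancel₀ _ hθ1.ne'
  have hc1 : q ≤ (⌈q⌉₊ : ℝ) := Nat.le_ceil q
  have hc2 : (⌈q⌉₊ : ℝ) < q + 1 := Nat.ceil_lt_add_one hq0
  have hpc : ((⌈q⌉₊ + 1 : ℕ) : ℝ) = (⌈q⌉₊ : ℝ) + 1 := by push_cast; ring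
  refine ⟨N, ⌈q⌉₊ + 1, by exact_mod_cast hN2, Nat.le_add_left 1 _, ?_, ?_, ?_⟩
  · have h1 : ((⌈q⌉₊ + 1 : ℕ) : ℝ) ≤ N := by
      rw [hpc]
      have h2 : q + 2 ≤ N := by
        have h3 : (q + 2) * (1 - θ) ≤ N * (1 - θ) := by
          rw [add_mul, hqm]
          linarith
        exact le_of_mul_le_mul_right h3 hθ1
      linarith
    exact_mod_cast h1
  · push_cast
    have h1 : q * (1 - θ) ≤ ((⌈q⌉₊ : ℝ) + 1) * (1 - θ) :=
      mul_le_mul_of_nonneg_right (by linarith) hθ1.le
    rw [hqm] at h1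
    linarith
  · push_cast
    have h1 : ((⌈q⌉₊ : ℝ) + 1) * (1 - θ) ≤ (q + 2) * (1 - θ) :=
      mul_le_mul_of_nonneg_right (by linarith) hθ1.le
    rw [add_mul q, hqm] at h1
    have h2 : 0 ≤ ε * (⌈q⌉₊ : ℝ) := by positivity
    have h3 : 0 ≤ ε * (a : ℝ) := by positivity
    have h4 : ε * N ≤ ε * (d * N) := by
      apply mul_le_mul_of_nonneg_left _ hε.le
      nlinarith
    nlinarith

end FrT
end
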