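import Pool.Agent.Lib.MP_51bb46_lc.T.Defs
import Pool.Agent.Lib.MP_51bb46_lc.T.Base

section

section

/-!
Two facts about probabilities, sums over lists.

PROOF of `peel_sum`.  As `FrC.pr_peel` (C/BlowP.lean): for each `l ∈ s`
`pr (P ∧ ∃ c, R a c ∧ F l c a) ≤ ∑_c pr ((P ∧ R · c) ∧ F l c) = ∑_c pr (P ∧ R · c) * pr (F l c)`
(union bound `pr_exists_le`, independence `pr_indep'`; terms with `¬ ∃ a, R a c` are zero).
Multiply by `w l`, sum over `l`, exchange the sums:
`∑_c pr (P ∧ R · c) * (∑_(l ∈ s) w l * pr (F l c)) ≤ q * ∑_c pr (P ∧ R · c) ≤ q * pr P` (`FrC.sum_pr_le`).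

PROOF of `pr_Om_sum`.  By `card_slice_br` (C/BlowR.lean) with `Bt = (Xt E D → ZMod 2)`, `I = V`,
`F β w = (bd β = pt (cen v0 w0) + pt (cen t w))`:
`|{q ∈ Om : E q}| = ∑_w ∑_(β : F β w) pr (a t = w ∧ E β a) * |V → A D|`, and by `card_slice0_br`
`|Om| = |V → A D| * Z`, where `Z` is the common cardinality of the cosets (`card_coset_eq_br`, using
`hconn`).  So `∑_c w c * pr_Om (E c) = (1 / Z) ∑_w ∑_β ∑_c w c * pr (a t = w ∧ E c β a)
≤ (1 / Z) ∑_w ∑_β B * pr (a t = w) = (1 / Z) ∑_w Z * B / |A D| = B` (`pr_coord_br`).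
(Compare the proofs of `slice_abs_br` and `pr_Om_le` there.)  If `Z = 0` (then `Om` is empty) all
probabilities over `Om` are `0`.
-/

set_option linter.unusedSectionVars false

namespace FrT

open Finset Fr56 FrC FrG
open scoped Classical

/-- **weighted peeling** -/
theorem peel_sum {I A C ι : Type} [Fintype I] [Fintype A] [Nonempty A] [Fintype C]
    [Fintype (I → A)] {S : Set I} {T : ι → Set I} (s : Finset ι) (w : ι → ℝ)
    (hw : ∀ l ∈ s, 0 ≤ w l) (hST : ∀ l ∈ s, Disjoint S (T l)) (P : (I → A) → Prop)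
    (R : (I → A) → C → Prop) (F : ι → C → (I → A) → Prop) (q : ℝ) (hq : 0 ≤ q) (hP : DepOn S P)
    (hR : ∀ c, DepOn S fun a => R a c) (hRu : ∀ a c c', R a c → R a c' → c = c')
    (hF : ∀ l ∈ s, ∀ c, DepOn (T l) (F l c))
    (hFq : ∀ c, (∃ a, R a c) → ∑ l ∈ s, w l * pr (F l c) ≤ q) :
    ∑ l ∈ s, w l * pr (fun a => P a ∧ ∃ c, R a c ∧ F l c a) ≤ q * pr P := by
  have h1 : ∀ l ∈ s, pr (fun a => P a ∧ ∃ c, R a c ∧ F l c a) ≤
      ∑ c, pr (fun a => P a ∧ R a c) * pr (F l c) := by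
    intro l hl
    have h1 : pr (fun a => P a ∧ ∃ c, R a c ∧ F l c a) ≤
        pr (fun a => ∃ c ∈ (univ : Finset C), (P a ∧ R a c) ∧ F l c a) := by
      apply pr_mono
      rintro a ⟨hPa, c, hc, hQa⟩
      exact ⟨c, Finset.mem_univ _, ⟨hPa, hc⟩, hQa⟩
    refine h1.trans ((pr_exists_le (univ : Finset C)
      (fun c a => (P a ∧ R a c) ∧ F l c a)).trans (le_of_eq ?_))
    apply Finset.sum_congr rfl
    intro c _
    have hPR : DepOn S (fun a => P a ∧ R a c) := fun a b hab =>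
      and_congr (hP a b hab) (hR c a b hab)
    exact pr_indep' (hST l hl) hPR (hF l hl c)
  have h2 : ∀ c : C, pr (fun a => P a ∧ R a c) * (∑ l ∈ s, w l * pr (F l c)) ≤
      pr (fun a => P a ∧ R a c) * q := by
    intro c
    by_cases hc : ∃ a, R a c
    · exact mul_le_mul_of_nonneg_left (hFq c hc) (pr_nonneg _)
    · have h0 : pr (fun a => P a ∧ R a c) = 0 := by
        rw [← pr_false (Ω := I → A)]
        apply pr_congr
        intro a
        constructor
        · rintro ⟨_, h⟩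
          exact hc ⟨a, h⟩
        · intro h
          exact h.elim
      rw [h0, zero_mul, zero_mul]
  calc ∑ l ∈ s, w l * pr (fun a => P a ∧ ∃ c, R a c ∧ F l c a)
      ≤ ∑ l ∈ s, w l * ∑ c, pr (fun a => P a ∧ R a c) * pr (F l c) :=
        Finset.sum_le_sum fun l hl => mul_le_mul_of_nonneg_left (h1 l hl) (hw l hl)
    _ = ∑ c, pr (fun a => P a ∧ R a c) * (∑ l ∈ s, w l * pr (F l c)) := by
        simp only [Finset.mul_sum]
        rw [Finset.sum_comm]
        refine Finset.sum_congr rfl fun c _ => Finset.sum_congr rfl fun l _ => ?_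
        ring
    _ ≤ ∑ c, pr (fun a => P a ∧ R a c) * q := Finset.sum_le_sum fun c _ => h2 c
    _ = q * ∑ c, pr (fun a => P a ∧ R a c) := by
        rw [← Finset.sum_mul, mul_comm]
    _ ≤ q * pr P := mul_le_mul_of_nonneg_left (sum_pr_le P R hRu) hq

private theorem slice_sum {Bt I A ι : Type} [Fintype Bt] [Fintype I] [DecidableEq I] [Fintype A]
    [Nonempty A] (t : I) (F : Bt → A → Prop) (s : Finset ι) (w : ι → ℝ)
    (E : ι → Bt → (I → A) → Prop) (B : ℝ) (hB : 0 ≤ B)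
    [i1 : Fintype {q : Bt × (I → A) // F q.1 (q.2 t)}] [i2 : ∀ w, Fintype {β : Bt // F β w}]
    (Z : ℕ) (hZ : ∀ w, Fintype.card {β // F β w} = Z)
    (h : ∀ (β : Bt) (w' : A), ∑ c ∈ s, w c * pr (fun a : I → A => a t = w' ∧ E c β a) ≤
      B * pr (fun a : I → A => a t = w')) :
    ∑ c ∈ s, w c * pr (fun q : {q : Bt × (I → A) // F q.1 (q.2 t)} => E c q.1.1 q.1.2) ≤ B := by
  have hcard := card_slice0_br t F Z hZ
  obtain ⟨N, hN⟩ : ∃ N : ℝ, ((Fintype.card (I → A) : ℕ) : ℝ) = N := ⟨_, rfl⟩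
  obtain ⟨nA, hnA⟩ : ∃ N : ℝ, ((Fintype.card A : ℕ) : ℝ) = N := ⟨_, rfl⟩
  have hNpos : 0 < N := by
    rw [← hN]
    exact_mod_cast Fintype.card_pos
  have hnApos : 0 < nA := by
    rw [← hnA]
    exact_mod_cast Fintype.card_pos
  rw [hN] at hcard
  have hpr : ∀ c, pr (fun q : {q : Bt × (I → A) // F q.1 (q.2 t)} => E c q.1.1 q.1.2) =
      ((Fintype.card {q : {q : Bt × (I → A) // F q.1 (q.2 t)} // E c q.1.1 q.1.2} : ℕ) : ℝ) /
      ((Fintype.card {q : Bt × (I → A) // F q.1 (q.2 t)} : ℕ) : ℝ) := by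
    intro c
    unfold pr
    rw [← Fintype.card_subtype]
  rcases Nat.eq_zero_or_pos Z with hZ0 | hZpos
  · have h0 : ∀ c ∈ s, w c *
        pr (fun q : {q : Bt × (I → A) // F q.1 (q.2 t)} => E c q.1.1 q.1.2) = 0 := by
      intro c _
      rw [hpr c, hcard, hZ0, Nat.cast_zero, mul_zero, div_zero, mul_zero]
    rw [Finset.sum_eq_zero h0]
    exact hB
  have hZpos' : (0 : ℝ) < Z := by exact_mod_cast hZpos
  have hst : ∀ c ∈ s, w c *
      pr (fun q : {q : Bt × (I → A) // F q.1 (q.2 t)} => E c q.1.1 q.1.2) =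
      (∑ w' : A, ∑ β : {β : Bt // F β w'},
        w c * pr (fun a : I → A => a t = w' ∧ E c β.1 a)) / Z := by
    intro c _
    rw [hpr c, hcard, card_slice_br t F (E c), hN]
    simp only [← Finset.sum_mul, ← Finset.mul_sum]
    field_simp
  rw [Finset.sum_congr rfl hst, ← Finset.sum_div, div_le_iff₀ hZpos', Finset.sum_comm]
  have h5 : ∀ w' : A, ∑ c ∈ s, ∑ β : {β : Bt // F β w'},
      w c * pr (fun a : I → A => a t = w' ∧ E c β.1 a) ≤ Z * (B * (1 / nA)) := by
    intro w'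
    rw [Finset.sum_comm]
    calc _ ≤ ∑ β : {β : Bt // F β w'}, B * (1 / nA) := by
          refine Finset.sum_le_sum fun β _ => ?_
          have := h β.1 w'
          rw [pr_coord_br, hnA] at this
          exact this
      _ = Z * (B * (1 / nA)) := by
          rw [Finset.sum_const, Finset.card_univ, nsmul_eq_mul, hZ w']
  calc _ ≤ ∑ w' : A, (Z : ℝ) * (B * (1 / nA)) := Finset.sum_le_sum fun w' _ => h5 w'
    _ = B * Z := by
      rw [Finset.sum_const, Finset.card_univ, nsmul_eq_mul, hnA]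
      field_simp

section
variable {V E : Type} [Fintype V] [Fintype E] [DecidableEq V] [DecidableEq E] (G : Gph V E)
  {D : ℕ}

/-- **weighted sum of probabilities over the sample space** -/
theorem pr_Om_sum {ι : Type} (s : Finset ι) (w : ι → ℝ) (hw : ∀ c ∈ s, 0 ≤ w c)
    (v0 : V) (w0 : A D) (t : V)
    (hconn : ∀ w w' : A D, ∃ x : Xt E D → ZMod 2,
      (G.blow D).bd x = pt (HV.cen t w) + pt (HV.cen t w'))
    (Ev : ι → (Xt E D → ZMod 2) → (V → A D) → Prop) (B : ℝ) (hB : 0 ≤ B)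
    (h : ∀ (β : Xt E D → ZMod 2) (w' : A D),
      ∑ c ∈ s, w c * pr (fun a : V → A D => a t = w' ∧ Ev c β a) ≤
        B * pr (fun a : V → A D => a t = w')) :
    ∑ c ∈ s, w c * pr (fun q : Om G (HV.cen v0 w0 : HV V E D) t => Ev c q.1.1 q.1.2) ≤ B := by
  refine slice_sum t (fun (β : Xt E D → ZMod 2) (w : A D) =>
    (G.blow D).bd β = pt (HV.cen v0 w0) + pt (HV.cen t w)) s w Ev B hB
    (i2 := fun w => (inferInstance : Fintype (Coset (V := V) G
      (pt (HV.cen v0 w0) + pt (HV.cen t w)))))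
    (Fintype.card (Coset (V := V) G (pt (HV.cen v0 w0) + pt (HV.cen t 0)))) ?_ h
  intro w
  obtain ⟨x, hx⟩ := hconn w 0
  exact card_coset_eq_br G _ _ _ x hx

end

/-- sums over lists of length `n + 1` -/
theorem sum_lst'_succ {ι : Type} [DecidableEq ι] (s : Finset ι) (n : ℕ) (f : List ι → ℝ) :
    ∑ c ∈ lst' s (n + 1), f c = ∑ c ∈ lst' s n, ∑ k ∈ s, f (k :: c) := by
  rw [lst', Finset.sum_image]
  · exact Finset.sum_product_right' s (lst' s n) fun k c => f (k :: c)
  · rintro ⟨a, b⟩ _ ⟨a', b'⟩ _ hab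
    simp only [List.cons.injEq] at hab
    exact Prod.ext hab.1 hab.2

theorem mem_lst' {ι : Type} [DecidableEq ι] (s : Finset ι) (n : ℕ) (c : List ι) :
    c ∈ lst' s n ↔ c.length = n ∧ ∀ k ∈ c, k ∈ s := by
  induction n generalizing c with
  | zero =>
    rw [lst', Finset.mem_singleton]
    constructor
    · rintro rfl
      exact ⟨rfl, fun k hk => absurd hk List.not_mem_nil⟩
    · rintro ⟨h, _⟩
      exact List.length_eq_zero_iff.1 h
  | succ n ih =>
    rw [lst', Finset.mem_image]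
    constructor
    · rintro ⟨⟨k, c'⟩, hp, rfl⟩
      rw [Finset.mem_product] at hp
      obtain ⟨h1, h2⟩ := (ih c').1 hp.2
      refine ⟨by rw [List.length_cons, h1], fun x hx => ?_⟩
      rcases List.mem_cons.1 hx with rfl | hx
      · exact hp.1
      · exact h2 x hx
    · rintro ⟨h1, h2⟩
      cases c with
      | nil => simp at h1
      | cons k c' =>
        refine ⟨(k, c'), Finset.mem_product.2 ⟨h2 k List.mem_cons_self, (ih c').2 ⟨?_, ?_⟩⟩, rfl⟩
        · rw [List.length_cons] at h1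
          omega
        · intro x hx
          exact h2 x (List.mem_cons_of_mem _ hx)

end FrT
end

section

/-!
The blow-up: weighted sum over all sets of edges of the probability that all their paths touch a
small set of vertices.

Conventions: `pr` is over the uniform choice of `a : V → A D`; `G.VDisj e f` (`FrC.Gph.VDisj`): vertex
disjoint edges.  Call a set `M` of edges a matching if distinct elements are vertex disjoint.

PROOF of `pr_Tch_near`.  Let `near e` be the set of the vertices `h` of the blow-up of the form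
`cen (src e) w`, `cen (tgt e) w`, `mid e i w`.  If `x.e = e` then both endpoints of `x` in the blow-up
(`hv G e i w`) are in `near e`; so `Tch G a W e` implies `Tch G a (W.filter near e) e`, and the bound
is `FrC.pr_Tch_le` for the set `W.filter near e`.

PROOF of `sum_near_le`.  A vertex `cen v w` is near at most `Δ` edges (those in the star of `v`), a vertex
`mid e i w` is near one edge only.  Exchange the summations.

PROOF of `pr_matching_le`.  Induction on `M`, exactly as the private theorem `pr_all_matching` in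
C/BlowQ.lean (copy it): independence `pr_indep'` of the event for `e` (depends on `a` at the endpoints
of `e`) and of the event for the others, with `pr_Tch_near` for `e`.
-/

set_option linter.unusedSectionVars false

namespace FrT

open Finset Fr56 FrC FrG
open scoped Classical

section
variable {V E : Type} [Fintype V] [Fintype E] [DecidableEq V] [DecidableEq E] (G : Gph V E) {D : ℕ}

/-- the vertices of the blow-up over an edge or over its endpoints -/
def near (e : E) : HV V E D → Prop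
  | .cen v _ => G.src e = v ∨ G.tgt e = v
  | .mid e' _ _ => e' = e

private theorem near_hv {e e' : E} (h : e' = e) (i : ℕ) (w : A D) : near G e (hv G e' i w) := by
  subst h
  unfold hv
  by_cases h1 : i = 0
  · rw [if_pos h1]
    exact Or.inl rfl
  · rw [if_neg h1]
    by_cases h2 : i < D
    · rw [dif_pos h2]
      exact rfl
    · rw [dif_neg h2]
      exact Or.inr rfl

theorem pr_Tch_near (hl : G.NoLoop) (hD : 0 < D) (W : Finset (HV V E D)) (e : E) :
    pr (fun a : V → A D => Tch G a W e) ≤ ((W.filter (near G e)).card : ℝ) / 2 ^ D := by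
  refine le_trans (pr_mono ?_) (pr_Tch_le G hl hD (W.filter (near G e)) e)
  rintro a ⟨x, hx, hlx, hx'⟩
  refine ⟨x, hx, hlx, ?_⟩
  rcases hx' with h | h
  · exact Or.inl (Finset.mem_filter.2 ⟨h, near_hv G hx _ _⟩)
  · refine Or.inr (Finset.mem_filter.2 ⟨h, ?_⟩)
    change near G e (hv G x.e (x.i + 1) (x.w + Pi.single x.i x.d))
    exact near_hv G hx _ _

theorem sum_near_le {Δ : ℕ} (hΔ : 1 ≤ Δ) (hdeg : G.Deg Δ) (W : Finset (HV V E D)) :
    ∑ e : E, (W.filter (near G e)).card ≤ Δ * W.card := by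
  have h1 : ∑ e : E, (W.filter (near G e)).card =
      ∑ h ∈ W, (univ.filter fun e : E => near G e h).card := by
    simp only [Finset.card_filter]
    exact Finset.sum_comm
  rw [h1]
  have h2 : ∀ h ∈ W, (univ.filter fun e : E => near G e h).card ≤ Δ := by
    intro h _
    cases h with
    | cen v w =>
      refine le_trans (Finset.card_le_card ?_) (hdeg v)
      intro e he
      have he' : G.src e = v ∨ G.tgt e = v := (Finset.mem_filter.1 he).2
      exact Finset.mem_filter.2 ⟨Finset.mem_univ _, he'⟩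
    | mid e' i w =>
      refine le_trans (Finset.card_le_card (t := {e'}) ?_) (by simpa using hΔ)
      intro e he
      have he' : e' = e := (Finset.mem_filter.1 he).2
      exact Finset.mem_singleton.2 he'.symm
  refine (Finset.sum_le_sum h2).trans (le_of_eq ?_)
  rw [Finset.sum_const, smul_eq_mul, mul_comm]

theorem pr_matching_le (hl : G.NoLoop) (hD : 0 < D) (W : Finset (HV V E D)) (M : Finset E)
    (hM : ∀ e ∈ M, ∀ f ∈ M, e ≠ f → G.VDisj e f) :
    pr (fun a : V → A D => ∀ e ∈ M, Tch G a W e) ≤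
      ∏ e ∈ M, (((W.filter (near G e)).card : ℝ) / 2 ^ D) := by
  induction M using Finset.induction_on with
  | empty =>
    simpa using pr_le_one (Ω := V → A D) _
  | insert e s hes ih =>
    have hs := ih fun f hf g hg => hM f (Finset.mem_insert_of_mem hf) g (Finset.mem_insert_of_mem hg)
    have h1 : pr (fun a : V → A D => ∀ f ∈ insert e s, Tch G a W f) =
        pr (fun a : V → A D => Tch G a W e ∧ ∀ f ∈ s, Tch G a W f) := by
      apply pr_congr
      intro a
      rw [Finset.forall_mem_insert]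
    have hdis : Disjoint ({G.src e, G.tgt e} : Set V)
        {v | ∃ f ∈ s, G.src f = v ∨ G.tgt f = v} := by
      rw [Set.disjoint_left]
      rintro v hv ⟨f, hf, hfv⟩
      have hne : e ≠ f := fun h1 => hes (h1 ▸ hf)
      obtain ⟨a1, a2, a3, a4⟩ := hM e (Finset.mem_insert_self _ _) f
        (Finset.mem_insert_of_mem hf) hne
      simp only [Set.mem_insert_iff, Set.mem_singleton_iff] at hv
      rcases hv with rfl | rfl <;> rcases hfv with h5 | h5
      · exact a1 h5.symm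
      · exact a2 h5.symm
      · exact a3 h5.symm
      · exact a4 h5.symm
    have hP : DepOn ({G.src e, G.tgt e} : Set V) (fun a : V → A D => Tch G a W e) := by
      intro a b hab
      exact Tch_congr G (hab _ (by simp)) (hab _ (by simp))
    have hQ : DepOn {v | ∃ f ∈ s, G.src f = v ∨ G.tgt f = v}
        (fun a : V → A D => ∀ f ∈ s, Tch G a W f) := by
      intro a b hab
      refine forall₂_congr fun f hf => ?_
      exact Tch_congr G (hab _ ⟨f, hf, Or.inl rfl⟩) (hab _ ⟨f, hf, Or.inr rfl⟩)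
    rw [h1, pr_indep' hdis hP hQ, Finset.prod_insert hes]
    exact mul_le_mul (pr_Tch_near G hl hD W e) hs (pr_nonneg _) (by positivity)

end

end FrT
end
end

section

section

/-!
The coordinates on which a code depends.

PROOF of `Pth_Sc_congr`: `FrC.Pth_congr`; the support of `De.Sc c` consists of edges in supports of detours
(their endpoints lie over `bsT .. ⊆ Us (k :: ..) ⊆ Us c`) and of `iota` of the moves (copies in layer `0`, with
endpoints `(src e, 0)`, `(tgt e, 0)`, `k.2.1 e ≠ 0`).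

PROOF of `DcdT_depOn`: induction on `c`; the sets `SS` grow with `c` (`SS_mono`); `Pth_Sc_congr` for the
first matched certificate, and `FrC.Tch_congr` for the edges in `k.1.1` (`plc k.1.1 ⊆ Us (k :: ..)`).
-/

set_option linter.unusedSectionVars false

namespace FrT

open Finset Fr56 FrC FrG
open scoped Classical

section
variable {V E : Type} [Fintype V] [Fintype E] [DecidableEq V] [DecidableEq E]
  {G : Gph V E} {Q K C₁ m : ℕ} (Fr : Frame G) (v0 : V) {D : ℕ} (De : Detour G Q K C₁ m)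

/-- the vertices of the tall graph on which a code depends -/
def SS (t0 : V) (c : List (LM V E Q)) : Set (TV V Q) :=
  {v | v.1 ∈ De.Us (c.map Prod.fst) ∨ (v.2 = 0 ∧ (v.1 = t0 ∨
    ∃ k ∈ c, ∃ e, k.2.1 e ≠ 0 ∧ (G.src e = v.1 ∨ G.tgt e = v.1)))}

theorem SS_mono (t0 : V) (k : LM V E Q) (c : List (LM V E Q)) : SS De t0 c ⊆ SS De t0 (k :: c) := by
  rintro v (hv | ⟨hv, h⟩)
  · exact Or.inl (Us_cons_sub De k.1 (c.map Prod.fst) hv)
  · refine Or.inr ⟨hv, ?_⟩
    rcases h with h | ⟨k', hk', h⟩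
    · exact Or.inl h
    · exact Or.inr ⟨k', List.mem_cons_of_mem _ hk', h⟩

private theorem cb_supp (t0 : V) (c : List (LM V E Q)) (e : TE V E Q) (he : De.Sc c e ≠ 0) :
    (G.tall Q).src e ∈ SS De t0 c ∧ (G.tall Q).tgt e ∈ SS De t0 c := by
  induction c with
  | nil => exact absurd rfl he
  | cons k c ih =>
    by_cases h1 : De.Sc c e = 0
    · by_cases h2 : dc G C₁ (De.Us (c.map Prod.fst)) k.1.1 k.1.2 e = 0
      · have h3 : iota k.2.1 e ≠ 0 := by
          intro h3
          apply he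
          show De.Sc c e + (dc G C₁ (De.Us (c.map Prod.fst)) k.1.1 k.1.2 e + iota k.2.1 e) = 0
          rw [h1, h2, h3, add_zero, add_zero]
        rcases e with p | p
        · have h4 : p.2 = 0 ∧ k.2.1 p.1 ≠ 0 := by
            by_cases h5 : p.2 = 0
            · refine ⟨h5, ?_⟩
              intro h6
              apply h3
              show (if p.2 = 0 then k.2.1 p.1 else 0) = 0
              rw [if_pos h5, h6]
            · exfalso
              apply h3
              show (if p.2 = 0 then k.2.1 p.1 else 0) = 0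
              rw [if_neg h5]
          exact ⟨Or.inr ⟨h4.1, Or.inr ⟨k, List.mem_cons_self, p.1, h4.2, Or.inl rfl⟩⟩,
            Or.inr ⟨h4.1, Or.inr ⟨k, List.mem_cons_self, p.1, h4.2, Or.inr rfl⟩⟩⟩
        · exact absurd rfl h3
      · have h3 : e ∈ univ.filter fun e =>
            dc G C₁ (De.Us (c.map Prod.fst)) k.1.1 k.1.2 e ≠ 0 := by
          rw [Finset.mem_filter]
          exact ⟨Finset.mem_univ e, h2⟩
        have h4 := bsT_sub_Us De k.1 (c.map Prod.fst)
        refine ⟨Or.inl (h4 ?_), Or.inl (h4 ?_)⟩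
        · exact Finset.mem_biUnion.2 ⟨e, h3, by simp⟩
        · exact Finset.mem_biUnion.2 ⟨e, h3, by simp⟩
    · exact ⟨SS_mono De t0 k c (ih h1).1, SS_mono De t0 k c (ih h1).2⟩

theorem Pth_Sc_congr (t0 : V) (c : List (LM V E Q)) {a b : TV V Q → A D}
    (h : ∀ v ∈ SS De t0 c, a v = b v) :
    Pth (G.tall Q) a (De.Sc c) = Pth (G.tall Q) b (De.Sc c) := by
  refine FrC.Pth_congr _ fun e he => ?_
  have h1 := cb_supp De t0 c e he
  exact ⟨h _ h1.1, h _ h1.2⟩

theorem DcdT_depOn (𝒞 : Set (Cert V E Q D)) (t0 : V) (β : Xt (TE V E Q) D → ZMod 2)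
    (c : List (LM V E Q)) :
    DepOn (SS De t0 c) (fun a : TV V Q → A D => DcdT Fr De 𝒞 t0 β a c) := by
  induction c with
  | nil => exact fun _ _ _ => Iff.rfl
  | cons k c ih =>
    intro a b h
    have h0 : ∀ v ∈ SS De t0 c, a v = b v := fun v hv => h v (SS_mono De t0 k c hv)
    have h1 : DcdT Fr De 𝒞 t0 β a c ↔ DcdT Fr De 𝒞 t0 β b c := ih a b h0
    have h2 := Pth_Sc_congr De t0 c h0
    have h3 : ∀ (C : Cert V E Q D), (∀ e ∈ k.1.1, Tch (G.tall Q) a C.1 e) ↔
        ∀ e ∈ k.1.1, Tch (G.tall Q) b C.1 e := by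
      intro C
      refine forall₂_congr fun e he => ?_
      have h4 := plc_sub_Us De k.1 (c.map Prod.fst)
      have h5 : (G.tall Q).src e ∈ SS De t0 (k :: c) :=
        Or.inl (h4 (Finset.mem_biUnion.2 ⟨e, he, by simp⟩))
      have h6 : (G.tall Q).tgt e ∈ SS De t0 (k :: c) :=
        Or.inl (h4 (Finset.mem_biUnion.2 ⟨e, he, by simp⟩))
      exact Tch_congr _ (h _ h5) (h _ h6)
    show (DcdT Fr De 𝒞 t0 β a c ∧ _) ↔ (DcdT Fr De 𝒞 t0 β b c ∧ _)
    rw [h1, h2]
    simp only [h3]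

end

end FrT
end

section

/-!
The probability of a fixed code.

PROOF of `pr_codeT`.  As `pr_code_le` in C/Switch2.lean (first half).  Let `W = De.Us (c.map Prod.fst)`.
The event is covered by the events for the patterns `φ ⊆ {e ∈ G.inc W}` (at most `2^(Δ |W|)` patterns,
`FrC.card_inc_le`): there is `y` with `Ok`, with pattern `φ` on `G.inc W`, such that for all `yh ...`.
For a given `φ`: if there is no `yh` with `G.bd yh = pt v0 + pt t0` and pattern `φ` on `G.inc W`
the event is empty: from `y` with violated vertex `s` we would get `yh = y + γ`, `γ` the path of `Fr.conn W s t0`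
(both free for `W`, `|W| ≤ Fr.m`).  Otherwise fix `yh`; then `y` agrees with `yh` on `G.inc W` (values in
`ZMod 2`), the event implies `DcdT .. t0 (α + Pth a z) a c` with `z = iota yh + De.Dc ..`,
`(G.tall Q).bd z = pt (v0, 0) + pt (t0, 0)` (`bd_iota_path`, `bd_Dc`), and by `FrC.pr_Om_shift` its
probability is that of `DcdT .. t0 β a c` over `Om (G.tall Q) _ (t0, 0)`.
-/

set_option linter.unusedSectionVars false

namespace FrT

open Finset Fr56 FrC FrG
open scoped Classical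

section
variable {V E : Type} [Fintype V] [Fintype E] [DecidableEq V] [DecidableEq E]
  {G : Gph V E} {Q K C₁ m : ℕ} (Fr : Frame G) (v0 : V) {D : ℕ} (De : Detour G Q K C₁ m)

/-- the probability of a fixed code -/
theorem pr_codeT {Δ : ℕ} (hD : 0 < D) (hdeg : G.Deg Δ)
    (𝒞 : Set (Cert V E Q D)) (w0 : A D) (t0 : V) (c : List (LM V E Q))
    (hA : AdmT Fr De t0 c) (hm : (De.Us (c.map Prod.fst)).card ≤ Fr.m) :
    pr (fun q : Om (G.tall Q) (HV.cen (v0, 0) w0 : HV (TV V Q) (TE V E Q) D) (v0, 0) =>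
      ∃ y : E → ZMod 2, Fr.Ok v0 (De.Us (c.map Prod.fst)) y ∧
        ∀ yh : E → ZMod 2, G.bd yh = pt v0 + pt t0 →
          G.Agree (De.Us (c.map Prod.fst)) y yh →
          DcdT Fr De 𝒞 t0 (q.1.1 + Pth (G.tall Q) q.1.2 (iota yh + De.Dc (c.map Prod.fst)))
            q.1.2 c) ≤
      2 ^ (Δ * (De.Us (c.map Prod.fst)).card) *
        pr (fun q : Om (G.tall Q) (HV.cen (v0, 0) w0 : HV (TV V Q) (TE V E Q) D) (t0, 0) =>
          DcdT Fr De 𝒞 t0 q.1.1 q.1.2 c) := by
  set W := De.Us (c.map Prod.fst) with hW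
  set p : ℝ := pr (fun q : Om (G.tall Q) (HV.cen (v0, 0) w0 : HV (TV V Q) (TE V E Q) D) (t0, 0) =>
          DcdT Fr De 𝒞 t0 q.1.1 q.1.2 c) with hp
  have hp0 : 0 ≤ p := pr_nonneg _
  set I : Finset E := univ.filter fun e => e ∈ G.inc W with hI
  -- the event for a given pattern
  set Ev : Finset E → Om (G.tall Q) (HV.cen (v0, 0) w0 : HV (TV V Q) (TE V E Q) D) (v0, 0) → Prop :=
    fun φ q => ∃ y : E → ZMod 2, Fr.Ok v0 W y ∧ (∀ e ∈ G.inc W, (y e ≠ 0 ↔ e ∈ φ)) ∧
        ∀ yh : E → ZMod 2, G.bd yh = pt v0 + pt t0 → G.Agree W y yh →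
        DcdT Fr De 𝒞 t0 (q.1.1 + Pth (G.tall Q) q.1.2 (iota yh + De.Dc (c.map Prod.fst)))
          q.1.2 c with hEv
  have hcover : pr (fun q : Om (G.tall Q) (HV.cen (v0, 0) w0 : HV (TV V Q) (TE V E Q) D) (v0, 0) =>
      ∃ y : E → ZMod 2, Fr.Ok v0 W y ∧
        ∀ yh : E → ZMod 2, G.bd yh = pt v0 + pt t0 → G.Agree W y yh →
        DcdT Fr De 𝒞 t0 (q.1.1 + Pth (G.tall Q) q.1.2 (iota yh + De.Dc (c.map Prod.fst)))
          q.1.2 c) ≤
      pr (fun q => ∃ φ ∈ I.powerset, Ev φ q) := by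
    apply pr_mono
    rintro q ⟨y, hok, hy⟩
    refine ⟨univ.filter fun e => e ∈ G.inc W ∧ y e ≠ 0, ?_, y, hok, ?_, hy⟩
    · rw [Finset.mem_powerset]
      intro e he
      rw [Finset.mem_filter] at he
      rw [hI, Finset.mem_filter]
      exact ⟨Finset.mem_univ _, he.2.1⟩
    · intro e he
      rw [Finset.mem_filter]
      constructor
      · intro h
        exact ⟨Finset.mem_univ _, he, h⟩
      · intro h
        exact h.2.2
  have hone : ∀ φ : Finset E, pr (Ev φ) ≤ p := by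
    intro φ
    by_cases hex : ∃ yh : E → ZMod 2, G.bd yh = pt v0 + pt t0 ∧ ∀ e ∈ G.inc W, (yh e ≠ 0 ↔ e ∈ φ)
    swap
    · refine le_trans (pr_mono (Q := fun _ => False) fun q hq => ?_)
        (by rw [pr_false]; exact hp0)
      obtain ⟨y, ⟨s, hs, hsf⟩, hpat, _⟩ := hq
      apply hex
      obtain ⟨γ, hγ, hγ0⟩ := Fr.conn W s t0 hm hsf hA.2.1
      refine ⟨y + γ, ?_, ?_⟩
      · rw [Gph.bd_add, hs, hγ]
        have := add_self2 (pt s : V → ZMod 2)
        calc pt v0 + pt s + (pt s + pt t0) = pt v0 + (pt s + pt s) + pt t0 := by abel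
          _ = pt v0 + pt t0 := by rw [this, add_zero]
      · intro e he
        rw [Pi.add_apply, hγ0 e he, add_zero]
        exact hpat e he
    obtain ⟨yh, hyh, hpat⟩ := hex
    have hbz : (G.tall Q).bd (iota yh + De.Dc (c.map Prod.fst)) = pt (v0, 0) + pt (t0, 0) := by
      rw [Gph.bd_add, bd_iota_path G yh v0 t0 hyh, bd_Dc, add_zero]
    have hshift := pr_Om_shift (G.tall Q) hD
      (HV.cen (v0, 0) w0 : HV (TV V Q) (TE V E Q) D) (v0, 0) (t0, 0)
      (iota yh + De.Dc (c.map Prod.fst)) hbz (fun β a => DcdT Fr De 𝒞 t0 β a c)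
    rw [hp, ← hshift]
    apply pr_mono
    rintro q ⟨y, _, hy, hall⟩
    refine hall yh hyh fun e he => ?_
    have h1 := (hy e he).trans (hpat e he).symm
    have h2 : ∀ a b : ZMod 2, (a ≠ 0 ↔ b ≠ 0) → a = b := by decide
    exact h2 _ _ h1
  refine hcover.trans ((pr_exists_le I.powerset Ev).trans ?_)
  refine (Finset.sum_le_sum fun φ _ => hone φ).trans ?_
  rw [Finset.sum_const, nsmul_eq_mul, Finset.card_powerset]
  refine mul_le_mul_of_nonneg_right ?_ hp0
  push_cast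
  exact pow_le_pow_right₀ (by norm_num) (card_inc_le G hdeg W)

end

end FrT
end

section

/-!
Detours with a given pattern exist; choice of the certificates.

PROOF of `exists_dc`.  Let `z, t` be the witness of `StepT` for
`C` at `(Us c', y)`, `ty` the violated vertex of `y` (`Fr.Ok v0 U y`).  Both `t` and `ty` are free for
`S = Us c' ∪ plc G Q L` (`L ⊆ cov`, so `plc L ⊆ plc (cov ..)`, `FrC.plc_mono`; `plc L ⊆ Us (k :: c') ⊆ U`),
`|S| ≤ Fr.m`; let `γ` be the path of `Fr.conn` for `S`.  Then `z + iota y + iota γ` is closed, zero on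
`incT G Q (Us c')`, and equal to `z + iota y` on `L`.  By `De.det` (`Us c'` is closed: `Us_cl`) there is a
closed chain with the same values on `L` and small support: its pattern on `L` is
`{e ∈ L | z e + iota y e ≠ 0} = P`.
(`C` is the certificate of the step, `U` any set with `Us (k :: c') ⊆ U`; here `U = Us (k :: c')`.)

PROOF of `exists_certs`: induction on `c` (use `Function.update` at the index `c.length`, or define
`Cs i` by choice).
-/

set_option linter.unusedSectionVars false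

namespace FrT

open Finset Fr56 FrC FrG
open scoped Classical

section
variable {V E : Type} [Fintype V] [Fintype E] [DecidableEq V] [DecidableEq E]
  {G : Gph V E} {Q K C₁ m : ℕ} (Fr : Frame G) (v0 : V) {D : ℕ} (α : Xt (TE V E Q) D → ZMod 2)
  (a : TV V Q → A D) (De : Detour G Q K C₁ m)

/-- there is a detour with the pattern of the step -/
theorem exists_dc {𝒞 : Set (Cert V E Q D)} {y : E → ZMod 2} {k : LP V E Q}
    {c' : List (LP V E Q)} {C : Cert V E Q D}
    (hst : StepT Fr v0 α a 𝒞 (De.Us c') y C k.1 k.2) (hok : Fr.Ok v0 (De.Us (k :: c')) y)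
    (hm : (De.Us (k :: c')).card ≤ Fr.m) :
    ∃ c, DcOk G C₁ (De.Us c') k.1 k.2 c := by
  obtain ⟨hst1, hPL, z, t, hz, hbz, hft, -, hpat⟩ := hst
  obtain ⟨-, -, -, hL, -⟩ := hst1
  obtain ⟨ty, hby, hfy⟩ := hok
  have hLcov : k.1 ⊆ cov (G.tall Q) a C.1 := by
    intro e he
    rw [cov, Finset.mem_filter]
    exact ⟨Finset.mem_univ _, ((hL e).1 he).1⟩
  have hS1 : De.Us c' ∪ plc G Q k.1 ⊆ De.Us (k :: c') :=
    Finset.union_subset (Us_cons_sub De k c') (plc_sub_Us De k c')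
  have hS2 : De.Us c' ∪ plc G Q k.1 ⊆ De.Us c' ∪ plc G Q (cov (G.tall Q) a C.1) :=
    Finset.union_subset_union_right (plc_mono G hLcov)
  obtain ⟨γ, hγ1, hγ2⟩ := Fr.conn (De.Us c' ∪ plc G Q k.1) t ty
    ((Finset.card_le_card hS1).trans hm) (Fr.anti hS2 hft) (Fr.anti hS1 hfy)
  have hγ3 : ∀ e ∈ incT G Q (De.Us c' ∪ plc G Q k.1), (iota γ : TE V E Q → ZMod 2) e = 0 :=
    fun e he => iota_eq_zero G hγ2 e he
  have hbd : (G.tall Q).bd (z + iota y + iota γ) = 0 := by
    rw [Gph.bd_add, Gph.bd_add, hbz, bd_iota_path G y v0 ty hby, bd_iota_path G γ t ty hγ1]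
    funext p
    simp only [Pi.add_apply, Pi.zero_apply]
    have h2 : ∀ x : ZMod 2, x + x = 0 := fun x => CharTwo.add_self_eq_zero x
    linear_combination h2 (pt (v0, 0) p) + h2 (pt (t, 0) p) + h2 (pt (ty, 0) p)
  have hzero : ∀ e ∈ incT G Q (De.Us c'), (z + iota y + iota γ : TE V E Q → ZMod 2) e = 0 := by
    intro e he
    have h1 := hz e he
    have h2 := hγ3 e (incT_mono G Finset.subset_union_left he)
    simp only [Pi.add_apply]
    rw [h1, h2, add_zero]
    exact CharTwo.add_self_eq_zero _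
  obtain ⟨c, hc1, hc2, hc3, hc4⟩ := De.det (De.Us c') (Us_cl De c') k.1
    (fun e he => ((hL e).1 he).2) (z + iota y + iota γ) hbd hzero
  refine ⟨c, hc1, hc2, fun e he => ?_, hc4⟩
  have h3 : e ∈ incT G Q (De.Us c' ∪ plc G Q k.1) :=
    incT_mono G Finset.subset_union_right (mem_incT_plc G he)
  rw [hc3 e he, hpat e he]
  simp only [Pi.add_apply]
  rw [hγ3 e h3, add_zero]
  exact not_congr CharTwo.add_eq_zero.symm

theorem exists_certs {𝒞 : Set (Cert V E Q D)} {y : E → ZMod 2} (c : List (LP V E Q))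
    (h : Run Fr v0 α a De 𝒞 y c) :
    ∃ Cs : ℕ → Cert V E Q D, ∀ (k : LP V E Q) (c' : List (LP V E Q)), (k :: c') <:+ c →
      StepT Fr v0 α a 𝒞 (De.Us c') y (Cs c'.length) k.1 k.2 := by
  induction c with
  | nil =>
    refine ⟨fun _ => (∅, 0), fun k c' hk => ?_⟩
    have := List.suffix_nil.1 hk
    exact absurd this (List.cons_ne_nil _ _)
  | cons k₀ c ih =>
    obtain ⟨h1, C, hC⟩ := h
    obtain ⟨Cs, hCs⟩ := ih h1
    refine ⟨Function.update Cs c.length C, fun k c' hk => ?_⟩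
    rcases List.suffix_cons_iff.1 hk with hk | hk
    · obtain ⟨rfl, rfl⟩ := List.cons.inj hk
      rw [Function.update_self]
      exact hC
    · have hlen : c'.length ≠ c.length := by
        have := hk.length_le
        rw [List.length_cons] at this
        omega
      rw [Function.update_of_ne hlen]
      exact hCs k c' hk

end

end FrT
end

section

/-!
The blow-up: weighted sum over all sets of edges of the probability that all their paths touch a
small set of vertices.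

Call a set `M` of edges a matching if distinct elements are vertex disjoint (`G.VDisj`).

PROOF of `sum_Tch_le`.  For each set `L` of edges choose a maximal matching `M(L) ⊆ L` (maximal
cardinality).  Every `f ∈ L` shares an endpoint with some `e ∈ M(L)` or is in `M(L)` (so in all
cases `f` has an endpoint which is an endpoint of an edge in `M(L)`).  So `L ⊆ N(M)`, the set of all
edges in the stars of endpoints of edges in `M = M(L)`, and `|N(M)| ≤ 2 Δ |M|`.  If `L ≠ ∅` then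
`M(L) ≠ ∅`.  Let `q e = |W.filter near e| / 2^D`.  Group the sum by `M = M(L)`:
`∑_(L ≠ ∅) x^|L| pr(∀ e ∈ L, Tch) ≤ ∑_(M matching, M ≠ ∅) pr(∀ e ∈ M, Tch) ∑_(L ⊆ N(M)) x^|L|
 ≤ ∑_(M ≠ ∅) (∏_(e ∈ M) q e) (1 + x)^(2 Δ |M|) ≤ ∏_e (1 + X q e) - 1 ≤ exp (X ∑_e q e) - 1`,
with `X = (1 + x)^(2 Δ)`; here `∑_(L ⊆ N) x^|L| = (1 + x)^|N|` (`Finset.sum_pow_mul_eq_add_pow`) and
`∏_e (1 + X q e) = ∑_M ∏_(e ∈ M) X q e` (`Finset.prod_one_add` / `Finset.prod_add`).  By
`sum_near_le` `X ∑_e q e ≤ X Δ |W| / 2^D ≤ 1/5`, and `exp (1/5) - 1 ≤ 1/4` (e.g. from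
`exp t ≤ 1 / (1 - t)` for `t < 1`: `exp (1/5) ≤ 5/4`; use `Real.one_sub_le_exp_neg`).
-/

set_option linter.unusedSectionVars false

namespace FrT

open Finset Fr56 FrC FrG
open scoped Classical

section
variable {V E : Type} [Fintype V] [Fintype E] [DecidableEq V] [DecidableEq E] (G : Gph V E) {D : ℕ}

/-- the edges sharing an endpoint with an edge in `M` -/
private noncomputable def nbS (M : Finset E) : Finset E :=
  M.biUnion fun e => G.star (G.src e) ∪ G.star (G.tgt e)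

private theorem card_nbS {Δ : ℕ} (hdeg : G.Deg Δ) (M : Finset E) :
    (nbS G M).card ≤ 2 * Δ * M.card := by
  unfold nbS
  have h := Finset.card_biUnion_le_card_mul M (fun e => G.star (G.src e) ∪ G.star (G.tgt e))
    (2 * Δ) (by
      intro e _
      have h1 := Finset.card_union_le (G.star (G.src e)) (G.star (G.tgt e))
      have h2 := hdeg (G.src e)
      have h3 := hdeg (G.tgt e)
      omega)
  rw [mul_comm]
  exact h

private theorem exists_max_matching (L : Finset E) :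
    ∃ M ⊆ L, (∀ e ∈ M, ∀ f ∈ M, e ≠ f → G.VDisj e f) ∧ L ⊆ nbS G M := by
  have hne : ((L.powerset).filter
      (fun M => ∀ e ∈ M, ∀ f ∈ M, e ≠ f → G.VDisj e f)).Nonempty :=
    ⟨∅, Finset.mem_filter.2 ⟨Finset.mem_powerset.2 (Finset.empty_subset _),
      fun e he => absurd he (Finset.notMem_empty e)⟩⟩
  obtain ⟨M, hM, hmax⟩ := Finset.exists_max_image _ Finset.card hne
  obtain ⟨hM1, hM2⟩ := Finset.mem_filter.1 hM
  have hML := Finset.mem_powerset.1 hM1
  refine ⟨M, hML, hM2, ?_⟩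
  intro f hf
  by_contra hcon
  have hfM : f ∉ M := by
    intro hfM
    apply hcon
    refine Finset.mem_biUnion.2 ⟨f, hfM, Finset.mem_union_left _ ?_⟩
    simp [Gph.star]
  have hd : ∀ e ∈ M, G.VDisj e f := by
    intro e he
    have h1 : f ∉ G.star (G.src e) ∪ G.star (G.tgt e) := by
      intro h2
      exact hcon (Finset.mem_biUnion.2 ⟨e, he, h2⟩)
    simp only [Finset.mem_union, Gph.star, Finset.mem_filter, Finset.mem_univ, true_and,
      not_or] at h1
    exact ⟨fun e1 => h1.1.1 e1.symm, fun e1 => h1.1.2 e1.symm,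
      fun e1 => h1.2.1 e1.symm, fun e1 => h1.2.2 e1.symm⟩
  have hins : insert f M ∈ (L.powerset).filter
      (fun M => ∀ e ∈ M, ∀ f ∈ M, e ≠ f → G.VDisj e f) := by
    refine Finset.mem_filter.2 ⟨Finset.mem_powerset.2 ?_, ?_⟩
    · intro g hg
      rcases Finset.mem_insert.1 hg with rfl | hg
      · exact hf
      · exact hML hg
    · intro g hg g' hg' hgg
      rcases Finset.mem_insert.1 hg with h1 | h1
      · rcases Finset.mem_insert.1 hg' with h2 | h2
        · exact absurd (h1.trans h2.symm) hgg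
        · rw [h1]
          obtain ⟨a1, a2, a3, a4⟩ := hd g' h2
          exact ⟨a1.symm, a3.symm, a2.symm, a4.symm⟩
      · rcases Finset.mem_insert.1 hg' with h2 | h2
        · rw [h2]
          exact hd g h1
        · exact hM2 g h1 g' h2 hgg
  have := hmax _ hins
  rw [Finset.card_insert_of_notMem hfM] at this
  omega

/-- **weighted sum over all sets of edges** -/
theorem sum_Tch_le (hl : G.NoLoop) (hD : 0 < D) {Δ : ℕ} (hΔ : 1 ≤ Δ) (hdeg : G.Deg Δ) (x : ℝ)
    (hx : 0 ≤ x) (W : Finset (HV V E D))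
    (hW : 5 * ((1 + x) ^ (2 * Δ) * (Δ * W.card)) ≤ (2 : ℝ) ^ D) :
    ∑ L ∈ (univ : Finset (Finset E)).filter (fun L => L.Nonempty),
      x ^ L.card * pr (fun a : V → A D => ∀ e ∈ L, Tch G a W e) ≤ 1 / 4 := by
  set q : E → ℝ := fun e => ((W.filter (near G e)).card : ℝ) / 2 ^ D with hq
  have hq0 : ∀ e, 0 ≤ q e := fun e => by simp only [hq]; positivity
  set X : ℝ := (1 + x) ^ (2 * Δ) with hX
  have hX0 : 0 ≤ X := by rw [hX]; positivity
  choose m hmL hmM hmN using exists_max_matching G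
  have hmne : ∀ L : Finset E, L.Nonempty → (m L).Nonempty := by
    rintro L ⟨f, hf⟩
    obtain ⟨e, he, _⟩ := Finset.mem_biUnion.1 (hmN L hf)
    exact ⟨e, he⟩
  have h1 : ∀ L : Finset E, x ^ L.card * pr (fun a : V → A D => ∀ e ∈ L, Tch G a W e) ≤
      x ^ L.card * ∏ e ∈ m L, q e := by
    intro L
    apply mul_le_mul_of_nonneg_left _ (by positivity)
    refine le_trans (pr_mono ?_) (pr_matching_le G hl hD W (m L) (hmM L))
    intro a ha e he
    exact ha e (hmL L he)
  have h2 : ∑ L ∈ (univ : Finset (Finset E)).filter (fun L => L.Nonempty),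
      x ^ L.card * pr (fun a : V → A D => ∀ e ∈ L, Tch G a W e) ≤
      ∑ L ∈ (univ : Finset (Finset E)).filter (fun L => L.Nonempty),
        x ^ L.card * ∏ e ∈ m L, q e := Finset.sum_le_sum fun L _ => h1 L
  have h3 : ∑ L ∈ (univ : Finset (Finset E)).filter (fun L => L.Nonempty),
        x ^ L.card * ∏ e ∈ m L, q e =
      ∑ M ∈ (univ : Finset (Finset E)).filter (fun M => M.Nonempty),
        ∑ L ∈ ((univ : Finset (Finset E)).filter (fun L => L.Nonempty)).filter
          (fun L => m L = M), x ^ L.card * ∏ e ∈ m L, q e := by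
    rw [Finset.sum_fiberwise_of_maps_to]
    intro L hL
    exact Finset.mem_filter.2 ⟨Finset.mem_univ _, hmne L (Finset.mem_filter.1 hL).2⟩
  have h4 : ∀ M : Finset E,
      ∑ L ∈ ((univ : Finset (Finset E)).filter (fun L => L.Nonempty)).filter
          (fun L => m L = M), x ^ L.card * ∏ e ∈ m L, q e ≤ ∏ e ∈ M, (X * q e) := by
    intro M
    have h5 : ∑ L ∈ ((univ : Finset (Finset E)).filter (fun L => L.Nonempty)).filter
          (fun L => m L = M), x ^ L.card * ∏ e ∈ m L, q e ≤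
        ∑ L ∈ (nbS G M).powerset, x ^ L.card * ∏ e ∈ M, q e := by
      calc _ = ∑ L ∈ ((univ : Finset (Finset E)).filter (fun L => L.Nonempty)).filter
              (fun L => m L = M), x ^ L.card * ∏ e ∈ M, q e := by
            apply Finset.sum_congr rfl
            intro L hL
            rw [(Finset.mem_filter.1 hL).2]
        _ ≤ _ := by
            apply Finset.sum_le_sum_of_subset_of_nonneg
            · intro L hL
              have h6 := (Finset.mem_filter.1 hL).2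
              rw [Finset.mem_powerset, ← h6]
              exact hmN L
            · intro L _ _
              exact mul_nonneg (by positivity) (Finset.prod_nonneg fun e _ => hq0 e)
    have h6 : ∑ L ∈ (nbS G M).powerset, x ^ L.card = (1 + x) ^ (nbS G M).card := by
      have h7 := Finset.sum_pow_mul_eq_add_pow x 1 (nbS G M)
      simp only [one_pow, mul_one] at h7
      rw [h7, add_comm]
    rw [← Finset.sum_mul, h6] at h5
    refine h5.trans ?_
    rw [Finset.prod_mul_distrib, Finset.prod_const, hX, ← pow_mul]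
    apply mul_le_mul_of_nonneg_right _ (Finset.prod_nonneg fun e _ => hq0 e)
    exact pow_le_pow_right₀ (by linarith) (card_nbS G hdeg M)
  have h8 : ∑ M ∈ (univ : Finset (Finset E)).filter (fun M => M.Nonempty),
      ∏ e ∈ M, (X * q e) = ∏ e : E, (1 + X * q e) - 1 := by
    have h9 : ∏ e : E, (1 + X * q e) = ∑ M : Finset E, ∏ e ∈ M, (X * q e) := by
      rw [Finset.prod_one_add, Finset.powerset_univ]
    rw [h9, ← Finset.sum_filter_add_sum_filter_not (univ : Finset (Finset E))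
      (fun M => M.Nonempty)]
    have h10 : (univ : Finset (Finset E)).filter (fun M => ¬ M.Nonempty) = {∅} := by
      ext M
      simp [Finset.not_nonempty_iff_eq_empty]
    rw [h10, Finset.sum_singleton, Finset.prod_empty]
    ring
  have h11 : ∏ e : E, (1 + X * q e) ≤ Real.exp (1 / 5) := by
    calc ∏ e : E, (1 + X * q e) ≤ ∏ e : E, Real.exp (X * q e) := by
          apply Finset.prod_le_prod
          · intro e _
            have := mul_nonneg hX0 (hq0 e)
            linarith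
          · intro e _
            have := Real.add_one_le_exp (X * q e)
            linarith
      _ = Real.exp (∑ e : E, X * q e) := by rw [Real.exp_sum]
      _ ≤ Real.exp (1 / 5) := by
          apply Real.exp_le_exp.2
          rw [← Finset.mul_sum]
          have h12 : ∑ e : E, q e = ((∑ e : E, (W.filter (near G e)).card : ℕ) : ℝ) / 2 ^ D := by
            simp only [hq]
            rw [← Finset.sum_div]
            push_cast
            rfl
          have h13 : ((∑ e : E, (W.filter (near G e)).card : ℕ) : ℝ) ≤ (Δ : ℝ) * W.card := by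
            exact_mod_cast sum_near_le G hΔ hdeg W
          have h14 : (0 : ℝ) < 2 ^ D := by positivity
          rw [h12, ← mul_div_assoc, div_le_iff₀ h14]
          have h15 := mul_le_mul_of_nonneg_left h13 hX0
          linarith
  have h16 : Real.exp (1 / 5) ≤ 5 / 4 := by
    have h17 := Real.one_sub_le_exp_neg (1 / 5)
    rw [Real.exp_neg] at h17
    have h18 : (0 : ℝ) < Real.exp (1 / 5) := Real.exp_pos _
    have h19 : Real.exp (1 / 5) * (Real.exp (1 / 5))⁻¹ = 1 := mul_inv_cancel₀ h18.ne'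
    nlinarith
  calc _ ≤ _ := h2
    _ = _ := h3
    _ ≤ ∑ M ∈ (univ : Finset (Finset E)).filter (fun M => M.Nonempty),
      ∏ e ∈ M, (X * q e) := Finset.sum_le_sum fun M _ => h4 M
    _ = _ := h8
    _ ≤ 1 / 4 := by linarith

end

end FrT
end

section

/-!
Decoding a sequence of steps, with moves of the violated vertex.

Conventions: `U = De.Us c` for the full list `c`, `n = c.length`.  For an entry `k` in `c = c2 ++ k :: c1`
its index is `c1.length` (time).


PROOF of `decodeT`.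
(1) Choose certificates `Cs i` for all indices `i < n` by `exists_certs`.
(2) For a block `b : ℕ` let `N b = U ∪ ⋃_(i < n, i / ℓ = b) G.nbh (Unc G Q (Cs i).1)`.  A block has at
most `ℓ` indices, `|G.nbh (Unc ..)| ≤ (1 + Δ) (2 k)` (`FrC.card_nbh`, `FrC.card_Unc`), so
`|N b| ≤ |U| + ℓ (2 (1 + Δ) k) ≤ Fr.m` (`card_Us`).  Choose `vb b` with `SF.SFree (N b) (vb b)`
(`SF.ne`).  Put `ts i = vb (i / ℓ)`.  So for all `i < n`: `Fr.Free (U ∪ G.nbh (Unc G Q (Cs i).1)) (ts i)`
(anti, free), and `SF.SFree U (ts i)` for ALL `i : ℕ`.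
(3) Let `γs i = 0` if `i / ℓ = (i + 1) / ℓ`, otherwise an element of `SF.Γ` with
`bd = pt (ts i) + pt (ts (i + 1))` that vanishes on `G.inc U` (`SF.conn`).
(4) Define the code `mk : List (LP V E Q) → List (LM V E Q)` by `mk [] = []`,
`mk (k :: c') = (k, (γs c'.length, ts (c'.length + 1))) :: mk c'`, and `ĉ = mk c`, `t0 = ts 0`.  Then
`(mk c').map Prod.fst = c'`, `tv t0 (mk c') = ts c'.length`, the entries are in `ents V E Q SF.Γ` (the
conditions `Nonempty`, `P ⊆ L` come from the steps), `nmv t0 (mk c') ≤ c'.length / ℓ` (induction: a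
nontrivial move at index `i` happens only if `(i + 1) / ℓ = i / ℓ + 1`; if `i / ℓ = (i + 1) / ℓ` then
`γs i = 0` and `ts (i + 1) = ts i`), and
`De.Sc (mk c') = De.Dc c' + iota (∑_(i < c'.length) γs i)`.
(5) `AdmT`: for `AdmS` see the steps (`Step` gives `e ∈ L → e ∉ incT G Q (Us c')`); the moves vanish on
`G.inc U`; `Fr.Free U t0`.
(6) Let `yh` be given, `bd yh = pt v0 + pt t0`, `Agree U y yh`, and
`β = α + Pth a (iota yh + De.Dc c)`.  Claim: `DcdT ... (mk c')` for all suffixes `c'` of `c`, by induction on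
`c'`.  Let `k :: c'` be a suffix, `i = c'.length`, `C = Cs i`, `x = iota yh + De.Dc c + De.Sc (mk c')`, so that
`β + Pth a (De.Sc (mk c')) = α + Pth a x` (`FrC.Pth_add`).  We have
`x = iota (yh + ∑_(j < i) γs j) + (De.Dc c + De.Dc c')`, so `bd x = pt (v0, 0) + pt (ts i, 0)`
(`bd_iota_path`, `bd_Dc`; the boundaries of `γs j` telescope), and
 (a) `x e = iota y e` for `e ∈ incT G Q (De.Us c')` (`Dc_eq_zero`; `yh` agrees with `y` on `U`; the moves
     vanish on `G.inc U`, so their `iota` vanishes on `incT G Q U`, `FrC.iota_eq_zero`);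
 (b) for `e ∈ k.1`: `e ∈ incT G Q (De.Us (k :: c'))` (as `plc k.1 ⊆ Us (k :: c')`, `mem_incT_plc`), so by
     `Dc_eq_zero` for `k :: c'` `(De.Dc c) e = (De.Dc (k :: c')) e = (De.Dc c') e + dc .. e` and
     `x e = iota y e + dc G C₁ (De.Us c') k.1 k.2 e = z e`, where `z` is the witness in `StepT`: the
     pattern of `dc` on `k.1` is `k.2` (`dc_pattern`; existence of a detour: (7)), `e ∈ k.2 ↔ z e ≠ iota y e`,
     and everything is in `ZMod 2`.
 `Match G C (α + Pth a x)`: for `u ∈ inc C.1`, live, `u.e` is in `incT G Q (Us c')` (then use (a) and the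
 property of `z`) or in `k.1` (by the definition of `L` in `Step`; then (b)).
 First matched certificate: `P` holds for `C` by (2) and anti; if `C' ∈ 𝒞` satisfies `P`, is matched by
 `α + Pth a x` and `idx C' < idx C`, then `Poss ... C' (Us c') y` with witness `x`, `ts i` (use
 `FrC.plc_cov_subset` and `anti`), contradicting `Step`.  The paths of the edges in `k.1` touch
 `C.1` by `Step`.
 (Compare the proof of `FrC.decode` in C/Decode.lean.)
(7) `exists_dc` (DecodeA.lean): at each step there is a detour with the pattern.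
-/

set_option linter.unusedSectionVars false

namespace FrT

open Finset Fr56 FrC FrG
open scoped Classical

section
variable {V E : Type} [Fintype V] [Fintype E] [DecidableEq V] [DecidableEq E]
  {G : Gph V E} {Q K C₁ m : ℕ} (Fr : Frame G) (v0 : V) {D : ℕ} (α : Xt (TE V E Q) D → ZMod 2)
  (a : TV V Q → A D) (De : Detour G Q K C₁ m)

private theorem zm1 : ∀ p q r : ZMod 2, p + (q + r) = 0 → p + q = r := by decide

private theorem zm2 : ∀ p q r : ZMod 2, (p ≠ 0 ↔ q ≠ r) → r + p = q := by decide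

/-- the code with moves `γs` and violated vertices `ts` -/
private def mkc (γs : ℕ → E → ZMod 2) (ts : ℕ → V) : List (LP V E Q) → List (LM V E Q)
  | [] => []
  | k :: c => (k, (γs c.length, ts (c.length + 1))) :: mkc γs ts c

private theorem mkc_map (γs : ℕ → E → ZMod 2) (ts : ℕ → V) (c : List (LP V E Q)) :
    (mkc γs ts c).map Prod.fst = c := by
  induction c with
  | nil => rfl
  | cons k c ih => rw [mkc, List.map_cons, ih]

private theorem mkc_tv (γs : ℕ → E → ZMod 2) (ts : ℕ → V) (c : List (LP V E Q)) :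
    tv (ts 0) (mkc γs ts c) = ts c.length := by
  cases c with
  | nil => rfl
  | cons k c => rfl

private theorem mkc_Sc (γs : ℕ → E → ZMod 2) (ts : ℕ → V) (c : List (LP V E Q)) :
    De.Sc (mkc γs ts c) = De.Dc c + iota (∑ i ∈ range c.length, γs i) := by
  induction c with
  | nil =>
    funext x
    rcases x with x | x
    · simp [mkc, Detour.Sc, Detour.Dc, iota]
    · simp [mkc, Detour.Sc, Detour.Dc, iota]
  | cons k c ih =>
    rw [mkc, Detour.Sc, ih, mkc_map, Detour.Dc, List.length_cons, Finset.sum_range_succ, iota_add]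
    abel

private theorem mkc_nmv {γs : ℕ → E → ZMod 2} {ts : ℕ → V} {ℓ : ℕ}
    (h : ∀ i, i / ℓ = (i + 1) / ℓ → γs i = 0 ∧ ts (i + 1) = ts i) (c : List (LP V E Q)) :
    nmv (ts 0) (mkc γs ts c) ≤ c.length / ℓ := by
  induction c with
  | nil => simp [mkc, nmv]
  | cons k c ih =>
    rw [mkc, nmv, mkc_tv, List.length_cons]
    by_cases h1 : c.length / ℓ = (c.length + 1) / ℓ
    · obtain ⟨h2, h3⟩ := h _ h1
      rw [if_pos ⟨h2, h3⟩, ← h1, add_zero]
      exact ih
    · have h2 : c.length / ℓ ≤ (c.length + 1) / ℓ := Nat.div_le_div_right (Nat.le_succ _)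
      split_ifs
      · omega
      · omega

private theorem mkc_mem {γs : ℕ → E → ZMod 2} {ts : ℕ → V} {c : List (LP V E Q)}
    {x : LM V E Q} (hx : x ∈ mkc γs ts c) :
    ∃ (k : LP V E Q) (c' : List (LP V E Q)), (k :: c') <:+ c ∧
      x = (k, (γs c'.length, ts (c'.length + 1))) := by
  induction c with
  | nil => simp [mkc] at hx
  | cons k c ih =>
    rw [mkc, List.mem_cons] at hx
    rcases hx with hx | hx
    · exact ⟨k, c, List.suffix_refl _, hx⟩
    · obtain ⟨k', c', h1, h2⟩ := ih hx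
      exact ⟨k', c', h1.trans (List.suffix_cons k c), h2⟩

private theorem card_block (n ℓ b : ℕ) (hℓ : 0 < ℓ) :
    ((range n).filter fun i => i / ℓ = b).card ≤ ℓ := by
  have h1 : ((range n).filter fun i => i / ℓ = b) ⊆ Finset.Ico (b * ℓ) (b * ℓ + ℓ) := by
    intro i hi
    rw [Finset.mem_filter] at hi
    obtain ⟨_, hi⟩ := hi
    rw [Finset.mem_Ico]
    have h2 := Nat.div_add_mod i ℓ
    have h3 := Nat.mod_lt i hℓ
    rw [hi, mul_comm] at h2
    omega
  refine (Finset.card_le_card h1).trans ?_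
  rw [Nat.card_Ico]
  omega

/-- **decoding** -/
theorem decodeT (SF : SFrame Fr) {Δ k ℓ : ℕ} (hdeg : G.Deg Δ) {𝒞 : Set (Cert V E Q D)}
    (h𝒞 : ∀ C ∈ 𝒞, C.1.card ≤ k) (hℓ : 0 < ℓ) (c : List (LP V E Q)) (y : E → ZMod 2)
    (hrun : Run Fr v0 α a De 𝒞 y c) (hok : Fr.Ok v0 (De.Us c) y)
    (hm : (2 + C₁) * totL c ≤ m)
    (hmF : K * ((2 + C₁) * totL c) + ℓ * (2 * (1 + Δ) * k) ≤ Fr.m) :
    ∃ (t0 : V) (c' : List (LM V E Q)), c'.map Prod.fst = c ∧ (∀ k ∈ c', k ∈ ents V E Q SF.Γ) ∧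
      AdmT Fr De t0 c' ∧ nmv t0 c' ≤ c.length / ℓ ∧
      ∀ yh : E → ZMod 2, G.bd yh = pt v0 + pt t0 → G.Agree (De.Us c) y yh →
        DcdT Fr De 𝒞 t0 (α + Pth (G.tall Q) a (iota yh + De.Dc c)) a c' := by
  classical
  set U : Finset V := De.Us c with hU
  set n : ℕ := c.length with hn
  -- (1)
  obtain ⟨Cs, hCs⟩ := exists_certs Fr v0 α a De c hrun
  have hUcard0 : U.card ≤ K * ((2 + C₁) * totL c) := card_Us De c hm
  have hC𝒞 : ∀ i, i < n → Cs i ∈ 𝒞 := by
    intro i hi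
    have hd : c.drop (n - (i + 1)) <:+ c := List.drop_suffix _ _
    have hl : (c.drop (n - (i + 1))).length = i + 1 := by
      rw [List.length_drop]
      omega
    obtain ⟨k0, c0, h0⟩ : ∃ k0 c0, c.drop (n - (i + 1)) = k0 :: c0 := by
      cases hc : c.drop (n - (i + 1)) with
      | nil => rw [hc] at hl; simp at hl
      | cons k0 c0 => exact ⟨k0, c0, rfl⟩
    rw [h0] at hd hl
    have hl' : c0.length = i := by simpa using hl
    have h1 := hCs k0 c0 hd
    rw [hl'] at h1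
    exact h1.1.1
  -- (2)
  set N : ℕ → Finset V := fun b => U ∪ ((range n).filter fun i => i / ℓ = b).biUnion
    (fun i => G.nbh (Unc G Q (Cs i).1)) with hN
  have hNcard : ∀ b, (N b).card ≤ Fr.m := by
    intro b
    have h1 : (N b).card ≤ U.card + ∑ i ∈ (range n).filter (fun i => i / ℓ = b),
        (G.nbh (Unc G Q (Cs i).1)).card :=
      (Finset.card_union_le _ _).trans (Nat.add_le_add_left Finset.card_biUnion_le _)
    have h2 : ∑ i ∈ (range n).filter (fun i => i / ℓ = b), (G.nbh (Unc G Q (Cs i).1)).card ≤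
        ∑ _i ∈ (range n).filter (fun i => i / ℓ = b), (1 + Δ) * (2 * k) := by
      apply Finset.sum_le_sum
      intro i hi
      refine (card_nbh G hdeg _).trans (Nat.mul_le_mul_left _ ?_)
      refine (card_Unc G _).trans (Nat.mul_le_mul_left _ ?_)
      exact h𝒞 _ (hC𝒞 i (Finset.mem_range.1 (Finset.mem_filter.1 hi).1))
    rw [Finset.sum_const, smul_eq_mul] at h2
    have h3 : ((range n).filter fun i => i / ℓ = b).card * ((1 + Δ) * (2 * k)) ≤
        ℓ * ((1 + Δ) * (2 * k)) := Nat.mul_le_mul_right _ (card_block n ℓ b hℓ)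
    calc (N b).card ≤ K * ((2 + C₁) * totL c) + ℓ * ((1 + Δ) * (2 * k)) := by omega
      _ = K * ((2 + C₁) * totL c) + ℓ * (2 * (1 + Δ) * k) := by ring
      _ ≤ Fr.m := hmF
  choose vb hvb using fun b => SF.ne (N b) (hNcard b)
  have hUN : ∀ b, U ⊆ N b := fun b => Finset.subset_union_left
  have hUcard : U.card ≤ Fr.m := (Finset.card_le_card (hUN 0)).trans (hNcard 0)
  set ts : ℕ → V := fun i => vb (i / ℓ) with hts
  have hSF : ∀ i, SF.SFree U (ts i) := fun i => SF.anti (hUN _) (hvb _)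
  have hfree : ∀ i, i < n → Fr.Free (U ∪ G.nbh (Unc G Q (Cs i).1)) (ts i) := by
    intro i hi
    refine Fr.anti ?_ (SF.free (hvb (i / ℓ)))
    apply Finset.union_subset (hUN _)
    intro v hv
    refine Finset.mem_union_right _ (Finset.mem_biUnion.2 ⟨i, ?_, hv⟩)
    rw [Finset.mem_filter, Finset.mem_range]
    exact ⟨hi, rfl⟩
  -- (3)
  have hγex : ∀ i, ∃ γ : E → ZMod 2, γ ∈ insert 0 SF.Γ ∧ G.bd γ = pt (ts i) + pt (ts (i + 1)) ∧
      (∀ e ∈ G.inc U, γ e = 0) ∧ (i / ℓ = (i + 1) / ℓ → γ = 0) := by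
    intro i
    by_cases h : i / ℓ = (i + 1) / ℓ
    · refine ⟨0, Finset.mem_insert_self _ _, ?_, fun _ _ => rfl, fun _ => rfl⟩
      have h1 : ts (i + 1) = ts i := by
        simp only [hts]
        rw [← h]
      rw [Gph.bd_zero, h1, add_self2]
    · obtain ⟨γ, h1, h2, h3⟩ := SF.conn U (ts i) (ts (i + 1)) hUcard (hSF i) (hSF (i + 1))
      exact ⟨γ, Finset.mem_insert_of_mem h1, h2, h3, fun h4 => absurd h4 h⟩
  choose γs hγ1 hγ2 hγ3 hγ4 using hγex
  have hbdσ : ∀ i, G.bd (∑ j ∈ range i, γs j) = pt (ts 0) + pt (ts i) := by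
    intro i
    induction i with
    | zero => rw [Finset.sum_range_zero, Gph.bd_zero, add_self2]
    | succ i ih =>
      rw [Finset.sum_range_succ, Gph.bd_add, ih, hγ2]
      have h1 : (pt (ts 0) + pt (ts i) + (pt (ts i) + pt (ts (i + 1))) : V → ZMod 2) =
          pt (ts 0) + pt (ts (i + 1)) + (pt (ts i) + pt (ts i)) := by abel
      rw [h1, add_self2, add_zero]
  have hσ0 : ∀ i, ∀ e ∈ G.inc U, (∑ j ∈ range i, γs j) e = 0 := by
    intro i e he
    rw [Finset.sum_apply]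
    exact Finset.sum_eq_zero fun j _ => hγ3 j e he
  -- the suffixes
  have hsub : ∀ c', c' <:+ c → De.Us c' ⊆ U := fun c' h => Us_mono De h
  have hlen : ∀ (k : LP V E Q) (c' : List (LP V E Q)), (k :: c') <:+ c → c'.length < n := by
    intro k c' h
    have h1 := h.length_le
    rw [List.length_cons] at h1
    omega
  have htail : ∀ (k : LP V E Q) (c' : List (LP V E Q)), (k :: c') <:+ c → c' <:+ c :=
    fun k c' h => (List.suffix_cons k c').trans h
  refine ⟨ts 0, mkc γs ts c, mkc_map γs ts c, ?_, ⟨?_, ?_, ?_⟩, ?_, ?_⟩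
  · intro x hx
    obtain ⟨k, c', h1, rfl⟩ := mkc_mem hx
    obtain ⟨⟨_, _, _, hL, hLne⟩, hPL, _⟩ := hCs k c' h1
    unfold ents
    rw [Finset.mem_product, Finset.mem_product]
    refine ⟨?_, hγ1 _, Finset.mem_univ _⟩
    rw [Finset.mem_filter]
    exact ⟨Finset.mem_univ _, hLne, hPL⟩
  · -- `AdmS`
    have key : ∀ c', c' <:+ c → AdmS De (ts 0) (mkc γs ts c') := by
      intro c'
      induction c' with
      | nil => intro _; exact trivial
      | cons k c' ih =>
        intro h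
        obtain ⟨⟨_, _, _, hL, hLne⟩, hPL, _⟩ := hCs k c' h
        refine ⟨ih (htail k c' h), hLne, hPL, ?_, ?_⟩
        · intro e he
          rw [mkc_map]
          exact ((hL e).1 he).2
        · rw [mkc_tv]
          exact hγ2 _
    exact key c (List.suffix_refl c)
  · rw [mkc_map]
    exact SF.free (hSF 0)
  · intro x hx e he
    rw [mkc_map] at he
    obtain ⟨k, c', h1, rfl⟩ := mkc_mem hx
    exact hγ3 _ e he
  · refine mkc_nmv ?_ c
    intro i hi
    refine ⟨hγ4 i hi, ?_⟩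
    simp only [hts]
    rw [← hi]
  · intro yh hyh hyh'
    have key : ∀ c', c' <:+ c → DcdT Fr De 𝒞 (ts 0)
        (α + Pth (G.tall Q) a (iota yh + De.Dc c)) a (mkc γs ts c') := by
      intro c'
      induction c' with
      | nil => intro _; exact trivial
      | cons k c' ih =>
        intro h
        have hst := hCs k c' h
        obtain ⟨⟨hC, hP, hmin, hL, hLne⟩, hPL, z, t, hz1, hz2, hz3, hz4, hz5⟩ := hst
        set i : ℕ := c'.length with hi
        have hin : i < n := hlen k c' h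
        have hUs : De.Us c' ⊆ U := hsub c' (htail k c' h)
        have hUs1 : De.Us (k :: c') ⊆ U := hsub (k :: c') h
        obtain ⟨c2, hc2⟩ := h
        set σ : E → ZMod 2 := ∑ j ∈ range i, γs j with hσ
        set x : TE V E Q → ZMod 2 := iota yh + De.Dc c + De.Sc (mkc γs ts c') with hx
        have hβ : α + Pth (G.tall Q) a (iota yh + De.Dc c) +
            Pth (G.tall Q) a (De.Sc (mkc γs ts c')) = α + Pth (G.tall Q) a x := by
          rw [add_assoc, ← Pth_add]
        have hx' : x = iota (yh + σ) + (De.Dc c + De.Dc c') := by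
          rw [hx, mkc_Sc, iota_add]
          abel
        have hσe : ∀ e ∈ incT G Q U, iota (yh + σ) e = iota y e := by
          intro e he
          rw [iota_add, Pi.add_apply, iota_eq_zero G (hσ0 i) e he, add_zero]
          exact (iota_agree G hyh' e he).symm
        have hxbd : (G.tall Q).bd x = pt (v0, 0) + pt (ts i, 0) := by
          rw [hx', Gph.bd_add, Gph.bd_add, bd_Dc, bd_Dc, add_zero, add_zero]
          apply bd_iota_path
          rw [Gph.bd_add, hyh, hbdσ]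
          have h1 : (pt v0 + pt (ts 0) + (pt (ts 0) + pt (ts i)) : V → ZMod 2) =
              pt v0 + pt (ts i) + (pt (ts 0) + pt (ts 0)) := by abel
          rw [h1, add_self2, add_zero]
        have hx1 : ∀ e ∈ incT G Q (De.Us c'), x e = iota y e := by
          intro e he
          have h1 : (De.Dc c + De.Dc c') e = 0 := by
            have h2 := Dc_eq_zero De (c2 ++ [k]) c' e he
            rw [List.append_assoc, List.singleton_append, hc2] at h2
            exact h2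
          rw [hx', Pi.add_apply, h1, add_zero]
          exact hσe e (incT_mono G hUs he)
        have hx2 : ∀ e ∈ k.1, x e = z e := by
          intro e he
          have he1 : e ∈ incT G Q (De.Us (k :: c')) :=
            incT_mono G (plc_sub_Us De k c') (mem_incT_plc G he)
          have h1 : (De.Dc c + De.Dc (k :: c')) e = 0 := by
            have h2 := Dc_eq_zero De c2 (k :: c') e he1
            rw [hc2] at h2
            exact h2
          have hdc : ∃ d, DcOk G C₁ (De.Us c') k.1 k.2 d :=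
            exists_dc Fr v0 α a De (hCs k c' ⟨c2, hc2⟩) (hok.mono hUs1)
              ((Finset.card_le_card hUs1).trans hUcard)
          have h3 := dc_pattern (C₁ := C₁) (De.Us c') k.1 k.2 hdc e he
          have h4 := hz5 e he
          rw [hx', Pi.add_apply, hσe e (incT_mono G hUs1 he1)]
          rw [Detour.Dc] at h1
          have h5 : (De.Dc c + De.Dc c') e = dc G C₁ (De.Us c') k.1 k.2 e := by
            simp only [Pi.add_apply] at h1 ⊢
            exact zm1 _ _ _ h1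
          rw [h5]
          have h6 : dc G C₁ (De.Us c') k.1 k.2 e ≠ 0 ↔ z e ≠ iota y e := h3.symm.trans h4
          exact zm2 _ _ _ h6
        refine ⟨ih (htail k c' ⟨c2, hc2⟩), Cs i, ⟨hC, ?_, ?_, ?_⟩, fun e he => ((hL e).1 he).1⟩
        · rw [mkc_map, mkc_tv]
          exact Fr.anti (Finset.union_subset_union hUs (Finset.Subset.refl _)) (hfree i hin)
        · rw [hβ]
          intro u hu
          rw [← hz4 u hu, Pi.add_apply, Pi.add_apply]
          congr 1
          unfold Pth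
          by_cases hlive : live (G.tall Q) a u
          · rw [if_pos hlive, if_pos hlive]
            by_cases hue : u.e ∈ incT G Q (De.Us c')
            · rw [hx1 _ hue, hz1 _ hue]
            · exact hx2 _ ((hL u.e).2 ⟨⟨u, rfl, hlive, hu⟩, hue⟩)
          · rw [if_neg hlive, if_neg hlive]
        · intro C' hC' hP' hM'
          rw [hβ] at hM'
          rw [mkc_map, mkc_tv] at hP'
          by_contra hcon
          push Not at hcon
          apply hmin C' hC' hcon
          refine ⟨x, ts i, hx1, hxbd, ?_, hM'⟩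
          apply Fr.anti _ hP'
          apply Finset.union_subset
          · exact Finset.subset_union_left
          · exact (plc_cov_subset G a _).trans Finset.subset_union_right
    exact key c (List.suffix_refl c)

end

end FrT
end

section

/-!
The weighted sum over all codes.

PROOF of `sumT`.  Induction on `n`; `n = 0`: `lst' s 0 = {[]}`, `totL [] = 0`, `nmv = 0`, `DcdT [] = True`.
Step: `sum_lst'_succ`.  The filtered sum over `lst' (n + 1)` is
`∑_(c ∈ lst' n) ∑_(k ∈ ents) if AdmT (k :: c) then ... else 0`.  `AdmT (k :: c)` implies `AdmT c`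
(`Us_cons_sub`, `Fr.anti`).  So it suffices: for `c` with `AdmT c`
`∑_(k ∈ ents, AdmT (k :: c)) x^|k.1.1| λ^(mv) pr (a t = w ∧ DcdT (k :: c)) ≤ (1/2) pr (a t = w ∧ DcdT c)`,
where `mv = 0` if `k.2.1 = 0 ∧ k.2.2 = tv t0 c`, otherwise `1`.
Apply `peel_sum` with `ι = LM V E Q`, `s` the filtered `ents`, weights `x^|k.1.1| λ^mv`, `q = 1/2`,
`S = {v | v.1 ∈ Us c ∨ (v.2 = 0 ∧ (v.1 = t0 ∨ ∃ k ∈ c, ∃ e, k.2.1 e ≠ 0 ∧ (src e = v.1 ∨ tgt e = v.1)))}`,
`T k = {v | ∃ e ∈ k.1.1, (G.tall Q).src e = v ∨ (G.tall Q).tgt e = v}`, `P a = (a (t0, 0) = w ∧ DcdT c)`,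
`R a C = Act .. C`, `F k C a = ∀ e ∈ k.1.1, Tch (G.tall Q) a C.1 e`.
 Disjoint: let `v` be an endpoint of `e ∈ k.1.1`.  `e ∉ incT G Q (Us c)` so `v.1 ∉ Us c`.
 `v.1 ∈ plc k.1.1 ⊆ Us (k.1 :: ..)`; `t0` is free for that set, hence not in it; and if
 `k'.2.1 e' ≠ 0` with an endpoint `v.1` for some `k' ∈ c` then `e' ∈ G.inc (Us (k.1 :: ..))`,
 contradicting `AdmT (k :: c)`.
 `P` depends on `S = SS De t0 c`: `DcdT_depOn` (CodeB.lean), `(t0, 0) ∈ S`.  `R`: `Pth_Sc_congr` (CodeB.lean).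
 Uniqueness: `idx_inj` and minimality.  `F k C` depends on `T k`: `FrC.Tch_congr`.
 The bound: for `C` with `∃ a, Act .. C` we have `C ∈ 𝒞`, `|C.1| ≤ kk`, and
 `∑_(k ∈ ents) x^|k.1.1| λ^mv pr (∀ e ∈ k.1.1, Tch ..)`
 `= (∑_((γ, t)) λ^mv) * ∑_(L ≠ ∅) ∑_(P ⊆ L) x^|L| pr (∀ e ∈ L, Tch ..)`
 `≤ 2 * ∑_(L ≠ ∅) (2 x)^|L| pr (∀ e ∈ L, Tch ..) ≤ 2 * (1 / 4)` by `sum_Tch_le` for `G.tall Q` with `Δ + 2`,
 `2 x`; here `∑_((γ, t) ∈ insert 0 Γ × V) λ^mv ≤ 1 + (|Γ| + 1) |V| λ ≤ 2`.  (The admissibility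
 filter only drops nonnegative terms.)
-/

set_option linter.unusedSectionVars false

namespace FrT

open Finset Fr56 FrC FrG
open scoped Classical

section
variable {V E : Type} [Fintype V] [Fintype E] [DecidableEq V] [DecidableEq E]
  {G : Gph V E} {Q K C₁ m : ℕ} (Fr : Frame G) (v0 : V) {D : ℕ} (De : Detour G Q K C₁ m)

private theorem admT_tail (t0 : V) {k : LM V E Q} {c : List (LM V E Q)}
    (h : AdmT Fr De t0 (k :: c)) : AdmT Fr De t0 c := by
  refine ⟨h.1.1, Fr.anti (Us_cons_sub De k.1 (c.map Prod.fst)) h.2.1, ?_⟩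
  intro k' hk' e he
  exact h.2.2 k' (List.mem_cons_of_mem _ hk') e
    (G.inc_mono (Us_cons_sub De k.1 (c.map Prod.fst)) he)

/-- indicator of a nontrivial move -/
private noncomputable def mvv (t0 : V) (c : List (LM V E Q)) (g : (E → ZMod 2) × V) : ℕ :=
  if g.1 = 0 ∧ g.2 = tv t0 c then 0 else 1

private theorem sum_mv (t0 : V) (c : List (LM V E Q)) (Γ : Finset (E → ZMod 2)) (lam : ℝ)
    (hlam0 : 0 ≤ lam) (hlam : lam * ((Γ.card + 1) * Fintype.card V) ≤ 1) :
    ∑ g ∈ (insert 0 Γ) ×ˢ (univ : Finset V), lam ^ mvv t0 c g ≤ 2 := by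
  have h1 : ∀ g ∈ (insert 0 Γ) ×ˢ (univ : Finset V),
      lam ^ mvv t0 c g ≤ (if g = (0, tv t0 c) then 1 else 0) + lam := by
    intro g _
    unfold mvv
    by_cases h : g.1 = 0 ∧ g.2 = tv t0 c
    · rw [if_pos h, if_pos (Prod.ext h.1 h.2), pow_zero]
      linarith
    · rw [if_neg h, pow_one]
      have : (0 : ℝ) ≤ if g = (0, tv t0 c) then 1 else 0 := by split_ifs <;> norm_num
      linarith
  have h2 : ∑ g ∈ (insert 0 Γ) ×ˢ (univ : Finset V), (if g = (0, tv t0 c) then (1 : ℝ) else 0) ≤ 1 := by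
    rw [Finset.sum_ite_eq']
    split_ifs <;> norm_num
  have h3 : (((insert 0 Γ) ×ˢ (univ : Finset V)).card : ℝ) ≤ (Γ.card + 1) * Fintype.card V := by
    rw [Finset.card_product, Nat.cast_mul, Finset.card_univ]
    apply mul_le_mul_of_nonneg_right _ (Nat.cast_nonneg _)
    exact_mod_cast Finset.card_insert_le 0 Γ
  calc ∑ g ∈ (insert 0 Γ) ×ˢ (univ : Finset V), lam ^ mvv t0 c g
      ≤ ∑ g ∈ (insert 0 Γ) ×ˢ (univ : Finset V), ((if g = (0, tv t0 c) then 1 else 0) + lam) :=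
        Finset.sum_le_sum h1
    _ = (∑ g ∈ (insert 0 Γ) ×ˢ (univ : Finset V), (if g = (0, tv t0 c) then (1 : ℝ) else 0)) +
          (((insert 0 Γ) ×ˢ (univ : Finset V)).card : ℝ) * lam := by
        rw [Finset.sum_add_distrib, Finset.sum_const, nsmul_eq_mul]
    _ ≤ 1 + ((Γ.card + 1) * Fintype.card V) * lam := by
        have := mul_le_mul_of_nonneg_right h3 hlam0
        linarith
    _ ≤ 2 := by nlinarith

private theorem sum_pat (x : ℝ) (f : Finset (TE V E Q) → ℝ) :
    ∑ p ∈ univ.filter (fun p : LP V E Q => p.1.Nonempty ∧ p.2 ⊆ p.1), x ^ p.1.card * f p.1 =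
      ∑ L ∈ (univ : Finset (Finset (TE V E Q))).filter (fun L => L.Nonempty),
        (2 * x) ^ L.card * f L := by
  rw [Finset.sum_filter, Finset.sum_filter, Fintype.sum_prod_type]
  refine Finset.sum_congr rfl fun L _ => ?_
  by_cases hL : L.Nonempty
  · rw [if_pos hL]
    have h1 : ∀ P : Finset (TE V E Q),
        (if L.Nonempty ∧ P ⊆ L then x ^ L.card * f L else 0) =
          if P ∈ L.powerset then x ^ L.card * f L else 0 := by
      intro P
      by_cases hP : P ⊆ L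
      · rw [if_pos ⟨hL, hP⟩, if_pos (Finset.mem_powerset.2 hP)]
      · rw [if_neg fun h => hP h.2, if_neg fun h => hP (Finset.mem_powerset.1 h)]
    rw [Finset.sum_congr rfl fun P _ => h1 P, ← Finset.sum_filter, Finset.filter_mem_eq_inter,
      Finset.univ_inter, Finset.sum_const, Finset.card_powerset, nsmul_eq_mul]
    push_cast
    ring
  · rw [if_neg hL]
    refine Finset.sum_eq_zero fun P _ => ?_
    rw [if_neg fun h => hL h.1]

private theorem sum_ents {Δ kk : ℕ} (hl : G.NoLoop) (hD : 0 < D) (hdeg : G.Deg Δ)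
    (Γ : Finset (E → ZMod 2)) (x : ℝ) (hx : 0 ≤ x)
    (hW : 5 * ((1 + 2 * x) ^ (2 * (Δ + 2)) * ((Δ + 2) * kk)) ≤ (2 : ℝ) ^ D)
    (lam : ℝ) (hlam0 : 0 ≤ lam) (hlam : lam * ((Γ.card + 1) * Fintype.card V) ≤ 1)
    (t0 : V) (c : List (LM V E Q)) (W : Finset (HV (TV V Q) (TE V E Q) D)) (hWc : W.card ≤ kk) :
    ∑ k ∈ ents V E Q Γ, (x ^ k.1.1.card * lam ^ mvv t0 c k.2) *
      pr (fun a : TV V Q → A D => ∀ e ∈ k.1.1, Tch (G.tall Q) a W e) ≤ 1 / 2 := by
  have h1 := sum_mv t0 c Γ lam hlam0 hlam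
  have h2 : ∑ L ∈ (univ : Finset (Finset (TE V E Q))).filter (fun L => L.Nonempty),
      (2 * x) ^ L.card * pr (fun a : TV V Q → A D => ∀ e ∈ L, Tch (G.tall Q) a W e) ≤ 1 / 4 := by
    refine sum_Tch_le (G.tall Q) (noLoop_tall G hl) hD (Δ := Δ + 2) (by omega) (deg_tall G hdeg)
      (2 * x) (by linarith) W ?_
    have h3 : (W.card : ℝ) ≤ kk := by exact_mod_cast hWc
    refine le_trans ?_ hW
    push_cast
    have h4 : (0 : ℝ) ≤ (1 + 2 * x) ^ (2 * (Δ + 2)) := by positivity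
    have h5 : ((Δ : ℝ) + 2) * W.card ≤ (Δ + 2) * kk :=
      mul_le_mul_of_nonneg_left h3 (by positivity)
    have h6 := mul_le_mul_of_nonneg_left h5 h4
    linarith
  have h3 : ∑ k ∈ ents V E Q Γ, (x ^ k.1.1.card * lam ^ mvv t0 c k.2) *
      pr (fun a : TV V Q → A D => ∀ e ∈ k.1.1, Tch (G.tall Q) a W e) =
      (∑ p ∈ univ.filter (fun p : LP V E Q => p.1.Nonempty ∧ p.2 ⊆ p.1),
        x ^ p.1.card * pr (fun a : TV V Q → A D => ∀ e ∈ p.1, Tch (G.tall Q) a W e)) *
      ∑ g ∈ (insert 0 Γ) ×ˢ (univ : Finset V), lam ^ mvv t0 c g := by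
    unfold ents
    rw [Finset.sum_product, Finset.sum_mul_sum]
    refine Finset.sum_congr rfl fun p _ => Finset.sum_congr rfl fun g _ => ?_
    ring
  rw [h3, sum_pat x (fun L => pr (fun a : TV V Q → A D => ∀ e ∈ L, Tch (G.tall Q) a W e))]
  have h4 : (0 : ℝ) ≤ ∑ L ∈ (univ : Finset (Finset (TE V E Q))).filter (fun L => L.Nonempty),
      (2 * x) ^ L.card * pr (fun a : TV V Q → A D => ∀ e ∈ L, Tch (G.tall Q) a W e) :=
    Finset.sum_nonneg fun L _ => mul_nonneg (by positivity) (pr_nonneg _)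
  calc _ ≤ (1 / 4 : ℝ) * 2 := by
        refine mul_le_mul h2 h1 ?_ (by norm_num)
        exact Finset.sum_nonneg fun g _ => pow_nonneg hlam0 _
    _ = 1 / 2 := by norm_num

private theorem step_codes {Δ kk : ℕ} (hl : G.NoLoop) (hD : 0 < D) (hdeg : G.Deg Δ)
    (𝒞 : Set (Cert V E Q D))
    (h𝒞 : ∀ C ∈ 𝒞, C.1.card ≤ kk) (Γ : Finset (E → ZMod 2)) (x : ℝ) (hx : 0 ≤ x)
    (hW : 5 * ((1 + 2 * x) ^ (2 * (Δ + 2)) * ((Δ + 2) * kk)) ≤ (2 : ℝ) ^ D)
    (lam : ℝ) (hlam0 : 0 ≤ lam) (hlam : lam * ((Γ.card + 1) * Fintype.card V) ≤ 1)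
    (t0 : V) (β : Xt (TE V E Q) D → ZMod 2) (w : A D) (c : List (LM V E Q)) :
    ∑ k ∈ (ents V E Q Γ).filter (fun k => AdmT Fr De t0 (k :: c)),
      (x ^ k.1.1.card * lam ^ mvv t0 c k.2) *
        pr (fun a : TV V Q → A D => (a (t0, 0) = w ∧ DcdT Fr De 𝒞 t0 β a c) ∧
          ∃ C, Act G 𝒞 (fun C => Fr.Free (De.Us (c.map Prod.fst) ∪ G.nbh (Unc G Q C.1)) (tv t0 c))
            (β + Pth (G.tall Q) a (De.Sc c)) C ∧ ∀ e ∈ k.1.1, Tch (G.tall Q) a C.1 e) ≤
      (1 / 2) * pr (fun a : TV V Q → A D => a (t0, 0) = w ∧ DcdT Fr De 𝒞 t0 β a c) := by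
  refine peel_sum (I := TV V Q) (A := A D) (C := Cert V E Q D) (ι := LM V E Q)
    (S := SS De t0 c)
    (T := fun k => {v | ∃ e ∈ k.1.1, (G.tall Q).src e = v ∨ (G.tall Q).tgt e = v})
    ((ents V E Q Γ).filter (fun k => AdmT Fr De t0 (k :: c)))
    (fun k => x ^ k.1.1.card * lam ^ mvv t0 c k.2)
    (fun k _ => mul_nonneg (pow_nonneg hx _) (pow_nonneg hlam0 _)) ?_
    (fun a => a (t0, 0) = w ∧ DcdT Fr De 𝒞 t0 β a c)
    (fun a C => Act G 𝒞 (fun C => Fr.Free (De.Us (c.map Prod.fst) ∪ G.nbh (Unc G Q C.1))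
      (tv t0 c)) (β + Pth (G.tall Q) a (De.Sc c)) C)
    (fun k C a => ∀ e ∈ k.1.1, Tch (G.tall Q) a C.1 e) (1 / 2) (by norm_num) ?_ ?_ ?_ ?_ ?_
  · intro k hk
    have hA : AdmT Fr De t0 (k :: c) := (Finset.mem_filter.1 hk).2
    rw [Set.disjoint_left]
    rintro v hv ⟨e, he, hev⟩
    have h1 : e ∉ incT G Q (De.Us (c.map Prod.fst)) := hA.1.2.2.2.1 e he
    have h2 : v.1 ∈ De.Us ((k :: c).map Prod.fst) := by
      have h4 := plc_sub_Us De k.1 (c.map Prod.fst)
      apply h4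
      rcases hev with h | h
      · exact Finset.mem_biUnion.2 ⟨e, he, by rw [← h]; simp⟩
      · exact Finset.mem_biUnion.2 ⟨e, he, by rw [← h]; simp⟩
    rcases hv with hv | ⟨_, hv | ⟨k', hk', e', he', hve'⟩⟩
    · apply h1
      rcases hev with h | h
      · exact Or.inl (by rw [h]; exact hv)
      · exact Or.inr (by rw [h]; exact hv)
    · exact Fr.disj hA.2.1 (hv ▸ h2)
    · apply he'
      refine hA.2.2 k' (List.mem_cons_of_mem _ hk') e' ?_
      rcases hve' with h | h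
      · exact Or.inl (by rw [h]; exact h2)
      · exact Or.inr (by rw [h]; exact h2)
  · intro a b hab
    have h1 : a (t0, 0) = b (t0, 0) := hab _ (Or.inr ⟨rfl, Or.inl rfl⟩)
    have h2 := DcdT_depOn Fr De 𝒞 t0 β c a b hab
    simp only
    rw [h1]
    exact and_congr Iff.rfl h2
  · intro C a b hab
    simp only
    rw [Pth_Sc_congr De t0 c hab]
  · intro a C C' h h'
    apply idx_inj
    exact le_antisymm (h.2.2.2 C' h'.1 h'.2.1 h'.2.2.1) (h'.2.2.2 C h.1 h.2.1 h.2.2.1)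
  · intro k _ C a b hab
    simp only
    refine forall_congr' fun e => forall_congr' fun he => ?_
    exact Tch_congr (G.tall Q) (hab _ ⟨e, he, Or.inl rfl⟩) (hab _ ⟨e, he, Or.inr rfl⟩)
  · rintro C ⟨a, ha⟩
    refine le_trans (Finset.sum_le_sum_of_subset_of_nonneg (Finset.filter_subset _ _) ?_)
      (sum_ents hl hD hdeg Γ x hx hW lam hlam0 hlam t0 c C.1 (h𝒞 C ha.1))
    intro k _ _
    exact mul_nonneg (mul_nonneg (pow_nonneg hx _) (pow_nonneg hlam0 _)) (pr_nonneg _)

/-- **weighted sum over all codes of length `n`** -/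
theorem sumT {Δ kk : ℕ} (hl : G.NoLoop) (hD : 0 < D) (hdeg : G.Deg Δ) (𝒞 : Set (Cert V E Q D))
    (h𝒞 : ∀ C ∈ 𝒞, C.1.card ≤ kk) (Γ : Finset (E → ZMod 2)) (x : ℝ) (hx : 0 ≤ x)
    (hW : 5 * ((1 + 2 * x) ^ (2 * (Δ + 2)) * ((Δ + 2) * kk)) ≤ (2 : ℝ) ^ D)
    (lam : ℝ) (hlam0 : 0 ≤ lam) (hlam : lam * ((Γ.card + 1) * Fintype.card V) ≤ 1)
    (t0 : V) (β : Xt (TE V E Q) D → ZMod 2) (w : A D) (n : ℕ) :
    ∑ c ∈ (lst' (ents V E Q Γ) n).filter (fun c => AdmT Fr De t0 c),
      x ^ totL (c.map Prod.fst) * lam ^ nmv t0 c *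
        pr (fun a : TV V Q → A D => a (t0, 0) = w ∧ DcdT Fr De 𝒞 t0 β a c) ≤
      (1 / 2) ^ n * pr (fun a : TV V Q → A D => a (t0, 0) = w) := by
  induction n with
  | zero =>
    have h0 : lst' (ents V E Q Γ) 0 = {[]} := rfl
    rw [h0, Finset.sum_filter, Finset.sum_singleton, pow_zero, one_mul]
    split_ifs
    · have e1 : totL (([] : List (LM V E Q)).map Prod.fst) = 0 := rfl
      have e2 : nmv t0 ([] : List (LM V E Q)) = 0 := rfl
      rw [e1, e2, pow_zero, pow_zero, one_mul, one_mul]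
      exact pr_mono fun a ha => ha.1
    · exact pr_nonneg _
  | succ n ih =>
    rw [Finset.sum_filter, sum_lst'_succ]
    rw [Finset.sum_filter] at ih
    have key : ∀ c ∈ lst' (ents V E Q Γ) n,
        (∑ k ∈ ents V E Q Γ, if AdmT Fr De t0 (k :: c) then
          x ^ totL ((k :: c).map Prod.fst) * lam ^ nmv t0 (k :: c) *
            pr (fun a : TV V Q → A D => a (t0, 0) = w ∧ DcdT Fr De 𝒞 t0 β a (k :: c)) else 0) ≤
        (1 / 2) * (if AdmT Fr De t0 c then x ^ totL (c.map Prod.fst) * lam ^ nmv t0 c *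
            pr (fun a : TV V Q → A D => a (t0, 0) = w ∧ DcdT Fr De 𝒞 t0 β a c) else 0) := by
      intro c _
      by_cases hc : AdmT Fr De t0 c
      · rw [if_pos hc, ← Finset.sum_filter]
        have h1 := step_codes Fr De hl hD hdeg 𝒞 h𝒞 Γ x hx hW lam hlam0 hlam t0 β w c
        have h2 : ∀ k ∈ (ents V E Q Γ).filter (fun k => AdmT Fr De t0 (k :: c)),
            x ^ totL ((k :: c).map Prod.fst) * lam ^ nmv t0 (k :: c) *
              pr (fun a : TV V Q → A D => a (t0, 0) = w ∧ DcdT Fr De 𝒞 t0 β a (k :: c)) ≤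
            (x ^ totL (c.map Prod.fst) * lam ^ nmv t0 c) * ((x ^ k.1.1.card * lam ^ mvv t0 c k.2) *
              pr (fun a : TV V Q → A D => (a (t0, 0) = w ∧ DcdT Fr De 𝒞 t0 β a c) ∧
                ∃ C, Act G 𝒞 (fun C => Fr.Free (De.Us (c.map Prod.fst) ∪ G.nbh (Unc G Q C.1))
                  (tv t0 c)) (β + Pth (G.tall Q) a (De.Sc c)) C ∧
                  ∀ e ∈ k.1.1, Tch (G.tall Q) a C.1 e)) := by
          intro k _
          have e1 : totL ((k :: c).map Prod.fst) = totL (c.map Prod.fst) + k.1.1.card := rfl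
          have e2 : nmv t0 (k :: c) = nmv t0 c + mvv t0 c k.2 := rfl
          rw [e1, e2, pow_add, pow_add]
          have h3 : pr (fun a : TV V Q → A D => a (t0, 0) = w ∧ DcdT Fr De 𝒞 t0 β a (k :: c)) ≤
              pr (fun a : TV V Q → A D => (a (t0, 0) = w ∧ DcdT Fr De 𝒞 t0 β a c) ∧
                ∃ C, Act G 𝒞 (fun C => Fr.Free (De.Us (c.map Prod.fst) ∪ G.nbh (Unc G Q C.1))
                  (tv t0 c)) (β + Pth (G.tall Q) a (De.Sc c)) C ∧
                  ∀ e ∈ k.1.1, Tch (G.tall Q) a C.1 e) :=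
            pr_mono fun a ha => ⟨⟨ha.1, ha.2.1⟩, ha.2.2⟩
          have h4 : (0 : ℝ) ≤ (x ^ totL (c.map Prod.fst) * lam ^ nmv t0 c) *
              (x ^ k.1.1.card * lam ^ mvv t0 c k.2) := by positivity
          have h5 := mul_le_mul_of_nonneg_left h3 h4
          calc _ = (x ^ totL (c.map Prod.fst) * lam ^ nmv t0 c) *
              (x ^ k.1.1.card * lam ^ mvv t0 c k.2) *
              pr (fun a : TV V Q → A D => a (t0, 0) = w ∧ DcdT Fr De 𝒞 t0 β a (k :: c)) := by ring
            _ ≤ _ := h5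
            _ = _ := by ring
        refine le_trans (Finset.sum_le_sum h2) ?_
        rw [← Finset.mul_sum]
        have h6 : (0 : ℝ) ≤ x ^ totL (c.map Prod.fst) * lam ^ nmv t0 c := by positivity
        refine le_trans (mul_le_mul_of_nonneg_left h1 h6) (le_of_eq ?_)
        ring
      · rw [if_neg hc, mul_zero]
        refine le_of_eq (Finset.sum_eq_zero fun k _ => ?_)
        rw [if_neg fun h => hc (admT_tail Fr De t0 h)]
    refine le_trans (Finset.sum_le_sum key) ?_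
    rw [← Finset.mul_sum, pow_succ]
    have h7 := mul_le_mul_of_nonneg_left ih (by norm_num : (0 : ℝ) ≤ 1 / 2)
    refine le_trans h7 (le_of_eq ?_)
    ring

end

end FrT
end

section

/-!
Existence of a restriction without long sequences of steps.

PROOF.  Compare `FrC.exists_noLong` (C/Switch3.lean).  Let `Λ = (|Γ| + 1) |V|` with `Γ = SF.Γ`, `λ = 1 / Λ`,
`K' = K (2 + C₁)`, `Y = 2^(Δ K')`, `x = 2 Y`.  Sample space `Om (G.tall Q) (cen (v0, 0) w0) (v0, 0)` (nonempty).
Let `q` be an outcome for which `NoLongT` fails for some `𝒞 ∈ 𝒮`: there are `c`, `y` with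
`Run`, `Ok`, `R ≤ totL c < R'`.  The length `n` of `c` is at most `totL c` (each step has a nonempty `L`),
so `n < R'`.  `decodeT` (with `hm`: `(2 + C₁) totL c ≤ (2 + C₁) R' ≤ m`, etc.) gives `t0`, `c' ∈ lst' ents n`,
`AdmT`, `nmv ≤ n / ℓ ≤ μ` (as `n < R' ≤ ℓ μ`), and the event of `pr_codeT` for `c'` holds for `q` (with this `y`).
Union bound:
`pr (bad) ≤ ∑_(𝒞 ∈ 𝒮) ∑_(n < R') ∑_(t0) ∑_(c ∈ lst' ents n, AdmT c, R ≤ tot < R', nmv ≤ μ) pr (event c)`.
By `pr_codeT` `pr (event c) ≤ 2^(Δ |Us c|) pr_(Om t0) (DcdT c) ≤ Y^tot pr (..)` (`card_Us`: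
`|Us c| ≤ K' tot`), and `Y^tot ≤ (1/2)^R (2 Y)^tot = (1/2)^R x^tot` as `tot ≥ R`, `1 ≤ Λ^μ λ^(nmv)` as
`nmv ≤ μ`, `Λ ≥ 1`.  So the inner sum is at most
`(1/2)^R Λ^μ ∑_(c ∈ lst' ents n, AdmT c) x^tot λ^nmv pr_(Om t0) (DcdT c) ≤ (1/2)^R Λ^μ (1/2)^n`
by `pr_Om_sum` (for `G.tall Q`, `t = (t0, 0)`, `B = (1/2)^n`; `hconn` from `FrC.exists_bd_fiber` as in
C/Switch2) and `sumT`.  Sum over `n`, `t0`, `𝒞`: at most
`|𝒮| |V| (1/2)^R Λ^μ 2 < 1` by `hcard`.  So there is a good outcome.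
-/

set_option linter.unusedSectionVars false

namespace FrT

open Finset Fr56 FrC FrG
open scoped Classical

section
variable {V E : Type} [Fintype V] [Fintype E] [DecidableEq V] [DecidableEq E]
  {G : Gph V E} {Q K C₁ m : ℕ} (Fr : Frame G) (v0 : V) {D : ℕ} (De : Detour G Q K C₁ m)

private theorem length_le_totL_et {c : List (LM V E Q)} {Γ : Finset (E → ZMod 2)}
    (h : ∀ k ∈ c, k ∈ ents V E Q Γ) : c.length ≤ totL (c.map Prod.fst) := by
  induction c with
  | nil => simp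
  | cons k c ih =>
    have h1 := ih fun k' hk' => h k' (List.mem_cons_of_mem _ hk')
    have h2 := h k (List.mem_cons_self ..)
    unfold ents at h2
    rw [Finset.mem_product, Finset.mem_filter] at h2
    have h3 : 0 < k.1.1.card := Finset.card_pos.2 h2.1.2.1
    rw [List.map_cons]
    have h4 : totL (k.1 :: c.map Prod.fst) = totL (c.map Prod.fst) + k.1.1.card := rfl
    rw [h4, List.length_cons]
    omega

/-- the event that the code `c` occurs -/
private def EvT (𝒞 : Set (Cert V E Q D)) (w0 : A D) (t0 : V) (c : List (LM V E Q))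
    (q : Om (G.tall Q) (HV.cen (v0, 0) w0 : HV (TV V Q) (TE V E Q) D) (v0, 0)) : Prop :=
  ∃ y : E → ZMod 2, Fr.Ok v0 (De.Us (c.map Prod.fst)) y ∧
    ∀ yh : E → ZMod 2, G.bd yh = pt v0 + pt t0 →
      G.Agree (De.Us (c.map Prod.fst)) y yh →
      DcdT Fr De 𝒞 t0 (q.1.1 + Pth (G.tall Q) q.1.2 (iota yh + De.Dc (c.map Prod.fst)))
        q.1.2 c

/-- the codes of length `n` that are counted -/
private noncomputable def CnT (SF : SFrame Fr) (t0 : V) (R R' μ n : ℕ) :
    Finset (List (LM V E Q)) :=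
  ((lst' (ents V E Q SF.Γ) n).filter fun c => AdmT Fr De t0 c).filter
    fun c => R ≤ totL (c.map Prod.fst) ∧ totL (c.map Prod.fst) < R' ∧ nmv t0 c ≤ μ

private theorem coverT (SF : SFrame Fr) {Δ : ℕ}
    (hdeg : G.Deg Δ) (k R R' ℓ μ : ℕ) (w0 : A D)
    (𝒮 : Finset (Set (Cert V E Q D))) (h𝒮 : ∀ 𝒞 ∈ 𝒮, ∀ C ∈ 𝒞, C.1.card ≤ k)
    (hℓ : 0 < ℓ) (hμ : R' ≤ ℓ * μ) (hm : (2 + C₁) * R' ≤ m)
    (hmF : K * ((2 + C₁) * R') + ℓ * (2 * (1 + Δ) * k) ≤ Fr.m)
    (q : Om (G.tall Q) (HV.cen (v0, 0) w0 : HV (TV V Q) (TE V E Q) D) (v0, 0))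
    (hq : ∃ 𝒞 ∈ 𝒮, ¬ NoLongT Fr v0 q.1.1 q.1.2 De 𝒞 R R') :
    ∃ 𝒞 ∈ 𝒮, ∃ n ∈ range R', ∃ t0 ∈ (univ : Finset V), ∃ c ∈ CnT Fr De SF t0 R R' μ n,
      EvT Fr v0 De 𝒞 w0 t0 c q := by
  obtain ⟨𝒞, h𝒞, hlong⟩ := hq
  unfold NoLongT at hlong
  push Not at hlong
  obtain ⟨c, y, hrun, hok, hR, hR', -⟩ := hlong
  have h1 : (2 + C₁) * totL c ≤ (2 + C₁) * R' := Nat.mul_le_mul_left _ hR'.le
  obtain ⟨t0, c', hc', hents, hadm, hnmv, hD'⟩ := decodeT Fr v0 q.1.1 q.1.2 De SF hdeg (h𝒮 𝒞 h𝒞)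
    hℓ c y hrun hok (h1.trans hm)
    ((Nat.add_le_add_right (Nat.mul_le_mul_left _ h1) _).trans hmF)
  have hlen : c'.length = c.length := by rw [← hc', List.length_map]
  have hlt : c'.length ≤ totL c := by
    have := length_le_totL_et hents
    rwa [hc'] at this
  have hn : c'.length < R' := lt_of_le_of_lt hlt hR'
  refine ⟨𝒞, h𝒞, c'.length, Finset.mem_range.2 hn, t0, Finset.mem_univ _, c', ?_, y, ?_, ?_⟩
  · unfold CnT
    rw [Finset.mem_filter, Finset.mem_filter, mem_lst', hc']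
    refine ⟨⟨⟨rfl, hents⟩, hadm⟩, hR, hR', hnmv.trans ?_⟩
    rw [← hlen]
    exact Nat.div_le_of_le_mul (hn.le.trans hμ)
  · rw [hc']
    exact hok
  · intro yh hyh hag
    rw [hc'] at hag ⊢
    exact hD' yh hyh hag

private theorem sumEvT (SF : SFrame Fr) (hl : G.NoLoop) (hD : 0 < D) (hQ0 : 0 < Q) {Δ : ℕ}
    (hdeg : G.Deg Δ) (k R R' μ : ℕ) (w0 : A D)
    {𝒞 : Set (Cert V E Q D)} (h𝒞 : ∀ C ∈ 𝒞, C.1.card ≤ k)
    (hW : 5 * ((1 + 4 * 2 ^ (Δ * (K * (2 + C₁)))) ^ (2 * (Δ + 2)) * ((Δ + 2) * k)) ≤ 2 ^ D)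
    (hm : (2 + C₁) * R' ≤ m) (hmF : K * ((2 + C₁) * R') ≤ Fr.m) (t0 : V) (n : ℕ) :
    ∑ c ∈ CnT Fr De SF t0 R R' μ n, pr (EvT Fr v0 De 𝒞 w0 t0 c) ≤
      (1 / 2) ^ R * (((SF.Γ.card + 1) * Fintype.card V : ℕ) : ℝ) ^ μ * (1 / 2) ^ n := by
  set Λ : ℝ := (((SF.Γ.card + 1) * Fintype.card V : ℕ) : ℝ) with hΛ
  have hV : 0 < Fintype.card V := Fintype.card_pos_iff.2 ⟨v0⟩
  have hΛ1 : 1 ≤ Λ := by
    rw [hΛ]
    exact_mod_cast Nat.mul_pos (Nat.succ_pos _) hV
  have hΛ0 : 0 < Λ := lt_of_lt_of_le one_pos hΛ1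
  set lam : ℝ := 1 / Λ with hlam
  have hlam0 : 0 ≤ lam := by positivity
  have hlamΛ : lam * Λ = 1 := by
    rw [hlam, one_div, inv_mul_cancel₀ hΛ0.ne']
  set Y : ℝ := 2 ^ (Δ * (K * (2 + C₁))) with hY
  have hY0 : 0 < Y := by positivity
  set x : ℝ := 2 * Y with hx
  have hx0 : 0 ≤ x := by positivity
  -- one code
  have hone : ∀ c ∈ CnT Fr De SF t0 R R' μ n, pr (EvT Fr v0 De 𝒞 w0 t0 c) ≤
      (1 / 2) ^ R * Λ ^ μ * (x ^ totL (c.map Prod.fst) * lam ^ nmv t0 c *
        pr (fun q : Om (G.tall Q) (HV.cen (v0, 0) w0 : HV (TV V Q) (TE V E Q) D) (t0, 0) =>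
          DcdT Fr De 𝒞 t0 q.1.1 q.1.2 c)) := by
    intro c hc
    unfold CnT at hc
    rw [Finset.mem_filter, Finset.mem_filter] at hc
    obtain ⟨⟨_, hadm⟩, hR, hR', hnmv⟩ := hc
    set T := totL (c.map Prod.fst) with hT
    have h1 : (2 + C₁) * T ≤ (2 + C₁) * R' := Nat.mul_le_mul_left _ hR'.le
    have hUs : (De.Us (c.map Prod.fst)).card ≤ K * ((2 + C₁) * T) :=
      card_Us De (c.map Prod.fst) (h1.trans hm)
    have hUsm : (De.Us (c.map Prod.fst)).card ≤ Fr.m :=
      hUs.trans ((Nat.mul_le_mul_left _ h1).trans hmF)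
    have h2 := pr_codeT Fr v0 De hD hdeg 𝒞 w0 t0 c hadm hUsm
    set P : ℝ := pr (fun q : Om (G.tall Q) (HV.cen (v0, 0) w0 : HV (TV V Q) (TE V E Q) D) (t0, 0) =>
          DcdT Fr De 𝒞 t0 q.1.1 q.1.2 c) with hP
    have hP0 : 0 ≤ P := pr_nonneg _
    refine le_trans h2 ?_
    have h3 : (2 : ℝ) ^ (Δ * (De.Us (c.map Prod.fst)).card) ≤ Y ^ T := by
      rw [hY, ← pow_mul]
      apply pow_le_pow_right₀ (by norm_num)
      calc Δ * (De.Us (c.map Prod.fst)).card ≤ Δ * (K * ((2 + C₁) * T)) :=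
            Nat.mul_le_mul_left _ hUs
        _ = Δ * (K * (2 + C₁)) * T := by ring
    have h4 : Y ^ T ≤ (1 / 2) ^ R * x ^ T := by
      rw [hx, mul_pow, ← mul_assoc]
      have h5 : (1 : ℝ) ≤ (1 / 2) ^ R * 2 ^ T := by
        obtain ⟨d, hd⟩ := Nat.exists_eq_add_of_le hR
        rw [hd, pow_add, ← mul_assoc, ← mul_pow]
        norm_num
        exact one_le_pow₀ (by norm_num)
      calc Y ^ T = 1 * Y ^ T := (one_mul _).symm
        _ ≤ _ := mul_le_mul_of_nonneg_right h5 (by positivity)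
    have h6 : (1 : ℝ) ≤ Λ ^ μ * lam ^ nmv t0 c := by
      obtain ⟨d, hd⟩ := Nat.exists_eq_add_of_le hnmv
      rw [hd, pow_add, mul_right_comm, ← mul_pow, mul_comm Λ lam, hlamΛ, one_pow, one_mul]
      exact one_le_pow₀ hΛ1
    calc (2 : ℝ) ^ (Δ * (De.Us (c.map Prod.fst)).card) * P ≤ ((1 / 2) ^ R * x ^ T) * P :=
          mul_le_mul_of_nonneg_right (h3.trans h4) hP0
      _ = ((1 / 2) ^ R * x ^ T) * P * 1 := (mul_one _).symm
      _ ≤ ((1 / 2) ^ R * x ^ T) * P * (Λ ^ μ * lam ^ nmv t0 c) :=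
          mul_le_mul_of_nonneg_left h6 (by positivity)
      _ = _ := by ring
  have hsum : ∑ c ∈ (lst' (ents V E Q SF.Γ) n).filter (fun c => AdmT Fr De t0 c),
      x ^ totL (c.map Prod.fst) * lam ^ nmv t0 c *
        pr (fun q : Om (G.tall Q) (HV.cen (v0, 0) w0 : HV (TV V Q) (TE V E Q) D) (t0, 0) =>
          DcdT Fr De 𝒞 t0 q.1.1 q.1.2 c) ≤ (1 / 2) ^ n := by
    refine pr_Om_sum (G.tall Q) ((lst' (ents V E Q SF.Γ) n).filter (fun c => AdmT Fr De t0 c))
      (fun c => x ^ totL (c.map Prod.fst) * lam ^ nmv t0 c) (fun c _ => by positivity)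
      (v0, 0) w0 (t0, 0) (fun w w' => ?_) (fun c β a => DcdT Fr De 𝒞 t0 β a c) ((1 / 2) ^ n)
      (by positivity) (fun β w' => ?_)
    · obtain ⟨γ, hγ, _⟩ := exists_bd_fiber G hQ0 hD t0 0 0 w w'
      exact ⟨γ, hγ⟩
    · refine sumT Fr De hl hD hdeg 𝒞 h𝒞 SF.Γ x hx0 ?_ lam hlam0 ?_ t0 β w' n
      · have h1 : ((5 * ((1 + 4 * 2 ^ (Δ * (K * (2 + C₁)))) ^ (2 * (Δ + 2)) * ((Δ + 2) * k)) : ℕ) : ℝ)
            ≤ ((2 ^ D : ℕ) : ℝ) := by exact_mod_cast hW
        push_cast at h1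
        have h2 : (1 : ℝ) + 2 * x = 1 + 4 * 2 ^ (Δ * (K * (2 + C₁))) := by
          rw [hx, hY]
          ring
        rw [h2]
        exact h1
      · have h1 : lam * (((SF.Γ.card : ℝ) + 1) * (Fintype.card V : ℝ)) = lam * Λ := by
          rw [hΛ]
          push_cast
          ring
        rw [h1, hlamΛ]
  calc ∑ c ∈ CnT Fr De SF t0 R R' μ n, pr (EvT Fr v0 De 𝒞 w0 t0 c)
      ≤ ∑ c ∈ CnT Fr De SF t0 R R' μ n, (1 / 2) ^ R * Λ ^ μ *
        (x ^ totL (c.map Prod.fst) * lam ^ nmv t0 c *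
        pr (fun q : Om (G.tall Q) (HV.cen (v0, 0) w0 : HV (TV V Q) (TE V E Q) D) (t0, 0) =>
          DcdT Fr De 𝒞 t0 q.1.1 q.1.2 c)) := Finset.sum_le_sum hone
    _ = (1 / 2) ^ R * Λ ^ μ * ∑ c ∈ CnT Fr De SF t0 R R' μ n,
        (x ^ totL (c.map Prod.fst) * lam ^ nmv t0 c *
        pr (fun q : Om (G.tall Q) (HV.cen (v0, 0) w0 : HV (TV V Q) (TE V E Q) D) (t0, 0) =>
          DcdT Fr De 𝒞 t0 q.1.1 q.1.2 c)) := (Finset.mul_sum _ _ _).symm
    _ ≤ (1 / 2) ^ R * Λ ^ μ *
        ∑ c ∈ (lst' (ents V E Q SF.Γ) n).filter (fun c => AdmT Fr De t0 c),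
        (x ^ totL (c.map Prod.fst) * lam ^ nmv t0 c *
        pr (fun q : Om (G.tall Q) (HV.cen (v0, 0) w0 : HV (TV V Q) (TE V E Q) D) (t0, 0) =>
          DcdT Fr De 𝒞 t0 q.1.1 q.1.2 c)) := by
        refine mul_le_mul_of_nonneg_left ?_ (by positivity)
        unfold CnT
        refine Finset.sum_le_sum_of_subset_of_nonneg (Finset.filter_subset _ _)
          (fun c _ _ => mul_nonneg (by positivity) (pr_nonneg _))
    _ ≤ _ := mul_le_mul_of_nonneg_left hsum (by positivity)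

/-- **existence of a restriction without long sequences of steps** -/
theorem exists_noLongT (SF : SFrame Fr) (hl : G.NoLoop) (hD : 0 < D) (hQ0 : 0 < Q) {Δ : ℕ}
    (hdeg : G.Deg Δ) (k R R' ℓ μ : ℕ) (w0 : A D)
    (𝒮 : Finset (Set (Cert V E Q D))) (h𝒮 : ∀ 𝒞 ∈ 𝒮, ∀ C ∈ 𝒞, C.1.card ≤ k)
    (hW : 5 * ((1 + 4 * 2 ^ (Δ * (K * (2 + C₁)))) ^ (2 * (Δ + 2)) * ((Δ + 2) * k)) ≤ 2 ^ D)
    (hℓ : 0 < ℓ) (hμ : R' ≤ ℓ * μ) (hm : (2 + C₁) * R' ≤ m)
    (hmF : K * ((2 + C₁) * R') + ℓ * (2 * (1 + Δ) * k) ≤ Fr.m)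
    (hcard : 𝒮.card * (2 * Fintype.card V) * ((SF.Γ.card + 1) * Fintype.card V) ^ μ < 2 ^ R) :
    ∃ (α : Xt (TE V E Q) D → ZMod 2) (a : TV V Q → A D),
      ((G.tall Q).blow D).bd α = pt (HV.cen (v0, 0) w0) + pt (ctr a (v0, 0)) ∧
      ∀ 𝒞 ∈ 𝒮, NoLongT Fr v0 α a De 𝒞 R R' := by
  classical
  have hne : Nonempty (Om (G.tall Q) (HV.cen (v0, 0) w0 : HV (TV V Q) (TE V E Q) D) (v0, 0)) := by
    refine ⟨⟨((0 : Xt (TE V E Q) D → ZMod 2), fun _ => w0), ?_⟩⟩
    rw [Gph.bd_zero]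
    exact (add_self2 (pt (HV.cen (v0, 0) w0 : HV (TV V Q) (TE V E Q) D) :
      HV (TV V Q) (TE V E Q) D → ZMod 2)).symm
  set Λn : ℕ := (SF.Γ.card + 1) * Fintype.card V with hΛn
  have hmF' : K * ((2 + C₁) * R') ≤ Fr.m := le_trans (Nat.le_add_right _ _) hmF
  have hfinal : pr (fun q : Om (G.tall Q) (HV.cen (v0, 0) w0 : HV (TV V Q) (TE V E Q) D) (v0, 0) =>
      ∃ 𝒞 ∈ 𝒮, ¬ NoLongT Fr v0 q.1.1 q.1.2 De 𝒞 R R') < 1 := by
    calc pr (fun q : Om (G.tall Q) (HV.cen (v0, 0) w0 : HV (TV V Q) (TE V E Q) D) (v0, 0) =>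
        ∃ 𝒞 ∈ 𝒮, ¬ NoLongT Fr v0 q.1.1 q.1.2 De 𝒞 R R')
        ≤ pr (fun q => ∃ 𝒞 ∈ 𝒮, ∃ n ∈ range R', ∃ t0 ∈ (univ : Finset V),
            ∃ c ∈ CnT Fr De SF t0 R R' μ n, EvT Fr v0 De 𝒞 w0 t0 c q) :=
          pr_mono (coverT Fr v0 De SF hdeg k R R' ℓ μ w0 𝒮 h𝒮 hℓ hμ hm hmF)
      _ ≤ ∑ 𝒞 ∈ 𝒮, pr (fun q => ∃ n ∈ range R', ∃ t0 ∈ (univ : Finset V),
            ∃ c ∈ CnT Fr De SF t0 R R' μ n, EvT Fr v0 De 𝒞 w0 t0 c q) := pr_exists_le _ _
      _ ≤ ∑ 𝒞 ∈ 𝒮, ∑ n ∈ range R', (Fintype.card V : ℝ) *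
            ((1 / 2) ^ R * (Λn : ℝ) ^ μ * (1 / 2) ^ n) := by
          apply Finset.sum_le_sum
          intro 𝒞 h𝒞
          refine (pr_exists_le _ _).trans (Finset.sum_le_sum fun n _ => ?_)
          calc pr (fun q => ∃ t0 ∈ (univ : Finset V), ∃ c ∈ CnT Fr De SF t0 R R' μ n,
                EvT Fr v0 De 𝒞 w0 t0 c q)
              ≤ ∑ t0 ∈ (univ : Finset V), pr (fun q => ∃ c ∈ CnT Fr De SF t0 R R' μ n,
                EvT Fr v0 De 𝒞 w0 t0 c q) := pr_exists_le _ _
            _ ≤ ∑ _t0 ∈ (univ : Finset V), ((1 / 2) ^ R * (Λn : ℝ) ^ μ * (1 / 2) ^ n) :=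
                Finset.sum_le_sum fun t0 _ => (pr_exists_le _ _).trans
                  (sumEvT Fr v0 De SF hl hD hQ0 hdeg k R R' μ w0 (h𝒮 𝒞 h𝒞) hW hm hmF' t0 n)
            _ = _ := by rw [Finset.sum_const, Finset.card_univ, nsmul_eq_mul]
      _ = (𝒮.card : ℝ) * ((Fintype.card V : ℝ) * ((1 / 2) ^ R * (Λn : ℝ) ^ μ)) *
            ∑ n ∈ range R', (1 / 2 : ℝ) ^ n := by
          have h5 : ∑ n ∈ range R', (Fintype.card V : ℝ) *
              ((1 / 2) ^ R * (Λn : ℝ) ^ μ * (1 / 2) ^ n) =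
              ((Fintype.card V : ℝ) * ((1 / 2) ^ R * (Λn : ℝ) ^ μ)) *
                ∑ n ∈ range R', (1 / 2 : ℝ) ^ n := by
            rw [Finset.mul_sum]
            exact Finset.sum_congr rfl fun n _ => by ring
          rw [Finset.sum_const, nsmul_eq_mul, h5, ← mul_assoc]
      _ ≤ (𝒮.card : ℝ) * ((Fintype.card V : ℝ) * ((1 / 2) ^ R * (Λn : ℝ) ^ μ)) * 2 := by
          apply mul_le_mul_of_nonneg_left _ (by positivity)
          have h7 : (∑ j ∈ range R', ((1 : ℝ) / 2) ^ j) * (1 - 1 / 2) = 1 - (1 / 2) ^ R' :=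
            geom_sum_mul_neg (1 / 2 : ℝ) R'
          have h8 : (0 : ℝ) ≤ (1 / 2) ^ R' := by positivity
          linarith
      _ < 1 := by
          have h9 : ((𝒮.card * (2 * Fintype.card V) * Λn ^ μ : ℕ) : ℝ) < 2 ^ R := by
            exact_mod_cast hcard
          push_cast at h9
          have h10 : (0 : ℝ) < (1 / 2) ^ R := by positivity
          calc (𝒮.card : ℝ) * ((Fintype.card V : ℝ) * ((1 / 2) ^ R * (Λn : ℝ) ^ μ)) * 2
              = (𝒮.card : ℝ) * (2 * Fintype.card V) * (Λn : ℝ) ^ μ * (1 / 2) ^ R := by ring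
            _ < 2 ^ R * (1 / 2) ^ R := mul_lt_mul_of_pos_right h9 h10
            _ = 1 := by rw [← mul_pow]; norm_num
  obtain ⟨q, hq⟩ := exists_of_pr_lt_one hfinal
  refine ⟨q.1.1, q.1.2, q.2, ?_⟩
  intro 𝒞 h𝒞
  by_contra hcon
  exact hq ⟨𝒞, h𝒞, hcon⟩

end

end FrT
end
end
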