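import Pool.Agent.Lib.MP_51bb46_lc.T.NumT
import Pool.Agent.Lib.MP_51bb46_lc.C.TsA
import Pool.Agent.Lib.MP_51bb46_lc.C.TsB

/-!
The base valuation: the value of a formula over the edges is fixed by the edges touching `U`.

PROOFS.  `baseVal`: mono: `Agree U y y'`, `Agree U' y' y''` give `Agree U y y''`.  uniq: take `y' = y`.  The laws: take
`y' = y` in the three hypotheses and use the definition of `Fm.eval`.

`baseVal_dcds`: let `A` be a decision tree for `f` (`f` is a subformula of itself), depth at most `s`.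
Claim, by induction on the tree `A'`, for all `U, y` with: for all `y'` with `Agree U y y'`
`f.eval (tb ∘ y') = A'.eval (tb ∘ y')`: `Dec Fr v0 (Q f) A'.depth U y`.  Leaf `b`: `Dec.leaf b`.  Node
`e l r`: `Dec.node {G.src e}` (one vertex): let `y1` agree with `y` on `U`, `U1 = U ∪ {src e}`; all `y'` with
`Agree U1 y1 y'` have `y' e = y1 e`, so the claim for `r` (if `tb (y1 e) = true`) or `l` applies at
`(U1, y1)`; `Dec.mono`: `1 + l.depth ≤ max .. + 1`.

`baseVal_clause`: let `p ∈ clauses G v0`, `U.card ≤ w`, `w + 1 ≤ Fr.m`, `Ok v0 U y`.  By `Fr.move` there is `y1`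
that agrees with `y` on `U` and has its violated vertex `t1` free for `U ∪ {p.1}`, so `t1 ≠ p.1`
(`Fr.disj`), `bd y1 p.1 = pt v0 p.1 + pt t1 p.1 = chg v0 p.1`; by `FrC.clause_true` the clause is true at
`y1`, so `Q clause false U y` fails.

`exists_valnT`: for `F ∈ parts (Fts G u0 v0)`: prove by `Fts_induction` that every part of `Fts` is
`AndOf ...`: a clause (`IsClause`, so `parts = {clause}`: `parts_of_isClause`) is `AndOf.base`, for a
conjunction use `AndOf.and` for the formula itself (its two conjuncts are parts of themselves).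
A clause has at most `Δ` leaves (`FrC.leaves_clause`: `leaves ≤ Δ` for `1 ≤ Δ`), so it is `ShT s`.
Tautologies are never false.
-/

set_option linter.unusedSectionVars false

namespace FrT

open Finset Fr56 FrC FrG
open scoped Classical

section
variable {V E : Type} [Fintype V] [Fintype E] [DecidableEq V] [DecidableEq E]
  {G : Gph V E} (Fr : Frame G) (v0 : V)

/-- the base valuation -/
def baseVal (Φ : Set (Fm E)) (cap : ℕ) : Valn Fr v0 E Φ cap where
  Q f b U y := ∀ y' : E → ZMod 2, G.Agree U y y' → f.eval (fun e => tb (y' e)) = b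
  mono := by
    intro f _ b U U' y y' hU _ h hag _ y'' h2
    exact h y'' (hag.trans (h2.mono hU))
  uniq := by
    intro f _ U y _ _ h1 h2
    have h3 := (h1 y (Gph.Agree.refl G U y)).symm.trans (h2 y (Gph.Agree.refl G U y))
    exact Bool.noConfusion h3
  neg := by
    intro f _ _ b b' U y _ _ h1 h2
    rw [← h1 y (Gph.Agree.refl G U y), ← h2 y (Gph.Agree.refl G U y)]
    rfl
  and := by
    intro f g _ _ _ b b' b'' U y _ _ h1 h2 h3
    rw [← h1 y (Gph.Agree.refl G U y), ← h2 y (Gph.Agree.refl G U y),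
      ← h3 y (Gph.Agree.refl G U y)]
    rfl
  or := by
    intro f g _ _ _ b b' b'' U y _ _ h1 h2 h3
    rw [← h1 y (Gph.Agree.refl G U y), ← h2 y (Gph.Agree.refl G U y),
      ← h3 y (Gph.Agree.refl G U y)]
    rfl

private theorem valT_dec (f : Fm E) (A : Dtree E) : ∀ (U : Finset V) (y : E → ZMod 2),
    (∀ y', G.Agree U y y' → f.eval (fun e => tb (y' e)) = A.eval fun e => tb (y' e)) →
    Dec Fr v0 (fun b U y => ∀ y' : E → ZMod 2, G.Agree U y y' →
      f.eval (fun e => tb (y' e)) = b) A.depth U y := by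
  induction A with
  | leaf b =>
    intro U y h
    exact Dec.leaf b fun y' h' => h y' h'
  | node e l r ihl ihr =>
    intro U y h
    have h1 : Dec Fr v0 (fun b U y => ∀ y' : E → ZMod 2, G.Agree U y y' →
        f.eval (fun e => tb (y' e)) = b) (1 + max l.depth r.depth) U y := by
      refine Dec.node {G.src e} (by simp) fun y1 hag _ => ?_
      have hmem : e ∈ G.inc (U ∪ {G.src e}) :=
        Or.inl (Finset.mem_union_right _ (Finset.mem_singleton_self _))
      by_cases hb : tb (y1 e) = true
      · refine Dec.mono (ihr (U ∪ {G.src e}) y1 fun y' h' => ?_) (le_max_right _ _)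
        rw [h y' (hag.trans (h'.mono Finset.subset_union_left))]
        simp only [Dtree.eval]
        have h3 : tb (y' e) = true := by rw [← h' e hmem]; exact hb
        exact if_pos h3
      · refine Dec.mono (ihl (U ∪ {G.src e}) y1 fun y' h' => ?_) (le_max_left _ _)
        rw [h y' (hag.trans (h'.mono Finset.subset_union_left))]
        simp only [Dtree.eval]
        have h3 : ¬ tb (y' e) = true := by rw [← h' e hmem]; exact hb
        exact if_neg h3
    rw [Nat.add_comm] at h1
    exact h1

private theorem valT_parts_disj {X : Type} (d : Fm X) (hd : parts d = {d}) (l : List (Fm X))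
    (hl : ∀ f ∈ l, parts f = {f}) : parts (Fm.disj d l) = {Fm.disj d l} := by
  cases l with
  | nil => exact hd
  | cons f l =>
    cases l with
    | nil => exact hl f (by simp)
    | cons g l => rfl

theorem baseVal_dcds (Φ : Set (Fm E)) (cap : ℕ) {s : ℕ} (h : ∀ f ∈ Φ, ShT s f) :
    (baseVal Fr v0 Φ cap).Dcds s := by
  intro f hf y _
  obtain ⟨A, hA, hev⟩ := h f hf f (Fm.self_mem_subs f)
  exact Dec.mono (valT_dec Fr v0 f A ∅ y fun y' _ => (hev _).symm) hA

theorem baseVal_clause (Φ : Set (Fm E)) (cap : ℕ) (hl : G.NoLoop) (u0 : E) (p : V × Finset E)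
    (hp : p ∈ clauses G v0) {w : ℕ} (hw : w + 1 ≤ Fr.m) :
    (baseVal Fr v0 Φ cap).True' w (clause G u0 p.1 p.2) := by
  intro U y hU hok hQ
  obtain ⟨y1, hag, t1, hbd, hfree⟩ := Fr.move (U' := insert p.1 U) (Finset.subset_insert _ _)
    ((Finset.card_insert_le _ _).trans (by omega)) hok
  have ht : t1 ≠ p.1 := by
    rintro rfl
    exact Fr.disj hfree (Finset.mem_insert_self _ _)
  have h1 : G.bd y1 p.1 = chg v0 p.1 := by
    rw [hbd, Pi.add_apply]
    unfold pt chg
    rw [Pi.single_apply, Pi.single_apply, if_neg (Ne.symm ht), add_zero]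
  have h2 := FrC.clause_true G hl u0 v0 p hp y1 h1
  have h3 := hQ y1 hag
  rw [h2] at h3
  exact Bool.noConfusion h3

/-- **valuations for all sets of shallow formulas** -/
theorem exists_valnT (hl : G.NoLoop) {Δ : ℕ} (hΔ : 1 ≤ Δ) (hdeg : G.Deg Δ)
    (hst : (G.star v0).Nonempty)
    (u0 : E) {s cap : ℕ} (hs : Δ ≤ s) (hm : s + 1 ≤ Fr.m)
    (Fs : Finset (Fm E)) (hFs : ∀ f ∈ Fs, ShT s f) :
    ∃ S : Valn Fr v0 E {f | f ∈ Fs} cap, S.Dcds s ∧
      ∀ F ∈ (parts (Fts G u0 v0) ∪ {A | ShT s A ∧ ∀ x, A.eval x = true} : Set (Fm E)),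
        AndOf (fun f => ShT s f ∧ S.True' s f) F := by
  refine ⟨baseVal Fr v0 {f | f ∈ Fs} cap, baseVal_dcds Fr v0 _ cap fun f hf => hFs f hf, ?_⟩
  rintro F (hF | hF)
  · have key : ∀ F' ∈ parts (Fts G u0 v0),
        AndOf (fun f => ShT s f ∧ (baseVal Fr v0 {f | f ∈ Fs} cap).True' s f) F' := by
      refine FrC.Fts_induction G u0 v0 hst (fun H => ∀ F' ∈ parts H,
        AndOf (fun f => ShT s f ∧ (baseVal Fr v0 {f | f ∈ Fs} cap).True' s f) F') ?_ ?_
      · intro p hp _ F' hF'
        have hp1 : parts (clause G u0 p.1 p.2) = {clause G u0 p.1 p.2} := by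
          unfold clause
          refine valT_parts_disj _ rfl _ fun f hf => ?_
          rw [List.mem_map] at hf
          obtain ⟨u, _, rfl⟩ := hf
          split_ifs <;> rfl
        rw [hp1, Set.mem_singleton_iff] at hF'
        subst hF'
        exact AndOf.base _ ⟨shT_of_leaves ((FrC.leaves_clause G hΔ hdeg u0 p.1 p.2).trans hs),
          baseVal_clause Fr v0 _ cap hl u0 p hp hm⟩
      · intro f g hf hg _ F' hF'
        rcases hF' with hF' | hF' | hF'
        · rw [Set.mem_singleton_iff] at hF'
          subst hF'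
          exact AndOf.and f g (hf f (self_mem_parts f)) (hg g (self_mem_parts g))
        · exact hf F' hF'
        · exact hg F' hF'
    exact key F hF
  · refine AndOf.base F ⟨hF.1, fun U y _ _ hQ => ?_⟩
    have h1 := hQ y (Gph.Agree.refl G U y)
    rw [hF.2] at h1
    exact Bool.noConfusion h1

end

end FrT
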