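import Pool.Agent.Lib.MP_51bb46_lc.T.TowersT
import Pool.Agent.Lib.MP_51bb46_lc.T.ValT
import Pool.Agent.Lib.MP_51bb46_lc.G.FinalG
import Pool.Agent.Lib.MP_51bb46_lc.C.Inst

/-!
Sharp exponent (namespace `FrT`): the main theorem.
-/

set_option linter.unusedSectionVars false

namespace FrT

open Finset Fr56 FrC FrG
open scoped Classical

/-- there is no refutation with few subformulas, given valuations for all small sets of base
formulas -/
theorem no_smallT {V E X : Type} [Fintype V] [Fintype E] [DecidableEq V] [DecidableEq E]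
    {G : FrC.Gph V E} (Fr : FrC.Frame G) (v0 : V) {d r k kk cap : ℕ}
    (hkill : KillsT Fr v0 d kk r k) {B : Fm X → Prop} (hB : Bas B)
    (hkk : r * kk ≤ cap) (hcap : cap ≤ Fr.m) (Ax : Set (Fm X))
    (hstage : ∀ Fs : Finset (Fm X), (∀ f ∈ Fs, B f) →
      ∃ S : FrC.Valn Fr v0 X {f | f ∈ Fs} cap, S.Dcds kk ∧
        ∀ F ∈ Ax, AndOf (fun f => B f ∧ S.True' kk f) F)
    (R : List Rule) (hR : ∀ q ∈ R, q.Sound) (hRk : ∀ q ∈ R, q.nodes + 1 ≤ r) (b : Fm ℕ)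
    (hb : b.Unsat) (hbk : b.size + 1 ≤ r) (τ : ℕ → X) (π : List (Fm X))
    (hπ : Derives R Ax π) (hbπ : b.map τ ∈ π)
    (hlev : ∀ A ∈ π, FrG.lev B A ≤ d) (htot : (subSet π).ncard ≤ 2 ^ k) : False := by
  set Fs : Finset (Fm X) := (π.flatMap Fm.subs).toFinset with hFsdef
  have hmem : ∀ A, A ∈ Fs ↔ ∃ C ∈ π, A ∈ C.subs := by
    intro A
    rw [hFsdef, List.mem_toFinset, List.mem_flatMap]
  have hcard : Fs.card ≤ 2 ^ k := by
    rw [ncard_subSet] at htot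
    exact htot
  have hsubs : ∀ f ∈ Fs, ∀ g ∈ f.subs, g ∈ Fs := by
    intro f hf g hg
    rw [hmem] at hf ⊢
    obtain ⟨C, hC, hfC⟩ := hf
    exact ⟨C, hC, Fm.subs_trans hg hfC⟩
  set Fs' := Fs.filter (fun f => B f) with hFs'
  obtain ⟨S, hS1, hS2⟩ := hstage Fs' (fun f hf => (Finset.mem_filter.1 hf).2)
  have hset : {f | f ∈ Fs'} = {f | f ∈ Fs ∧ FrG.lev B f ≤ 0} := by
    ext f
    simp only [Set.mem_ofPred_eq, hFs', Finset.mem_filter, Nat.le_zero, lev_eq_zero_iff hB]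
  have hS : ∃ S : FrC.Valn Fr v0 X {f | f ∈ Fs ∧ FrG.lev B f ≤ 0} cap, S.Dcds kk ∧
      ∀ F ∈ Ax, AndOf (fun f => B f ∧ S.True' kk f) F := by
    rw [← hset]
    exact ⟨S, hS1, hS2⟩
  obtain ⟨S2, hS3, hS4⟩ := hS
  refine hkill X B Fs 0 cap S2 hB hsubs hcard hkk hcap hS3 R hR hRk Ax (fun F hF _ => ?_) b hb hbk
    τ π hπ hbπ (fun A hA => ⟨?_, ?_⟩)
  · refine (hS4 F hF).mono fun f _ hf => ⟨?_, hf.2⟩
    rw [Nat.le_zero, lev_eq_zero_iff hB]
    exact hf.1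
  · exact (hmem A).2 ⟨A, hA, A.self_mem_subs⟩
  · rw [Nat.zero_add]
    exact hlev A hA

theorem map_map' {X Y Z : Type} (τ : X → Y) (σ : Y → Z) (f : Fm X) :
    (f.map τ).map σ = f.map fun x => σ (τ x) := by
  induction f with
  | var v => rfl
  | neg f ih => simp [Fm.map, ih]
  | and f g ihf ihg => simp [Fm.map, ihf, ihg]
  | or f g ihf ihg => simp [Fm.map, ihf, ihg]

theorem map_id' {X : Type} (f : Fm X) : f.map (fun x => x) = f := by
  induction f with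
  | var v => rfl
  | neg f ih => simp [Fm.map, ih]
  | and f g ihf ihg => simp [Fm.map, ihf, ihg]
  | or f g ihf ihg => simp [Fm.map, ihf, ihg]

/-- one instance of the main theorem -/
theorem inst_T (j : ℕ) : ∃ a : ℕ, ∀ N p : ℕ, 2 ≤ N → 1 ≤ p → p ≤ N → ∃ s0, ∀ s ≥ s0,
    ∃ F : Fm ℕ, F.Unsat ∧ F.IsCNF (2 * (dgT j + 2)) ∧ s ≤ F.size ∧
      F.size ≤ s ^ ((j + 1) * N + a + p) ∧ 1 ≤ s ∧
      ∀ κ : ℝ, κ ≤ (s : ℝ) ^ p → ∀ R : List Rule, (∀ r ∈ R, r.Sound) →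
        (∀ r ∈ R, r.nodes + 1 ≤ s) → ∀ b : Fm ℕ, b.Unsat → b.size + 1 ≤ s →
        ∀ π : List (Fm ℕ), Derives R (parts F ∪ {A | Shallow κ A ∧ ∀ x, A.eval x = true}) π →
        b ∈ π → (∀ A ∈ π, ∃ (B : Fm ℕ) (σ : ℕ → Fm ℕ), A = B.subst σ ∧ FrC.depth B ≤ j + 1 ∧
          ∀ v, Shallow κ (σ v)) →
        2 ^ (s ^ N) < (subSet π).ncard := by
  obtain ⟨a, ha⟩ := towersT j 1 6
  refine ⟨a + 6, fun N p hN hp hpN => ?_⟩
  obtain ⟨s1, h1⟩ := ha N hN
  obtain ⟨s2, h2⟩ := log_sq_le (p + 1) 1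
  obtain ⟨s3, h3⟩ := pow_lt_two_pow ((j + 1) * N + a)
  obtain ⟨w, hw⟩ : ∃ w, w = 2 * (dgT j + 2) := ⟨_, rfl⟩
  refine ⟨s1 + s2 + s3 + cS (dgT j) + 2 ^ w * (3 * w + 1) + w + 10, fun s hs => ?_⟩
  obtain ⟨V, E, iV, iE, dV, dE, G, Fr, SF, v0, De, hnl, hdeg, hfree, hcV, hΓ, h256, hm, hkill⟩ :=
    h1 s (by omega)
  have hs1 : 1 ≤ s := by omega
  have hcS : cS (dgT j) ≤ s := by omega
  have hcS2 : dgT j + 10 ≤ s := by
    have : 3 * (dgT j + 10) + 10 ≤ cS (dgT j) := by unfold cS; omega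
    omega
  obtain ⟨D, hD0, hDs, hD1, hD2⟩ := exists_D (e := p) hs1 (h2 s (by omega) _ le_rfl)
  have hQ0 : 0 < s := hs1
  have hkill' := step_T Fr v0 SF (e := p) (c := 0) De hnl hdeg hkill hN (by omega) hcS
    (hcV.trans (h3 s (by omega)).le) hΓ (le_trans (Nat.pow_le_pow_right hs1 (by omega)) hm)
    hQ0 hD0 hD1
  have hdeg' : ((G.tall s).blow D).Deg w := by
    rw [hw]
    exact deg_blow (G.tall s) (noLoop_tall G hnl) (by omega) (deg_tall G hdeg)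
  have hnl' : ((G.tall s).blow D).NoLoop := noLoop_blow _ hD0 (noLoop_tall G hnl)
  have hstar : ∀ w' : FrC.A D, (((G.tall s).blow D).star (HV.cen (v0, 0) w')).Nonempty := fun w' =>
    ⟨_, mem_star_cen (G.tall s) hD0 (Sum.inr (v0, ⟨0, hQ0⟩)) w'⟩
  obtain ⟨u0, hu0⟩ : ∃ u0 : Xt (TE V E s) D, u0 = ⟨Sum.inr (v0, ⟨0, hQ0⟩), ⟨0, hD0⟩, 0, 0⟩ :=
    ⟨_, rfl⟩
  obtain ⟨T, hT⟩ : ∃ T : Fm (Xt (TE V E s) D),
      T = Fts ((G.tall s).blow D) u0 (HV.cen (v0, 0) 0) := ⟨_, rfl⟩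
  have hback : (T.map encC).map (decC u0) = T := by
    rw [map_map']
    conv_rhs => rw [← map_id' T]
    congr 1
    funext x
    exact decC_encC u0 x
  have hTsize : T.size ≤ Fintype.card (HV (TV V s) (TE V E s) D) * (2 ^ w * (3 * w + 1)) := by
    rw [hT]
    exact Fts_size _ (by omega) hdeg' _ _ (hstar 0)
  have hm' : s ^ (p + 1) ≤ (Fr.blow s D hQ0 hD0).m := by
    show s ^ (p + 1) ≤ Fr.m / 2
    rw [Nat.le_div_iff_mul_le (by norm_num)]
    refine le_trans ?_ hm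
    calc s ^ (p + 1) * 2 ≤ s ^ (p + 1) * s := Nat.mul_le_mul_left _ (by omega)
      _ = s ^ (p + 2) := (pow_succ _ _).symm
      _ ≤ _ := Nat.pow_le_pow_right hs1 (by omega)
  have hsp : s ≤ s ^ p := by
    calc s = s ^ 1 := (pow_one s).symm
      _ ≤ s ^ p := Nat.pow_le_pow_right hs1 hp
  refine ⟨T.map encC, ?_, ?_, ?_, ?_, hs1, ?_⟩
  · intro x
    rw [Fm.eval_map, hT]
    exact Fts_unsat _ hnl' _ _ (hstar 0) _
  · rw [← hw, hT]
    exact FrS.isCNF_map _ (Fts_cnf _ hdeg' _ _ (hstar 0))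
  · rw [Fm.size_map, hT]
    refine le_trans ?_ (le_Fts_size _ _ _)
    have h5 : s ≤ 2 ^ D := by
      refine le_trans ?_ hD1
      calc s = s ^ 1 := (pow_one s).symm
        _ ≤ s ^ (p + 1) := Nat.pow_le_pow_right hs1 (by omega)
    have h6 : Fintype.card (FrC.A D) = 2 ^ D := by
      simp [FrC.A, ZMod.card]
    rw [← h6, ← Finset.card_univ] at h5
    refine h5.trans ?_
    refine Finset.card_le_card_of_injOn (fun w' => HV.cen (v0, 0) w') ?_ ?_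
    · intro w' _
      simp only [Finset.coe_filter, Finset.mem_univ, true_and, Set.mem_ofPred_eq]
      exact hstar w'
    · intro w' _ w'' _ h
      simpa using h
  · rw [Fm.size_map]
    have h7 := blow_card_le (V := V) (E := E) hdeg hcS2 hDs hD2
    calc T.size ≤ _ := hTsize
      _ ≤ Fintype.card V * s ^ (p + 5) * s := Nat.mul_le_mul h7 (by omega)
      _ ≤ s ^ ((j + 1) * N + a) * s ^ (p + 5) * s := by gcongr
      _ = s ^ ((j + 1) * N + (a + 6) + p) := by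
          rw [← pow_add, ← pow_succ]
          congr 1
          ring
  · intro κ hκ R hR hRs b hb hbs π hπ hbπ hlines
    by_contra hlt
    push Not at hlt
    have hκ' : ∀ q : ℕ, (q : ℝ) ≤ κ → q ≤ s ^ p := by
      intro q hq
      have : (q : ℝ) ≤ ((s ^ p : ℕ) : ℝ) := by
        push_cast
        exact hq.trans hκ
      exact_mod_cast this
    refine no_smallT (Fr.blow s D hQ0 hD0) (HV.cen (v0, 0) 0) (d := j + 1) (r := s) (k := s ^ N)
      (kk := s ^ p) (cap := s * s ^ p) hkill' (B := ShT (s ^ p)) (bas_ShT (hs1.trans hsp)) le_rfl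
      ?_ (parts T ∪ {A | ShT (s ^ p) A ∧ ∀ x, A.eval x = true}) (fun Fs hFs => ?_) R hR hRs b hb
      hbs (decC u0) (π.map (Fm.map (decC u0))) ?_ ?_ ?_ ?_
    · refine le_trans (le_of_eq ?_) hm'
      rw [← pow_succ']
    · rw [hT]
      refine exists_valnT (Fr.blow s D hQ0 hD0) (HV.cen (v0, 0) 0) hnl' (by omega) hdeg'
        (hstar 0) u0 (le_trans (by omega) hsp) ?_ Fs hFs
      refine le_trans ?_ hm'
      rw [pow_succ]
      have : 1 ≤ s ^ p := hs1.trans hsp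
      nlinarith
    · refine derives_map (decC u0) hπ ?_
      rintro A (hA | ⟨hA1, hA2⟩)
      · left
        have := Set.mem_image_of_mem (Fm.map (decC u0)) hA
        rw [← parts_map, hback] at this
        exact this
      · refine Or.inr ⟨shT_map _ hκ' hA1, fun x => ?_⟩
        rw [Fm.eval_map]
        exact hA2 _
    · exact List.mem_map_of_mem hbπ
    · intro A hA
      obtain ⟨A1, hA1, rfl⟩ := List.mem_map.1 hA
      obtain ⟨B, σ, rfl, hB, hσ⟩ := hlines A1 hA1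
      rw [map_subst]
      exact (FrG.lev_subst (bas_ShT (hs1.trans hsp)) B _ fun v => shT_map _ hκ' (hσ v)).trans hB
    · exact (ncard_subSet_map _ π).trans hlt

/-- **sharp exponent for bounded-depth Frege over shallow gates** -/
theorem main_T (d : ℕ) (hd : 1 ≤ d) (θ ε : ℝ) (hθ0 : 0 ≤ θ) (hθ : θ * (d + 1) < 1)
    (hε : 0 < ε) : ∃ (w : ℕ) (F : ℕ → Fm ℕ),
    (∀ n, (F n).Unsat ∧ (F n).IsCNF w ∧ n ≤ (F n).size) ∧
    ∀ R : List Rule, (∀ r ∈ R, r.Sound) → ∀ b : Fm ℕ, b.Unsat →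
      ∃ n₀, ∀ n ≥ n₀, ∀ π : List (Fm ℕ),
        Derives R (parts (F n) ∪ {A | Shallow (((F n).size : ℝ) ^ θ) A ∧
          ∀ x, A.eval x = true}) π → b ∈ π →
        (∀ A ∈ π, ∃ (B : Fm ℕ) (σ : ℕ → Fm ℕ), A = B.subst σ ∧ FrC.depth B ≤ d ∧
          ∀ v, Shallow (((F n).size : ℝ) ^ θ) (σ v)) →
        (2 : ℝ) ^ (((F n).size : ℝ) ^ ((1 - θ - ε) / d)) ≤ ((subSet π).ncard : ℕ) := by
  obtain ⟨j, rfl⟩ : ∃ j, d = j + 1 := ⟨d - 1, by omega⟩
  obtain ⟨a, ha⟩ := inst_T j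
  obtain ⟨N, p, hN, hp, hpN, hn1, hn2⟩ := choose_N (j + 1) hd θ ε hθ0 (by exact_mod_cast hθ) hε a
  obtain ⟨s0, hs0⟩ := ha N p hN hp hpN
  choose F hF using fun n : ℕ => hs0 (n + s0) (by omega)
  refine ⟨_, F, fun n => ⟨(hF n).1, (hF n).2.1, le_trans (by omega) (hF n).2.2.1⟩,
    fun R hR b hb => ?_⟩
  obtain ⟨C, hC, hCb⟩ : ∃ C, (∀ r ∈ R, r.nodes + 1 ≤ C) ∧ b.size + 1 ≤ C := by
    refine ⟨(R.map fun r => r.nodes + 1).sum + (b.size + 1), fun r hr => ?_, by omega⟩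
    have := List.single_le_sum (l := R.map fun r => r.nodes + 1) (by simp) _
      (List.mem_map_of_mem hr)
    omega
  refine ⟨C, fun n hn π hπ hbπ hlines => ?_⟩
  obtain ⟨-, -, hlow, hup, hs1, hmain⟩ := hF n
  obtain ⟨s, hs⟩ : ∃ s, s = n + s0 := ⟨_, rfl⟩
  rw [← hs] at hlow hup hs1 hmain
  have hs1' : (1 : ℝ) ≤ s := by exact_mod_cast hs1
  have hF1 : (1 : ℝ) ≤ ((F n).size : ℝ) := by exact_mod_cast hs1.trans hlow
  have hup' : ((F n).size : ℝ) ≤ (s : ℝ) ^ (((j + 1) * N + a + p : ℕ) : ℝ) := by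
    rw [Real.rpow_natCast]
    exact_mod_cast hup
  have hpow : ∀ x : ℝ, 0 ≤ x → ((F n).size : ℝ) ^ x ≤
      (s : ℝ) ^ ((((j + 1) * N + a + p : ℕ) : ℝ) * x) := by
    intro x hx
    rw [Real.rpow_mul (by linarith)]
    exact Real.rpow_le_rpow (by linarith) hup' hx
  have hκ : ((F n).size : ℝ) ^ θ ≤ (s : ℝ) ^ p := by
    refine (hpow θ hθ0).trans ?_
    rw [← Real.rpow_natCast]
    refine Real.rpow_le_rpow_of_exponent_le hs1' ?_
    rw [mul_comm]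
    exact hn1
  have hlen := hmain _ hκ R hR (fun r hr => (hC r hr).trans (by omega)) b hb
    (hCb.trans (by omega)) π hπ hbπ hlines
  have hfin : ((F n).size : ℝ) ^ ((1 - θ - ε) / ((j + 1 : ℕ) : ℝ)) ≤ ((s ^ N : ℕ) : ℝ) := by
    have hsN : (1 : ℝ) ≤ ((s ^ N : ℕ) : ℝ) := by exact_mod_cast Nat.one_le_pow _ _ hs1
    by_cases hx : 0 ≤ 1 - θ - ε
    · refine (hpow _ (by positivity)).trans ?_
      push_cast
      rw [← Real.rpow_natCast]
      refine Real.rpow_le_rpow_of_exponent_le hs1' ?_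
      push_cast at hn2 ⊢
      have hj : (0 : ℝ) < (j : ℝ) + 1 := by positivity
      rw [mul_div_assoc', div_le_iff₀ hj]
      nlinarith
    · push Not at hx
      refine le_trans (Real.rpow_le_one_of_one_le_of_nonpos hF1 ?_) hsN
      exact div_nonpos_of_nonpos_of_nonneg hx.le (by positivity)
  calc (2 : ℝ) ^ (((F n).size : ℝ) ^ ((1 - θ - ε) / ((j + 1 : ℕ) : ℝ)))
      ≤ (2 : ℝ) ^ ((s ^ N : ℕ) : ℝ) := Real.rpow_le_rpow_of_exponent_le (by norm_num) hfin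
    _ = ((2 ^ (s ^ N) : ℕ) : ℝ) := by
        rw [Real.rpow_natCast]
        push_cast
        rfl
    _ ≤ ((subSet π).ncard : ℕ) := by exact_mod_cast hlen.le

end FrT
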