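import Pool.Agent.Lib.MP_51bb46_lc.T.LogicA
import Pool.Agent.Lib.MP_51bb46_lc.T.ExistsT

/-!
Iterating the switching step.

PROOF of `kills_zeroT`.  Copy `FrG.kills_zero` (G/KillsG.lean) with the number `r` in the place of the
first `k` (`Valn` no-refutation lemma `valn_no_refutation S hcapm h0 kk r hD hkk ...`).

PROOF of `kills_succT`.  Copy `FrG.kills_succ` (G/KillsG.lean): use `exists_noLongT` (with
`R' = R + (Δ + 2) * kk'`) and `switch_logicT` (with `KK = kk`, `cap = r * kk`) in the place of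
`exists_noLong` and `switch_logic`; `𝒮.card ≤ Fs.card ≤ 2^k`; `3 ≤ r` gives `3 kk' ≤ cap'`.
-/

set_option linter.unusedSectionVars false

namespace FrT

open Finset Fr56 FrC FrG
open scoped Classical

theorem kills_zeroT {V E : Type} [Fintype E] [DecidableEq V] {G : Gph V E} (Fr : Frame G) (v0 : V)
    (h0 : Fr.Free ∅ v0) (kk r k : ℕ) (hr : 4 ≤ r) : KillsT Fr v0 0 kk r k := by
  intro X B Fs i0 cap S hB hcl _ hkk hcapm hD R hR hRC Ax hAx b hb hbC τ π hπ hlast hall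
  have hC4 : 4 * kk ≤ cap := (Nat.mul_le_mul_right kk hr).trans hkk
  have key : ∀ F : Fm X, AndOf (fun f => lev B f ≤ i0 ∧ S.True' kk f) F → F ∈ Fs →
      lev B F ≤ i0 → S.True' kk F := by
    intro F hF
    induction hF with
    | base f h => exact fun _ _ => h.2
    | and f g _ _ ihf ihg =>
      intro h1 h2
      have m1 : f ∈ (Fm.and f g).subs := by
        simp only [Fm.subs, List.mem_cons, List.mem_append]
        exact Or.inr (Or.inl (Fm.self_mem_subs _))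
      have m2 : g ∈ (Fm.and f g).subs := by
        simp only [Fm.subs, List.mem_cons, List.mem_append]
        exact Or.inr (Or.inr (Fm.self_mem_subs _))
      have l1 := (lev_subs hB _ _ m1).trans h2
      have l2 := (lev_subs hB _ _ m2).trans h2
      exact S.and_true hcapm h0 kk hD hC4 f g ⟨hcl _ h1 _ m1, l1⟩ ⟨hcl _ h1 _ m2, l2⟩ ⟨h1, h2⟩
        (ihf (hcl _ h1 _ m1) l1) (ihg (hcl _ h1 _ m2) l2)
  exact valn_no_refutation S hcapm h0 kk r hD hkk R hR hRC Ax b hb hbC τ π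
    (fun F h1 h2 => key F (hAx F h1 (hall F h2).1) (hall F h2).1 (hall F h2).2) hπ hlast
    (fun A hA C hC => ⟨hcl A (hall A hA).1 C hC, (lev_subs hB C A hC).trans (hall A hA).2⟩)

section
variable {V E : Type} [Fintype V] [Fintype E] [DecidableEq V] [DecidableEq E]
  {G : Gph V E} (Fr : Frame G) (v0 : V)

/-- **the switching step** -/
theorem kills_succT {Q K C₁ m : ℕ} (De : Detour G Q K C₁ m) (SF : SFrame Fr)
    {j kk kk' r k D Δ R ℓ μ : ℕ} (hkill : KillsT Fr v0 j kk r k) (hl : G.NoLoop)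
    (hdeg : G.Deg Δ) (hQ0 : 0 < Q) (hD : 0 < D) (w0 : A D) (hr : 3 ≤ r) (hR : 0 < R)
    (hW : 5 * ((1 + 4 * 2 ^ (Δ * (K * (2 + C₁)))) ^ (2 * (Δ + 2)) * ((Δ + 2) * kk')) ≤ 2 ^ D)
    (hℓ : 0 < ℓ) (hμ : R + (Δ + 2) * kk' ≤ ℓ * μ) (hm : (2 + C₁) * (R + (Δ + 2) * kk') ≤ m)
    (hmF : K * ((2 + C₁) * (R + (Δ + 2) * kk')) + ℓ * (2 * (1 + Δ) * kk') ≤ Fr.m)
    (hcard : 2 ^ k * (2 * Fintype.card V) * ((SF.Γ.card + 1) * Fintype.card V) ^ μ < 2 ^ R)
    (hK1 : K * ((2 + C₁) * R) ≤ kk) (hK2 : 2 * (Δ + 2) * kk' ≤ kk)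
    (hcap : r * kk + (2 * Δ + 10) * kk' ≤ Fr.m) :
    KillsT (Fr.blow Q D hQ0 hD) (HV.cen (v0, 0) w0) (j + 1) kk' r k := by
  intro X B Fs i0 cap' S' hB hcl hFc hkk hcapm hD' R₀ hR₀ hRC Ax hAx b hb hbC τ π hπ hlast
    hall
  have h3 : 3 * kk' ≤ cap' := (Nat.mul_le_mul_right kk' hr).trans hkk
  set 𝒮 : Finset (Set (Cert V E Q D)) :=
    Fs.image (fun f => certs S' kk' (lst {f | f ∈ Fs ∧ lev B f ≤ i0} f)) with h𝒮def
  have h𝒮 : ∀ 𝒞 ∈ 𝒮, ∀ C ∈ 𝒞, C.1.card ≤ kk' := by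
    intro 𝒞 h𝒞 C hC
    rw [h𝒮def, Finset.mem_image] at h𝒞
    obtain ⟨f, _, rfl⟩ := h𝒞
    exact certs_card S' kk' _ C hC
  have hc1 : 𝒮.card * (2 * Fintype.card V) * ((SF.Γ.card + 1) * Fintype.card V) ^ μ < 2 ^ R := by
    refine lt_of_le_of_lt (Nat.mul_le_mul_right _ (Nat.mul_le_mul_right _ ?_)) hcard
    exact Finset.card_image_le.trans hFc
  obtain ⟨α, a, hα, hno⟩ := exists_noLongT Fr v0 De SF hl hD hQ0 hdeg kk' R (R + (Δ + 2) * kk')
    ℓ μ w0 𝒮 h𝒮 hW hℓ hμ hm hmF hc1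
  obtain ⟨S, hSD, hST⟩ := switch_logicT S' De (newCls hB Fs hcl i0) hdeg h3 hR hm
    (le_trans (Nat.le_add_right _ _) hmF) hα
    (fun f hf _ => hno _ (by rw [h𝒮def]; exact Finset.mem_image_of_mem _ hf.1)) hD' hK1 hK2 hcap
  have hkk1 : kk ≤ r * kk := Nat.le_mul_of_pos_left kk (by omega)
  have hkk2 : 2 * kk' ≤ (2 * Δ + 10) * kk' := Nat.mul_le_mul_right kk' (by omega)
  refine hkill X B Fs (i0 + 1) (r * kk) S hB hcl hFc le_rfl (by omega) hSD R₀ hR₀ hRC Ax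
    (fun F hF hFs => ?_) b hb hbC τ π hπ hlast ?_
  · refine (hAx F hF hFs).mono fun f hf h => ?_
    obtain ⟨h1, h2⟩ := h
    exact ⟨by omega, hST f ⟨hcl F hFs f hf, h1⟩ kk (by omega) h2⟩
  · intro A hA
    obtain ⟨h1, h2⟩ := hall A hA
    exact ⟨h1, by omega⟩

end

end FrT
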