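import Pool.Agent.Lib.MP_51bb46_lc.T.NumT

/-!
The logic of the switching step.

PROOF of `switch_logicT`.  Copy the proof of `FrC.switch_logic` (C/SwitchB.lean): the valuation is
`nQ S' α a k` with the laws from C/SwitchA.lean; old formulas are decided by `dec_old`; for the new
formulas use `dec_of_noLongT` instead of `dec_of_noLong`; the budget is `K * ((2 + C₁) * R) ≤ KK`.
-/

set_option linter.unusedSectionVars false

namespace FrT

open Finset Fr56 FrC FrG
open scoped Classical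

section
variable {V E : Type} [Fintype V] [Fintype E] [DecidableEq V] [DecidableEq E]
  {G : Gph V E} {Fr : Frame G} {v0 : V} {Q D : ℕ} {hQ : 0 < Q} {hD : 0 < D} {w0 : A D}
  {X : Type} {Φ' : Set (Fm X)} {cap' : ℕ}
  (S' : Valn (Fr.blow Q D hQ hD) (HV.cen (v0, 0) w0) X Φ' cap')
  {α : Xt (TE V E Q) D → ZMod 2} {a : TV V Q → A D}

/-- **logic of the switching step** -/
theorem switch_logicT {K C₁ m : ℕ} (De : Detour G Q K C₁ m) {Φ : Set (Fm X)}
    (hΦ : NewCls Φ' Φ) {Δ k R KK cap : ℕ} (hdeg : G.Deg Δ)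
    (hk : 3 * k ≤ cap') (hR : 0 < R)
    (hm : (2 + C₁) * (R + (Δ + 2) * k) ≤ m)
    (hmF : K * ((2 + C₁) * (R + (Δ + 2) * k)) ≤ Fr.m)
    (hα : ((G.tall Q).blow D).bd α = pt (HV.cen (v0, 0) w0) + pt (ctr a (v0, 0)))
    (hno : ∀ f ∈ Φ, f ∉ Φ' →
      NoLongT Fr v0 α a De (certs S' k (lst Φ' f)) R (R + (Δ + 2) * k))
    (hD' : S'.Dcds k) (hK1 : K * ((2 + C₁) * R) ≤ KK) (hK2 : 2 * (Δ + 2) * k ≤ KK)
    (hcap : cap + (2 * Δ + 10) * k ≤ Fr.m) :
    ∃ S : Valn Fr v0 X Φ cap, S.Dcds KK ∧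
      ∀ f ∈ Φ', ∀ w, w + 2 * k ≤ Fr.m → S'.True' k f → S.True' w f := by
  let S : Valn Fr v0 X Φ cap :=
    { Q := nQ S' α a k
      mono := fun f _ b U U' y y' hU _ h hy _ => nQ_mono S' f b U U' y y' hU h hy
      uniq := fun f _ U y hU hok h h' => nQ_uniq S' hα hdeg hk f U y (by omega) hok h h'
      neg := fun f _ hf' b b' U y hU hok h h' =>
        nQ_neg S' hα hΦ hdeg hk f hf' b b' U y (by omega) hok h h'
      and := fun f g _ _ hfg b b' b'' U y hU hok h h' h'' =>
        nQ_and S' hα hΦ hdeg hk f g hfg b b' b'' U y (by omega) hok h h' h''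
      or := fun f g _ _ hfg b b' b'' U y hU hok h h' h'' =>
        nQ_or S' hα hΦ hdeg hk f g hfg b b' b'' U y (by omega) hok h h' h'' }
  refine ⟨S, ?_, ?_⟩
  · intro f hf y hok
    by_cases hf' : f ∈ Φ'
    · refine Dec.mono (dec_old S' hα hdeg f hf' (fun x hx => hD' f hf' x hx) ?_ y hok) hK2
      have : (2 * Δ + 10) * k = 2 * (Δ + 2) * k + 6 * k := by ring
      omega
    · have h1 := dec_of_noLongT Fr v0 α a De hdeg (certs_card S' k (lst Φ' f)) (hno f hf hf') hR
        hm hmF (sgn f) y hok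
      refine Dec.mono ?_ hK1
      have e : (S.Q f) = fun b U y => if b = sgn f then QC (G := G) α a (certs S' k (lst Φ' f)) U y
          else QN Fr v0 α a (certs S' k (lst Φ' f)) U y := by
        funext b U y
        show nQ S' α a k f b U y = _
        unfold nQ
        rw [if_neg hf']
      rw [e]
      exact h1
  · intro f hf w hw hT U y hU hok h
    have h' : nQ S' α a k f false U y := h
    unfold nQ at h'
    rw [if_pos hf] at h'
    obtain ⟨W, hW, hokW, hQW, _⟩ := old_down S' hα (by omega) hf (by omega) hok h'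
    exact hT W _ hW hokW hQW

end

end FrT
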