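import Pool.Agent.Lib.MP_51bb46_lc.T.KillsA

/-!
The switching step with concrete parameters: everything is a power of `s`.
-/

set_option linter.unusedSectionVars false

namespace FrT

open Finset Fr56 FrC FrG
open scoped Classical

/-- a constant depending on the degree -/
def cS (Δ : ℕ) : ℕ :=
  5 * ((1 + 4 * 2 ^ (Δ * (2 * 16 * Δ * (2 + (2 * Δ + 3))))) ^ (2 * (Δ + 2)) * (Δ + 2)) +
    (3 * (2 * 16 * Δ * (2 + (2 * Δ + 3))) + 3 * (Δ + 10) + 10)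

private theorem pow_mul_le {C s i j : ℕ} (hC : C ≤ s) (h : i + 1 ≤ j) (hs : 1 ≤ s) :
    C * s ^ i ≤ s ^ j := by
  calc C * s ^ i ≤ s * s ^ i := Nat.mul_le_mul_right _ hC
    _ = s ^ (i + 1) := by rw [pow_succ, mul_comm]
    _ ≤ s ^ j := Nat.pow_le_pow_right hs h

/-- **the switching step with concrete parameters** -/
theorem step_T {V E : Type} [Fintype V] [Fintype E] [DecidableEq V] [DecidableEq E]
    {G : Gph V E} (Fr : Frame G) (v0 : V) (SF : SFrame Fr) {Δ s N c e j D : ℕ}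
    (De : Detour G s (2 * 16 * Δ) (2 * Δ + 3) Fr.m) (hl : G.NoLoop) (hdeg : G.Deg Δ)
    (hkill : KillsT Fr v0 j (s ^ (N + c + 1)) s (s ^ N)) (hN : 2 ≤ N) (he : e ≤ N + c)
    (hs : cS Δ ≤ s) (hV : Fintype.card V ≤ 2 ^ (s - 1)) (hΓ : SF.Γ.card + 1 ≤ 2 ^ s)
    (hm : s ^ (N + 2 * c + 6) ≤ Fr.m) (hQ : 0 < s) (hD : 0 < D) (hD2 : s ^ (e + 1) ≤ 2 ^ D) :
    KillsT (Fr.blow s D hQ hD) (HV.cen (v0, 0) 0) (j + 1) (s ^ e) s (s ^ N) := by
  have hcS : 5 * ((1 + 4 * 2 ^ (Δ * (2 * 16 * Δ * (2 + (2 * Δ + 3))))) ^ (2 * (Δ + 2)) *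
      (Δ + 2)) ≤ s := le_trans (Nat.le_add_right _ _) hs
  have hcS2 : 3 * (2 * 16 * Δ * (2 + (2 * Δ + 3))) + 3 * (Δ + 10) + 10 ≤ s :=
    le_trans (Nat.le_add_left _ _) hs
  obtain ⟨W, hWd⟩ : ∃ W, W = 2 * 16 * Δ * (2 + (2 * Δ + 3)) := ⟨_, rfl⟩
  rw [← hWd] at hcS2
  have hs1 : 1 ≤ s := hQ
  have hs40 : 40 ≤ s := by omega
  have hpe : s ^ e ≤ s ^ (N + c) := Nat.pow_le_pow_right hs1 he
  have hRl : 3 * s ^ N + (Δ + 2) * s ^ e ≤ s ^ (N + c + 1) := by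
    calc 3 * s ^ N + (Δ + 2) * s ^ e ≤ 3 * s ^ (N + c) + (Δ + 2) * s ^ (N + c) :=
          Nat.add_le_add (Nat.mul_le_mul_left _ (Nat.pow_le_pow_right hs1 (by omega)))
            (Nat.mul_le_mul_left _ hpe)
      _ = (3 + (Δ + 2)) * s ^ (N + c) := by ring
      _ ≤ s ^ (N + c + 1) := pow_mul_le (by omega) (by omega) hs1
  have hpos : ∀ i, 0 < s ^ i := fun i => Nat.pow_pos hQ
  refine kills_succT Fr v0 De SF (R := 3 * s ^ N) (ℓ := s ^ (c + 3)) (μ := s ^ (N - 2)) hkill hl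
    hdeg hQ hD 0 (by omega) (by have := hpos N; omega) ?_ (hpos _) ?_ ?_ ?_ ?_ ?_ ?_ ?_
  · refine le_trans ?_ hD2
    calc 5 * ((1 + 4 * 2 ^ (Δ * (2 * 16 * Δ * (2 + (2 * Δ + 3))))) ^ (2 * (Δ + 2)) *
          ((Δ + 2) * s ^ e))
        = 5 * ((1 + 4 * 2 ^ (Δ * (2 * 16 * Δ * (2 + (2 * Δ + 3))))) ^ (2 * (Δ + 2)) *
          (Δ + 2)) * s ^ e := by ring
      _ ≤ s ^ (e + 1) := pow_mul_le hcS le_rfl hs1
  · refine hRl.trans (le_of_eq ?_)
    rw [← pow_add]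
    congr 1
    omega
  · refine le_trans (Nat.mul_le_mul_left _ hRl) (le_trans ?_ hm)
    have h1 : 2 + (2 * Δ + 3) ≤ s := by omega
    exact pow_mul_le h1 (by omega) hs1
  · refine le_trans ?_ hm
    have h1 : 2 * 16 * Δ * ((2 + (2 * Δ + 3)) * (3 * s ^ N + (Δ + 2) * s ^ e)) ≤
        W * s ^ (N + 2 * c + 3) := by
      rw [hWd, mul_assoc (2 * 16 * Δ)]
      refine Nat.mul_le_mul_left _ (Nat.mul_le_mul_left _ (hRl.trans ?_))
      exact Nat.pow_le_pow_right hs1 (by omega)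
    have h2 : s ^ (c + 3) * (2 * (1 + Δ) * s ^ e) ≤ (2 * (1 + Δ)) * s ^ (N + 2 * c + 3) := by
      calc s ^ (c + 3) * (2 * (1 + Δ) * s ^ e) ≤ s ^ (c + 3) * (2 * (1 + Δ) * s ^ (N + c)) := by
            gcongr
        _ = 2 * (1 + Δ) * (s ^ (c + 3) * s ^ (N + c)) := by ring
        _ = 2 * (1 + Δ) * s ^ (N + 2 * c + 3) := by
            rw [← pow_add]
            congr 2
            omega
    calc _ ≤ W * s ^ (N + 2 * c + 3) + (2 * (1 + Δ)) * s ^ (N + 2 * c + 3) :=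
          Nat.add_le_add h1 h2
      _ = (W + 2 * (1 + Δ)) * s ^ (N + 2 * c + 3) := by ring
      _ ≤ s ^ (N + 2 * c + 6) := pow_mul_le (by omega) (by omega) hs1
  · have h1 : (SF.Γ.card + 1) * Fintype.card V ≤ 2 ^ (2 * s) := by
      calc (SF.Γ.card + 1) * Fintype.card V ≤ 2 ^ s * 2 ^ (s - 1) := Nat.mul_le_mul hΓ hV
        _ = 2 ^ (s + (s - 1)) := by rw [pow_add]
        _ ≤ 2 ^ (2 * s) := Nat.pow_le_pow_right (by norm_num) (by omega)
    have h2 : ((SF.Γ.card + 1) * Fintype.card V) ^ (s ^ (N - 2)) ≤ 2 ^ (2 * s ^ (N - 1)) := by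
      calc ((SF.Γ.card + 1) * Fintype.card V) ^ (s ^ (N - 2)) ≤ (2 ^ (2 * s)) ^ (s ^ (N - 2)) :=
            Nat.pow_le_pow_left h1 _
        _ = 2 ^ (2 * s * s ^ (N - 2)) := by rw [← pow_mul]
        _ = 2 ^ (2 * s ^ (N - 1)) := by
            congr 1
            rw [mul_assoc, ← pow_succ']
            congr 2
            omega
    have h3 : 2 * Fintype.card V ≤ 2 ^ s := by
      calc 2 * Fintype.card V ≤ 2 * 2 ^ (s - 1) := Nat.mul_le_mul_left _ hV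
        _ = 2 ^ s := by rw [← pow_succ']; congr 1; omega
    have h4 : s ≤ s ^ (N - 1) := by
      calc s = s ^ 1 := (pow_one s).symm
        _ ≤ s ^ (N - 1) := Nat.pow_le_pow_right hs1 (by omega)
    have h5 : s ^ N = s * s ^ (N - 1) := by
      rw [← pow_succ']; congr 1; omega
    have h6 : 4 * s ^ (N - 1) ≤ s ^ N := by
      rw [h5]
      exact Nat.mul_le_mul_right _ (by omega)
    calc 2 ^ s ^ N * (2 * Fintype.card V) * ((SF.Γ.card + 1) * Fintype.card V) ^ s ^ (N - 2)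
        ≤ 2 ^ s ^ N * 2 ^ s * 2 ^ (2 * s ^ (N - 1)) :=
          Nat.mul_le_mul (Nat.mul_le_mul_left _ h3) h2
      _ = 2 ^ (s ^ N + s + 2 * s ^ (N - 1)) := by rw [pow_add, pow_add]
      _ < 2 ^ (3 * s ^ N) := by
          apply Nat.pow_lt_pow_right (by norm_num)
          have := hpos (N - 1)
          omega
  · have h1 : 2 * 16 * Δ * ((2 + (2 * Δ + 3)) * (3 * s ^ N)) = (3 * W) * s ^ N := by
      rw [hWd]; ring
    rw [h1]
    exact pow_mul_le (by omega) (by omega) hs1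
  · exact le_trans (Nat.mul_le_mul_left _ hpe) (pow_mul_le (by omega) (by omega) hs1)
  · refine le_trans ?_ hm
    calc s * s ^ (N + c + 1) + (2 * Δ + 10) * s ^ e
        ≤ s ^ (N + c + 2) + s ^ (N + c + 2) := by
          refine Nat.add_le_add (le_of_eq (by rw [← pow_succ'])) ?_
          exact le_trans (Nat.mul_le_mul_left _ hpe) (pow_mul_le (by omega) (by omega) hs1)
      _ = 2 * s ^ (N + c + 2) := by ring
      _ ≤ s ^ (N + 2 * c + 6) := pow_mul_le (by omega) (by omega) hs1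

end FrT
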