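import Pool.Agent.Lib.MP_51bb46_lc.T.Defs
import Pool.Agent.Lib.MP_51bb46_lc.T.Base
import Pool.Agent.Lib.MP_51bb46_lc.C.FrameB

section

/-!
Counting permutations; a binomial estimate.

PROOF of `card_perm_map`.  Let `N(A)` be the number of permutations `σ` with `σ(A) ⊆ B`.  It depends
only on `a = |A|`: if `|A'| = a` then there is a permutation `π` with `π(A) = A'`, and
`σ ↦ σ * π` is a bijection from the permutations with `σ(A') ⊆ B` to those with `σ(A) ⊆ B`.  Double
counting of the pairs `(σ, A')` with `|A'| = a` and `σ(A') ⊆ B`: for fixed `σ` these are the `a`-subsets of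
`σ⁻¹(B)`, hence `C(n, a) N(A) = n! C(b, a)`, where `b = |B|`, `n = |V|`.

PROOF of `choose_le`.  Let `16 l < k`.  For natural numbers `N, l` we have
`C(N, l) * 16^(N - l) ≤ (1 + 16)^N` (one term of the binomial theorem).  With `N = k + l`:
`C(k + l, l) * 16^k ≤ 17^(k + l)`.  Take `16`-th powers and use `17^16 ≤ 4 * 16^16`
(a numeral fact):
`C^16 * 16^(16 k) ≤ (17^16)^(k + l) ≤ 4^(k + l) * 16^(16 (k + l))`, so
`C^16 ≤ 4^(k + l) * 2^(64 l) = 2^(2 k + 66 l)`, and
`2 k + 66 l ≤ 2 k + (66/16) k ≤ 8 k`. So `C^16 ≤ 2^(8 k)`, i.e. `C^2 ≤ 2^k` and `C^8 ≤ 2^(4 k)`.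
-/

set_option linter.unusedSectionVars false

namespace FrT

open Finset Fr56 FrC FrG
open scoped Classical

/-- number of permutations that map `A` into `B` -/
theorem card_perm_map {V : Type} [Fintype V] [DecidableEq V] (A B : Finset V) :
    (Fintype.card V).choose A.card * (univ.filter fun σ : Equiv.Perm V => ∀ v ∈ A, σ v ∈ B).card =
      (Fintype.card V).factorial * B.card.choose A.card := by
  have hle : ∀ A' A'' : Finset V, A'.card = A''.card →
      (univ.filter fun σ : Equiv.Perm V => ∀ v ∈ A', σ v ∈ B).card ≤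
        (univ.filter fun σ : Equiv.Perm V => ∀ v ∈ A'', σ v ∈ B).card := by
    intro A' A'' h
    obtain ⟨e⟩ : Nonempty ({x // x ∈ A''} ≃ {x // x ∈ A'}) :=
      ⟨Finset.equivOfCardEq h.symm⟩
    set π : Equiv.Perm V := e.extendSubtype with hπ
    refine Finset.card_le_card_of_injOn (fun σ => σ * π) ?_ ?_
    · intro σ hσ
      have hσ' := (Finset.mem_filter.1 (Finset.mem_coe.1 hσ)).2
      refine Finset.mem_coe.2 (Finset.mem_filter.2 ⟨Finset.mem_univ _, fun v hv => ?_⟩)
      exact hσ' _ (e.extendSubtype_mem v hv)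
    · intro σ _ τ _ h
      exact mul_right_cancel h
  have heq : ∀ A' ∈ powersetCard A.card (univ : Finset V),
      (univ.filter fun σ : Equiv.Perm V => ∀ v ∈ A', σ v ∈ B).card =
        (univ.filter fun σ : Equiv.Perm V => ∀ v ∈ A, σ v ∈ B).card := by
    intro A' hA'
    have h1 := (Finset.mem_powersetCard.1 hA').2
    exact le_antisymm (hle _ _ h1) (hle _ _ h1.symm)
  have h1 : (Fintype.card V).choose A.card *
      (univ.filter fun σ : Equiv.Perm V => ∀ v ∈ A, σ v ∈ B).card =
        ∑ A' ∈ powersetCard A.card (univ : Finset V),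
          (univ.filter fun σ : Equiv.Perm V => ∀ v ∈ A', σ v ∈ B).card := by
    rw [Finset.sum_congr rfl heq, Finset.sum_const, Finset.card_powersetCard, Finset.card_univ,
      smul_eq_mul]
  have h2 : ∀ σ : Equiv.Perm V, ((powersetCard A.card (univ : Finset V)).filter
      fun A' => ∀ v ∈ A', σ v ∈ B).card = B.card.choose A.card := by
    intro σ
    have h3 : ((powersetCard A.card (univ : Finset V)).filter fun A' => ∀ v ∈ A', σ v ∈ B) =
        powersetCard A.card (B.map σ.symm.toEmbedding) := by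
      ext A'
      simp only [Finset.mem_filter, Finset.mem_powersetCard, Finset.subset_univ, true_and]
      constructor
      · rintro ⟨h4, h5⟩
        refine ⟨fun v hv => ?_, h4⟩
        rw [Finset.mem_map_equiv, Equiv.symm_symm]
        exact h5 v hv
      · rintro ⟨h4, h5⟩
        refine ⟨h5, fun v hv => ?_⟩
        have h6 := h4 hv
        rw [Finset.mem_map_equiv, Equiv.symm_symm] at h6
        exact h6
    rw [h3, Finset.card_powersetCard, Finset.card_map]
  rw [h1]
  simp only [Finset.card_filter]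
  rw [Finset.sum_comm]
  simp only [← Finset.card_filter]
  rw [Finset.sum_congr rfl fun σ _ => h2 σ, Finset.sum_const, Finset.card_univ, Fintype.card_perm,
    smul_eq_mul]

/-- a binomial estimate -/
theorem choose_le (k l : ℕ) (h : 16 * l < k) : ((k + l).choose l) ^ 8 ≤ 2 ^ (4 * k) := by
  have h1 : (k + l).choose l * 16 ^ k ≤ 17 ^ (k + l) := by
    have h2 : (17 : ℕ) ^ (k + l) =
        ∑ i ∈ Finset.range (k + l + 1), 16 ^ i * 1 ^ (k + l - i) * (k + l).choose i := by
      have h3 := add_pow (16 : ℕ) 1 (k + l)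
      exact h3
    rw [h2]
    have h3 := Finset.single_le_sum
      (f := fun i => 16 ^ i * 1 ^ (k + l - i) * (k + l).choose i)
      (s := Finset.range (k + l + 1)) (fun i _ => Nat.zero_le _)
      (Finset.mem_range.2 (by omega : k < k + l + 1))
    refine le_trans (le_of_eq ?_) h3
    simp only [one_pow, mul_one]
    rw [Nat.choose_symm_add, mul_comm]
  have h2 : (17 : ℕ) ^ 16 ≤ 4 * 16 ^ 16 := by norm_num
  have h3 : ((k + l).choose l) ^ 16 * 16 ^ (16 * k) ≤ (4 ^ (k + l) * 16 ^ (16 * l)) * 16 ^ (16 * k) := by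
    calc ((k + l).choose l) ^ 16 * 16 ^ (16 * k) = ((k + l).choose l * 16 ^ k) ^ 16 := by
          rw [mul_pow, ← pow_mul, mul_comm k 16]
      _ ≤ (17 ^ (k + l)) ^ 16 := Nat.pow_le_pow_left h1 16
      _ = (17 ^ 16) ^ (k + l) := by rw [← pow_mul, ← pow_mul, mul_comm]
      _ ≤ (4 * 16 ^ 16) ^ (k + l) := Nat.pow_le_pow_left h2 _
      _ = (4 ^ (k + l) * 16 ^ (16 * l)) * 16 ^ (16 * k) := by
          rw [mul_pow, ← pow_mul, mul_add, pow_add 16]
          ring
  have h4 := Nat.le_of_mul_le_mul_right h3 (by positivity)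
  have h5 : (4 : ℕ) ^ (k + l) * 16 ^ (16 * l) ≤ 2 ^ (8 * k) := by
    have e4 : (4 : ℕ) = 2 ^ 2 := by norm_num
    have e16 : (16 : ℕ) ^ (16 * l) = 2 ^ (64 * l) := by
      have : (16 : ℕ) = 2 ^ 4 := by norm_num
      rw [show (16 : ℕ) ^ (16 * l) = (2 ^ 4) ^ (16 * l) by norm_num, ← pow_mul]
      congr 1
      ring
    rw [e16, e4, ← pow_mul, ← pow_add]
    exact Nat.pow_le_pow_right (by norm_num) (by omega)
  have h6 := h4.trans h5
  have h7 : (((k + l).choose l) ^ 8) ^ 2 ≤ (2 ^ (4 * k)) ^ 2 := by
    rw [← pow_mul, ← pow_mul]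
    calc ((k + l).choose l) ^ (8 * 2) ≤ 2 ^ (8 * k) := h6
      _ = 2 ^ (4 * k * 2) := by
        congr 1
        ring
  exact (Nat.pow_le_pow_iff_left (by norm_num)).1 h7

end FrT
end

section

/-!
Expanders exist (union of `8` random permutations).

PROOF of `exists_expander`.  Let `n = |V|`.  For a tuple `σ : Fin 8 → Perm V` let `X σ` be the graph with
the edges `(v, j)`, `σ j v ≠ v`, from `v` to `σ j v` (edge type: the subtype of `V × Fin 8`).  It has no
loops, degrees at most `16` (at most `8` edges with source `v`, at most `8` with target `v`), at most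
`8 n` edges.  Suppose that it is not `16`-expanding: there is `A` with `2|A| ≤ n`,
`16 |cut A| < |A|`.  Let `k = |A| ≥ 1`, `l = (k - 1) / 16`; then `|cut A| ≤ l`.  The set
`B' = {σ j v : v ∈ A, j} \ A` has at most `|cut A| ≤ l` elements (each of its elements is the target
of an edge in `cut A`, and distinct elements come from distinct edges), so there is `B` with
`A ⊆ B`, `|B| = k + l` (note `k + l ≤ n`) and `σ j (A) ⊆ B` for all `j`.  So the tuple belongs to the
bad set of `(A, B)`, which by `card_perm_map` has `(n! C(k + l, k) / C(n, k))^8` elements.  The number of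
pairs `(A, B)`, `A ⊆ B`, with given `k` is `C(n, k) C(n - k, l) ≤ C(n, k) C(n, l) ≤ C(n, k)^2`
(as `l ≤ k ≤ n / 2`).  So the fraction of bad tuples is at most
`∑_(k=1)^(n/2) C(n, k)^2 (C(k + l, l) / C(n, k))^8 ≤ ∑ 2^(4 k) / C(n, k)^6 ≤ ∑ 2^(4 k - 6 k) = ∑ 4^(-k) < 1`,
where `C(n, k) ≥ 2^k` for `2 k ≤ n` (e.g. `(n / k)^k ≤ C(n, k)`, `Nat.pow_le_choose`-like lemmas, or
induction: `C(n, k) = (n / k) C(n - 1, k - 1)`, `2 (k - 1) ≤ n - 1`).  So a good tuple exists.
-/

set_option linter.unusedSectionVars false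

namespace FrT

open Finset Fr56 FrC FrG
open scoped Classical

private theorem expA_two_pow (k : ℕ) : ∀ n : ℕ, 2 * k ≤ n → 2 ^ k ≤ n.choose k := by
  induction k with
  | zero => intro n _; simp
  | succ k ih =>
    intro n hn
    obtain ⟨m, rfl⟩ : ∃ m, n = m + 1 := ⟨n - 1, by omega⟩
    have h1 := ih m (by omega)
    have h2 := Nat.add_one_mul_choose_eq m k
    have h3 : 2 ^ (k + 1) * (k + 1) ≤ (m + 1).choose (k + 1) * (k + 1) := by
      rw [← h2]
      calc 2 ^ (k + 1) * (k + 1) = (2 * (k + 1)) * 2 ^ k := by ring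
        _ ≤ (m + 1) * m.choose k := Nat.mul_le_mul (by omega) h1
    exact Nat.le_of_mul_le_mul_right h3 (Nat.succ_pos k)

private theorem expA_mono (n l k : ℕ) (hlk : l ≤ k) (hk : 2 * k ≤ n) : n.choose l ≤ n.choose k := by
  induction k, hlk using Nat.le_induction with
  | base => exact le_rfl
  | succ k _ ih =>
    refine (ih (by omega)).trans ?_
    exact Nat.choose_le_succ_of_lt_half_left (by omega)

/-- the estimate for one size of sets -/
private theorem expA_est (n k l T : ℕ) (hl : 16 * l < k) (hk : 2 * k ≤ n)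
    (hT : n.choose k * T = n.factorial * (k + l).choose k) :
    4 ^ k * (n.choose k * ((n - k).choose l * T ^ 8)) ≤ n.factorial ^ 8 := by
  have h1 : (n - k).choose l ≤ n.choose k :=
    (Nat.choose_le_choose l (Nat.sub_le n k)).trans (expA_mono n l k (by omega) hk)
  have h2 : 2 ^ k ≤ n.choose k := expA_two_pow k n hk
  have h3 : 0 < n.choose k := Nat.choose_pos (by omega)
  have h4 := choose_le k l hl
  have h5 : (k + l).choose k = (k + l).choose l := by
    rw [Nat.choose_symm_add]
  have h6 : (n.choose k) ^ 6 * (4 ^ k * (n.choose k * ((n - k).choose l * T ^ 8))) ≤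
      (n.choose k) ^ 6 * n.factorial ^ 8 := by
    calc (n.choose k) ^ 6 * (4 ^ k * (n.choose k * ((n - k).choose l * T ^ 8)))
        ≤ (n.choose k) ^ 6 * (4 ^ k * (n.choose k * (n.choose k * T ^ 8))) := by gcongr
      _ = 4 ^ k * (n.choose k * T) ^ 8 := by ring
      _ = 4 ^ k * (n.factorial ^ 8 * ((k + l).choose l) ^ 8) := by rw [hT, h5, mul_pow]
      _ ≤ 4 ^ k * (n.factorial ^ 8 * 2 ^ (4 * k)) := by gcongr
      _ = (2 ^ k) ^ 6 * n.factorial ^ 8 := by
          rw [show (4 : ℕ) = 2 ^ 2 by norm_num, ← pow_mul, ← pow_mul]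
          rw [show k * 6 = 2 * k + 2 ^ 2 * k by ring, pow_add]
          ring
      _ ≤ (n.choose k) ^ 6 * n.factorial ^ 8 := by gcongr
  exact Nat.le_of_mul_le_mul_left h6 (pow_pos h3 6)

/-- permutations mapping `A` into `B` -/
private noncomputable def expA_T {V : Type} [Fintype V] [DecidableEq V] (A B : Finset V) :
    Finset (Equiv.Perm V) :=
  univ.filter fun σ : Equiv.Perm V => ∀ v ∈ A, σ v ∈ B

/-- tuples bad for some set with `i + 1` elements -/
private noncomputable def expA_bad (V : Type) [Fintype V] [DecidableEq V] (i : ℕ) :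
    Finset (Fin 8 → Equiv.Perm V) :=
  (powersetCard (i + 1) (univ : Finset V)).biUnion fun A =>
    (powersetCard (i / 16) (univ \ A)).biUnion fun C =>
      Fintype.piFinset fun _ : Fin 8 => expA_T A (A ∪ C)

private theorem expA_card_bad (V : Type) [Fintype V] [DecidableEq V] (i : ℕ)
    (hi : 2 * (i + 1) ≤ Fintype.card V) :
    4 ^ (i + 1) * (expA_bad V i).card ≤ (Fintype.card V).factorial ^ 8 := by
  set n := Fintype.card V with hn
  set l := i / 16 with hl
  have hl16 : 16 * l < i + 1 := by omega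
  -- the number of permutations
  have h3 : 0 < n.choose (i + 1) := Nat.choose_pos (by omega)
  have key : ∀ A ∈ powersetCard (i + 1) (univ : Finset V), ∀ C ∈ powersetCard l (univ \ A),
      n.choose (i + 1) * (expA_T A (A ∪ C)).card = n.factorial * (i + 1 + l).choose (i + 1) := by
    intro A hA C hC
    have hA1 := (mem_powersetCard.1 hA).2
    obtain ⟨hC0, hC1⟩ := mem_powersetCard.1 hC
    have hd : Disjoint A C := by
      rw [Finset.disjoint_left]
      intro v hv hv'
      exact (mem_sdiff.1 (hC0 hv')).2 hv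
    have h := card_perm_map A (A ∪ C)
    rw [Finset.card_union_of_disjoint hd, hA1, hC1] at h
    exact h
  by_cases hne : ∃ A ∈ powersetCard (i + 1) (univ : Finset V), ∃ C ∈ powersetCard l (univ \ A), True
  swap
  · have h0 : expA_bad V i = ∅ := by
      rw [Finset.eq_empty_iff_forall_notMem]
      intro σ hσ
      simp only [expA_bad, mem_biUnion] at hσ
      obtain ⟨A, hA, C, hC, _⟩ := hσ
      exact hne ⟨A, hA, C, hC, trivial⟩
    rw [h0]
    simp
  obtain ⟨A0, hA0, C0, hC0, _⟩ := hne
  set T := (expA_T A0 (A0 ∪ C0)).card with hTdef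
  have hT := key A0 hA0 C0 hC0
  have hcT : ∀ A ∈ powersetCard (i + 1) (univ : Finset V), ∀ C ∈ powersetCard l (univ \ A),
      (expA_T A (A ∪ C)).card = T := by
    intro A hA C hC
    have h1 := (key A hA C hC).trans hT.symm
    exact Nat.eq_of_mul_eq_mul_left h3 h1
  have h1 : (expA_bad V i).card ≤ n.choose (i + 1) * ((n - (i + 1)).choose l * T ^ 8) := by
    calc (expA_bad V i).card
        ≤ ∑ A ∈ powersetCard (i + 1) (univ : Finset V),
            ((powersetCard l (univ \ A)).biUnion fun C =>
              Fintype.piFinset fun _ : Fin 8 => expA_T A (A ∪ C)).card := card_biUnion_le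
      _ ≤ ∑ A ∈ powersetCard (i + 1) (univ : Finset V), (n - (i + 1)).choose l * T ^ 8 := by
          refine sum_le_sum fun A hA => ?_
          refine card_biUnion_le.trans ?_
          rw [sum_congr rfl fun C hC => show
            (Fintype.piFinset fun _ : Fin 8 => expA_T A (A ∪ C)).card = T ^ 8 by
              rw [Fintype.card_piFinset_const, hcT A hA C hC]]
          rw [sum_const, smul_eq_mul, card_powersetCard, card_univ_sdiff, (mem_powersetCard.1 hA).2]
      _ = n.choose (i + 1) * ((n - (i + 1)).choose l * T ^ 8) := by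
          rw [sum_const, card_powersetCard, card_univ, smul_eq_mul]
  refine (Nat.mul_le_mul_left _ h1).trans ?_
  exact expA_est n (i + 1) l T hl16 hi hT

private theorem expA_geom (m : ℕ) : ∑ i ∈ range m, ((1 : ℚ) / 4) ^ (i + 1) < 1 := by
  have h : ∑ i ∈ range m, ((1 : ℚ) / 4) ^ (i + 1) = (1 - (1 / 4) ^ m) / 3 := by
    induction m with
    | zero => simp
    | succ m ih =>
      rw [sum_range_succ, ih]
      ring
  rw [h]
  have : (0 : ℚ) < (1 / 4) ^ m := by positivity
  linarith

private theorem expA_good (V : Type) [Fintype V] [DecidableEq V] :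
    ∃ σ : Fin 8 → Equiv.Perm V, ∀ i, 2 * (i + 1) ≤ Fintype.card V → σ ∉ expA_bad V i := by
  by_contra hcon
  push Not at hcon
  set n := Fintype.card V with hn
  have h1 : (univ : Finset (Fin 8 → Equiv.Perm V)) ⊆ (range (n / 2)).biUnion (expA_bad V) := by
    intro σ _
    obtain ⟨i, hi, hσ⟩ := hcon σ
    exact mem_biUnion.2 ⟨i, mem_range.2 (by omega), hσ⟩
  have h2 : n.factorial ^ 8 ≤ ∑ i ∈ range (n / 2), (expA_bad V i).card := by
    refine le_trans (le_of_eq ?_) ((card_le_card h1).trans card_biUnion_le)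
    rw [card_univ, Fintype.card_fun, Fintype.card_perm, Fintype.card_fin]
  have h3 : (n.factorial ^ 8 : ℚ) ≤
      ∑ i ∈ range (n / 2), (n.factorial ^ 8 : ℚ) * (1 / 4) ^ (i + 1) := by
    have h4 : ((n.factorial ^ 8 : ℕ) : ℚ) ≤ ((∑ i ∈ range (n / 2), (expA_bad V i).card : ℕ) : ℚ) :=
      Nat.cast_le.2 h2
    rw [Nat.cast_sum] at h4
    push_cast at h4
    refine h4.trans (sum_le_sum fun i hi => ?_)
    have h5 := expA_card_bad V i (by have := mem_range.1 hi; omega)
    have h6 : ((4 ^ (i + 1) * (expA_bad V i).card : ℕ) : ℚ) ≤ ((n.factorial ^ 8 : ℕ) : ℚ) :=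
      Nat.cast_le.2 h5
    push_cast at h6
    have h7 : (0 : ℚ) < 4 ^ (i + 1) := by positivity
    rw [one_div, inv_pow, ← div_eq_mul_inv, le_div_iff₀ h7, mul_comm]
    exact h6
  rw [← mul_sum] at h3
  have h8 := expA_geom (n / 2)
  have h9 : (0 : ℚ) < (n.factorial ^ 8 : ℚ) := by
    have := n.factorial_pos
    positivity
  nlinarith

/-- **expanders exist** -/
theorem exists_expander (V : Type) [Fintype V] [DecidableEq V] :
    ∃ (E' : Type) (_ : Fintype E') (_ : DecidableEq E') (X : Gph V E'),
      X.NoLoop ∧ X.Deg 16 ∧ Expd X 16 ∧ Fintype.card E' ≤ 8 * Fintype.card V := by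
  obtain ⟨σ, hσ⟩ := expA_good V
  let E' : Type := {p : V × Fin 8 // σ p.2 p.1 ≠ p.1}
  let X : Gph V E' := ⟨fun p => p.1.1, fun p => σ p.1.2 p.1.1⟩
  refine ⟨E', inferInstance, inferInstance, X, ?_, ?_, ?_, ?_⟩
  · intro p h
    exact p.2 h.symm
  · intro v
    have h1 : X.star v ⊆ (univ.filter fun e : E' => X.src e = v) ∪
        (univ.filter fun e : E' => X.tgt e = v) := by
      intro e he
      rcases (mem_filter.1 he).2 with h | h
      · exact mem_union_left _ (mem_filter.2 ⟨mem_univ _, h⟩)
      · exact mem_union_right _ (mem_filter.2 ⟨mem_univ _, h⟩)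
    have h2 : (univ.filter fun e : E' => X.src e = v).card ≤ 8 := by
      have h := card_le_card_of_injOn (s := univ.filter fun e : E' => X.src e = v)
        (t := (univ : Finset (Fin 8))) (fun e => e.1.2) (fun _ _ => mem_coe.2 (mem_univ _)) (by
          intro e he f hf hef
          have he' : e.1.1 = v := (mem_filter.1 (mem_coe.1 he)).2
          have hf' : f.1.1 = v := (mem_filter.1 (mem_coe.1 hf)).2
          exact Subtype.ext (Prod.ext (he'.trans hf'.symm) hef))
      simpa using h
    have h3 : (univ.filter fun e : E' => X.tgt e = v).card ≤ 8 := by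
      have h := card_le_card_of_injOn (s := univ.filter fun e : E' => X.tgt e = v)
        (t := (univ : Finset (Fin 8))) (fun e => e.1.2) (fun _ _ => mem_coe.2 (mem_univ _)) (by
          intro e he f hf hef
          have he' : σ e.1.2 e.1.1 = v := (mem_filter.1 (mem_coe.1 he)).2
          have hf' : σ f.1.2 f.1.1 = v := (mem_filter.1 (mem_coe.1 hf)).2
          have hef' : e.1.2 = f.1.2 := hef
          rw [← hef'] at hf'
          exact Subtype.ext (Prod.ext ((σ e.1.2).injective (he'.trans hf'.symm)) hef))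
      simpa using h
    refine (card_le_card h1).trans ((card_union_le _ _).trans ?_)
    omega
  · intro A hA
    by_contra hlt
    push Not at hlt
    obtain ⟨i, hi⟩ : ∃ i, A.card = i + 1 := ⟨A.card - 1, by omega⟩
    apply hσ i (by omega)
    -- the set of new targets
    set B' : Finset V := (cut X A).image X.tgt \ A with hB'
    have hB1 : B'.card ≤ i / 16 := by
      have h1 : B'.card ≤ (cut X A).card :=
        (card_le_card sdiff_subset).trans card_image_le
      omega
    have hB2 : B' ⊆ univ \ A := by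
      intro v hv
      exact mem_sdiff.2 ⟨mem_univ _, (mem_sdiff.1 hv).2⟩
    have hB3 : i / 16 ≤ (univ \ A).card := by
      rw [card_univ_sdiff]
      omega
    obtain ⟨C, hC1, hC2, hC3⟩ := exists_subsuperset_card_eq hB2 hB1 hB3
    refine mem_biUnion.2 ⟨A, mem_powersetCard.2 ⟨subset_univ _, hi⟩, mem_biUnion.2
      ⟨C, mem_powersetCard.2 ⟨hC2, hC3⟩, ?_⟩⟩
    rw [Fintype.mem_piFinset]
    intro j
    refine mem_filter.2 ⟨mem_univ _, fun v hv => ?_⟩
    by_cases h : σ j v ∈ A
    · exact mem_union_left _ h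
    · refine mem_union_right _ (hC1 (mem_sdiff.2 ⟨?_, h⟩))
      have hne : σ j v ≠ v := fun h' => h (by rw [h']; exact hv)
      refine mem_image.2 ⟨⟨(v, j), hne⟩, ?_, rfl⟩
      simp only [cut, mem_filter, mem_univ, true_and]
      intro h'
      exact h (h'.1 hv)
  · have h := Fintype.card_subtype_le fun p : V × Fin 8 => σ p.2 p.1 ≠ p.1
    have h2 : Fintype.card (V × Fin 8) = 8 * Fintype.card V := by
      rw [Fintype.card_prod, Fintype.card_fin, mul_comm]
    rw [h2] at h
    exact h

end FrT
end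

section

/-!
Detours in the tall graph.

PROOF of `tall_det`.  Let `ℓ = |L|`.  Write `c (e, l)` for `c (inl (e, l))` (horizontal edges) and
`c (v, i)` for `c (inr (v, i))` (vertical edges, from `(v, i)` to `(v, i + 1)`).

(1) Pigeonhole: there is a layer `l0 : Fin (Q + 1)` such that `B = {e | inl (e, l0) ∈ L}` satisfies
`(Q + 1) |B| ≤ ℓ` (the sum over `l` of the number of `e` with `inl (e, l) ∈ L` is at most `ℓ`).
(2) Let `f e = ∑_l c (e, l)` (sum over all layers).  `G.bd f = 0`: `G.bd f v = ∑_l (G.tall Q).bd c (v, l)`,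
as in this sum each vertical edge over `v` occurs twice (once for each endpoint).  `f = 0` on `G.inc U`
(for `e ∈ G.inc U` all copies are in `incT G Q U`).
(3) By `hbase` there is `f'` with `bd f' = 0`, `f' = 0` on `G.inc U`, `f' = f` on `B`,
`|bsV G f'| ≤ K3 |B| ≤ (Q + 1) |B| ≤ ℓ`.
(4) For a chain `g` of `G` let `g@l0` be the chain with `(g@l0) (e, l0) = g e`, all other values `0`; if
`G.bd g = 0` then `(G.tall Q).bd (g@l0) = 0`.  Let `c1 = c + f@l0`.  It is closed, has zero flow:
`∑_l c1 (e, l) = f e + f e = 0` for all `e`, and vanishes on `incT G Q U`.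
(5) For an edge `e` of `G` let
`F e = ∑_l c1 (e, l) • (Pi.single (inl (e, l)) 1 + col (G.src e) l + col (G.tgt e) l)`.
Its boundary is zero: `(G.tall Q).bd (col v l) = pt (v, 0) + pt (v, l)`, so the boundary is
`(∑_l c1 (e, l)) • (pt (src e, 0) + pt (tgt e, 0)) = 0`.  We have `c1 = ∑_e F e`: both sides agree on
all horizontal edges; the difference is a closed chain with vertical edges only, and such a chain is
zero (in the fiber over `v`: the boundary at `(v, 0)` gives that the value on `(v, 0)` is `0`, then the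
boundary at `(v, 1)` gives the value on `(v, 1)` is zero, and so on; for `Q = 0` there is
nothing to show).
(6) Let `T` be the set of all edges `e` of `G` with an endpoint in `plc G Q L`, and
`c' = f'@l0 + ∑_(e ∈ T) F e`.
Closed: yes.  Zero on `incT G Q U`: `f' = 0` on `G.inc U`; for `e ∈ G.inc U` we have `c1 (e, l) = 0` for all
`l`, so `F e = 0`; for `e ∉ G.inc U` `F e` lives on copies of `e` and vertical edges over `src e`,
`tgt e`, which are not in `U`.
Equal to `c` on `L`: a horizontal edge `inl (e, l) ∈ L` has `e ∈ T`, so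
`c' (e, l) = (f'@l0) (e, l) + c1 (e, l) = c (e, l) + (f@l0) (e, l) + (f'@l0) (e, l)`, and the last two terms
cancel: for `l ≠ l0` both are zero, for `l = l0` we have `e ∈ B`, `f e = f' e`.
A vertical edge `inr (v, i) ∈ L`: `v ∈ plc G Q L`, all edges `e` with `F e (v, i) ≠ 0` have the endpoint
`v`, so are in `T`; thus `c' (v, i) = ∑_e F e (v, i) = c1 (v, i) = c (v, i)`.
Small: `bsT G c'` is contained in `bsV G f'` together with the endpoints of the edges in `T`, and these
endpoints are in `G.nbh (plc G Q L)`; `|G.nbh S| ≤ (1 + Δ) |S|` (`FrC.card_nbh`),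
`|plc G Q L| ≤ 2 ℓ` (`FrC.card_plc`).  Total: `ℓ + 2 (1 + Δ) ℓ = (2 Δ + 3) ℓ`.

`detour_of_clo`: take `cl := Cl.cl`; `det` is `tall_det` with `hbase` from `base_det`.
-/

set_option linter.unusedSectionVars false

namespace FrT

open Finset Fr56 FrC FrG
open scoped Classical

section
variable {V E : Type} [Fintype V] [Fintype E] [DecidableEq V] [DecidableEq E]

/-- a chain of `G`, placed in the layer `l0` -/
private def at0 {V E : Type} {Q : ℕ} (l0 : Fin (Q + 1)) (y : E → ZMod 2) : TE V E Q → ZMod 2
  | .inl p => if p.2 = l0 then y p.1 else 0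
  | .inr _ => 0

private theorem bd_at0 (G : Gph V E) {Q : ℕ} (l0 : Fin (Q + 1)) (y : E → ZMod 2) (p : TV V Q) :
    (G.tall Q).bd (at0 l0 y) p = if p.2 = l0 then G.bd y p.1 else 0 := by
  obtain ⟨v, j⟩ := p
  unfold Gph.bd
  rw [Fintype.sum_sum_type]
  have h2 : (∑ x : V × Fin Q,
      ((if (G.tall Q).src (Sum.inr x) = (v, j) then at0 l0 y (Sum.inr x : TE V E Q) else 0) +
      (if (G.tall Q).tgt (Sum.inr x) = (v, j) then at0 l0 y (Sum.inr x : TE V E Q) else 0))) =
      0 := by
    refine Finset.sum_eq_zero fun x _ => ?_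
    simp [at0]
  rw [h2, add_zero, Fintype.sum_prod_type]
  simp only [Gph.tall, at0, Prod.mk.injEq]
  by_cases hj : j = l0
  · subst hj
    rw [if_pos rfl]
    refine Finset.sum_congr rfl fun e _ => ?_
    rw [Finset.sum_eq_single j]
    · simp
    · intro b _ hb
      simp [hb]
    · simp
  · rw [if_neg hj]
    refine Finset.sum_eq_zero fun e _ => Finset.sum_eq_zero fun b _ => ?_
    by_cases hb : b = l0
    · subst hb
      simp [Ne.symm hj]
    · simp [hb]

/-- the sum over the layers is closed -/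
private theorem bd_flow (G : Gph V E) {Q : ℕ} (c : TE V E Q → ZMod 2)
    (hc : (G.tall Q).bd c = 0) : G.bd (fun e => ∑ l : Fin (Q + 1), c (Sum.inl (e, l))) = 0 := by
  funext v
  have h1 : ∑ l : Fin (Q + 1), (G.tall Q).bd c (v, l) = 0 := by
    refine Finset.sum_eq_zero fun l _ => ?_
    rw [hc]
    rfl
  rw [Pi.zero_apply, ← h1]
  unfold Gph.bd
  rw [Finset.sum_comm, Fintype.sum_sum_type]
  have h2 : ∑ x : V × Fin Q, ∑ l : Fin (Q + 1),
      ((if (G.tall Q).src (Sum.inr x) = (v, l) then c (Sum.inr x) else 0) +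
      (if (G.tall Q).tgt (Sum.inr x) = (v, l) then c (Sum.inr x) else 0)) = 0 := by
    refine Finset.sum_eq_zero fun x _ => ?_
    obtain ⟨u, i⟩ := x
    rw [Finset.sum_add_distrib]
    simp only [Gph.tall, Prod.mk.injEq]
    by_cases hu : u = v
    · simp only [hu, true_and, Finset.sum_ite_eq, Finset.mem_univ, if_true]
      exact CharTwo.add_self_eq_zero _
    · simp [hu]
  rw [h2, add_zero, Fintype.sum_prod_type]
  refine Finset.sum_congr rfl fun e _ => ?_
  rw [Finset.sum_comm]
  have h3 : ∀ l : Fin (Q + 1), ∑ l' : Fin (Q + 1),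
      ((if (G.tall Q).src (Sum.inl (e, l')) = (v, l) then c (Sum.inl (e, l')) else 0) +
      (if (G.tall Q).tgt (Sum.inl (e, l')) = (v, l) then c (Sum.inl (e, l')) else 0)) =
      (if G.src e = v then c (Sum.inl (e, l)) else 0) +
        (if G.tgt e = v then c (Sum.inl (e, l)) else 0) := by
    intro l
    simp only [Gph.tall, Prod.mk.injEq]
    rw [Finset.sum_eq_single l]
    · simp
    · intro b _ hb
      simp [hb]
    · simp
  rw [Finset.sum_congr rfl fun l _ => h3 l, Finset.sum_add_distrib]
  congr 1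
  · by_cases h : G.src e = v <;> simp [h]
  · by_cases h : G.tgt e = v <;> simp [h]

/-- some layer contains few edges of `L` -/
private theorem layer {Q : ℕ} (L : Finset (TE V E Q)) : ∃ l0 : Fin (Q + 1),
    (Q + 1) * (univ.filter fun e : E => (Sum.inl (e, l0) : TE V E Q) ∈ L).card ≤ L.card := by
  by_contra hcon
  push Not at hcon
  have h1 : ∑ l : Fin (Q + 1), (univ.filter fun e : E => (Sum.inl (e, l) : TE V E Q) ∈ L).card ≤
      L.card := by
    have h2 : ∑ l : Fin (Q + 1), (univ.filter fun e : E => (Sum.inl (e, l) : TE V E Q) ∈ L).card =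
        (univ.filter fun p : E × Fin (Q + 1) => (Sum.inl p : TE V E Q) ∈ L).card := by
      simp only [Finset.card_filter]
      rw [Fintype.sum_prod_type, Finset.sum_comm]
    rw [h2]
    refine Finset.card_le_card_of_injOn Sum.inl ?_ (fun _ _ _ _ h => Sum.inl_injective h)
    intro p hp
    exact (Finset.mem_filter.1 hp).2
  have h3 : ∑ _l : Fin (Q + 1), L.card < ∑ l : Fin (Q + 1),
      (Q + 1) * (univ.filter fun e : E => (Sum.inl (e, l) : TE V E Q) ∈ L).card :=
    Finset.sum_lt_sum_of_nonempty ⟨0, Finset.mem_univ _⟩ fun l _ => hcon l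
  rw [← Finset.mul_sum, Finset.sum_const, Finset.card_univ, Fintype.card_fin, smul_eq_mul] at h3
  exact absurd (Nat.lt_of_mul_lt_mul_left h3) (not_lt.2 h1)

/-- **detours in the tall graph** -/
theorem tall_det {G : Gph V E} {Δ Q K3 : ℕ} (hdeg : G.Deg Δ) {U : Finset V}
    (hbase : ∀ f : E → ZMod 2, G.bd f = 0 → (∀ e ∈ G.inc U, f e = 0) → ∀ Bs : Finset E,
      ∃ f' : E → ZMod 2, G.bd f' = 0 ∧ (∀ e ∈ G.inc U, f' e = 0) ∧ (∀ e ∈ Bs, f' e = f e) ∧
        (bsV G f').card ≤ K3 * Bs.card)
    (hQ : K3 ≤ Q + 1) (L : Finset (TE V E Q)) (hL : ∀ e ∈ L, e ∉ incT G Q U)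
    (c : TE V E Q → ZMod 2) (hc : (G.tall Q).bd c = 0) (hcU : ∀ e ∈ incT G Q U, c e = 0) :
    ∃ c' : TE V E Q → ZMod 2, (G.tall Q).bd c' = 0 ∧ (∀ e ∈ incT G Q U, c' e = 0) ∧
      (∀ e ∈ L, c' e = c e) ∧ (bsT G c').card ≤ (2 * Δ + 3) * L.card := by
  obtain ⟨l0, hl0⟩ := layer L
  obtain ⟨f, hf⟩ : ∃ f : E → ZMod 2, f = fun e => ∑ l : Fin (Q + 1), c (Sum.inl (e, l)) := ⟨_, rfl⟩
  have hfbd : G.bd f = 0 := by
    rw [hf]
    exact bd_flow G c hc
  have hfU : ∀ e ∈ G.inc U, f e = 0 := by
    intro e he
    rw [hf]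
    exact Finset.sum_eq_zero fun l _ => hcU _ ((inl_mem_incT G).2 he)
  obtain ⟨f', hf'bd, hf'U, hf'B, hf'c⟩ := hbase f hfbd hfU
    (univ.filter fun e : E => (Sum.inl (e, l0) : TE V E Q) ∈ L)
  obtain ⟨S, hS⟩ : ∃ S : Finset (FI E Q), S = univ.filter fun s : FI E Q =>
      s.2.2 = l0 ∧ c (Sum.inl (s.1, s.2.1)) ≠ 0 := ⟨_, rfl⟩
  obtain ⟨ST, hST⟩ : ∃ ST : Finset (FI E Q), ST = S.filter fun s => s.1 ∈ G.inc (plc G Q L) :=
    ⟨_, rfl⟩
  have hmemST : ∀ s ∈ ST, s.2.2 = l0 ∧ c (Sum.inl (s.1, s.2.1)) ≠ 0 ∧ s.1 ∈ G.inc (plc G Q L) := by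
    intro s hs
    rw [hST, Finset.mem_filter, hS, Finset.mem_filter] at hs
    exact ⟨hs.1.2.1, hs.1.2.2, hs.2⟩
  have hsum : ∀ x ∈ L, ∑ s ∈ S, Fch G s.1 s.2.1 s.2.2 x = Fs G ST x := by
    intro x hx
    unfold Fs
    rw [Finset.sum_apply]
    symm
    rw [hST]
    refine Finset.sum_subset (Finset.filter_subset _ _) ?_
    intro s hs hns
    by_contra hne
    apply hns
    rw [Finset.mem_filter]
    refine ⟨hs, ?_⟩
    have h1 := (Fch_supp G s.1 s.2.1 s.2.2 x hne).1
    have h2 := mem_plc_src G hx
    rcases h1 with h | h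
    · left
      rw [← h]
      exact h2
    · right
      rw [← h]
      exact h2
  refine ⟨at0 l0 f' + Fs G ST, ?_, ?_, ?_, ?_⟩
  · rw [Gph.bd_add, bd_Fs, add_zero]
    funext p
    rw [bd_at0, hf'bd]
    simp
  · intro x hx
    rw [Pi.add_apply, Fs_eq_zero G ST U (fun s hs hinc =>
      (hmemST s hs).2.1 (hcU _ ((inl_mem_incT G).2 hinc))) x hx, add_zero]
    rcases x with ⟨e, l⟩ | x
    · simp only [at0]
      split_ifs
      · exact hf'U e ((inl_mem_incT G).1 hx)
      · rfl
    · rfl
  · intro x hx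
    rw [Pi.add_apply, ← hsum x hx]
    by_cases hx0 : ∀ e, x ≠ Sum.inl (e, l0)
    · rw [hS, ← closed_eq_sum G c hc l0 x hx0]
      have h1 : at0 l0 f' x = 0 := by
        rcases x with ⟨e, l⟩ | x
        · simp only [at0]
          rw [if_neg]
          rintro rfl
          exact hx0 e rfl
        · rfl
      rw [h1, zero_add]
    · push Not at hx0
      obtain ⟨e, rfl⟩ := hx0
      have h1 : f' e = f e := hf'B e (by
        rw [Finset.mem_filter]
        exact ⟨Finset.mem_univ _, hx⟩)
      have h2 : ∑ s ∈ S, Fch G s.1 s.2.1 s.2.2 (Sum.inl (e, l0) : TE V E Q) =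
          f e + c (Sum.inl (e, l0)) := by
        have h3 : ∑ s ∈ S, Fch G s.1 s.2.1 s.2.2 (Sum.inl (e, l0) : TE V E Q) =
            ∑ s : FI E Q, if s.1 = e ∧ s.2.2 = l0 then
              c (Sum.inl (e, s.2.1)) * ((if s.2.1 = l0 then 1 else 0) + 1) else 0 := by
          rw [hS, Finset.sum_filter]
          refine Finset.sum_congr rfl fun s _ => ?_
          obtain ⟨e', l, l'⟩ := s
          simp only [Fch, Pi.add_apply, col, add_zero, Pi.single_apply, Sum.inl.injEq,
            Prod.mk.injEq]
          by_cases he : e' = e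
          · subst he
            by_cases hl' : l' = l0
            · subst hl'
              by_cases hl : l = l'
              · subst hl
                simp only [true_and, and_self, if_true]
                have h4 : (1 : ZMod 2) + 1 = 0 := by decide
                rw [h4, mul_zero, ite_self]
              · have hl2 : ¬ l' = l := fun h => hl h.symm
                simp only [hl, hl2, true_and, and_self, if_true, if_false, zero_add, mul_one]
                have h5 : ∀ b : ZMod 2, (if b ≠ 0 then (1 : ZMod 2) else 0) = b := by decide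
                exact h5 _
            · simp [hl']
          · have he2 : ¬ e = e' := fun h => he h.symm
            simp [he, he2]
        rw [h3, Fintype.sum_prod_type, Finset.sum_eq_single e]
        · rw [Fintype.sum_prod_type]
          have h6 : ∀ l : Fin (Q + 1), ∑ l' : Fin (Q + 1), (if e = e ∧ l' = l0 then
              c (Sum.inl (e, l)) * ((if l = l0 then 1 else 0) + 1) else 0) =
              (if l = l0 then c (Sum.inl (e, l)) else 0) + c (Sum.inl (e, l)) := by
            intro l
            rw [Finset.sum_eq_single l0]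
            · simp only [and_self, if_true]
              split_ifs <;> ring
            · intro b _ hb
              simp [hb]
            · simp
          rw [Finset.sum_congr rfl fun l _ => h6 l, Finset.sum_add_distrib,
            Finset.sum_ite_eq' univ l0, if_pos (Finset.mem_univ _), add_comm, hf]
        · intro b _ hb
          refine Finset.sum_eq_zero fun s _ => ?_
          rw [if_neg]
          rintro ⟨h, _⟩
          exact hb h
        · intro h
          exact absurd (Finset.mem_univ _) h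
      rw [h2]
      simp only [at0, if_true]
      rw [h1, ← add_assoc, CharTwo.add_self_eq_zero, zero_add]
  · have hsub : bsT G (at0 l0 f' + Fs G ST) ⊆ bsV G f' ∪ G.nbh (plc G Q L) := by
      intro v hv
      unfold bsT plc at hv
      rw [Finset.mem_biUnion] at hv
      obtain ⟨x, hx, hvx⟩ := hv
      rw [Finset.mem_filter] at hx
      rw [Finset.mem_insert, Finset.mem_singleton] at hvx
      rw [Finset.mem_union]
      by_cases h1 : at0 l0 f' x = 0
      · right
        have h2 : Fs G ST x ≠ 0 := by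
          intro h3
          apply hx.2
          rw [Pi.add_apply, h1, h3, add_zero]
        obtain ⟨s, hs, h4, h5⟩ := Fs_supp G ST x h2
        have h6 := (hmemST s hs).2.2
        have h7 : v = G.src s.1 ∨ v = G.tgt s.1 := by
          rcases hvx with h | h
          · rcases h4 with h8 | h8
            · exact Or.inl (h.trans h8)
            · exact Or.inr (h.trans h8)
          · rcases h5 with h8 | h8
            · exact Or.inl (h.trans h8)
            · exact Or.inr (h.trans h8)
        rw [mem_nbh']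
        rcases h7 with h | h <;> rcases h6 with h8 | h8
        · left
          rw [h]
          exact h8
        · right
          exact ⟨s.1, Or.inl ⟨h.symm, h8⟩⟩
        · right
          exact ⟨s.1, Or.inr ⟨h.symm, h8⟩⟩
        · left
          rw [h]
          exact h8
      · left
        rcases x with ⟨e, l⟩ | x
        · simp only [at0] at h1
          split_ifs at h1 with h2
          · simp only [bsV, Finset.mem_filter, Finset.mem_univ, true_and]
            refine ⟨e, h1, ?_⟩
            rcases hvx with h | h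
            · exact Or.inl h.symm
            · exact Or.inr h.symm
          · exact absurd rfl h1
        · exact absurd rfl h1
    have h1 := Finset.card_le_card hsub
    have h2 := Finset.card_union_le (bsV G f') (G.nbh (plc G Q L))
    have h3 := card_nbh G hdeg (plc G Q L)
    have h4 := card_plc G L
    have h5 : K3 * (univ.filter fun e : E => (Sum.inl (e, l0) : TE V E Q) ∈ L).card ≤ L.card :=
      (Nat.mul_le_mul_right _ hQ).trans hl0
    have h6 : (1 + Δ) * (plc G Q L).card ≤ (1 + Δ) * (2 * L.card) := Nat.mul_le_mul_left _ h4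
    have h7 : (2 * Δ + 3) * L.card = L.card + (1 + Δ) * (2 * L.card) := by ring
    rw [h7]
    omega

/-- the detour structure of an expanding graph -/
theorem detour_of_clo {G : Gph V E} {Δ Q K H m : ℕ} (hdeg : G.Deg Δ) (Cl : Clo G K H m)
    (hQ : Kd H Δ (Fintype.card V) ≤ Q + 1) : Nonempty (Detour G Q K (2 * Δ + 3) m) :=
  ⟨{ cl := Cl.cl
     ext := Cl.ext
     mono := Cl.mono
     idem := Cl.idem
     empty := Cl.empty
     card := Cl.card
     det := fun _ hU L hL c hc hcU => tall_det hdeg
      (fun f hf hf0 Bs => base_det hdeg Cl hU f hf hf0 Bs) hQ L hL c hc hcU }⟩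

end

end FrT
end
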