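import Pool.Agent.Lib.MP_51bb46_lc.T.StepT
import Pool.Agent.Lib.MP_51bb46_lc.T.TallD
import Pool.Agent.Lib.MP_51bb46_lc.T.NumT

/-!
Graphs for the iterated switching step.
-/

set_option linter.unusedSectionVars false

namespace FrT

open Finset Fr56 FrC FrG
open scoped Classical

/-- degrees -/
def dgT : ℕ → ℕ
  | 0 => 16
  | j + 1 => 2 * (dgT j + 2) + 16

theorem card_E_le {V E : Type} [Fintype V] [Fintype E] [DecidableEq V] {G : Gph V E} {Δ : ℕ}
    (h : G.Deg Δ) : Fintype.card E ≤ Δ * Fintype.card V := by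
  have h1 : (univ : Finset E) ⊆ (univ : Finset V).biUnion fun v => G.star v := by
    intro e _
    rw [Finset.mem_biUnion]
    refine ⟨G.src e, Finset.mem_univ _, ?_⟩
    unfold Gph.star
    rw [Finset.mem_filter]
    exact ⟨Finset.mem_univ _, Or.inl rfl⟩
  have h2 := (Finset.card_le_card h1).trans (Finset.card_biUnion_le_card_mul _ _ Δ fun v _ => h v)
  rw [Finset.card_univ, Finset.card_univ, mul_comm] at h2
  exact h2

/-- vertices of the blow-up -/
theorem blow_card_le {V E : Type} [Fintype V] [Fintype E] [DecidableEq V] [DecidableEq E]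
    {G : Gph V E} {Δ s e D : ℕ} (h : G.Deg Δ) (hs : Δ + 10 ≤ s) (hD : D ≤ s)
    (hD2 : 2 ^ D ≤ 2 * s ^ (e + 1)) :
    Fintype.card (HV (TV V s) (TE V E s) D) ≤ Fintype.card V * s ^ (e + 5) := by
  have hTE : Fintype.card (TE V E s) = Fintype.card E * (s + 1) + Fintype.card V * s := by
    simp [TE]
  rw [card_HV, card_TV, hTE]
  have hE := card_E_le h
  obtain ⟨v, hv⟩ : ∃ v, v = Fintype.card V := ⟨_, rfl⟩
  rw [← hv] at hE ⊢
  have h1 : Fintype.card E * (s + 1) + v * s ≤ v * (Δ * (s + 1) + s) := by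
    calc Fintype.card E * (s + 1) + v * s ≤ (Δ * v) * (s + 1) + v * s := by gcongr
      _ = v * (Δ * (s + 1) + s) := by ring
  have h2 : (s + 1) + (Δ * (s + 1) + s) * s ≤ s ^ 3 := by
    obtain ⟨t, rfl⟩ : ∃ t, s = Δ + 10 + t := ⟨s - (Δ + 10), by omega⟩
    nlinarith [Nat.zero_le Δ, Nat.zero_le t, Nat.zero_le (Δ * t), Nat.zero_le (Δ * Δ),
      Nat.zero_le (t * t), Nat.zero_le (Δ * t * t), Nat.zero_le (Δ * Δ * t), Nat.zero_le (t * t * t),
      Nat.zero_le (Δ * Δ * Δ)]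
  calc v * (s + 1) * 2 ^ D + (Fintype.card E * (s + 1) + v * s) * (D * 2 ^ D)
      ≤ v * (s + 1) * 2 ^ D + (v * (Δ * (s + 1) + s)) * (s * 2 ^ D) := by gcongr
    _ = v * 2 ^ D * ((s + 1) + (Δ * (s + 1) + s) * s) := by ring
    _ ≤ v * (2 * s ^ (e + 1)) * s ^ 3 := by gcongr
    _ ≤ v * (s * s ^ (e + 1)) * s ^ 3 := by
        gcongr
        omega
    _ = v * s ^ (e + 5) := by ring

theorem le_blow_card {V E : Type} [Fintype V] [Fintype E] [DecidableEq V] [DecidableEq E]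
    (s D : ℕ) : Fintype.card V * s ≤ Fintype.card (HV (TV V s) (TE V E s) D) := by
  rw [card_HV, card_TV]
  calc Fintype.card V * s ≤ Fintype.card V * (s + 1) * 1 := by
        rw [mul_one]; exact Nat.mul_le_mul_left _ (by omega)
    _ ≤ Fintype.card V * (s + 1) * 2 ^ D := Nat.mul_le_mul_left _ Nat.one_le_two_pow
    _ ≤ _ := Nat.le_add_right _ _

/-- the depth of the blow-up -/
theorem exists_D {s e : ℕ} (hs : 1 ≤ s) (h : 1 * (Nat.log 2 (s ^ (e + 1)) + 1) ^ 2 ≤ s) :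
    ∃ D, 0 < D ∧ D ≤ s ∧ s ^ (e + 1) ≤ 2 ^ D ∧ 2 ^ D ≤ 2 * s ^ (e + 1) := by
  refine ⟨Nat.log 2 (s ^ (e + 1)) + 1, by omega, ?_, ?_, ?_⟩
  · refine le_trans ?_ h
    rw [one_mul, pow_two]
    exact Nat.le_mul_of_pos_left _ (by omega)
  · exact (Nat.lt_pow_succ_log_self (by norm_num) _).le
  · rw [pow_succ, mul_comm]
    exact Nat.mul_le_mul_left _ (Nat.pow_log_le_self 2 (Nat.pow_pos (by omega)).ne')

theorem Kd_le (H Δ n : ℕ) : Kd H Δ n ≤
    (16 * H + 2 + 4 * H * Δ + 4 * (1 + H * Δ) * (2 * H * Δ)) * (Nat.log 2 n + 1) ^ 2 := by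
  unfold Kd Ld
  obtain ⟨t, ht⟩ : ∃ t, t = Nat.log 2 n + 1 := ⟨_, rfl⟩
  have h1 : 1 ≤ t := by omega
  rw [← ht]
  have h2 : t ≤ t ^ 2 := by rw [pow_two]; exact Nat.le_mul_of_pos_left _ h1
  have h3 : 1 ≤ t ^ 2 := Nat.one_le_pow _ _ h1
  calc 16 * H + 2 + 4 * H * Δ + 4 * (1 + H * Δ) * (2 * H * Δ * t)
      = (16 * H + 2 + 4 * H * Δ) * 1 + 4 * (1 + H * Δ) * (2 * H * Δ) * t := by ring
    _ ≤ (16 * H + 2 + 4 * H * Δ) * t ^ 2 + 4 * (1 + H * Δ) * (2 * H * Δ) * t ^ 2 := by gcongr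
    _ = _ := by ring

/-- a graph for `j` switching steps -/
def HasLvl (j c g a N s : ℕ) : Prop :=
  ∃ (V E : Type) (_ : Fintype V) (_ : Fintype E) (_ : DecidableEq V) (_ : DecidableEq E)
    (G : Gph V E) (Fr : Frame G) (SF : SFrame Fr) (v0 : V)
    (_ : Detour G s (2 * 16 * dgT j) (2 * dgT j + 3) Fr.m),
    G.NoLoop ∧ G.Deg (dgT j) ∧ Fr.Free ∅ v0 ∧ Fintype.card V ≤ s ^ ((j + 1) * N + a) ∧
    SF.Γ.card + 1 ≤ 2 ^ s ∧ 256 * dgT j * Fr.m ≤ Fintype.card V ∧ s ^ (N + g) ≤ Fr.m ∧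
    KillsT Fr v0 j (s ^ (N + c)) s (s ^ N)

theorem lvl_zero (c g : ℕ) : ∀ N : ℕ, ∃ s0 : ℕ, ∀ s ≥ s0, HasLvl 0 c g (g + 2) N s := by
  intro N
  obtain ⟨s1, h1⟩ := log_sq_le (N + g + 2) 5121
  obtain ⟨s2, h2⟩ := log_sq_le (N + g + 2)
    (16 * (2 * 16) + 2 + 4 * (2 * 16) * 16 + 4 * (1 + (2 * 16) * 16) * (2 * (2 * 16) * 16))
  refine ⟨s1 + s2 + 4096, fun s hs => ?_⟩
  obtain ⟨n0, hn0⟩ : ∃ n0, n0 = s ^ (N + g + 2) := ⟨_, rfl⟩
  obtain ⟨m0, hm0⟩ : ∃ m0, m0 = s ^ (N + g + 1) := ⟨_, rfl⟩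
  have hm0pos : 0 < m0 := by rw [hm0]; exact Nat.pow_pos (by omega)
  have hnm : 4096 * m0 ≤ n0 := by
    rw [hn0, hm0, pow_succ s (N + g + 1), mul_comm (s ^ (N + g + 1)) s]
    exact Nat.mul_le_mul_right _ (by omega)
  obtain ⟨E', iE, dE, X, hXl, hXd, hXe, hXc⟩ := exists_expander (Fin n0)
  have hcard : Fintype.card (Fin n0) = n0 := Fintype.card_fin n0
  obtain ⟨Cl⟩ := exists_clo (m := m0) X hXd (by norm_num) (by norm_num) hXe
    (by rw [hcard]; omega)
  have hKm : 2 * 16 * 16 * m0 < Fintype.card (Fin n0) := by rw [hcard]; omega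
  have hl1 := h1 s (by omega) n0 (by rw [hn0])
  have hl2 := h2 s (by omega) n0 (by rw [hn0])
  obtain ⟨De⟩ := detour_of_clo (Q := s) hXd Cl (by
    rw [hcard]
    have := Kd_le (2 * 16) 16 n0
    omega)
  refine ⟨Fin n0, E', inferInstance, iE, inferInstance, dE, X, cloFrame hXd Cl hKm,
    cloSFrame hXd Cl hKm, ⟨0, by omega⟩, De, hXl, hXd, ?_, ?_, ?_, ?_, ?_, ?_⟩
  · show _ ∉ Cl.cl ∅
    rw [Cl.empty]
    exact Finset.notMem_empty _
  · rw [hcard, hn0]
    exact Nat.pow_le_pow_right (by omega) (by omega)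
  · have h3 : (cloSFrame hXd Cl hKm).Γ.card ≤
        (Fintype.card E' + 1) ^ (2 * Ld (2 * 16) 16 (Fintype.card (Fin n0))) := card_short _
    rw [hcard] at h3 hXc
    obtain ⟨t, ht⟩ : ∃ t, t = Nat.log 2 n0 + 1 := ⟨_, rfl⟩
    have ht1 : 1 ≤ t := by omega
    have h4 : n0 < 2 ^ t := by rw [ht]; exact Nat.lt_pow_succ_log_self (by norm_num) _
    have h5 : Fintype.card E' + 1 ≤ 2 ^ (t + 4) := by
      rw [pow_add]
      omega
    have h6 : 2 * Ld (2 * 16) 16 n0 = 1024 * t := by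
      unfold Ld
      rw [← ht]
      ring
    rw [h6] at h3
    rw [← ht] at hl1
    have h7 : (t + 4) * (1024 * t) + 1 ≤ s := by
      refine le_trans ?_ hl1
      nlinarith
    calc (cloSFrame hXd Cl hKm).Γ.card + 1 ≤ (Fintype.card E' + 1) ^ (1024 * t) + 1 := by omega
      _ ≤ (2 ^ (t + 4)) ^ (1024 * t) + 1 := by gcongr
      _ = 2 ^ ((t + 4) * (1024 * t)) + 1 := by rw [← pow_mul]
      _ ≤ 2 ^ ((t + 4) * (1024 * t)) + 2 ^ ((t + 4) * (1024 * t)) := by
          gcongr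
          exact Nat.one_le_two_pow
      _ = 2 ^ ((t + 4) * (1024 * t) + 1) := by rw [pow_succ]; ring
      _ ≤ 2 ^ s := Nat.pow_le_pow_right (by norm_num) h7
  · rw [hcard]
    show 256 * 16 * m0 ≤ n0
    omega
  · show s ^ (N + g) ≤ m0
    rw [hm0]
    exact Nat.pow_le_pow_right (by omega) (by omega)
  · refine kills_zeroT _ _ ?_ _ _ _ (by omega)
    show _ ∉ Cl.cl ∅
    rw [Cl.empty]
    exact Finset.notMem_empty _

/-- **graphs for the iterated switching step** -/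
theorem towersT (j : ℕ) : ∀ c g : ℕ, ∃ a : ℕ, ∀ N : ℕ, 2 ≤ N → ∃ s0 : ℕ, ∀ s ≥ s0,
    HasLvl j c g a N s := by
  induction j with
  | zero =>
    intro c g
    exact ⟨g + 2, fun N _ => lvl_zero c g N⟩
  | succ j ih =>
    intro c g
    obtain ⟨a, ha⟩ := ih (c + 1) (g + 2 * c + 8)
    refine ⟨a + c + 5, fun N hN => ?_⟩
    obtain ⟨s1, h1⟩ := ha N hN
    obtain ⟨s2, h2⟩ := log_sq_le (N + c + 1) 1
    obtain ⟨s3, h3⟩ := pow_lt_two_pow ((j + 1) * N + a)
    obtain ⟨s4, h4⟩ := log_sq_le ((j + 2) * N + (a + c + 5))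
      (16 * (2 * 16) + 2 + 4 * (2 * 16) * dgT (j + 1) +
        4 * (1 + (2 * 16) * dgT (j + 1)) * (2 * (2 * 16) * dgT (j + 1)))
    refine ⟨s1 + s2 + s3 + s4 + cS (dgT j) + 256 * dgT (j + 1) + 10, fun s hs => ?_⟩
    obtain ⟨V, E, iV, iE, dV, dE, G, Fr, SF, v0, De, hnl, hdeg, hfree, hcV, hΓ, h256, hm, hkill⟩ :=
      h1 s (by omega)
    have hs1 : 1 ≤ s := by omega
    have hcS : cS (dgT j) ≤ s := by omega
    have hcS2 : dgT j + 10 ≤ s := by
      have : 3 * (dgT j + 10) + 10 ≤ cS (dgT j) := by unfold cS; omega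
      omega
    obtain ⟨D, hD0, hDs, hD1, hD2⟩ := exists_D (e := N + c) hs1 (h2 s (by omega) _ le_rfl)
    have hQ0 : 0 < s := hs1
    have hkill' := step_T Fr v0 SF (e := N + c) (c := c) De hnl hdeg hkill hN le_rfl hcS
      (hcV.trans (h3 s (by omega)).le) hΓ (le_trans (Nat.pow_le_pow_right hs1 (by omega)) hm)
      hQ0 hD0 hD1
    -- the new graph
    obtain ⟨E', iE', dE', X, hXl, hXd, hXe, hXc⟩ := exists_expander (HV (TV V s) (TE V E s) D)
    have hcV' : Fintype.card (HV (TV V s) (TE V E s) D) ≤ s ^ ((j + 2) * N + (a + c + 5)) := by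
      refine (blow_card_le hdeg hcS2 hDs hD2).trans ((Nat.mul_le_mul_right _ hcV).trans ?_)
      rw [← pow_add]
      exact Nat.pow_le_pow_right hs1 (le_of_eq (by ring))
    have hcV'' := le_blow_card (V := V) (E := E) s D
    have hdeg' : (addG ((G.tall s).blow D) X).Deg (dgT (j + 1)) :=
      deg_add (deg_blow (G.tall s) (noLoop_tall G hnl) (by omega) (deg_tall G hdeg)) hXd
    have h256' : 256 * dgT (j + 1) * (Fr.m / 2) ≤ Fintype.card (HV (TV V s) (TE V E s) D) := by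
      refine le_trans ?_ hcV''
      calc 256 * dgT (j + 1) * (Fr.m / 2) ≤ s * Fr.m :=
            Nat.mul_le_mul (by omega) (Nat.div_le_self _ _)
        _ ≤ s * (256 * dgT j * Fr.m) := by
            refine Nat.mul_le_mul_left _ (Nat.le_mul_of_pos_left _ ?_)
            have : 16 ≤ dgT j := by
              cases j with
              | zero => exact le_rfl
              | succ j => unfold dgT; omega
            omega
        _ ≤ s * Fintype.card V := Nat.mul_le_mul_left _ h256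
        _ = Fintype.card V * s := mul_comm _ _
    obtain ⟨Cl⟩ := exists_clo (m := Fr.m / 2) (addG ((G.tall s).blow D) X) hdeg' (H := 16)
      (by norm_num) (by unfold dgT; omega) (expd_add hXe) (by
        refine le_trans (le_of_eq ?_) h256'
        ring)
    obtain ⟨De'⟩ := detour_of_clo (Q := s) hdeg' Cl (by
      have h5 := Kd_le (2 * 16) (dgT (j + 1)) (Fintype.card (HV (TV V s) (TE V E s) D))
      have h6 := h4 s (by omega) _ hcV'
      omega)
    refine ⟨HV (TV V s) (TE V E s) D, Xt (TE V E s) D ⊕ E', inferInstance, inferInstance,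
      inferInstance, inferInstance, addG ((G.tall s).blow D) X,
      frameAdd (Fr.blow s D hQ0 hD0) X, sframeAdd _ (sframeBlow SF hQ0 hD0) X, HV.cen (v0, 0) 0,
      De', noLoop_add (noLoop_blow _ hD0 (noLoop_tall G hnl)) hXl, hdeg', ?_, hcV', ?_, h256',
      ?_, kills_addT _ _ X hkill'⟩
    · exact bFree_cen Fr s D 0 (by simpa [Unc] using hfree)
    · refine le_trans (Nat.add_le_add_right ?_ 1) hΓ
      exact Finset.card_image_le.trans Finset.card_image_le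
    · show s ^ (N + g) ≤ Fr.m / 2
      rw [Nat.le_div_iff_mul_le (by norm_num)]
      refine le_trans ?_ hm
      calc s ^ (N + g) * 2 ≤ s ^ (N + g) * s := Nat.mul_le_mul_left _ (by omega)
        _ = s ^ (N + g + 1) := (pow_succ _ _).symm
        _ ≤ _ := Nat.pow_le_pow_right hs1 (by omega)

end FrT
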